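import Pool.Agent.Lib.MP_13b5a2_al.Free

/-! Tensoring with a matrix representation in coordinates. -/

universe u

namespace Pool.Agent.Lib.MP_13b5a2_al

open TensorProduct Module

variable {k : Type u} [Field k] {G : Type} {ι : Type} [Fintype ι] [DecidableEq ι]

namespace Obj

section Monoid

variable [Monoid G]

/-- Tensor product with a matrix representation, in coordinates. -/
def twRep (μ : G →* Matrix ι ι k) (X : Obj k G) : Representation k G (ι → X.V) where
  toFun g := LinearMap.pi fun a => ∑ b, μ g a b • (X.ρ g ∘ₗ LinearMap.proj b)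
  map_one' := by
    refine LinearMap.ext fun φ => funext fun a => ?_
    simp [LinearMap.sum_apply, Matrix.one_apply]
  map_mul' g h := by
    refine LinearMap.ext fun φ => funext fun a => ?_
    simp only [map_mul, LinearMap.pi_apply, LinearMap.sum_apply, LinearMap.smul_apply,
      LinearMap.comp_apply, LinearMap.proj_apply, Module.End.mul_apply, Matrix.mul_apply,
      Finset.sum_smul, map_sum, map_smul, Finset.smul_sum, smul_smul]
    exact Finset.sum_comm

/-- Tensor product with a matrix representation, in coordinates. -/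
abbrev tw (μ : G →* Matrix ι ι k) (X : Obj k G) : Obj k G := ⟨ι → X.V, twRep μ X⟩

lemma twRep_apply (μ : G →* Matrix ι ι k) (X : Obj k G) (g : G) (φ : ι → X.V) (a : ι) :
    twRep μ X g φ a = ∑ b, μ g a b • X.ρ g (φ b) := by
  simp [twRep, LinearMap.sum_apply]

lemma twRep_single (μ : G →* Matrix ι ι k) (X : Obj k G) (g : G) (b : ι) (v : X.V) :
    twRep μ X g (Pi.single b v) = ∑ a, μ g a b • Pi.single a (X.ρ g v) := by
  ext c
  rw [twRep_apply, Finset.sum_apply, Finset.sum_eq_single b, Finset.sum_eq_single c]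
  · simp
  · intro a _ h; simp [Pi.single_apply, h.symm]
  · simp
  · intro a _ h; simp [Pi.single_apply, h]
  · simp

lemma IsHom.tw (μ : G →* Matrix ι ι k) {X Y : Obj k G} {f : X.V →ₗ[k] Y.V} (hf : IsHom X Y f) :
    IsHom (tw μ X) (tw μ Y) (f.compLeft ι) := fun g φ => by
  ext a
  change f (twRep μ X g φ a) = twRep μ Y g (f ∘ φ) a
  simp [twRep_apply, hf g]

lemma tw_iso (μ : G →* Matrix ι ι k) (X : Obj k G) : Iso (X.tensor (tw μ one)) (tw μ X) := by
  refine ⟨TensorProduct.piScalarRight k k X.V ι, isHom_tensor fun g v w => ?_⟩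
  ext s
  change _ = twRep μ X g _ s
  simp [TensorProduct.piScalarRightHom_tmul, twRep_apply, Finset.sum_smul, smul_smul]

lemma cl_tw (μ : G →* Matrix ι ι k) (X : Obj k G) : (tw μ X).cl = (tw μ one).cl * X.cl := by
  rw [mul_comm]; exact (tw_iso μ X).cl_eq.symm

lemma dim_tw (μ : G →* Matrix ι ι k) (X : Obj k G) : (tw μ X).dim = Fintype.card ι * X.dim := by
  simp [dim, Module.finrank_pi_fintype]

/-- Finite powers. -/
abbrev pw (J : Type) [Finite J] (X : Obj k G) : Obj k G :=
  ⟨J → X.V, { toFun := fun g => (X.ρ g).compLeft J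
              map_one' := by ext; simp
              map_mul' := fun _ _ => by ext; simp }⟩

lemma cl_pw (J : Type) [Finite J] (X : Obj k G) : (pw J X).cl = (Nat.card J : Cl k G) * X.cl := by
  classical
  have := Fintype.ofFinite J
  have h : Iso (X.tensor (triv (J → k))) (pw J X) := by
    refine ⟨TensorProduct.piScalarRight k k X.V J, isHom_tensor fun g v w => ?_⟩
    ext s
    simp [TensorProduct.piScalarRightHom_tmul]
  rw [← h.cl_eq, Cl.cl_tensor, cl_triv (Nat.card J) _ (by simp), mul_comm]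

lemma exists_tw (X : Obj k G) :
    ∃ μ : G →* Matrix (Fin (finrank k X.V)) (Fin (finrank k X.V)) k, X.cl = (tw μ one).cl := by
  let b := Module.finBasis k X.V
  refine ⟨(LinearMap.toMatrixAlgEquiv b).toMonoidHom.comp X.ρ,
    Iso.cl_eq ⟨b.equivFun, fun g v => ?_⟩⟩
  ext a
  change _ = twRep _ one g _ a
  rw [twRep_apply]
  have := congrFun (LinearMap.toMatrix_mulVec_repr b b (X.ρ g) v) a
  rw [LinearEquiv.coe_coe, Basis.equivFun_apply, ← this]
  simp only [Matrix.mulVec, dotProduct, Representation.trivial_apply, smul_eq_mul,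
    Basis.equivFun_apply]
  rfl

lemma cl_sub_sup (X : Obj k G) (U W : Submodule k X.V) (hU) (hW) (hUW) (h : Disjoint U W) :
    (X.sub (U ⊔ W) hUW).cl = (X.sub U hU).cl + (X.sub W hW).cl := by
  refine (Iso.cl_eq (X := (X.sub U hU).sum (X.sub W hW)) (iso_of_bijective
    (f := (Submodule.inclusion le_sup_left).coprod (Submodule.inclusion le_sup_right))
    (fun g v => Subtype.ext ?_) ⟨?_, ?_⟩)).symm
  · change X.ρ g v.1.1 + X.ρ g v.2.1 = X.ρ g (v.1.1 + v.2.1)
    rw [map_add]
  · rw [injective_iff_map_eq_zero]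
    rintro ⟨⟨a, ha⟩, ⟨b, hb⟩⟩ h0
    have h1 : a + b = 0 := congrArg Subtype.val h0
    have h2 : a = 0 := Submodule.disjoint_def.1 h a ha
      (by rw [eq_neg_of_add_eq_zero_left h1]; exact W.neg_mem hb)
    subst h2
    rw [zero_add] at h1
    subst h1
    rfl
  · rintro ⟨v, hv⟩
    obtain ⟨a, ha, b, hb, rfl⟩ := Submodule.mem_sup.1 hv
    exact ⟨(⟨a, ha⟩, ⟨b, hb⟩), rfl⟩

lemma cl_sub_top (X : Obj k G) (U : Submodule k X.V) (hU) (h : U = ⊤) : (X.sub U hU).cl = X.cl :=
  (iso_of_bijective (isHom_subtype X U hU) ⟨Subtype.val_injective, fun v =>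
    ⟨⟨v, h ▸ Submodule.mem_top⟩, rfl⟩⟩).cl_eq

lemma cl_sub_bot (X : Obj k G) (U : Submodule k X.V) (hU) (h : U = ⊥) : (X.sub U hU).cl = 0 := by
  subst h
  exact (iso_zero_of_subsingleton _).cl_eq

lemma cl_eq_sum {α : Type*} (X : Obj k G) (U : α → Submodule k X.V)
    (hU : ∀ a g v, v ∈ U a → X.ρ g v ∈ U a) (hi : iSupIndep U)
    (S : Finset α) (hS : ⨆ a ∈ S, U a = ⊤) : X.cl = ∑ a ∈ S, (X.sub (U a) (hU a)).cl := by
  classical
  have inv : ∀ S : Finset α, ∀ g v, v ∈ ⨆ a ∈ S, U a → X.ρ g v ∈ ⨆ a ∈ S, U a := by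
    intro S g v hv
    have : (⨆ a ∈ S, U a) ≤ (⨆ a ∈ S, U a).comap (X.ρ g) :=
      iSup₂_le fun a ha v hv => (le_iSup₂ (f := fun a (_ : a ∈ S) => U a) a ha) (hU a g v hv)
    exact this hv
  rw [← cl_sub_top X _ (inv S) hS]
  clear hS
  induction S using Finset.induction_on with
  | empty => rw [cl_sub_bot _ _ _ (by simp), Finset.sum_empty]
  | insert a S ha ih =>
    have e : (⨆ b ∈ insert a S, U b) = U a ⊔ ⨆ b ∈ S, U b := Finset.iSup_insert _ _ _
    have e2 : ∀ (A B : Submodule k X.V) (hA) (hB), A = B →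
        (X.sub A hA).cl = (X.sub B hB).cl := by
      intro A B hA hB h
      subst h
      rfl
    have hinv : ∀ g v, v ∈ U a ⊔ ⨆ b ∈ S, U b → X.ρ g v ∈ U a ⊔ ⨆ b ∈ S, U b := by
      rw [← e]; exact inv _
    rw [Finset.sum_insert ha, ← ih, ← cl_sub_sup X (U a) (⨆ b ∈ S, U b) _ _ hinv
      (hi.disjoint_biSup (y := (S : Set α)) (by exact_mod_cast ha))]
    exact e2 _ _ _ _ e

/-- Two injective maps with the same range. -/
lemma exists_equiv_of_range {P Q W : Type*} [AddCommGroup P] [Module k P] [AddCommGroup Q]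
    [Module k Q] [AddCommGroup W] [Module k W] (i : P →ₗ[k] W) (j : Q →ₗ[k] W)
    (hi : Function.Injective i) (hj : Function.Injective j)
    (h : LinearMap.range i = LinearMap.range j) : ∃ e : P ≃ₗ[k] Q, ∀ v, j (e v) = i v :=
  ⟨(LinearEquiv.ofInjective i hi).trans ((LinearEquiv.ofEq _ _ h).trans
    (LinearEquiv.ofInjective j hj).symm), fun v => by
    simp only [LinearEquiv.trans_apply]
    exact congrArg Subtype.val ((LinearEquiv.ofInjective j hj).apply_symm_apply _)⟩

end Monoid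

lemma tw_dual [Group G] (μ μ' : G →* Matrix ι ι k) (h : ∀ g, μ' g = (μ g⁻¹).transpose) :
    (tw μ' one).cl = Cl.dual (tw μ one).cl := by
  refine Iso.cl_eq ⟨dotProductEquiv k ι, fun g φ => ?_⟩
  refine LinearMap.ext fun ψ => ?_
  change twRep μ' one g φ ⬝ᵥ ψ = φ ⬝ᵥ twRep μ one g⁻¹ ψ
  simp only [dotProduct, twRep_apply, h, Matrix.transpose_apply, Representation.trivial_apply,
    smul_eq_mul, Finset.sum_mul, Finset.mul_sum]
  rw [Finset.sum_comm]
  exact Finset.sum_congr rfl fun _ _ => Finset.sum_congr rfl fun _ _ => by ring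

end Obj

end Pool.Agent.Lib.MP_13b5a2_al
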