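import Pool.Agent.Lib.MP_13b5a2_al.Loc1
import Pool.Agent.Lib.MP_13b5a2_al.Tw

/-! Extension of scalars. -/

universe u

namespace Pool.Agent.Lib.MP_13b5a2_al

open Module LinearMap TensorProduct

section rank

variable {R K V W : Type*} [CommRing R] [IsDomain R] [Field K] [Algebra R K] [AddCommGroup V]
  [Module R V] [AddCommGroup W] [Module K W] (i : V →+ W)

lemma span_compLeft (hs : Submodule.span K (Set.range i) = ⊤) (J : Type*) [Finite J] :
    Submodule.span K (Set.range (i.compLeft J)) = ⊤ := by
  classical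
  have := Fintype.ofFinite J
  refine eq_top_iff.2 fun w _ => ?_
  rw [← Finset.univ_sum_single w]
  refine Submodule.sum_mem _ fun j _ => ?_
  have : w j ∈ (Submodule.span K (Set.range (i.compLeft J))).comap (single K (fun _ => W) j) := by
    refine (Submodule.span_le.2 ?_ : Submodule.span K (Set.range i) ≤ _) (hs ▸ trivial)
    rintro _ ⟨v, rfl⟩
    exact Submodule.subset_span ⟨Pi.single j v, funext fun l => by
      by_cases e : l = j <;> simp [e]⟩
  exact this

variable [IsNoetherian R V] [FiniteDimensional K W] (hinj : Function.Injective (algebraMap R K))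
  (hi : ∀ (r : R) v, i (r • v) = algebraMap R K r • i v) (hs : Submodule.span K (Set.range i) = ⊤)
include hinj hi hs

lemma finrank_range_bc {A : End R V} {A' : End K W} (hA : ∀ v, i (A v) = A' (i v)) :
    finrank K (range A') ≤ finrank R (range A) := by
  obtain ⟨κ, a, -, h1, h2⟩ := exists_linearIndependent' K (fun v => i (A v))
  have := h2.finite
  have := Fintype.ofFinite κ
  have h3 : range A' = Submodule.span K (Set.range fun v => i (A v)) := by
    rw [range_eq_map, ← hs, Submodule.map_span, ← Set.range_comp]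
    exact congrArg _ (congrArg _ (funext fun v => (hA v).symm))
  rw [h3, ← h1, finrank_span_eq_card h2]
  refine LinearIndependent.fintype_card_le_finrank (b := fun j => (⟨A (a j), _, rfl⟩ : range A))
    (Fintype.linearIndependent_iff.2 fun c hc j => hinj ?_)
  rw [map_zero]
  refine Fintype.linearIndependent_iff.1 h2 (fun j => algebraMap R K (c j)) ?_ j
  simpa [hi] using congrArg (fun x : range A => i x) hc

lemma rel_le_bc (hd : finrank R V = finrank K W) {A B : End R V} {A' B' : End K W}
    (hA : ∀ v, i (A v) = A' (i v)) (hB : ∀ v, i (B v) = B' (i v)) (h : ∀ v, A (B v) = 0) :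
    rel (ker A) (range B) ≤ rel (ker A') (range B') := by
  have h1 := rel_ker_range (θ := A') (η := B') (LinearMap.ext_on_range hs fun v => by
    rw [End.mul_apply, ← hB, ← hA, h, map_zero, LinearMap.zero_apply])
  have h2 := rel_add (ker A) (range B)
  rw [inf_eq_right.2 (range_le_ker_iff.2 (LinearMap.ext h))] at h2
  have h3 := finrank_range_add_ker A
  have h4 := finrank_range_bc i hinj hi hs hA
  have h5 := finrank_range_bc i hinj hi hs hB
  omega

end rank

variable {k : Type u} (K : Type u) [Field k] [Field K] [Algebra k K] {G : Type} [Group G]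

/-- Extension of scalars of a representation. -/
noncomputable abbrev Obj.bc (X : Obj k G) : Obj K G :=
  ⟨K ⊗[k] X.V, (End.baseChangeHom k K X.V).toRingHom.toMonoidHom.comp X.ρ⟩

variable {K} in
lemma isHom_bc {X : Obj k G} {Y : Obj K G} {f : (X.bc K).V →ₗ[K] Y.V}
    (h : ∀ g c v, f (c ⊗ₜ X.ρ g v) = Y.ρ g (f (c ⊗ₜ v))) : Obj.IsHom (X.bc K) Y f := by
  intro g t
  induction t using TensorProduct.induction_on with
  | zero => simp
  | tmul c v => exact h g c v
  | add a b ha hb => simp only [map_add, ha, hb]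

/-- Extension of scalars on classes. -/
noncomputable def Cl.bc : Cl k G →+* Cl K G where
  toFun := Cl.lift (fun X => (X.bc K).cl) fun _ _ ⟨e, he⟩ => Obj.Iso.cl_eq
    ⟨e.baseChange k K _ _, isHom_bc fun g c v => congrArg (c ⊗ₜ[k] ·) (he g v)⟩
  map_one' := Obj.Iso.cl_eq ⟨AlgebraTensorModule.rid k K K, isHom_bc fun _ _ _ => rfl⟩
  map_zero' := (Obj.iso_zero_of_subsingleton _).cl_eq
  map_mul' a b := by
    induction a using Cl.ind with | h X => ?_
    induction b using Cl.ind with | h Y => ?_
    refine Obj.Iso.cl_eq (Y := (X.bc K).tensor (Y.bc K))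
      ⟨AlgebraTensorModule.distribBaseChange k K X.V Y.V, isHom_bc fun g c t => ?_⟩
    induction t using TensorProduct.induction_on with
    | zero => simp
    | tmul v w => rfl
    | add a b ha hb => simp only [map_add, tmul_add, ha, hb]
  map_add' a b := by
    induction a using Cl.ind with | h X => ?_
    induction b using Cl.ind with | h Y => ?_
    exact Obj.Iso.cl_eq (Y := (X.bc K).sum (Y.bc K))
      ⟨TensorProduct.prodRight k K K X.V Y.V, isHom_bc fun _ _ _ => rfl⟩

lemma dim_bc (a : Cl k G) : Cl.dim (Cl.bc K a) = Cl.dim a := by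
  induction a using Cl.ind with | h X => ?_
  exact finrank_baseChange

lemma bc_reg [Finite G] : Cl.bc K (Obj.reg : Obj k G).cl = Obj.reg.cl := by
  classical
  have := Fintype.ofFinite G
  exact Obj.Iso.cl_eq ⟨TensorProduct.piScalarRight k K K G, isHom_bc fun _ _ _ => by
    ext; simp⟩

/-- Extension of scalars of a matrix representation. -/
def mapMat {ι : Type} [Fintype ι] [DecidableEq ι] (μ : G →* Matrix ι ι k) : G →* Matrix ι ι K :=
  (algebraMap k K).mapMatrix.toMonoidHom.comp μ

lemma bc_tw {ι : Type} [Fintype ι] [DecidableEq ι] (μ : G →* Matrix ι ι k) :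
    Cl.bc K (Obj.tw μ Obj.one).cl = (Obj.tw (mapMat K μ) Obj.one).cl :=
  Obj.Iso.cl_eq ⟨TensorProduct.piScalarRight k K K ι, isHom_bc fun g c v => by
    ext a
    change _ = Obj.twRep _ _ g _ a
    simp [Obj.twRep_apply, mapMat, Finset.sum_smul, Algebra.smul_def, mul_assoc, Finset.sum_mul]⟩

lemma nuA_bc_le {r p : ℕ} [Fact p.Prime] [CharP k p] [CharP K p] {α : Fin r → K} {i : Fin r}
    (hi : α i ≠ 0) (x : Cl k (EA r p)) : nuA p (th p α) (Cl.bc K x) ≤ 2 * kap x := by
  obtain ⟨b, c, hb, -, hd⟩ := exists_core' isPGroup_ea x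
  rw [← hd, ← dim_bc K]
  conv_lhs => rw [hb, map_add, map_add, map_mul, bc_reg, Obj.reg_mul, ← nsmul_eq_mul, map_nsmul,
    nuA_reg hi, smul_zero, add_zero]
  exact nuA_le_dim (th_pow α) _

end Pool.Agent.Lib.MP_13b5a2_al
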