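import Pool.Agent.Lib.MP_13b5a2_al.Bound0

/-! The generic rank is bounded by the local invariant. -/

universe u

namespace Pool.Agent.Lib.MP_13b5a2_al

open Module LinearMap Cx

variable {K : Type u} [Field K] {r p : ℕ} [Fact p.Prime] [CharP K p]

/-- The diagonal embedding. -/
abbrev diag (G : Type) [Group G] : G →* G × G := (MonoidHom.id G).prod (MonoidHom.id G)

lemma sys_fock {A R W : Type*} [CommRing A] [CommRing R] [AddCommGroup W] [Module R W]
    (φ : A →+* End R W) : Sys (cL.comp φ) (fX R W (I := Fin r)) (fI R W) :=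
  ⟨fun j a => cX (φ a) j, fun j a => cI (φ a) j, fock_pair, fun _ _ => fock_xx,
    fun _ _ => fock_xi, fun _ _ => fock_ii⟩

lemma rel_le_nu (O : Obj K (EA r p × EA r p)) {ξ ι : Fin r → End K O.V}
    (S : Sys O.ρ.asAlgebraHom.toRingHom ξ ι)
    {α : Fin r → K} {i0 : Fin r} (h0 : α i0 ≠ 0) {d : End K O.V}
    (hd' : d = ∑ i, (ξ i * xs (O.ρ.comp (MonoidHom.inr _ _)) i +
      ι i * ys (fun i => α i ^ p) (O.ρ.comp (MonoidHom.inr _ _)) i)) :
    rel (ker (cL d - kF (fun i => α i ^ p) (O.ρ.comp (diag _))))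
      (range (cL d + kF (fun i => α i ^ p) (O.ρ.comp (diag _)))) ≤ 2 ^ (r + r) * (2 * ((16 * p) ^ r *
        (Fintype.card (JJ r) * nuA p (th p α) (Cl.res (MonoidHom.inl _ _) O.cl)))) := by
  let φ₀ := O.ρ.asAlgebraHom
  let x : Fin r → MonoidAlgebra K (EA r p × EA r p) := fun i => xg K (1, gen p i)
  let y : Fin r → MonoidAlgebra K (EA r p × EA r p) := fun i => xg K (gen p i, 1)
  let z : Fin r → MonoidAlgebra K (EA r p × EA r p) := fun i => xg K (gen p i, gen p i)
  have hx : ∀ i, x i ^ p = 0 := fun i => xg_pow (by simp [ea_pow])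
  have hy : ∀ i, y i ^ p = 0 := fun i => xg_pow (by simp [ea_pow])
  have hz : ∀ i, z i ^ p = 0 := fun i => xg_pow (by simp [ea_pow])
  have e1 : ∀ i, φ₀ (x i) = xs (O.ρ.comp (MonoidHom.inr _ _)) i := fun i => rho_xg _ _
  have e2 : ∀ i, φ₀ (z i) = xs (O.ρ.comp (diag _)) i := fun i => rho_xg _ _
  have e3 : ∀ i a, φ₀ (algebraMap K _ (α i) ^ p * a ^ (p - 1)) = α i ^ p • φ₀ a ^ (p - 1) :=
    fun i a => by rw [← map_pow, ← Algebra.smul_def, map_smul, map_pow]
  have h := rel_double (p := p) (S.map (cL (r := r))) (sys_fock (r := r) φ₀.toRingHom).symm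
    (fun i j => cI (ξ i) j) (fun i j => cX (ξ i) j) (fun i j => cI (ι i) j)
    (fun i j => cX (ι i) j) (fun i => algebraMap K _ (α i)) x (fun i => algebraMap K _ (α i)) z hx hz
    i0 (algebraMap K _ (α i0)⁻¹) (by rw [← map_mul, mul_inv_cancel₀ h0, map_one]) (d := cL d)
    (d' := kF (fun i => α i ^ p) (O.ρ.comp (diag _)))
    (by
      rw [hd', map_sum]
      refine Finset.sum_congr rfl fun i _ => ?_
      rw [ys, ← e1, ← e3, map_add, map_mul cL, map_mul cL]
      rfl)
    (by
      rw [kF, dG]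
      refine Finset.sum_congr rfl fun i _ => ?_
      rw [ys, ← e2, ← e3, add_comm]
      rfl)
  have e6 : ∑ i, algebraMap K _ (α i) * x i - ∑ i, algebraMap K _ (α i) * z i =
      -∑ i, α i • y i + ∑ i, (-α i • y i) * x i := by
    rw [← Finset.sum_neg_distrib, ← Finset.sum_add_distrib, ← Finset.sum_sub_distrib]
    refine Finset.sum_congr rfl fun i _ => ?_
    have : MonoidAlgebra.of K _ (gen p i, gen p i) =
        MonoidAlgebra.of K _ (gen p i, 1) * MonoidAlgebra.of K _ (1, gen p i) := by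
      rw [← map_mul]; simp
    simp only [x, y, z, xg, this, Algebra.smul_def, map_neg]
    ring
  rw [e6, Fintype.card_fin] at h
  refine h.trans (Nat.mul_le_mul_left _ (Nat.mul_le_mul_left _ ((nu_add_sum_le _ _
      (by rw [neg_pow, sum_smul_pow _ _ hy, mul_zero])
      (fun i => by rw [smul_pow, hy, smul_zero]) hx).trans (le_of_eq ?_))))
  rw [map_neg, nu_neg, Finset.card_univ, Fintype.card_fin]
  refine congrArg _ ((nu_compLeft p _ _).trans (congrArg _ (congrArg _ ?_)))
  change φ₀ _ = (O.res (MonoidHom.inl _ _)).ρ.asAlgebraHom _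
  simp only [φ₀, y, th, map_sum, map_smul, rho_xg]
  rfl

end Pool.Agent.Lib.MP_13b5a2_al
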