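import Pool.Agent.Lib.MP_13b5a2_al.TT

/-! Towers of mapping cones killing the generic homology. -/

universe u

namespace Pool.Agent.Lib.MP_13b5a2_al

open Module Filter

namespace Cx

variable {k R : Type u} [Field k] [CommRing R] [Algebra k R] [IsDomain R]
  [IsNoetherianRing R] {r p : ℕ} [Fact p.Prime] [CharP k p] {Γ : Gr k R r}
  {C D D' : Cx (EA r p) Γ}

/-- Relative cocycles. -/
def bU (j : C.V →ₗ[R] D.V) : Submodule k D.V := ((LinearMap.range j).comap D.d).restrictScalars k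

omit [IsDomain R] [IsNoetherianRing R] [CharP k p] in
lemma inv_bU {j : C.V →ₗ[R] D.V} (h : IsMor C D 0 j) : D.Inv (bU j) := by
  rintro a v ⟨c, hc⟩
  exact ⟨C.ρ a c, by rw [h.ρ, hc, D.ρd]⟩

/-- The generic rank of maps up to homotopy. -/
noncomputable def nn (D : Cx (EA r p) Γ) : ℕ := rel (LinearMap.ker D.δm) (LinearMap.range D.δp)

/-- Controlled extensions. -/
structure Good (𝒮 : Glob k (EA r p)) (σ : ℝ) (j : C.V →ₗ[R] D.V) (x y : ℕ) : Prop where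
  mor : IsMor C D 0 j
  inj : Function.Injective j
  bd : ∀ᶠ t in atTop, 𝒮.S (D.ob t (bU j) (inv_bU mor)).cl ≤ x * σ
  ex : ∀ᶠ t in atTop, ∀ c, D.g.π t c = c → D.d c ∈ LinearMap.range j → ∃ c0 w, c = j c0 + D.d w
  nn : nn D ≤ y

variable {𝒮 : Glob k (EA r p)} {σ : ℝ} {j : C.V →ₗ[R] D.V} {x y : ℕ}

omit [IsNoetherianRing R] [CharP k p] in
lemma Good.mono (h0 : 0 ≤ σ) (h : Good 𝒮 σ j x y) {x' y' : ℕ} (hx : x ≤ x') (hy : y ≤ y') :
    Good 𝒮 σ j x' y' :=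
  ⟨h.mor, h.inj, h.bd.mono fun _ e => e.trans (by gcongr), h.ex, h.nn.trans hy⟩

lemma shift_ev {P : ℤ → Prop} (h : ∀ᶠ t in atTop, P t) (m : ℤ) : ∀ᶠ t in atTop, P (t + m) :=
  (tendsto_atTop_add_const_right _ m tendsto_id).eventually h

section

variable {T : Cx (EA r p) Γ} {e : ℤ} {f : T.V →ₗ[R] D.V} (hf : IsMor T D e f)

omit [IsDomain R] [IsNoetherianRing R] [CharP k p] in
lemma cone_δ (F : JJ r → D.V × T.V) (s : JJ r) :
    (cone hf).δp F s = (D.δp (Prod.fst ∘ F) s + f (F s).2, -T.δm (Prod.snd ∘ F) s) ∧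
    (cone hf).δm F s = (D.δm (Prod.fst ∘ F) s + f (F s).2, -T.δp (Prod.snd ∘ F) s) := by
  have h1 := congrFun (kF_nat (ρ := (cone hf).ρ) (ρ' := D.ρ) (η := Γ.η) (η' := Γ.η)
    (LinearMap.fst R D.V T.V) (fun _ _ => rfl) (fun _ _ => rfl) F) s
  have h2 := congrFun (kF_nat (ρ := (cone hf).ρ) (ρ' := T.ρ) (η := Γ.η) (η' := Γ.η)
    (LinearMap.snd R D.V T.V) (fun _ _ => rfl) (fun _ _ => rfl) F) s
  refine ⟨Prod.ext ?_ ?_, Prod.ext ?_ ?_⟩
  · exact (congrArg (D.d (F s).1 + f (F s).2 + ·) h1).trans (add_right_comm _ _ _)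
  · exact (congrArg (-T.d (F s).2 + ·) h2).trans ((neg_sub _ _).trans (sub_eq_neg_add _ _)).symm
  · exact (congrArg (D.d (F s).1 + f (F s).2 - ·) h1).trans (add_sub_right_comm _ _ _)
  · exact (congrArg (-T.d (F s).2 - ·) h2).trans (neg_add' _ _).symm

omit [IsNoetherianRing R] in
lemma nn_cone : nn (cone hf) ≤ nn D + finrank R (JJ r → T.V) := by
  refine (rel_master ((LinearMap.snd R D.V T.V).compLeft (JJ r)) (A' := ⊤)
    (B' := LinearMap.range T.δm) (K := (LinearMap.ker D.δm).map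
      ((LinearMap.inl R D.V T.V).compLeft (JJ r))) (fun _ _ => trivial) ?_).trans ?_
  · rintro F hF ⟨z, hz⟩
    have e1 : ∀ s, (cone hf).δp (fun s => (0, z s)) s = (f (z s), -(F s).2) := fun s => by
      rw [(cone_δ hf _ s).1]
      exact Prod.ext (by change D.δp 0 s + _ = _; simp) (congrArg Neg.neg (congrFun hz s))
    have e2 : F + (cone hf).δp (fun s => (0, z s)) =
        LinearMap.inl R D.V T.V ∘ fun s => (F s).1 + f (z s) := funext fun s => by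
      rw [Pi.add_apply, e1]; exact Prod.ext rfl (add_neg_cancel _)
    rw [← add_sub_cancel_right F ((cone hf).δp fun s => (0, z s)), sub_eq_add_neg]
    refine Submodule.add_mem_sup ⟨fun s => (F s).1 + f (z s), funext fun s => ?_, e2.symm⟩
      (neg_mem ⟨_, rfl⟩)
    have := (isMor_inl hf).δm fun s => (F s).1 + f (z s)
    rw [← e2, map_add, δm_δp, show (cone hf).δm F = 0 from hF, add_zero] at this
    exact congrArg Prod.fst (congrFun this s)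
  · rw [add_comm]
    refine add_le_add (rel_map_le _ _ ?_) ((rel_le_finrank _ _).trans (finrank_top _ _).le)
    rintro _ ⟨φ, rfl⟩
    exact ⟨_, ((isMor_inl hf).δp φ).symm⟩

lemma Good.cone (h : Good 𝒮 σ j x y) (h1 : ∀ᶠ t in atTop, T.Ex t)
    (h2 : ∀ᶠ t in atTop, 𝒮.S (T.Z t).cl ≤ σ) : Good 𝒮 σ (D := cone hf)
      (LinearMap.inl R D.V T.V ∘ₗ j) (x + 1) (y + finrank R (JJ r → T.V)) := by
  have hm : ∀ v : D.V × T.V, (Cx.cone hf).d v ∈ LinearMap.range (LinearMap.inl R D.V T.V ∘ₗ j) ↔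
      D.d v.1 + f v.2 ∈ LinearMap.range j ∧ T.d v.2 = 0 := fun v =>
    ⟨fun ⟨c, e⟩ => ⟨⟨c, congrArg Prod.fst e⟩, neg_eq_zero.1 (congrArg Prod.snd e).symm⟩,
      fun ⟨⟨c, e⟩, e'⟩ => ⟨c, Prod.ext e (neg_eq_zero.2 e').symm⟩⟩
  refine ⟨h.mor.comp (isMor_inl hf), LinearMap.inl_injective.comp h.inj, ?_, ?_,
    (nn_cone hf).trans (Nat.add_le_add_right h.nn _)⟩
  · filter_upwards [h.bd, shift_ev h.ex 1, shift_ev h2 (1 - e)] with t e1 e2 e3
    refine (𝒮.mid (ses_ob (C := D) (C' := Cx.cone hf) (C'' := T) (t := t) (U := bU j)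
      (hU := inv_bU h.mor) (t'' := t + (1 - e)) (hU'' := T.inv_kd) (LinearMap.inl k _ _)
      (LinearMap.snd k _ _) (isMor_inl hf).ρ (fun _ _ => rfl)
      (fun v hv => ⟨congrArg Prod.snd hv.1, ((hm v).1 hv.2).2⟩) LinearMap.inl_injective
      (fun w => ⟨fun hw => ⟨w.1, ⟨congrArg Prod.fst hw.1.1, ?a⟩, Prod.ext rfl hw.2.symm⟩, ?b⟩)
      fun z hz => ?c)).trans (by push_cast; linarith)
    case a =>
      have := ((hm w).1 hw.1.2).1
      rwa [show w.2 = 0 from hw.2, map_zero, add_zero] at this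
    case b =>
      rintro ⟨v, hv, rfl⟩
      exact ⟨⟨Prod.ext hv.1 (map_zero (T.g.π _)), (hm _).2 ⟨by simpa [bU] using hv.2, by simp⟩⟩, rfl⟩
    case c =>
      have e4 : D.g.π (t + 1) (f z) = f z := by
        rw [show t + 1 = t + (1 - e) + e by ring, hf.π, hz.1]; rfl
      obtain ⟨c, w, e5⟩ := e2 (f z) e4 ⟨0, by rw [← hf.d, show T.d z = 0 from hz.2]; simp⟩
      refine ⟨(-D.g.π t w, z), ⟨Prod.ext ?_ hz.1, (hm _).2 ⟨⟨C.g.π (t + 1) c, ?_⟩, hz.2⟩⟩, rfl⟩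
      · exact (map_neg (D.g.π t) _).trans (congrArg _ (D.g.idem _ _))
      · rw [← e4, e5, map_neg, map_add, D.πd, h.mor.π0]; abel
  · filter_upwards [h.ex, shift_ev h1 (-e)] with t e1 e2 c e3 e4
    obtain ⟨e5, e6⟩ := (hm c).1 e4
    obtain ⟨z, e7, e8⟩ := e2 c.2 (by
      rw [show t + -e + 1 = t + (1 - e) by ring]; exact congrArg Prod.snd e3) e6
    obtain ⟨c0, w, e9⟩ := e1 (c.1 + f z) (by
      rw [map_add, show D.g.π t c.1 = c.1 from congrArg Prod.fst e3]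
      nth_rewrite 1 [← neg_add_cancel_right t e]
      rw [hf.π, e7]) (by rwa [map_add, ← hf.d, e8])
    refine ⟨c0, (w, -z), Prod.ext ?_ ?_⟩
    · change c.1 = j c0 + (D.d w + f (-z))
      rw [map_neg, ← add_assoc, ← e9]; abel
    · change c.2 = 0 + -T.d (-z)
      simp [e8]

end

variable (p Γ) in
/-- The rank of maps from the standard complex to itself. -/
noncomputable def c0 : ℕ := finrank R (JJ r → (TT p Γ).V)

lemma kill (h0 : 0 ≤ σ) (h2 : ∀ᶠ t in atTop, 𝒮.S ((TT p Γ).Z t).cl ≤ σ) (n : ℕ) :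
    ∀ {D : Cx (EA r p) Γ} {j : C.V →ₗ[R] D.V} {x y : ℕ} (A : Submodule R (JJ r → D.V)),
      Good 𝒮 σ j x y → (∀ φ ∈ A, D.δm φ = 0) → (∀ t, ∀ φ ∈ A, D.gH.π t φ ∈ A) →
      rel A (LinearMap.range D.δp) ≤ n → ∃ (D' : Cx (EA r p) Γ) (i : D.V →ₗ[R] D'.V),
        IsMor D D' 0 i ∧ Good 𝒮 σ (i ∘ₗ j) (x + n) (y + n * c0 p Γ) ∧
        ∃ f : R, f ≠ 0 ∧ ∀ φ ∈ A, f • (i ∘ φ) ∈ LinearMap.range D'.δp := by
  induction n using Nat.strong_induction_on with | h n ih => ?_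
  intro D j x y A hG hA hA' hn
  let B := LinearMap.range D.δp
  by_cases h : ∀ φ ∈ A, φ ∈ (Submodule.torsion R (_ ⧸ B)).comap B.mkQ
  · obtain ⟨f, h3, h4⟩ := Submodule.annihilator_top_inter_nonZeroDivisors (R := R)
      (M := A.map B.mkQ) fun ⟨_, φ, hφ, rfl⟩ => by
        obtain ⟨a, ha⟩ := h φ hφ
        exact ⟨a, Subtype.ext ha⟩
    refine ⟨D, LinearMap.id, IsMor.id, hG.mono h0 (by omega) (by omega), f,
      nonZeroDivisors.ne_zero h4, fun φ hφ => (Submodule.Quotient.mk_eq_zero _).1 ?_⟩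
    exact congrArg Subtype.val (Submodule.mem_annihilator.1 h3 ⟨_, φ, hφ, rfl⟩ trivial)
  push Not at h
  obtain ⟨φ, hφ, h⟩ := h
  obtain ⟨e, he⟩ := not_forall.1 fun e => h (D.gH.mem e)
  have hf := isMor_ev (hA _ (hA' e φ hφ)) (D.gH.idem e φ)
  have hi := isMor_inl hf
  have hlt := rel_map_lt ((LinearMap.inl R D.V (TT p Γ).V).compLeft (JJ r)) A (B := B)
    (B' := LinearMap.range (cone hf).δp) (by rintro _ ⟨φ, rfl⟩; exact ⟨_, (hi.δp φ).symm⟩)
    (hA' e φ hφ) ⟨fun s => (0, es p Γ s), funext fun s => ((cone_δ hf _ s).1.trans ?_)⟩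
    fun a ha => by_contra fun ha' => he ⟨⟨a, mem_nonZeroDivisors_of_ne_zero ha'⟩,
      (Submodule.Quotient.mk_eq_zero _).2 ha⟩
  · replace hlt := hlt.trans_le hn
    obtain ⟨m, rfl⟩ : ∃ m, n = m + 1 := ⟨n - 1, by omega⟩
    obtain ⟨D', i, h3, h4, f, h5, h6⟩ := ih m (by omega)
      (A.map ((LinearMap.inl R D.V (TT p Γ).V).compLeft (JJ r))) (hG.cone hf ev_ex_TT h2)
      (by rintro _ ⟨ψ, hψ, rfl⟩; exact (hi.δm ψ).symm.trans (by rw [hA ψ hψ]; rfl))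
      (by rintro t _ ⟨ψ, hψ, rfl⟩; exact ⟨_, hA' t ψ hψ, funext fun s => (hi.π0 _ _).symm⟩)
      (by omega)
    exact ⟨D', i ∘ₗ LinearMap.inl R _ _, hi.comp h3, h4.mono h0 (by omega)
      (by rw [c0, add_mul]; omega), f, h5, fun ψ hψ => h6 _ ⟨ψ, hψ, rfl⟩⟩
  · refine Prod.ext ?_ (neg_eq_zero.2 (congrFun (δm_comp_es LinearMap.id (fun _ _ => rfl)
      fun _ => rfl) s))
    change D.δp 0 s + ev _ (es p Γ s) = _
    rw [map_zero, ev_es, Pi.zero_apply, zero_add]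
    rfl

end Cx

end Pool.Agent.Lib.MP_13b5a2_al
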