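import Pool.Agent.Lib.MP_13b5a2_al.BC
import Pool.Agent.Lib.MP_13b5a2_al.Tower

/-! The generic rank is bounded by the local invariant. -/

universe u

namespace Pool.Agent.Lib.MP_13b5a2_al

open Module LinearMap Cx

section double

variable {K W : Type*} [CommRing K] [AddCommGroup W] [Module K W]

/-- Diagonal action on two copies. -/
def dg : End K W →+* End K (W × W) :=
  (prodMapRingHom K W W).comp ((RingHom.id _).prod (RingHom.id _))

/-- Exchange of two copies. -/
def sw : End K (W × W) := (snd K W W).prod (fst K W W)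

/-- Signed exchange of two copies. -/
def tw' : End K (W × W) := (snd K W W).prod (-fst K W W)

lemma dg_sw (T : End K W) : Commute (dg T) sw := rfl

lemma dg_tw (T : End K W) : Commute (dg T) tw' :=
  LinearMap.ext fun v => Prod.ext rfl (map_neg T v.1)

lemma sw_sw : (sw : End K (W × W)) * sw = 1 := rfl

lemma tw_tw : (tw' : End K (W × W)) * tw' = -1 := rfl

lemma sw_tw : Anti (sw : End K (W × W)) tw' := LinearMap.ext fun v => Prod.ext rfl (neg_neg _).symm

lemma Anti.mul' {B : Type*} [Ring B] {x y a b : B} (h : Anti a b) (h1 : Commute a y)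
    (h2 : Commute b x) (h3 : Commute x y) : Anti (x * a) (y * b) := by
  unfold Anti at *
  rw [mul_assoc, ← mul_assoc a, h1.eq, mul_assoc y, h, mul_assoc y b, ← mul_assoc b x, h2.eq,
    mul_neg, mul_neg, ← mul_assoc x, h3.eq, mul_assoc, mul_assoc]

lemma neg_neg_mul {B : Type*} [Ring B] (a b c : B) : -a * b * -c = a * b * c := by simp

lemma Pair.mul {B : Type*} [Ring B] {x y a b : B} (h : Pair a b) (h1 : Commute a x)
    (h2 : Commute b x) (h3 : Commute a y) (h4 : Commute b y) (e1 : x * y = 1) (e2 : y * x = 1) :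
    Pair (x * a) (y * b) := by
  refine ⟨?_, ?_, ?_⟩
  · rw [mul_assoc, ← mul_assoc a, h1.eq, mul_assoc x a, h.xx, mul_zero, mul_zero]
  · rw [mul_assoc, ← mul_assoc b, h4.eq, mul_assoc y b, h.ii, mul_zero, mul_zero]
  · rw [mul_assoc, ← mul_assoc b, h2.eq, mul_assoc x b, ← mul_assoc y, e2, one_mul, h.ix,
      mul_assoc x a, ← mul_assoc a, h3.eq, mul_assoc y, ← mul_assoc x, e1, one_mul]

/-- A system of anticommuting modes commuting with a commutative ring. -/
structure Sys {A B I : Type*} [CommRing A] [Ring B] (φ : A →+* B) (ξ ι : I → B) : Prop where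
  c1 : ∀ j a, Commute (φ a) (ξ j)
  c2 : ∀ j a, Commute (φ a) (ι j)
  P : ∀ j, Pair (ξ j) (ι j)
  a1 : ∀ i j, i ≠ j → Anti (ξ i) (ξ j)
  a2 : ∀ i j, i ≠ j → Anti (ξ i) (ι j)
  a3 : ∀ i j, i ≠ j → Anti (ι i) (ι j)

lemma Sys.map {A B B' I : Type*} [CommRing A] [Ring B] [Ring B'] {φ : A →+* B} {ξ ι : I → B}
    (S : Sys φ ξ ι) (f : B →+* B') : Sys (f.comp φ) (fun i => f (ξ i)) fun i => f (ι i) :=
  ⟨fun j a => (S.c1 j a).map f, fun j a => (S.c2 j a).map f, fun j => (S.P j).map f,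
    fun i j h => (S.a1 i j h).map f, fun i j h => (S.a2 i j h).map f,
    fun i j h => (S.a3 i j h).map f⟩

lemma Sys.symm {A B I : Type*} [CommRing A] [Ring B] {φ : A →+* B} {ξ ι : I → B}
    (S : Sys φ ξ ι) : Sys φ ι ξ :=
  ⟨S.c2, S.c1, fun j => (S.P j).symm, S.a3, fun i j h => (S.a2 j i h.symm).symm, S.a1⟩

lemma Sys.sum {A B B' I I' : Type*} [CommRing A] [Ring B] [Ring B'] {φ : A →+* B} {ξ ι : I → B}
    {ξ' ι' : I' → B} (S : Sys φ ξ ι) (S' : Sys φ ξ' ι') (h1 : ∀ i j, Commute (ξ i) (ξ' j))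
    (h2 : ∀ i j, Commute (ξ i) (ι' j)) (h3 : ∀ i j, Commute (ι i) (ξ' j))
    (h4 : ∀ i j, Commute (ι i) (ι' j)) (f : B →+* B') {s t : B'} (hs : ∀ b, Commute (f b) s)
    (ht : ∀ b, Commute (f b) t) (ss : s * s = 1) (tt : t * t = -1) (st : Anti s t) :
    Sys (f.comp φ) (Sum.elim (fun i => s * f (ξ i)) fun i => t * f (ξ' i))
      (Sum.elim (fun i => s * f (ι i)) fun i => -t * f (ι' i)) := by
  have hn : ∀ b, Commute (f b) (-t) := fun b => (ht b).neg_right
  have e : Anti s (-t) := by unfold Anti; rw [mul_neg, neg_mul, st]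
  refine ⟨?_, ?_, ?_, ?_, ?_, ?_⟩
  · rintro (i | i) a
    · exact (hs _).mul_right ((S.c1 i a).map f)
    · exact (ht _).mul_right ((S'.c1 i a).map f)
  · rintro (i | i) a
    · exact (hs _).mul_right ((S.c2 i a).map f)
    · exact (hn _).mul_right ((S'.c2 i a).map f)
  · rintro (i | i)
    · exact ((S.P i).map f).mul (hs _) (hs _) (hs _) (hs _) ss ss
    · exact ((S'.P i).map f).mul (ht _) (ht _) (hn _) (hn _)
        (by rw [mul_neg, tt, neg_neg]) (by rw [neg_mul, tt, neg_neg])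
  · rintro (i | i) (j | j) h
    · exact ((S.a1 i j (by simpa using h)).map f).mul' (hs _) (hs _) (Commute.refl _)
    · exact st.mul (ht _) (hs _) ((h1 _ _).map f)
    · exact st.symm.mul (hs _) (ht _) ((h1 _ _).map f).symm
    · exact ((S'.a1 i j (by simpa using h)).map f).mul' (ht _) (ht _) (Commute.refl _)
  · rintro (i | i) (j | j) h
    · exact ((S.a2 i j (by simpa using h)).map f).mul' (hs _) (hs _) (Commute.refl _)
    · exact e.mul (hn _) (hs _) ((h2 _ _).map f)
    · exact st.symm.mul (hs _) (ht _) ((h3 _ _).map f).symm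
    · exact ((S'.a2 i j (by simpa using h)).map f).mul' (hn _) (ht _) (Commute.refl _).neg_right
  · rintro (i | i) (j | j) h
    · exact ((S.a3 i j (by simpa using h)).map f).mul' (hs _) (hs _) (Commute.refl _)
    · exact e.mul (hn _) (hs _) ((h4 _ _).map f)
    · exact e.symm.mul (hs _) (hn _) ((h4 _ _).map f).symm
    · exact ((S'.a3 i j (by simpa using h)).map f).mul' (hn _) (hn _) (Commute.refl _)

end double

lemma rel_double {K W A I I' : Type*} [Field K] [AddCommGroup W] [Module K W] [IsNoetherian K W]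
    [CommRing A] {p : ℕ} [Fact p.Prime] [CharP A p] [Fintype I] [Fintype I'] {φ : A →+* End K W}
    {ξ ι : I → End K W} {ξ' ι' : I' → End K W} (S : Sys φ ξ ι) (S' : Sys φ ξ' ι')
    (h1 : ∀ i j, Commute (ξ i) (ξ' j)) (h2 : ∀ i j, Commute (ξ i) (ι' j))
    (h3 : ∀ i j, Commute (ι i) (ξ' j)) (h4 : ∀ i j, Commute (ι i) (ι' j)) (α z : I → A)
    (α' z' : I' → A) (hz : ∀ j, z j ^ p = 0) (hz' : ∀ j, z' j ^ p = 0) (i0 : I) (u : A)
    (hu : α i0 * u = 1) {d d' : End K W}
    (e : d = ∑ j, (ξ j * φ (z j) + ι j * φ (α j ^ p * z j ^ (p - 1))))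
    (e' : d' = ∑ j, (ξ' j * φ (z' j) + ι' j * φ (α' j ^ p * z' j ^ (p - 1)))) :
    rel (ker (d - d')) (range (d + d')) ≤ 2 ^ (Fintype.card I + Fintype.card I') *
      (2 * nu p (φ (∑ j, α j * z j - ∑ j, α' j * z' j))) := by
  have T := S.sum S' h1 h2 h3 h4 dg dg_sw dg_tw sw_sw tw_tw sw_tw
  have h := hd_koszul_le (p := p) (dg.comp φ) _ _ (Sum.elim α fun j => -α' j) (Sum.elim z z')
    (by
      rintro (i | i)
      · rw [mul_pow, Sum.elim_inl, Sum.elim_inl, hz, mul_zero]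
      · rw [mul_pow, Sum.elim_inr, Sum.elim_inr, hz', mul_zero])
    T.c1 T.c2 T.P T.a1 T.a2 T.a3 (Sum.inl i0) u hu
  rw [Fintype.sum_sum_type, Fintype.sum_sum_type] at h
  simp only [Sum.elim_inl, Sum.elim_inr, RingHom.comp_apply] at h
  have e4 : ∑ i, (sw * dg (ξ i) * dg (φ (z i)) + sw * dg (ι i) *
      dg (φ (α i ^ p * z i ^ (p - 1)))) = sw * dg d := by
    rw [e, map_sum, Finset.mul_sum]
    refine Finset.sum_congr rfl fun i _ => ?_
    simp only [map_add, map_mul dg, mul_add, mul_assoc]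
  have e5 : ∑ i, (tw' * dg (ξ' i) * dg (φ (z' i)) + -tw' * dg (ι' i) *
      dg (φ ((-α' i) ^ p * z' i ^ (p - 1)))) = tw' * dg d' := by
    rw [e', map_sum, Finset.mul_sum]
    refine Finset.sum_congr rfl fun i _ => ?_
    rw [neg_pow, neg_one_pow_char, neg_one_mul, neg_mul, map_neg, map_neg, map_add, map_mul dg,
      map_mul dg, mul_add, ← mul_assoc, ← mul_assoc]
    exact congrArg _ (neg_neg_mul (B := End K (W × W)) _ _ _)
  rw [e4, e5, Fintype.card_sum] at h
  refine le_trans (rel_le_of_comap (inl K _ _) (fun v hv => Prod.ext ?_ ?_) ?_)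
    (h.trans (Nat.mul_le_mul_left _ (le_of_eq ?_)))
  · exact (congrArg₂ (· + ·) (map_zero d) (map_zero d')).trans (add_zero _)
  · exact (sub_eq_add_neg _ _).symm.trans hv
  · rintro v - ⟨w, e⟩
    exact ⟨w.2, congrArg Prod.fst e⟩
  · rw [two_mul, sub_eq_add_neg, ← Finset.sum_neg_distrib]
    simp only [neg_mul]
    exact nu_prod _ _

end Pool.Agent.Lib.MP_13b5a2_al
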