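import Pool.Agent.Lib.MP_13b5a2_al.Bound

/-! The generic rank is bounded by the local invariant at the generic point. -/

universe u

namespace Pool.Agent.Lib.MP_13b5a2_al

open Module LinearMap Cx

variable {K : Type u} [Field K] {r p : ℕ} [Fact p.Prime] [CharP K p] {ι : Type} [Fintype ι]
  [DecidableEq ι]

omit [Fact p.Prime] [CharP K p] in
lemma commute_asAlg {G V : Type*} [Monoid G] [AddCommGroup V] [Module K V]
    (ρ : Representation K G V) {T : End K V} (h : ∀ g, Commute (ρ g) T) (a : MonoidAlgebra K G) :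
    Commute (ρ.asAlgebraHom a) T := by
  induction a using MonoidAlgebra.induction_on with
  | of g => simpa using h g
  | add a b ha hb => rw [map_add]; exact ha.add_left hb
  | smul c a ha => rw [map_smul]; exact ha.smul_left _

omit [Fact p.Prime] [CharP K p] in
lemma twE_comm {G : Type} {V : Type*} [Group G] [AddCommGroup V] [Module K V]
    (μ : G →* Matrix ι ι K) (ρ : G →* End K V) {T : End K V} (h : ∀ g, Commute (ρ g) T) (g : G) :
    Commute (twE μ ρ g) (compLeftHom K V ι T) := LinearMap.ext fun φ => funext fun a => by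
  change twE μ ρ g (T ∘ φ) a = T (twE μ ρ g φ a)
  rw [twE_apply, twE_apply, map_sum]
  exact Finset.sum_congr rfl fun b _ => by
    rw [map_smul]; exact congrArg _ (LinearMap.congr_fun (h g).eq _)

variable (p) in
/-- The translation action on the Fock space. -/
noncomputable abbrev trJ (K : Type u) [Field K] (r : ℕ) : EA r p →* End K (JJ r → EA r p → K) :=
  cL.toMonoidHom.comp (trH K K)

/-- The external tensor product with the standard complex. -/
noncomputable abbrev ext2 (μ : EA r p →* Matrix ι ι K) : Obj K (EA r p × EA r p) :=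
  ⟨ι → JJ r → EA r p → K, twE (μ.comp (MonoidHom.fst _ _)) ((trJ p K r).comp (MonoidHom.snd _ _))⟩

omit [CharP K p] in
lemma ext2_inr (μ : EA r p →* Matrix ι ι K) (i : Fin r) :
    xs ((ext2 μ).ρ.comp (MonoidHom.inr _ _)) i = compLeftHom K _ ι (cL (xs (trH K K) i)) := by
  rw [xs, xs, map_sub, map_sub, map_one, map_one]
  congr 1
  refine LinearMap.ext fun φ => funext fun a => (twE_apply _ _ _ _ _).trans ?_
  simp [Matrix.one_apply]
  rfl

omit [CharP K p] in
lemma ext2_inl (μ : EA r p →* Matrix ι ι K) : Cl.res (MonoidHom.inl _ _) (ext2 μ).cl =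
    (finrank K (JJ r → EA r p → K) : Cl K (EA r p)) * (Obj.tw μ Obj.one).cl := by
  rw [mul_comm, ← Obj.cl_triv _ (JJ r → EA r p → K) rfl, ← Obj.cl_tw]
  refine Obj.Iso.cl_eq ⟨LinearEquiv.refl _ _, fun g φ => funext fun a => ?_⟩
  refine (twE_apply _ _ _ _ _).trans (Eq.trans ?_ (Obj.twRep_apply _ _ _ _ _).symm)
  simp

lemma rel_ext2 (μ : EA r p →* Matrix ι ι K) {α : Fin r → K} {i0 : Fin r} (h0 : α i0 ≠ 0) :
    rel (ker (cL (r := r) ((dF (fun i => α i ^ p) (trH K K)).compLeft ι) -
        kF (fun i => α i ^ p) (twE μ (trJ p K r))))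
      (range (cL (r := r) ((dF (fun i => α i ^ p) (trH K K)).compLeft ι) +
        kF (fun i => α i ^ p) (twE μ (trJ p K r)))) ≤
      2 ^ (r + r) * (2 * ((16 * p) ^ r * (Fintype.card (JJ r) * (finrank K (JJ r → EA r p → K) *
        nuA p (th p α) (Obj.tw μ Obj.one).cl)))) := by
  have h := rel_le_nu (ext2 μ) (ξ := fun i => compLeftHom K _ ι (fX K _ i))
    (ι := fun i => compLeftHom K _ ι (fI K _ i))
    ⟨fun j => commute_asAlg _ (twE_comm _ _ fun g => cX _ j),
      fun j => commute_asAlg _ (twE_comm _ _ fun g => cI _ j),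
      fun j => (fock_pair j).map _, fun _ _ h => (fock_xx h).map _, fun _ _ h => (fock_xi h).map _,
      fun _ _ h => (fock_ii h).map _⟩ h0
    (d := compLeftHom K _ ι (dF (fun i => α i ^ p) (trH K K))) (by
      rw [dF, dG, map_sum]
      refine Finset.sum_congr rfl fun i _ => ?_
      rw [ys, ys, ext2_inr, map_add, map_mul, map_mul, ← map_pow, ← map_pow]
      rfl)
  rw [ext2_inl, ← nsmul_eq_mul, map_nsmul] at h
  exact h

variable {k R : Type u} [Field k] [CommRing R] [Algebra k R] [IsDomain R] [IsNoetherianRing R]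
  [CharP k p] [Algebra R K] [Algebra k K] [IsScalarTower k R K]

theorem nn_le (Γ : Gr k R r) (hinj : Function.Injective (algebraMap R K)) {α : Fin r → K}
    (hα : ∀ i, α i ^ p = algebraMap R K (Γ.η i)) {i0 : Fin r} (h0 : α i0 ≠ 0) : ∃ C : ℕ,
    ∀ (n : ℕ) (μ : EA r p →* Matrix (Fin n) (Fin n) k), nn ((TT p Γ).tw μ) ≤
      C * nuA p (th p α) (Cl.bc K (Obj.tw μ Obj.one).cl) := by
  refine ⟨2 ^ (r + r) * (2 * ((16 * p) ^ r * (Fintype.card (JJ r) *
    finrank K (JJ r → EA r p → K)))), fun n μ => ?_⟩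
  let i1 : (EA r p → R) →+ (EA r p → K) := (algebraMap R K).toAddMonoidHom.compLeft _
  let i2 : (Fin n → JJ r → EA r p → R) →+ (Fin n → JJ r → EA r p → K) :=
    (i1.compLeft (JJ r)).compLeft _
  have s0 : Submodule.span K (Set.range (algebraMap R K).toAddMonoidHom) = ⊤ :=
    eq_top_iff.2 fun x _ => by
      rw [← mul_one x]
      exact Submodule.smul_mem _ x (Submodule.subset_span ⟨1, map_one (algebraMap R K)⟩)
  have h1 : ∀ w, i2 (((TT p Γ).tw μ).d w) =
      (dF (fun i => α i ^ p) (trH K K)).compLeft (Fin n) (i2 w) := fun w => funext fun a =>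
    dF_nat i1 (fun _ _ => rfl) (fun i w => funext fun g => by
      rw [hα]; exact map_mul (algebraMap R K) _ _) (w a)
  have h2 := kF_nat (η := Γ.η) (η' := fun i => α i ^ p) (ρ := ((TT p Γ).tw μ).ρ)
    (ρ' := twE (mapMat K μ) (trJ p K r)) i2 (fun g w => funext fun a => by
      change i1.compLeft (JJ r) (twE μ (TT p Γ).ρ g w a) = _
      rw [twE_apply, twE_apply, map_sum]
      refine Finset.sum_congr rfl fun b _ => funext fun s => funext fun x => ?_
      change algebraMap R K (μ g a b • w b s (g⁻¹ * x)) =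
        algebraMap k K (μ g a b) * algebraMap R K (w b s (g⁻¹ * x))
      rw [Algebra.smul_def, map_mul, ← IsScalarTower.algebraMap_apply])
    (fun i w => funext fun a => funext fun s => funext fun g => by
      rw [hα]; exact map_mul (algebraMap R K) _ _)
  refine (rel_le_bc (i2.compLeft (JJ r)) hinj
    (fun c v => funext fun _ => funext fun _ => funext fun _ => funext fun _ =>
      map_mul (algebraMap R K) _ _)
    (span_compLeft _ (span_compLeft _ (span_compLeft _ (span_compLeft _ s0 _) _) _) _)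
    (by simp [finrank_pi_fintype]) (fun v => funext fun s => ?_) (fun v => funext fun s => ?_)
    (δm_δp ((TT p Γ).tw μ))).trans ((rel_ext2 (mapMat K μ) h0).trans (le_of_eq ?_))
  · exact (map_sub i2 _ _).trans (congrArg₂ (· - ·) (h1 _) (congrFun (h2 v) s))
  · exact (map_add i2 _ _).trans (congrArg₂ (· + ·) (h1 _) (congrFun (h2 v) s))
  · rw [bc_tw]; ring

end Pool.Agent.Lib.MP_13b5a2_al
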