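import Pool.Agent.Lib.MP_13b5a2_al.Rel

/-! Canonical anticommutation relations and Koszul type complexes. -/

namespace Pool.Agent.Lib.MP_13b5a2_al

open Module LinearMap

/-- A creation and an annihilation operator. -/
structure Pair {B : Type*} [Ring B] (ξ ι : B) : Prop where
  xx : ξ * ξ = 0
  ii : ι * ι = 0
  ix : ι * ξ = 1 - ξ * ι

/-- Anticommutation. -/
def Anti {B : Type*} [Ring B] (x y : B) : Prop := x * y = -(y * x)

lemma Anti.symm {B : Type*} [Ring B] {x y : B} (h : Anti x y) : Anti y x := by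
  unfold Anti at *; rw [h, neg_neg]

lemma Pair.symm {B : Type*} [Ring B] {ξ ι : B} (h : Pair ξ ι) : Pair ι ξ :=
  ⟨h.ii, h.xx, by rw [h.ix, sub_sub_cancel]⟩

lemma Pair.map {B B' : Type*} [Ring B] [Ring B'] (f : B →+* B') {ξ ι : B} (h : Pair ξ ι) :
    Pair (f ξ) (f ι) :=
  ⟨by rw [← map_mul, h.xx, map_zero], by rw [← map_mul, h.ii, map_zero],
    by rw [← map_mul, h.ix, map_sub, map_one, map_mul]⟩

lemma Anti.map {B B' : Type*} [Ring B] [Ring B'] (f : B →+* B') {x y : B} (h : Anti x y) :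
    Anti (f x) (f y) := by
  unfold Anti at *; rw [← map_mul, h, map_neg, map_mul]

section Cone

variable {R : Type*} [CommRing R] [IsDomain R] {W : Type*} [AddCommGroup W] [Module R W]
  [IsNoetherian R W] {ξ ι d z θ η : End R W}

lemma hd_cone_le (P : Pair ξ ι) (h1 : Anti d ξ) (h2 : Anti d ι) (hd2 : d * d = 0)
    (z1 : Commute z ξ) (z3 : Commute z d) : hd (d + ξ * z) ≤ 2 * hd d := by
  have xx : ∀ v, ξ (ξ v) = 0 := LinearMap.congr_fun P.xx
  have ix : ∀ v, ι (ξ v) = v - ξ (ι v) := LinearMap.congr_fun P.ix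
  have dx : ∀ v, d (ξ v) = -ξ (d v) := LinearMap.congr_fun h1
  have di : ∀ v, d (ι v) = -ι (d v) := LinearMap.congr_fun h2
  have dd : ∀ v, d (d v) = 0 := LinearMap.congr_fun hd2
  have zx : ∀ v, z (ξ v) = ξ (z v) := LinearMap.congr_fun z1.eq
  have zd : ∀ v, z (d v) = d (z v) := LinearMap.congr_fun z3.eq
  have D : ∀ v, (d + ξ * z) v = d v + ξ (z v) := fun _ => rfl
  rw [two_mul]
  refine (rel_master ξ (K := ker d ⊓ ker ξ) (A' := ker d) (B' := range d) (fun v hv => ?_)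
    fun v hv hu => ?_).trans (add_le_add le_rfl (rel_le_of_comap LinearMap.id
      (fun v hv => hv.1) fun w hw hu => ?_))
  · rw [mem_ker, D, add_eq_zero_iff_eq_neg] at hv
    rw [mem_ker, dx, hv, map_neg, xx]; simp
  · obtain ⟨u, hu⟩ := hu
    rw [mem_ker, D] at hv
    have e1 : ξ (v + (d + ξ * z) (ι u)) = 0 := by
      simp only [D, map_add, xx, di, hu, map_neg, ix, map_sub]; abel
    have e2 : d (v + (d + ξ * z) (ι u)) = 0 := by
      have : d (v + (d + ξ * z) (ι u)) + ξ (z (v + (d + ξ * z) (ι u))) = 0 := by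
        simp only [D, map_add, xx, dd, dx, zd, zx]
        refine Eq.trans ?_ hv; abel
      rwa [← zx, e1, map_zero, add_zero] at this
    have : v = (v + (d + ξ * z) (ι u)) + (d + ξ * z) (-ι u) := by rw [map_neg]; abel
    rw [this]
    exact Submodule.add_mem_sup ⟨e2, e1⟩ ⟨_, rfl⟩
  · obtain ⟨u, hu⟩ := hu
    have e1 : ξ w = 0 := hw.2
    refine ⟨ξ (ι u), ?_⟩
    have := ix w
    rw [e1, map_zero, eq_comm, sub_eq_zero] at this
    rw [D, zx, xx, add_zero, dx, di, map_neg, neg_neg, hu]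
    exact this.symm

lemma le_hd_cone (P : Pair ξ ι) (h1 : Anti d ξ) (h2 : Anti d ι) (z1 : Commute z ξ)
    (z2 : Commute z ι) (z3 : Commute z d) {n : ℕ} (hz : z ^ n = 0) :
    hd d ≤ n * (2 * hd (d + ξ * z)) := by
  have xx : ∀ v, ξ (ξ v) = 0 := LinearMap.congr_fun P.xx
  have ix : ∀ v, ι (ξ v) = v - ξ (ι v) := LinearMap.congr_fun P.ix
  have dx : ∀ v, d (ξ v) = -ξ (d v) := LinearMap.congr_fun h1
  have di : ∀ v, d (ι v) = -ι (d v) := LinearMap.congr_fun h2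
  have zx : ∀ v, z (ξ v) = ξ (z v) := LinearMap.congr_fun z1.eq
  have zi : ∀ v, z (ι v) = ι (z v) := LinearMap.congr_fun z2.eq
  have zd : ∀ v, z (d v) = d (z v) := LinearMap.congr_fun z3.eq
  have D : ∀ v, (d + ξ * z) v = d v + ξ (z v) := fun _ => rfl
  refine (rel_le_mul_of_nilpotent z (fun v hv => ?_) ?_ n hz).trans (Nat.mul_le_mul_left _ ?_)
  · rw [mem_ker] at hv ⊢
    rw [← zd, hv, map_zero]
  · rintro _ ⟨v, rfl⟩
    exact ⟨z v, (zd v).symm⟩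
  rw [two_mul]
  refine le_trans ?_ (rel_prod_le _ _ _ _)
  refine rel_le_of_comap ((ξ * ι).prod ξ) (fun v hv => ⟨?_, ?_⟩) fun v hv hw => ?_
  · change (d + ξ * z) (ξ (ι v)) = 0
    rw [D, zx, xx, dx, di, mem_ker.1 hv]; simp
  · change (d + ξ * z) (ξ v) = 0
    rw [D, zx, xx, dx, mem_ker.1 hv]; simp
  · obtain ⟨⟨w1, e1⟩, w2, e2⟩ := hw
    change d w1 + ξ (z w1) = ξ (ι v) at e1
    change d w2 + ξ (z w2) = ξ v at e2
    have k1 : ∀ {w u}, d w + ξ (z w) = ξ u → d (ξ w) = 0 := fun {w u} e => by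
      have := congrArg ξ e
      rw [map_add, xx, xx, add_zero] at this
      rw [dx, this, neg_zero]
    have : v = d (w1 - ι w2) + z (ξ w1 + ι (ξ w2)) := by
      have e3 := ix v
      rw [← e1, ← e2] at e3
      simp only [map_sub, map_add, di, zi, zx] at e3 ⊢
      rw [eq_sub_iff_add_eq] at e3
      rw [← e3]; abel
    rw [this]
    refine Submodule.add_mem_sup ⟨_, rfl⟩ ⟨_, ?_, rfl⟩
    change d _ = 0
    rw [map_add, di, k1 e1, k1 e2]; simp

lemma hd_pair_le (P : Pair ξ ι) (t1 : Commute θ ξ) (t2 : Commute θ ι) (e1 : Commute η ξ)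
    (e2 : Commute η ι) : hd (ξ * θ + ι * η) ≤ nu2 θ η := by
  have xx : ∀ v, ξ (ξ v) = 0 := LinearMap.congr_fun P.xx
  have ii : ∀ v, ι (ι v) = 0 := LinearMap.congr_fun P.ii
  have ix : ∀ v, ι (ξ v) = v - ξ (ι v) := LinearMap.congr_fun P.ix
  have tx : ∀ v, θ (ξ v) = ξ (θ v) := LinearMap.congr_fun t1.eq
  have ti : ∀ v, θ (ι v) = ι (θ v) := LinearMap.congr_fun t2.eq
  have ex : ∀ v, η (ξ v) = ξ (η v) := LinearMap.congr_fun e1.eq
  have ei : ∀ v, η (ι v) = ι (η v) := LinearMap.congr_fun e2.eq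
  refine le_trans (rel_le_of_comap ((ι * ξ).prod (ξ * ι)) (fun v hv => ?_) fun v _ hw => ?_)
    (rel_prod_le _ _ _ _)
  · change ξ (θ v) + ι (η v) = 0 at hv
    constructor
    · change θ (ι (ξ v)) = 0
      have := congrArg ι hv
      rwa [map_add, ii, add_zero, map_zero, ← tx, ← ti] at this
    · change η (ξ (ι v)) = 0
      have := congrArg ξ hv
      rwa [map_add, xx, zero_add, map_zero, ← ei, ← ex] at this
  · obtain ⟨⟨w1, h1⟩, w2, h2⟩ := hw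
    change η w1 = ι (ξ v) at h1
    change θ w2 = ξ (ι v) at h2
    refine ⟨ξ w1 + ι w2, ?_⟩
    change ξ (θ _) + ι (η _) = v
    simp only [map_add, tx, ti, ex, ei, xx, ii, h1, h2, ix, map_sub, map_zero]
    abel

lemma rel_le_hd_pair (P : Pair ξ ι) (t2 : Commute θ ι) (t1 : Commute θ ξ) (e1 : Commute η ξ)
    (e2 : Commute η ι) : rel (ker θ) (range η) ≤ 2 * hd (ξ * θ + ι * η) := by
  have xx : ∀ v, ξ (ξ v) = 0 := LinearMap.congr_fun P.xx
  have ii : ∀ v, ι (ι v) = 0 := LinearMap.congr_fun P.ii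
  have ix : ∀ v, ι (ξ v) = v - ξ (ι v) := LinearMap.congr_fun P.ix
  have tx : ∀ v, θ (ξ v) = ξ (θ v) := LinearMap.congr_fun t1.eq
  have ti : ∀ v, θ (ι v) = ι (θ v) := LinearMap.congr_fun t2.eq
  have ex : ∀ v, η (ξ v) = ξ (η v) := LinearMap.congr_fun e1.eq
  have ei : ∀ v, η (ι v) = ι (η v) := LinearMap.congr_fun e2.eq
  rw [two_mul]
  refine le_trans ?_ (rel_prod_le _ _ _ _)
  refine rel_le_of_comap (ι.prod (ι * ξ)) (fun v hv => ⟨?_, ?_⟩) fun v _ hw => ?_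
  · change ξ (θ (ι v)) + ι (η (ι v)) = 0
    rw [ti, ei, ii, mem_ker.1 hv]; simp
  · change ξ (θ (ι (ξ v))) + ι (η (ι (ξ v))) = 0
    rw [ti, tx, ei, ii, mem_ker.1 hv]; simp
  · obtain ⟨⟨w1, h1⟩, w2, h2⟩ := hw
    change ξ (θ w1) + ι (η w1) = ι v at h1
    change ξ (θ w2) + ι (η w2) = ι (ξ v) at h2
    have a1 := congrArg ξ h1
    have a2 := congrArg (fun w => ι (ξ w)) h2
    simp only [map_add, xx, map_zero, zero_add] at a1 a2
    rw [ix (ι _), ix (ι _), ii, ii, map_zero, sub_zero, sub_zero] at a2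
    refine ⟨ξ (ι w1) + ι w2, ?_⟩
    rw [map_add, ex, ei, ei, a1, a2, ix]; abel

lemma nu2_le_hd_pair (P : Pair ξ ι) (t1 : Commute θ ξ) (t2 : Commute θ ι) (e1 : Commute η ξ)
    (e2 : Commute η ι) : nu2 θ η ≤ 4 * hd (ξ * θ + ι * η) := by
  have h1 := rel_le_hd_pair P t2 t1 e1 e2
  have h2 := rel_le_hd_pair P.symm e1 e2 t2 t1
  rw [add_comm] at h2
  unfold nu2; omega

end Cone

section Merge

variable {p : ℕ} [Fact p.Prime] {A : Type*} [CommRing A] [CharP A p]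

lemma geom_char (a b : A) : ∑ i ∈ Finset.range p, a ^ i * b ^ (p - 1 - i) = (a - b) ^ (p - 1) := by
  letI := ZMod.algebra A p
  have key : ∑ i ∈ Finset.range p, (MvPolynomial.X 0 : MvPolynomial (Fin 2) (ZMod p)) ^ i *
      MvPolynomial.X 1 ^ (p - 1 - i) = (MvPolynomial.X 0 - MvPolynomial.X 1) ^ (p - 1) := by
    have h0 : (MvPolynomial.X 0 - MvPolynomial.X 1 : MvPolynomial (Fin 2) (ZMod p)) ≠ 0 :=
      sub_ne_zero.2 fun h => by simpa using MvPolynomial.X_injective h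
    apply mul_right_cancel₀ h0
    rw [geom_sum₂_mul, ← pow_succ, Nat.sub_add_cancel (Fact.out : p.Prime).pos, sub_pow_char]
  have := congrArg (MvPolynomial.aeval ![a, b]) key
  simpa using this

lemma exists_merge_coeff (a w : A) : ∃ q : A, q * (a + w) = a ^ (p - 1) - w ^ (p - 1) ∧
    (a + w) ^ (p - 1) = a ^ (p - 1) - w * q := by
  obtain ⟨n, hn⟩ : ∃ n, p = n + 1 := ⟨p - 1, (Nat.sub_add_cancel (Fact.out : p.Prime).pos).symm⟩
  have hn' : p - 1 = n := by omega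
  have h1 := geom_char (p := p) a (-w)
  have h2 : (-w) ^ n = w ^ n := by
    have := neg_one_pow_char A p
    rw [hn, pow_succ, mul_neg, mul_one, neg_inj] at this
    rw [neg_pow, this, one_mul]
  rw [hn'] at h1 ⊢
  nth_rewrite 1 [hn] at h1
  rw [geom_sum₂_succ_eq, sub_neg_eq_add] at h1
  refine ⟨∑ i ∈ Finset.range n, a ^ i * (-w) ^ (n - 1 - i), ?_, by rw [← h1]; ring⟩
  rw [← sub_neg_eq_add, geom_sum₂_mul, h2]

variable {B : Type*} [Ring B] [Algebra A B]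

omit [Fact p.Prime] [CharP A p] in
lemma Anti.lin {y x x' : B} (h : Anti y x) (h' : Anti y x') (a b : A) : Anti y (a • x + b • x') := by
  unfold Anti at *
  simp only [mul_add, add_mul, mul_smul_comm, smul_mul_assoc, h, h']
  module

lemma merge_step {ξ0 ι0 ξ1 ι1 : B} (P0 : Pair ξ0 ι0) (P1 : Pair ξ1 ι1) (a1 : Anti ξ1 ξ0)
    (a2 : Anti ξ1 ι0) (a3 : Anti ι1 ξ0) (a4 : Anti ι1 ι0) (Θ α z : A) :
    ∃ ξ0' ι0' ξ1' : B, Pair ξ0' ι0' ∧ Pair ξ1' ι1 ∧ Anti ξ1' ξ0' ∧ Anti ξ1' ι0' ∧ Anti ι1 ξ0' ∧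
      Anti ι1 ι0' ∧ (∀ y, Anti y ξ0 → Anti y ι0 → Anti y ξ1 → Anti y ι1 →
        Anti y ξ0' ∧ Anti y ι0' ∧ Anti y ξ1') ∧
      Θ • ξ0 + Θ ^ (p - 1) • ι0 + (z • ξ1 + (α ^ p * z ^ (p - 1)) • ι1) =
        (Θ + α * z) • ξ0' + (Θ + α * z) ^ (p - 1) • ι0' + z • ξ1' := by
  obtain ⟨q, hq1, hq2⟩ := exists_merge_coeff (p := p) Θ (α * z)
  have b1 := P0.xx
  have b2 := P0.ii
  have b3 := P0.ix
  have b4 := P1.xx
  have b5 := P1.ii
  have b6 := P1.ix
  unfold Anti at a1 a2 a3 a4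
  refine ⟨ξ0 - (α * q) • ι1, ι0 + α • ι1, ξ1 - α • ξ0 + (α * q) • (ι0 + α • ι1),
    ⟨?_, ?_, ?_⟩, ⟨?_, b5, ?_⟩, ?_, ?_, ?_, ?_, fun y h1 h2 h3 h4 => ⟨?_, ?_, ?_⟩, ?_⟩
  iterate 12
    try unfold Anti at *
    simp only [mul_add, add_mul, mul_sub, sub_mul, mul_smul_comm, smul_mul_assoc, smul_add, *]
    module
  have e : α ^ p * z ^ (p - 1) = α * (Θ ^ (p - 1) - q * (Θ + α * z)) := by
    rw [hq1, sub_sub_cancel, mul_pow, ← mul_assoc, ← pow_succ',
      Nat.sub_add_cancel (Fact.out : p.Prime).pos]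
  rw [e, hq2]
  module

omit [Fact p.Prime] [CharP A p] in
lemma Pair.sq {ξ ι : B} (P : Pair ξ ι) (a b : A) (h : a * b = 0) :
    (a • ξ + b • ι) * (a • ξ + b • ι) = 0 := by
  simp only [mul_add, add_mul, mul_smul_comm, smul_mul_assoc, P.xx, P.ii, P.ix, smul_zero,
    zero_add, add_zero]
  rw [smul_smul, smul_smul, mul_comm b a, h]
  simp

lemma anti_sum {I : Type*} {y : B} (s : Finset I) {D : I → B} (h : ∀ j ∈ s, Anti y (D j)) :
    Anti y (∑ j ∈ s, D j) := by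
  unfold Anti at *
  rw [Finset.mul_sum, Finset.sum_mul, ← Finset.sum_neg_distrib]
  exact Finset.sum_congr rfl h

lemma sq_add {x y : B} (h : Anti x y) (hx : x * x = 0) (hy : y * y = 0) :
    (x + y) * (x + y) = 0 := by
  unfold Anti at h
  simp only [mul_add, add_mul, h, hx, hy]; abel

lemma sq_sum {I : Type*} (s : Finset I) {D : I → B} (h : ∀ i ∈ s, ∀ j ∈ s, i ≠ j → Anti (D i) (D j))
    (h' : ∀ j ∈ s, D j * D j = 0) : (∑ j ∈ s, D j) * (∑ j ∈ s, D j) = 0 := by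
  classical
  induction s using Finset.induction_on with
  | empty => simp
  | insert a s ha ih =>
    rw [Finset.sum_insert ha]
    exact sq_add (anti_sum _ fun j hj => h a (by simp) j (by simp [hj]) (fun e => ha (e ▸ hj)))
      (h' a (by simp)) (ih (fun i hi j hj => h i (by simp [hi]) j (by simp [hj]))
        fun j hj => h' j (by simp [hj]))

variable {R : Type*} [CommRing R] [IsDomain R] {W : Type*} [AddCommGroup W] [Module R W]
  [IsNoetherian R W] (Ψ : B →+* End R W)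

omit [Fact p.Prime] [CharP A p] [IsDomain R] [IsNoetherian R W] in
lemma map_smul_eq (a : A) (x : B) : Ψ (a • x) = Ψ x * Ψ (algebraMap A B a) := by
  rw [← map_mul, ← Algebra.commutes, Algebra.smul_def]

omit [Fact p.Prime] [CharP A p] [IsDomain R] [IsNoetherian R W] in
lemma comm_map (a : A) (x : B) : Commute (Ψ (algebraMap A B a)) (Ψ x) :=
  (Algebra.commute_algebraMap_left a x).map Ψ

lemma mul_pow_pred {a : A} (h : a ^ p = 0) : a * a ^ (p - 1) = 0 := by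
  rw [← pow_succ', Nat.sub_add_cancel (Fact.out : p.Prime).pos, h]

theorem merge_all {I : Type*} (ξ ι : I → B) (α z : I → A) (hz : ∀ j, (α j * z j) ^ p = 0)
    (P : ∀ j, Pair (ξ j) (ι j)) (a1 : ∀ i j, i ≠ j → Anti (ξ i) (ξ j))
    (a2 : ∀ i j, i ≠ j → Anti (ξ i) (ι j)) (a3 : ∀ i j, i ≠ j → Anti (ι i) (ι j)) (s : Finset I) :
    ∀ (ξ0 ι0 : B) (Θ : A), Pair ξ0 ι0 → Θ ^ p = 0 →
      (∀ j ∈ s, Anti (ξ j) ξ0 ∧ Anti (ξ j) ι0 ∧ Anti (ι j) ξ0 ∧ Anti (ι j) ι0) →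
      hd (Ψ (Θ • ξ0 + Θ ^ (p - 1) • ι0 + ∑ j ∈ s, (z j • ξ j + (α j ^ p * z j ^ (p - 1)) • ι j))) ≤
        2 ^ s.card * nu2 (Ψ (algebraMap A B (Θ + ∑ j ∈ s, α j * z j)))
          (Ψ (algebraMap A B ((Θ + ∑ j ∈ s, α j * z j) ^ (p - 1)))) := by
  classical
  induction s using Finset.induction_on with
  | empty =>
    intro ξ0 ι0 Θ P0 _ _
    simp only [Finset.sum_empty, add_zero, Finset.card_empty, pow_zero, one_mul, map_add Ψ,
      map_smul_eq]
    exact hd_pair_le (P0.map Ψ) (comm_map _ _ _) (comm_map _ _ _) (comm_map _ _ _) (comm_map _ _ _)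
  | insert a s ha ih =>
    intro ξ0 ι0 Θ P0 hΘ h
    obtain ⟨h1, h2, h3, h4⟩ := h a (by simp)
    obtain ⟨ξ0', ι0', ξ1', Q0, Q1, c1, c2, c3, c4, c5, e⟩ :=
      merge_step P0 (P a) h1 h2 h3 h4 Θ (α a) (z a)
    have hΘ' : (Θ + α a * z a) ^ p = 0 := by rw [add_pow_char, hΘ, hz, add_zero]
    have hne : ∀ j ∈ s, j ≠ a := fun j hj e => ha (e ▸ hj)
    have k1 := fun j (hj : j ∈ s) => c5 (ξ j) (h j (by simp [hj])).1 (h j (by simp [hj])).2.1
      (a1 j a (hne j hj)) (a2 j a (hne j hj))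
    have k2 := fun j (hj : j ∈ s) => c5 (ι j) (h j (by simp [hj])).2.2.1
      (h j (by simp [hj])).2.2.2 (a2 a j (hne j hj).symm).symm (a3 j a (hne j hj))
    have := ih ξ0' ι0' _ Q0 hΘ' fun j hj => ⟨(k1 j hj).1, (k1 j hj).2.1, (k2 j hj).1, (k2 j hj).2.1⟩
    rw [Finset.sum_insert ha, Finset.sum_insert ha, ← add_assoc, e, add_right_comm, map_add,
      map_smul_eq Ψ (z a), Finset.card_insert_of_notMem ha, pow_succ' 2, mul_assoc, ← add_assoc]
    refine le_trans (hd_cone_le (Q1.map Ψ) (Anti.map Ψ ?_) (Anti.map Ψ ?_) ?_ (comm_map _ _ _)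
      (comm_map _ _ _)) (Nat.mul_le_mul_left _ this)
    · refine Anti.symm ?_
      simpa using (c1.lin c2 _ _).lin (anti_sum s fun j hj =>
        (k1 j hj).2.2.symm.lin (k2 j hj).2.2.symm _ _) (1 : A) (1 : A)
    · refine Anti.symm ?_
      simpa using (c3.lin c4 _ _).lin (anti_sum s fun j hj =>
        (a2 j a (hne j hj)).symm.lin (a3 a j (hne j hj).symm) _ _) (1 : A) (1 : A)
    · rw [← map_mul, sq_add (anti_sum s fun j hj => ?_) (Q0.sq _ _ (mul_pow_pred hΘ'))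
        (sq_sum s (fun i _ j _ hij => ?_) fun j _ => (P j).sq _ _ ?_), map_zero]
      · exact (((k1 j hj).1.lin (k1 j hj).2.1 _ _).symm.lin
          ((k2 j hj).1.lin (k2 j hj).2.1 _ _).symm _ _)
      · exact (((a1 j i hij.symm).lin (a2 j i hij.symm) _ _).symm.lin
          ((a2 i j hij).symm.lin (a3 j i hij.symm) _ _).symm _ _)
      · rw [mul_left_comm, ← pow_succ', Nat.sub_add_cancel (Fact.out : p.Prime).pos, ← mul_pow, hz]

theorem rad_two {ξ0 ι0 ξ1 ι1 : B} (P0 : Pair ξ0 ι0) (P1 : Pair ξ1 ι1) (a1 : Anti ξ1 ξ0)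
    (a2 : Anti ξ1 ι0) (a3 : Anti ι1 ξ0) (a4 : Anti ι1 ι0) {Θ y z : A} (hΘ : Θ ^ p = 0)
    (hy : y ^ p = 0) (hz : z ^ p = 0) :
    nu2 (Ψ (algebraMap A B (Θ + y * z))) (Ψ (algebraMap A B ((Θ + y * z) ^ (p - 1)))) ≤
      16 * p * nu2 (Ψ (algebraMap A B Θ)) (Ψ (algebraMap A B (Θ ^ (p - 1)))) := by
  obtain ⟨ξ0', ι0', ξ1', Q0, Q1, c1, c2, c3, c4, -, e⟩ := merge_step P0 P1 a1 a2 a3 a4 Θ y z
  rw [hy, zero_mul, zero_smul, add_zero] at e
  have h1 := nu2_le_hd_pair (θ := Ψ (algebraMap A B (Θ + y * z)))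
    (η := Ψ (algebraMap A B ((Θ + y * z) ^ (p - 1)))) (Q0.map Ψ) (comm_map _ _ _) (comm_map _ _ _)
    (comm_map _ _ _) (comm_map _ _ _)
  have h2 := le_hd_cone (d := Ψ ((Θ + y * z) • ξ0' + (Θ + y * z) ^ (p - 1) • ι0'))
    (z := Ψ (algebraMap A B z)) (Q1.map Ψ) ((c1.lin c2 _ _).symm.map Ψ)
    ((c3.lin c4 _ _).symm.map Ψ) (comm_map _ _ _) (comm_map _ _ _) (comm_map _ _ _) (n := p)
    (by rw [← map_pow, ← map_pow, hz, map_zero, map_zero])
  have h3 := hd_cone_le (d := Ψ (Θ • ξ0 + Θ ^ (p - 1) • ι0)) (z := Ψ (algebraMap A B z))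
    (P1.map Ψ) ((a1.lin a2 _ _).symm.map Ψ) ((a3.lin a4 _ _).symm.map Ψ)
    (by rw [← map_mul, P0.sq _ _ (mul_pow_pred hΘ), map_zero]) (comm_map _ _ _) (comm_map _ _ _)
  have h4 := hd_pair_le (θ := Ψ (algebraMap A B Θ)) (η := Ψ (algebraMap A B (Θ ^ (p - 1))))
    (P0.map Ψ) (comm_map _ _ _) (comm_map _ _ _) (comm_map _ _ _) (comm_map _ _ _)
  rw [← map_smul_eq, ← map_add, ← e] at h2
  rw [← map_smul_eq, ← map_add] at h3
  rw [← map_smul_eq, ← map_smul_eq, ← map_add] at h1 h4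
  calc _ ≤ 4 * (p * (2 * (2 * _))) := h1.trans (Nat.mul_le_mul_left _ (h2.trans
        (Nat.mul_le_mul_left _ (Nat.mul_le_mul_left _ (h3.trans (Nat.mul_le_mul_left _ h4))))))
    _ = _ := by ring

end Merge

end Pool.Agent.Lib.MP_13b5a2_al
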