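import Mathlib

/-! From an additive quasi multiplicative function to a character. -/

namespace Pool.Agent.Lib.MP_13b5a2_al

lemma le_of_pow_le {x y K : ℝ} (hy : 0 ≤ y) (h : ∀ n : ℕ, x ^ n ≤ K * y ^ n) : x ≤ y := by
  by_contra hc
  push Not at hc
  rcases eq_or_lt_of_le hy with rfl | hy'
  · have := h 1
    simp at this
    linarith
  obtain ⟨n, hn⟩ := pow_unbounded_of_one_lt K ((one_lt_div hy').2 hc)
  rw [div_pow, lt_div_iff₀ (pow_pos hy' n)] at hn
  exact (h n).not_gt hn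

theorem exists_char {R : Type*} [CommSemiring R] (c : R →+ ℕ) (C : ℕ)
    (h1 : ∀ a b, c (a * b) ≤ C * (c a * c b)) (h2 : ∀ a b, c a * c b ≤ C * c (a * b))
    (h0 : c 1 ≠ 0) : ∃ s : R →+* ℝ, (∀ a, 0 ≤ s a) ∧ (∀ a, (c a : ℝ) ≤ C * s a) ∧
      ∀ a, s a ≤ C * c a := by
  have hC1 : c 1 ≤ C := by
    have := h2 1 1
    rw [mul_one] at this
    exact Nat.le_of_mul_le_mul_right this (Nat.pos_of_ne_zero h0)
  have hC : (1 : ℝ) ≤ C := by exact_mod_cast (Nat.pos_of_ne_zero h0).trans_le hC1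
  have hC0 : (0 : ℝ) < C := by linarith
  have g1 : ∀ a b, (c (a * b) : ℝ) ≤ C * (c a * c b) := fun a b => by exact_mod_cast h1 a b
  have g2 : ∀ a b, (c a * c b : ℝ) ≤ C * c (a * b) := fun a b => by exact_mod_cast h2 a b
  have l1 : ∀ a (m : ℕ), (c a / C : ℝ) ^ (m + 1) ≤ c (a ^ (m + 1)) / C := fun a m => by
    induction m with
    | zero => simp
    | succ m ih =>
      rw [pow_succ, pow_succ a (m + 1)]
      refine (mul_le_mul_of_nonneg_right ih (by positivity)).trans ?_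
      rw [div_mul_div_comm, div_le_div_iff₀ (by positivity) hC0]
      nlinarith [g2 (a ^ (m + 1)) a]
  have l2 : ∀ a (m : ℕ), (C * c (a ^ (m + 1)) : ℝ) ≤ (C * c a) ^ (m + 1) := fun a m => by
    induction m with
    | zero => simp
    | succ m ih =>
      rw [pow_succ (C * c a : ℝ) (m + 1), pow_succ a (m + 1)]
      refine le_trans ?_ (mul_le_mul_of_nonneg_right ih (by positivity))
      nlinarith [mul_le_mul_of_nonneg_left (g1 (a ^ (m + 1)) a) hC0.le]
  have l3 : ∀ a (n m : ℕ), (c (a ^ (n + 1)) / C : ℝ) ^ ((n + 1 : ℕ) : ℝ)⁻¹ ≤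
      (C * c (a ^ (m + 1)) : ℝ) ^ ((m + 1 : ℕ) : ℝ)⁻¹ := fun a n m => by
    have e : (c (a ^ (n + 1)) / C : ℝ) ^ (m + 1) ≤ (C * c (a ^ (m + 1))) ^ (n + 1) := by
      refine (l1 _ m).trans (le_trans ?_ (l2 _ n))
      rw [← pow_mul, ← pow_mul, mul_comm (n + 1), div_le_iff₀ hC0]
      have : (0 : ℝ) ≤ c (a ^ ((m + 1) * (n + 1))) := by positivity
      nlinarith [mul_le_mul hC hC zero_le_one hC0.le]
    refine (pow_le_pow_iff_left₀ (by positivity) (by positivity)
      (show (n + 1) * (m + 1) ≠ 0 by positivity)).1 ?_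
    rw [pow_mul, Real.rpow_inv_natCast_pow (by positivity) (by omega), mul_comm (n + 1), pow_mul,
      Real.rpow_inv_natCast_pow (by positivity) (by omega)]
    exact e
  let s : R → ℝ := fun a => ⨆ n : ℕ, (c (a ^ (n + 1)) / C : ℝ) ^ ((n + 1 : ℕ) : ℝ)⁻¹
  have s0 : ∀ a, 0 ≤ s a := fun a => Real.iSup_nonneg fun n => by positivity
  have s1 : ∀ a (n : ℕ), (c (a ^ n) : ℝ) ≤ C * s a ^ n := fun a n => by
    cases n with
    | zero => simpa using hC1
    | succ n =>
      have : (c (a ^ (n + 1)) / C : ℝ) ^ ((n + 1 : ℕ) : ℝ)⁻¹ ≤ s a :=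
        le_ciSup (f := fun n : ℕ => (c (a ^ (n + 1)) / C : ℝ) ^ ((n + 1 : ℕ) : ℝ)⁻¹)
          ⟨_, by rintro _ ⟨n, rfl⟩; exact l3 a n 0⟩ n
      have h3 := pow_le_pow_left₀ (by positivity) this (n + 1)
      rw [Real.rpow_inv_natCast_pow (by positivity) (by omega), div_le_iff₀ hC0] at h3
      linarith
  have s2 : ∀ a (n : ℕ), s a ^ n ≤ C * c (a ^ n) := fun a n => by
    cases n with
    | zero =>
      have : (1 : ℝ) ≤ c 1 := by exact_mod_cast Nat.pos_of_ne_zero h0
      simp only [pow_zero]; nlinarith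
    | succ n =>
      have h3 := pow_le_pow_left₀ (s0 a) (ciSup_le fun m => l3 a m n) (n + 1)
      rwa [Real.rpow_inv_natCast_pow (by positivity) (by omega)] at h3
  have m1 : ∀ a b (i j : ℕ), (c (a ^ i * b ^ j) : ℝ) ≤ C ^ 3 * (s a ^ i * s b ^ j) := by
    intro a b i j
    have := mul_le_mul (s1 a i) (s1 b j) (by positivity) (by have := s0 a; positivity)
    nlinarith [g1 (a ^ i) (b ^ j)]
  have m2 : ∀ a b (i j : ℕ), s a ^ i * s b ^ j ≤ C ^ 3 * (c (a ^ i * b ^ j) : ℝ) := by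
    intro a b i j
    have := mul_le_mul (s2 a i) (s2 b j) (by have := s0 b; positivity) (by positivity)
    nlinarith [mul_le_mul_of_nonneg_left (g2 (a ^ i) (b ^ j)) (mul_pos hC0 hC0).le]
  have cadd : ∀ a b (n : ℕ), (c ((a + b) ^ n) : ℝ) =
      ∑ i ∈ Finset.range (n + 1), (c (a ^ i * b ^ (n - i)) : ℝ) * n.choose i := fun a b n => by
    rw [add_pow, map_sum]
    push_cast
    refine Finset.sum_congr rfl fun i _ => ?_
    rw [mul_comm, ← nsmul_eq_mul, map_nsmul, smul_eq_mul]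
    push_cast; ring
  have k1 : s 1 = 1 := by
    refine le_antisymm (le_of_pow_le (K := C * c 1) zero_le_one fun n => by simpa using s2 1 n)
      (le_of_pow_le (K := C) (s0 1) fun n => ?_)
    have : (1 : ℝ) ≤ c 1 := by exact_mod_cast Nat.pos_of_ne_zero h0
    have h3 := s1 1 n
    rw [one_pow] at h3 ⊢
    linarith
  have k2 : ∀ a b, s (a * b) = s a * s b := fun a b => by
    refine le_antisymm (le_of_pow_le (K := C * C ^ 3) (mul_nonneg (s0 a) (s0 b)) fun n => ?_)
      (le_of_pow_le (K := C ^ 3 * C) (s0 _) fun n => ?_)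
    · refine (s2 _ n).trans ?_
      rw [mul_pow, mul_pow, mul_assoc]
      exact mul_le_mul_of_nonneg_left (m1 a b n n) hC0.le
    · rw [mul_pow, mul_assoc]
      refine (m2 a b n n).trans (mul_le_mul_of_nonneg_left ?_ (by positivity))
      rw [← mul_pow]; exact s1 _ n
  have k3 : s 0 = 0 := by
    exact le_antisymm (by simpa using s2 0 1) (s0 0)
  have k4 : ∀ a b, s (a + b) = s a + s b := fun a b => by
    refine le_antisymm (le_of_pow_le (K := C * C ^ 3) (add_nonneg (s0 a) (s0 b)) fun n => ?_)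
      (le_of_pow_le (K := C ^ 3 * C) (s0 _) fun n => ?_)
    · refine (s2 _ n).trans ?_
      rw [mul_assoc, cadd, add_pow, Finset.mul_sum _ _ ((C : ℝ) ^ 3)]
      refine mul_le_mul_of_nonneg_left (Finset.sum_le_sum fun i _ => ?_) hC0.le
      rw [← mul_assoc]
      exact mul_le_mul_of_nonneg_right (m1 a b _ _) (by positivity)
    · rw [mul_assoc]
      refine le_trans ?_ (mul_le_mul_of_nonneg_left (s1 _ n) (by positivity))
      rw [cadd, add_pow, Finset.mul_sum]
      refine Finset.sum_le_sum fun i _ => ?_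
      rw [← mul_assoc]
      exact mul_le_mul_of_nonneg_right (m2 a b _ _) (by positivity)
  refine ⟨⟨⟨⟨s, k1⟩, k2⟩, k3, k4⟩, s0, fun a => ?_, fun a => ?_⟩
  · have := s1 a 1
    rwa [pow_one, pow_one] at this
  · have := s2 a 1
    rwa [pow_one, pow_one] at this

end Pool.Agent.Lib.MP_13b5a2_al
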