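import Pool.Agent.Lib.MP_13b5a2_al.Gr
import Pool.Agent.Lib.MP_13b5a2_al.Quasi

/-! A monotone character attaining the growth rate of a submultiplicative additive function. -/

namespace Pool.Agent.Lib.MP_13b5a2_al

variable {R : Type*} [CommSemiring R] (κ : R →+ ℕ)

/-- The preorder defined by an additive function. -/
def Le (a b : R) : Prop := ∀ x, κ (x * a) ≤ κ (x * b)

/-- The growth rate of the powers. -/
noncomputable def grp (a : R) : ℝ := gr fun n => κ (a ^ n)

/-- Normalised additive monotone functionals. -/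
def Phi : Set (R → ℝ) :=
  {φ | (∀ a b, φ (a + b) = φ a + φ b) ∧ φ 1 = 1 ∧ ∀ a b, Le κ a b → φ a ≤ φ b}

variable {κ}

lemma kappa_nat (n : ℕ) (a : R) : κ (n * a) = n * κ a := by
  rw [← nsmul_eq_mul, map_nsmul, smul_eq_mul]

lemma Phi.zero {φ : R → ℝ} (h : φ ∈ Phi κ) : φ 0 = 0 := by
  have := h.1 0 0
  rw [add_zero] at this; linarith

lemma Phi.nat {φ : R → ℝ} (h : φ ∈ Phi κ) (n : ℕ) (a : R) : φ (n * a) = n * φ a := by
  induction n with
  | zero => simp [Phi.zero h]
  | succ n ih => rw [Nat.cast_succ, add_mul, one_mul, h.1, ih]; push_cast; ring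

lemma Phi.nonneg {φ : R → ℝ} (h : φ ∈ Phi κ) (a : R) : 0 ≤ φ a := by
  rw [← Phi.zero h]
  exact h.2.2 _ _ fun x => by simp

lemma Phi.sum {φ : R → ℝ} (h : φ ∈ Phi κ) {ι : Type*} (s : Finset ι) (f : ι → R) :
    φ (∑ i ∈ s, f i) = ∑ i ∈ s, φ (f i) := by
  classical
  induction s using Finset.induction_on with
  | empty => simp [Phi.zero h]
  | insert a s ha ih => rw [Finset.sum_insert ha, Finset.sum_insert ha, h.1, ih]

variable (hm : ∀ a b, κ (a * b) ≤ κ a * κ b)
include hm

lemma Phi.mul_le {φ : R → ℝ} (h : φ ∈ Phi κ) (a b : R) : φ (a * b) ≤ κ a * φ b := by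
  rw [← Phi.nat h]
  refine h.2.2 _ _ fun x => ?_
  rw [mul_left_comm x (κ a : R), kappa_nat, mul_left_comm]
  exact hm _ _

lemma Phi.le {φ : R → ℝ} (h : φ ∈ Phi κ) (a : R) : φ a ≤ κ a := by
  simpa [h.2.1] using Phi.mul_le hm h a 1

lemma isCompact_Phi : IsCompact (Phi κ) := by
  refine (isCompact_univ_pi fun a : R => isCompact_Icc (a := (0 : ℝ)) (b := κ a)).of_isClosed_subset
    ?_ fun φ h a _ => ⟨Phi.nonneg h a, Phi.le hm h a⟩
  simp only [Phi, Set.setOf_and, Set.setOf_forall]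
  refine (isClosed_iInter fun a => isClosed_iInter fun b => isClosed_eq (by fun_prop)
    (by fun_prop)).inter ((isClosed_eq (by fun_prop) (by fun_prop)).inter
    (isClosed_iInter fun a => isClosed_iInter fun b => isClosed_iInter fun _ =>
      isClosed_le (by fun_prop) (by fun_prop)))

lemma kappa_pow_le (a b : R) (q : ℕ) : κ (a ^ q * b) ≤ κ a ^ q * κ b := by
  induction q with
  | zero => simp
  | succ q ih =>
    rw [pow_succ', mul_assoc, pow_succ', mul_assoc]
    exact (hm _ _).trans (Nat.mul_le_mul_left _ ih)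

lemma up_self (a : R) : Up (fun n => κ (a ^ n)) (κ a) :=
  ⟨by positivity, κ 1, fun n => by
    have := kappa_pow_le hm a 1 n
    rw [mul_one, mul_comm] at this
    exact_mod_cast this⟩

lemma grp_pow_le (a : R) {n : ℕ} (hn : n ≠ 0) : grp κ a ^ n ≤ κ (a ^ n) := by
  by_contra hc
  push Not at hc
  have h0 : (0 : ℝ) ≤ κ (a ^ n) := by positivity
  obtain ⟨β, hβ, e⟩ : ∃ β : ℝ, 0 < β ∧ β ^ n = (κ (a ^ n) + grp κ a ^ n) / 2 :=
    ⟨_, Real.rpow_pos_of_pos (by linarith) _, Real.rpow_inv_natCast_pow (by linarith) hn⟩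
  have h1 : grp κ a ≤ β := by
    refine gr_le ⟨hβ.le, ∑ j ∈ Finset.range n, κ (a ^ j) / β ^ j, fun m => ?_⟩
    have h2 : (κ (a ^ m) : ℝ) ≤ (κ (a ^ n) : ℝ) ^ (m / n) * κ (a ^ (m % n)) := by
      have := kappa_pow_le hm (a ^ n) (a ^ (m % n)) (m / n)
      rw [← pow_mul, ← pow_add, Nat.div_add_mod] at this
      exact_mod_cast this
    have h3 : (κ (a ^ n) : ℝ) ^ (m / n) ≤ β ^ m / β ^ (m % n) := by
      rw [le_div_iff₀ (by positivity)]
      conv_rhs => rw [← Nat.div_add_mod m n, pow_add, pow_mul]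
      gcongr; linarith
    have h4 := Finset.single_le_sum (f := fun j => (κ (a ^ j) : ℝ) / β ^ j) (s := Finset.range n)
      (fun _ _ => by positivity) (Finset.mem_range.2 (Nat.mod_lt m (Nat.pos_of_ne_zero hn)))
    refine h2.trans (le_trans ?_ (mul_le_mul_of_nonneg_right h4 (by positivity)))
    calc _ ≤ β ^ m / β ^ (m % n) * κ (a ^ (m % n)) := by gcongr
      _ = _ := by ring
  have := pow_le_pow_left₀ (gr_nonneg _) h1 n
  change grp κ a ^ n ≤ _ at this
  linarith

lemma grp_pow_le' {a : R} (h : 0 < grp κ a) (n : ℕ) : grp κ a ^ n ≤ κ (a ^ n) := by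
  rcases eq_or_ne n 0 with rfl | hn
  · have h1 := grp_pow_le hm a one_ne_zero
    have h2 := hm a 1
    rw [pow_one, pow_one] at h1
    rw [mul_one] at h2
    have : κ 1 ≠ 0 := by
      rintro e
      rw [e, mul_zero, Nat.le_zero] at h2
      rw [h2] at h1
      simp at h1; linarith
    rw [pow_zero, pow_zero]
    exact_mod_cast Nat.pos_of_ne_zero this
  · exact grp_pow_le hm a hn

lemma exists_approx {N : R} (h : 0 < grp κ N) (m : ℕ) : ∃ φ ∈ Phi κ,
    ∀ y, |φ (N * y) - grp κ N * φ y| ≤ grp κ N * κ y / (m + 1) := by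
  set l := grp κ N
  let D : ℕ → R → ℝ := fun n y => ∑ j ∈ Finset.range n, κ (N ^ j * y) / l ^ j
  have hD : ∀ n : ℕ, (n : ℝ) ≤ D n 1 := fun n => by
    have := Finset.card_nsmul_le_sum (Finset.range n) (fun j => (κ (N ^ j * 1) : ℝ) / l ^ j) 1
      fun j _ => by rw [mul_one, one_le_div (by positivity)]; exact grp_pow_le' hm h j
    simpa [D] using this
  have hm1 : (0 : ℝ) < m + 1 := by positivity
  obtain ⟨n, hn, hn'⟩ : ∃ n, m + 1 ≤ n ∧ κ (N ^ n) / l ^ n ≤ D n 1 / (m + 1) := by
    by_contra hc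
    push Not at hc
    have hε : (0 : ℝ) < 1 / (m + 1) := by positivity
    set ε : ℝ := 1 / (m + 1)
    have h1 : ∀ j : ℕ, (1 + ε) ^ j ≤ D (m + 1 + j) 1 := fun j => by
      induction j with
      | zero => have := hD (m + 1); simp only [pow_zero, add_zero]; push_cast at this; linarith
      | succ j ih =>
        have h2 := hc (m + 1 + j) (by omega)
        have h3 : D (m + 1 + (j + 1)) 1 = D (m + 1 + j) 1 +
          κ (N ^ (m + 1 + j)) / l ^ (m + 1 + j) := by
            simp only [D, ← add_assoc, Finset.sum_range_succ (n := m + 1 + j), mul_one]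
        rw [h3, pow_succ]
        rw [div_eq_mul_one_div] at h2
        nlinarith
    obtain ⟨-, C, hC⟩ := up_of_gr_lt (up_self hm N) (β := l * (1 + ε / 2))
      (by change l < _; nlinarith)
    have := le_of_pow_le (x := 1 + ε) (y := 1 + ε / 2) (K := (m + 1) * C * (1 + ε / 2) ^ (m + 1))
      (by linarith) fun j => by
        have h2 := hc (m + 1 + j) (by omega)
        have h3 := hC (m + 1 + j)
        rw [mul_pow, mul_left_comm, mul_comm, ← div_le_iff₀ (by positivity)] at h3
        have h4 := h2.le.trans h3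
        rw [div_le_iff₀ hm1, pow_add] at h4
        exact (h1 j).trans (h4.trans (le_of_eq (by ring)))
    linarith
  have hn1 : (m + 1 : ℝ) ≤ D n 1 := le_trans (by exact_mod_cast hn) (hD n)
  have hp : 0 < D n 1 := by linarith
  refine ⟨fun y => D n y / D n 1, ⟨fun a b => ?_, div_self hp.ne', fun a b hab => ?_⟩, fun y => ?_⟩
  · simp only [D, mul_add, map_add, Nat.cast_add, add_div, Finset.sum_add_distrib]
  · refine div_le_div_of_nonneg_right (Finset.sum_le_sum fun j _ => ?_) hp.le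
    have := hab (N ^ j)
    gcongr
  · have e : D n (N * y) - l * D n y = l * (κ (N ^ n * y) / l ^ n - κ y) := by
      have := Finset.sum_range_sub (fun j => (κ (N ^ j * y) : ℝ) / l ^ j) n
      simp only [pow_zero, one_mul, div_one] at this
      rw [← this, Finset.mul_sum, Finset.mul_sum, ← Finset.sum_sub_distrib]
      refine Finset.sum_congr rfl fun j _ => ?_
      rw [pow_succ N, pow_succ l, mul_assoc]
      field_simp
    rw [← mul_div_assoc, ← sub_div, e, abs_div, abs_mul, abs_of_pos h, abs_of_pos hp,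
      mul_div_assoc, mul_div_assoc]
    refine mul_le_mul_of_nonneg_left ?_ h.le
    rw [div_le_iff₀ hp, abs_le]
    have h1 : (κ (N ^ n * y) : ℝ) / l ^ n ≤ κ y / (m + 1) * D n 1 := by
      have : (κ (N ^ n * y) : ℝ) ≤ κ (N ^ n) * κ y := by exact_mod_cast hm _ _
      calc _ ≤ (κ (N ^ n) * κ y : ℝ) / l ^ n := by gcongr
        _ = κ y * (κ (N ^ n) / l ^ n) := by ring
        _ ≤ κ y * (D n 1 / (m + 1)) := by gcongr
        _ = _ := by ring
    have h2 : (κ y : ℝ) ≤ κ y / (m + 1) * D n 1 := by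
      calc _ = κ y / (m + 1) * (m + 1 : ℝ) := by field_simp
        _ ≤ _ := by gcongr
    have h3 : (0 : ℝ) ≤ κ (N ^ n * y) / l ^ n := by positivity
    have h4 : (0 : ℝ) ≤ κ y := by positivity
    constructor <;> linarith

lemma exists_eigen {N : R} (h : 0 < grp κ N) :
    (Phi κ ∩ {φ | ∀ y, φ (N * y) = grp κ N * φ y}).Nonempty := by
  obtain ⟨φ, h1, h2⟩ := (isCompact_Phi hm).inter_iInter_nonempty
    (fun m : ℕ => {φ | ∀ y, |φ (N * y) - grp κ N * φ y| ≤ grp κ N * κ y / (m + 1)})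
    (fun m => by
      simp only [Set.setOf_forall]
      exact isClosed_iInter fun y => isClosed_le (by fun_prop) (by fun_prop))
    (fun u => by
      obtain ⟨φ, h1, h2⟩ := exists_approx hm h (u.sup id)
      refine ⟨φ, h1, Set.mem_iInter₂.2 fun m hu y => (h2 y).trans ?_⟩
      have : m ≤ u.sup id := Finset.le_sup (f := id) hu
      gcongr)
  refine ⟨φ, h1, fun y => sub_eq_zero.1 (abs_nonpos_iff.1 ?_)⟩
  refine ge_of_tendsto' (tendsto_const_div_atTop_nhds_zero_nat (grp κ N * κ y) |>.comp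
    (Filter.tendsto_add_atTop_nat 1)) fun m => ?_
  simpa using Set.mem_iInter.1 h2 m y

lemma exists_extreme {N : R} (h : 0 < grp κ N) : ∃ φ ∈ Phi κ, φ N = grp κ N ∧
    ∀ X N', N = X + N' → ∀ y, φ (X * y) = φ X * φ y := by
  have hc : IsCompact (Phi κ ∩ {φ | ∀ y, φ (N * y) = grp κ N * φ y}) := by
    refine (isCompact_Phi hm).inter_right ?_
    simp only [Set.setOf_forall]
    exact isClosed_iInter fun y => isClosed_eq (by fun_prop) (by fun_prop)
  obtain ⟨φ, ⟨h1, h2⟩, h3⟩ := hc.extremePoints_nonempty (exists_eigen hm h)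
  have hN : φ N = grp κ N := by simpa [h1.2.1] using h2 1
  have key : ∀ X, φ X ≠ 0 → (fun y => φ (X * y) / φ X) ∈
      Phi κ ∩ {φ | ∀ y, φ (N * y) = grp κ N * φ y} := fun X hX =>
    ⟨⟨fun a b => by simp only [mul_add, h1.1, add_div], by simp [hX], fun a b hab =>
      div_le_div_of_nonneg_right (h1.2.2 _ _ fun x => by
        rw [← mul_assoc, ← mul_assoc]; exact hab _) (Phi.nonneg h1 X)⟩, fun y => by
      simp only [mul_left_comm X, h2 _, mul_div_assoc]⟩
  have null : ∀ X, φ X = 0 → ∀ y, φ (X * y) = 0 := fun X hX y =>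
    le_antisymm (by simpa [hX, mul_comm] using Phi.mul_le hm h1 y X) (Phi.nonneg h1 _)
  refine ⟨φ, h1, hN, fun X N' e y => ?_⟩
  have e1 : ∀ y, φ (X * y) + φ (N' * y) = grp κ N * φ y := fun y => by
    rw [← h1.1, ← add_mul, ← e, h2]
  have e2 : φ X + φ N' = grp κ N := by rw [← h1.1, ← e, hN]
  by_cases hX : φ X = 0
  · rw [null X hX, hX, zero_mul]
  by_cases hN' : φ N' = 0
  · have := e1 y
    rw [null N' hN', ← e2, hN'] at this
    simpa using this
  have := h3 (key X hX) (key N' hN') ⟨φ X / grp κ N, φ N' / grp κ N,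
    div_pos ((Phi.nonneg h1 _).lt_of_ne' hX) h, div_pos ((Phi.nonneg h1 _).lt_of_ne' hN') h,
    by rw [← add_div, e2, div_self h.ne'], funext fun y => by
      simp only [Pi.add_apply, Pi.smul_apply, smul_eq_mul]
      field_simp
      rw [e1]⟩
  have h4 : φ (X * y) / φ X = φ y := congrFun this y
  rw [← h4]; field_simp

theorem exists_glob {M : R} (h : 0 < grp κ M) :
    ∃ S : R →+* ℝ, (∀ a b, Le κ a b → S a ≤ S b) ∧ S M = grp κ M := by
  obtain ⟨φ, h1, h2⟩ := (isCompact_Phi hm).inter_iInter_nonempty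
    (fun i : R × ℕ => {φ | (∀ y, φ (i.1 * y) = φ i.1 * φ y) ∧ grp κ M - 1 / (i.2 + 1) ≤ φ M})
    (fun i => by
      simp only [Set.setOf_and, Set.setOf_forall]
      exact (isClosed_iInter fun y => isClosed_eq (by fun_prop) (by fun_prop)).inter
        (isClosed_le (by fun_prop) (by fun_prop)))
    (fun u => by
      classical
      set B := ∑ i ∈ u, κ i.1
      set m := (B + 1) * (u.sup Prod.snd + 1)
      have hm0 : (0 : ℝ) < m := by positivity
      have h1 : m * grp κ M ≤ grp κ (m * M + ∑ i ∈ u, i.1) := by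
        refine le_gr (up_self hm _) fun β ⟨h0, C, hC⟩ => le_of_pow_le (K := C) h0 fun n => ?_
        refine le_trans ?_ (hC n)
        obtain ⟨z, hz⟩ : ∃ z, ((m : R) * M + ∑ i ∈ u, i.1) ^ n = (m * M) ^ n + z := by
          induction n with
          | zero => exact ⟨0, by simp⟩
          | succ n ih =>
            obtain ⟨z, hz⟩ := ih
            exact ⟨_, by rw [pow_succ, hz, add_mul, mul_add, ← pow_succ, add_assoc]⟩
        simp only [hz, map_add, mul_pow, ← Nat.cast_pow, kappa_nat]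
        have := grp_pow_le' hm h n
        push_cast
        have h5 : (0 : ℝ) ≤ κ z := by positivity
        nlinarith [mul_le_mul_of_nonneg_left this (pow_pos hm0 n).le]
      obtain ⟨φ, h2, h3, h4⟩ := exists_extreme hm ((mul_pos hm0 h).trans_le h1)
      refine ⟨φ, h2, Set.mem_iInter₂.2 fun i hi => ⟨h4 _ (m * M + ∑ j ∈ u.erase i, j.1) ?_, ?_⟩⟩
      · rw [← Finset.add_sum_erase u _ hi]; ring
      · rw [← h3, h2.1, Phi.nat h2, Phi.sum h2] at h1
        have h5 : ∑ i ∈ u, φ i.1 ≤ B := by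
          simp only [B]; push_cast
          exact Finset.sum_le_sum fun i _ => Phi.le hm h2 _
        have h6 : (B : ℝ) ≤ m * (1 / (i.2 + 1)) := by
          have : i.2 ≤ u.sup Prod.snd := Finset.le_sup (f := Prod.snd) hi
          rw [mul_one_div, le_div_iff₀ (by positivity)]
          simp only [m]; push_cast
          gcongr; linarith
        refine le_of_mul_le_mul_left ?_ hm0
        linarith)
  have h3 := fun i => Set.mem_iInter.1 h2 i
  let S : R →+* ℝ := ⟨⟨⟨φ, h1.2.1⟩, fun a b => (h3 (a, 0)).1 b⟩, Phi.zero h1, h1.1⟩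
  refine ⟨S, h1.2.2, le_antisymm (le_gr (up_self hm _) fun β ⟨h0, C, hC⟩ =>
    le_of_pow_le (K := C) h0 fun n => ?_) ?_⟩
  · rw [← map_pow]
    exact (Phi.le hm h1 _).trans (hC n)
  · have := (tendsto_one_div_add_atTop_nhds_zero_nat (𝕜 := ℝ)).const_sub (grp κ M)
    rw [sub_zero] at this
    exact le_of_tendsto' this fun m => (h3 (0, m)).2

end Pool.Agent.Lib.MP_13b5a2_al
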