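import Mathlib

/-! A central non-generator of order p in a finite p-group that is not elementary abelian. -/

namespace Pool.Agent.Lib.MP_13b5a2_al

variable {p : ℕ} [Fact p.Prime] {P : Type} [Group P] [Finite P]

lemma coatom_pow_comm (hP : IsPGroup p P) {M : Subgroup P} (hM : IsCoatom M) :
    (∀ a : P, a ^ p ∈ M) ∧ ∀ a b : P, a * b * a⁻¹ * b⁻¹ ∈ M := by
  have hnil : Group.IsNilpotent P := hP.isNilpotent
  have hN : M.Normal :=
    Subgroup.NormalizerCondition.normal_of_coatom M Group.normalizerCondition_of_isNilpotent hM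
  have key : ∀ a ∉ M, ∀ b : P,
      QuotientGroup.mk' M b ∈ Subgroup.zpowers (QuotientGroup.mk' M a) := by
    intro a ha b
    have hlt : M < (Subgroup.zpowers (QuotientGroup.mk' M a)).comap (QuotientGroup.mk' M) := by
      refine lt_of_le_of_ne (fun x hx => ?_) (fun h => ha ?_)
      · rw [Subgroup.mem_comap]
        have : QuotientGroup.mk' M x = 1 := (QuotientGroup.eq_one_iff x).2 hx
        rw [this]; exact one_mem _
      · rw [h, Subgroup.mem_comap]; exact Subgroup.mem_zpowers _
    have := hM.2 _ hlt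
    have hb : b ∈ (Subgroup.zpowers (QuotientGroup.mk' M a)).comap (QuotientGroup.mk' M) := by
      rw [this]; trivial
    exact hb
  refine ⟨fun a => ?_, fun a b => ?_⟩
  · by_contra hap
    obtain ⟨n, hn⟩ := key _ hap a
    simp only [map_pow] at hn
    set x := QuotientGroup.mk' M a with hx
    have hj : ∀ j : ℕ, ∃ m : ℤ, (x ^ p ^ j) ^ m = x := by
      intro j
      induction j with
      | zero => exact ⟨1, by simp⟩
      | succ j ih =>
        obtain ⟨m, hm⟩ := ih
        refine ⟨n * m, ?_⟩
        have h1 : (x ^ p ^ (j + 1)) ^ n = x ^ p ^ j := by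
          conv_rhs => rw [← hn]
          rw [← zpow_natCast, ← zpow_natCast, ← zpow_natCast, ← zpow_mul, ← zpow_mul, ← zpow_mul]
          congr 1; push_cast; ring
        rw [zpow_mul, h1, hm]
    obtain ⟨j, hj'⟩ := hP a
    obtain ⟨m, hm⟩ := hj j
    have : x ^ p ^ j = 1 := by rw [hx, ← map_pow, hj', map_one]
    rw [this, one_zpow] at hm
    exact hap (M.pow_mem ((QuotientGroup.eq_one_iff a).1 hm.symm) p)
  · by_cases ha : a ∈ M
    · have := hN.conj_mem _ (M.inv_mem ha) b
      have h2 := M.mul_mem ha this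
      simpa [mul_assoc] using h2
    · obtain ⟨n, hn⟩ := key a ha b
      refine (QuotientGroup.eq_one_iff _).1 ?_
      change QuotientGroup.mk' M (a * b * a⁻¹ * b⁻¹) = 1
      simp only [map_mul, map_inv]
      rw [← hn]
      group

lemma exists_central_nongen (hP : IsPGroup p P)
    (hne : ¬ ((∀ a b : P, a * b = b * a) ∧ ∀ a : P, a ^ p = 1)) :
    ∃ z : P, z ≠ 1 ∧ z ^ p = 1 ∧ (∀ g, g * z = z * g) ∧
      ∀ K : Subgroup P, K ⊔ Subgroup.zpowers z = ⊤ → K = ⊤ := by
  have hF : frattini P ≠ ⊥ := by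
    intro h
    have hmem : ∀ x : P, (∀ M : Subgroup P, IsCoatom M → x ∈ M) → x = 1 := by
      intro x hx
      have : x ∈ frattini P := by
        unfold frattini Order.radical
        simp only [Subgroup.mem_iInf]
        exact fun M hM => hx M hM
      rwa [h, Subgroup.mem_bot] at this
    refine hne ⟨fun a b => ?_, fun a => hmem _ fun M hM => (coatom_pow_comm hP hM).1 a⟩
    have := hmem _ fun M hM => (coatom_pow_comm hP hM).2 a b
    calc a * b = (a * b * a⁻¹ * b⁻¹) * (b * a) := by group
      _ = b * a := by rw [this, one_mul]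
  have hC : IsPGroup p (ConjAct P) := hP.of_equiv ConjAct.toConjAct
  have hdvd : p ∣ Nat.card (frattini P) := by
    have hnt : Nontrivial (frattini P) := (Subgroup.nontrivial_iff_ne_bot _).2 hF
    obtain ⟨n, hn, hc⟩ := (IsPGroup.nontrivial_iff_card (hP.to_subgroup (frattini P))).1 hnt
    rw [hc]; exact dvd_pow_self p hn.ne'
  obtain ⟨y, hy, hy1⟩ := hC.exists_fixed_point_of_prime_dvd_card_of_fixed_point (frattini P) hdvd
    (a := 1) (fun g => smul_one g)
  have hyc : ∀ g : P, g * y = y * g := fun g => by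
    have h1 := congrArg Subtype.val (hy (ConjAct.toConjAct g))
    change g * y * g⁻¹ = y at h1
    conv_rhs => rw [← h1]
    group
  have hy0 : (y : P) ≠ 1 := fun h => hy1 (Subtype.ext h.symm)
  obtain ⟨j, hj⟩ := hP (y : P)
  have hex : ∃ j, (y : P) ^ p ^ j = 1 := ⟨j, hj⟩
  classical
  have h0 : Nat.find hex ≠ 0 := fun h => hy0 (by simpa [h] using Nat.find_spec hex)
  obtain ⟨i, hi⟩ := Nat.exists_eq_succ_of_ne_zero h0
  refine ⟨(y : P) ^ p ^ i, Nat.find_min hex (by omega), ?_, fun g => ?_, fun K hK => ?_⟩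
  · rw [← pow_mul, ← pow_succ]
    have := Nat.find_spec hex
    rwa [hi] at this
  · exact ((show Commute g (y : P) from hyc g).pow_right _).eq
  · refine frattini_nongenerating (top_le_iff.1 (hK.symm.le.trans (sup_le_sup_left ?_ _)))
    rw [Subgroup.zpowers_le]
    exact (frattini P).pow_mem y.2 _

end Pool.Agent.Lib.MP_13b5a2_al
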