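import Pool.Agent.Lib.MP_13b5a2_al.ChouSphere
import Pool.Agent.Lib.MP_13b5a2_al.ChouGroup

/-! The quantitative Chouinard step: the core of a module for a p-group that is not elementary
abelian is controlled by the cores of its restrictions to proper subgroups. -/

universe u

namespace Pool.Agent.Lib.MP_13b5a2_al

open TensorProduct Module

variable {k : Type u} [Field k] {p : ℕ} [Fact p.Prime] [CharP k p]

/-- The inclusion of the constants. -/
def constMap (k : Type u) [Field k] (G : Type) : k →ₗ[k] (G → k) := LinearMap.pi fun _ => LinearMap.id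

lemma isHom_constMap {G : Type} [Group G] [Finite G] :
    Obj.IsHom (Obj.one : Obj k G) Obj.reg (constMap k G) := fun _ _ => rfl

lemma constMap_injective {G : Type} [Group G] : Function.Injective (constMap k G) :=
  fun _ _ h => congrFun h 1

omit [Fact (Nat.Prime p)] in
lemma rkN_one {G : Type} [Group G] [Finite G] (h : p ∣ Nat.card G) : Cl.rkN (1 : Cl k G) = 0 := by
  have := Fintype.ofFinite G
  change finrank k (LinearMap.range (Obj.one : Obj k G).N) = 0
  rw [Submodule.finrank_eq_zero, LinearMap.range_eq_bot]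
  refine LinearMap.ext fun (v : k) => ?_
  rw [Obj.norm_apply]
  simp only [Representation.trivial_apply, Finset.sum_const, Finset.card_univ, nsmul_eq_mul, LinearMap.zero_apply]
  rw [← Nat.card_eq_fintype_card, (CharP.cast_eq_zero_iff k p _).2 h, zero_mul]

lemma exists_jordan {C : Type} [Group C] [Finite C] (hC : IsPGroup p C) {σ : C} (hσ1 : σ ≠ 1)
    (hσ : ∀ c, c ∈ Subgroup.zpowers σ) : ∃ J J' : Cl k C, SES 1 (Obj.reg : Obj k C).cl J ∧
      SES J (Obj.reg : Obj k C).cl 1 ∧ SES 1 J J' ∧ Cl.rkN J = 0 := by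
  classical
  have := Fintype.ofFinite C
  let t : (C → k) →ₗ[k] (C → k) := (Obj.reg : Obj k C).ρ σ - LinearMap.id
  have ht : Obj.IsHom (Obj.reg : Obj k C) Obj.reg t := by
    intro g f
    obtain ⟨n, rfl⟩ := hσ g
    ext s
    simp only [t, LinearMap.sub_apply, LinearMap.id_apply, Pi.sub_apply, Obj.funRep_apply,
      Representation.trivial_apply, smul_eq_mul]
    congr 2
    group
  have hker : LinearMap.ker t = LinearMap.range (constMap k C) := by
    have h1 : LinearMap.ker t = (Obj.reg : Obj k C).ρ.invariants := by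
      ext f
      rw [Representation.mem_invariants_iff_of_forall_mem_zpowers _ σ hσ, LinearMap.mem_ker]
      exact sub_eq_zero
    rw [h1, reg_invariants]
    ext f
    rw [Submodule.mem_span_singleton]
    exact ⟨fun ⟨c, hc⟩ => ⟨c, hc ▸ funext fun _ => (mul_one c).symm⟩,
      fun ⟨c, hc⟩ => ⟨c, hc ▸ funext fun _ => mul_one c⟩⟩
  let e : (C → k) →ₗ[k] k := ∑ g, LinearMap.proj g
  have he' : ∀ f, e f = ∑ g, f g := fun f => by simp [e, LinearMap.sum_apply]
  have he : Obj.IsHom (Obj.reg : Obj k C) Obj.one e := fun g f => by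
    rw [Obj.one_ρ, he', he']
    exact Fintype.sum_equiv (Equiv.mulLeft g⁻¹) _ _ fun s => rfl
  have hes : Function.Surjective e := fun c => ⟨Pi.single 1 c, by rw [he']; simp⟩
  have h1 := LinearMap.finrank_range_add_finrank_ker t
  have h2 := LinearMap.finrank_range_add_finrank_ker e
  rw [hker, LinearMap.finrank_range_of_inj constMap_injective] at h1
  rw [LinearMap.range_eq_top.2 hes, finrank_top] at h2
  have hrange : LinearMap.range t = LinearMap.ker e := by
    refine Submodule.eq_of_le_of_finrank_le ?_ (by omega)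
    rintro _ ⟨f, rfl⟩
    rw [LinearMap.mem_ker]
    change e ((Obj.reg : Obj k C).ρ σ f - f) = 0
    rw [map_sub, he, Obj.one_ρ, sub_self]
  let J : Obj k C := (Obj.reg : Obj k C).sub _ ht.range_inv
  have hne : (⊤ : Submodule k J.V) ≠ ⊥ := by
    intro h
    have h3 : t (Pi.single 1 1) = 0 := by
      have : (⟨t (Pi.single 1 1), _, rfl⟩ : LinearMap.range t) ∈ (⊤ : Submodule k J.V) := trivial
      rw [h, Submodule.mem_bot] at this
      exact congrArg Subtype.val this
    have h4 := congrFun h3 σ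
    simp [t, Pi.single_eq_of_ne hσ1] at h4
  obtain ⟨v, -, hv, hfix⟩ := exists_fixed hC J.ρ ⊤ (fun _ _ _ => trivial) hne
  have hv' : Obj.IsHom Obj.one J (LinearMap.toSpanSingleton k J.V v) := fun g (c : k) => by
    change c • v = J.ρ g (c • v)
    rw [map_smul, hfix]
  refine ⟨J.cl, _, ⟨Obj.one, Obj.reg, J, rfl, rfl, rfl, constMap k C, t.rangeRestrict,
    isHom_constMap, ht.codRestrict _ _ _, constMap_injective, ?_, t.surjective_rangeRestrict⟩,
    ⟨J, Obj.reg, Obj.one, rfl, rfl, rfl, (LinearMap.range t).subtype, e, Obj.isHom_subtype _ _ _,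
      he, Submodule.injective_subtype _, ?_, hes⟩,
    exists_ses hv' (LinearMap.ker_eq_bot.1 (LinearMap.ker_toSpanSingleton k hv)), ?_⟩
  · rw [LinearMap.exact_iff, LinearMap.ker_rangeRestrict, hker]
  · rw [LinearMap.exact_iff, Submodule.range_subtype, hrange]
  · change finrank k (LinearMap.range J.N) = 0
    rw [Submodule.finrank_eq_zero, LinearMap.range_eq_bot]
    refine LinearMap.ext fun ⟨_, f, rfl⟩ => Subtype.ext ?_
    have h5 := (Obj.isHom_subtype (Obj.reg : Obj k C) _ ht.range_inv).norm ⟨_, f, rfl⟩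
    refine h5.trans ?_
    change (Obj.reg : Obj k C).N ((Obj.reg : Obj k C).ρ σ f - f) = 0
    rw [map_sub, Obj.norm_self_apply, sub_self]

section product

variable {P C : Type} [Group P] [Finite P] [Group C] [Finite C]

lemma rm_sigma_le (hC : IsPGroup p C) {σ : C} (hσ : ∀ c, c ∈ Subgroup.zpowers σ)
    {s : Cl k (P × C)} (hs : SES 1 (Obj.reg : Obj k (P × C)).cl s) (x : Cl k (P × C)) :
    rm σ (s * x) ≤ r0 x := by
  have h1 := (hs.mul x).rm_le hσ (by
    refine Nat.le_zero.1 ((hhat_le_kap hC _).trans (le_of_eq ?_))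
    rw [map_mul, mul_comm]
    exact kap_res_reg_mul hC _ (fun a b h => congrArg Prod.snd h) _)
  rwa [mul_one, mul_comm] at h1

lemma r0_le_rm_sigma (σ : C) {s : Cl k (P × C)} (hs : SES 1 (Obj.reg : Obj k (P × C)).cl s)
    (x : Cl k (P × C)) : r0 x ≤ rm σ (s * x) := by
  have h1 := (hs.mul x).r0_le σ
  rwa [mul_one, mul_comm x, mul_comm x, hhat_reg_mul, add_zero] at h1

omit [Finite P] [Finite C] in
lemma res_inr_snd (a : Cl k C) :
    Cl.res (MonoidHom.inr P C) (Cl.res (MonoidHom.snd P C) a) = a := by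
  induction a using Cl.ind; rfl

omit [Finite P] [Finite C] in
lemma res_inl_fst (a : Cl k P) :
    Cl.res (MonoidHom.inl P C) (Cl.res (MonoidHom.fst P C) a) = a := by
  induction a using Cl.ind; rfl

omit [Finite P] [Finite C] in
lemma res_inr_fst (a : Cl k P) :
    Cl.res (MonoidHom.inr P C) (Cl.res (MonoidHom.fst P C) a) = (Cl.dim a : Cl k C) := by
  induction a using Cl.ind with | h X => ?_
  refine Eq.trans ?_ (Obj.cl_triv _ X.V rfl)
  exact Obj.Iso.cl_eq ⟨LinearEquiv.refl _ _, fun g v => by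
    change X.ρ 1 v = v
    simp⟩

omit [Finite P] [Finite C] in
lemma dInv_res_fst (a : Cl k P) : Cl.dInv (Cl.res (MonoidHom.fst P C) a) = Cl.dInv a := by
  induction a using Cl.ind with | h X => ?_
  have : (X.res (MonoidHom.fst P C)).ρ.invariants = X.ρ.invariants := by
    ext v
    exact ⟨fun h g => h (g, 1), fun h g => h g.1⟩
  exact congrArg (fun U : Submodule k X.V => finrank k U) this

lemma dInv_le_r0 (hC : IsPGroup p C) {σ : C} (hσ1 : σ ≠ 1) (hσ : ∀ c, c ∈ Subgroup.zpowers σ)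
    {s : Cl k (P × C)} (hs : SES 1 (Obj.reg : Obj k (P × C)).cl s) (a : Cl k P) (n : ℕ) :
    Cl.dInv a ≤ r0 (s ^ n * Cl.res (MonoidHom.fst P C) a) := by
  obtain ⟨J, J', h1, h2, h3, h4⟩ := exists_jordan (k := k) hC hσ1 hσ
  have hdvd : p ∣ Nat.card C := by
    have hnt : Nontrivial C := ⟨σ, 1, hσ1⟩
    obtain ⟨n, hn, hc⟩ := (IsPGroup.nontrivial_iff_card hC).1 hnt
    rw [hc]; exact dvd_pow_self p hn.ne'
  set w := Cl.res (MonoidHom.fst P C) a with hw
  have step : ∀ {x y : Cl k C}, SES x (Obj.reg : Obj k C).cl y → ∀ u : Cl k (P × C),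
      r0 (u * Cl.res (MonoidHom.snd P C) y) ≤ r0 (s * u * Cl.res (MonoidHom.snd P C) x) := by
    intro x y hxy u
    refine (r0_le_rm_sigma σ hs _).trans ?_
    rw [← mul_assoc]
    refine ((hxy.res (MonoidHom.snd P C)).mul (s * u)).rm_le hσ ?_
    rw [map_mul, res_inr_snd, mul_comm, hhat_reg_mul]
  have key : Cl.dInv a ≤ r0 (s ^ n * w * Cl.res (MonoidHom.snd P C) 1) ∧
      Cl.dInv a ≤ r0 (s ^ n * w * Cl.res (MonoidHom.snd P C) J) := by
    induction n with
    | zero =>
      rw [pow_zero, one_mul, r0_eq_dInv, r0_eq_dInv]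
      · have h5 := ((h3.res (MonoidHom.snd P C)).mul w).dInv_le
        rw [map_one, mul_one, hw, dInv_res_fst] at h5 ⊢
        exact ⟨le_rfl, h5⟩
      · rw [map_mul, res_inr_snd, hw, res_inr_fst, addHom_natCast_mul, h4, mul_zero]
      · rw [map_mul, res_inr_snd, hw, res_inr_fst, addHom_natCast_mul, rkN_one hdvd, mul_zero]
    | succ n ih =>
      rw [pow_succ', mul_assoc s]
      exact ⟨ih.2.trans (step h1 _), ih.1.trans (step h2 _)⟩
  simpa using key.1

omit [Fact (Nat.Prime p)] [Finite P] [Finite C] in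
lemma isPGroup_prod (hP : IsPGroup p P) (hC : IsPGroup p C) : IsPGroup p (P × C) := by
  rintro ⟨g, c⟩
  obtain ⟨a, ha⟩ := hP g
  obtain ⟨b, hb⟩ := hC c
  refine ⟨a + b, Prod.ext ?_ ?_⟩
  · change g ^ p ^ (a + b) = 1
    rw [pow_add, pow_mul, ha, one_pow]
  · change c ^ p ^ (a + b) = 1
    rw [pow_add, mul_comm, pow_mul, hb, one_pow]

end product

variable {P : Type} [Group P] [Finite P]

lemma kap_perm_le (hP : IsPGroup p P) {z : P} (hz1 : z ≠ 1) (hzp : z ^ p = 1)
    (hK : ∀ K : Subgroup P, K ⊔ Subgroup.zpowers z = ⊤ → K = ⊤)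
    (μ : P × Subgroup.zpowers z →* P) (hμ : ∀ g c, μ (g, c) = g * c)
    (S : Type) [Fintype S] [MulAction P S] (hS : ∀ s : S, z • s ≠ s) :
    ∃ K : ℕ, ∀ (a : Cl k P) (M : ℕ), (∀ H : Subgroup P, H ≠ ⊤ → kap (Cl.res H.subtype a) ≤ M) →
      kap (Cl.res μ (Obj.funObj S Obj.one).cl * Cl.res (MonoidHom.fst _ _) a) ≤ K * M := by
  have hΓ := isPGroup_prod hP (hP.to_subgroup (Subgroup.zpowers z))
  let _ : MulAction (P × Subgroup.zpowers z) S := MulAction.compHom S μ
  refine ⟨Nat.card (P × Subgroup.zpowers z) * Fintype.card S, fun a M hM => ?_⟩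
  induction a using Cl.ind with | h X => ?_
  have h1 : Cl.res μ (Obj.funObj S (Obj.one : Obj k P)).cl =
      (Obj.funObj S (Obj.one : Obj k (P × Subgroup.zpowers z))).cl :=
    Obj.Iso.cl_eq ⟨LinearEquiv.refl _ _, fun h f => by
      ext s
      change f ((μ h)⁻¹ • s) = f (μ h⁻¹ • s)
      rw [map_inv]⟩
  rw [h1, Cl.res_cl, ← Obj.cl_funObj, mul_assoc]
  refine (kap_le_card_mul_hhat hΓ _).trans (Nat.mul_le_mul_left _ ?_)
  refine (hhat_funObj_le S _).trans ?_
  rw [← Finset.card_univ, ← smul_eq_mul]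
  refine Finset.sum_le_card_nsmul _ _ _ fun s _ => ?_
  refine (hhat_le_kap (hΓ.to_subgroup _) _).trans ?_
  let φ : MulAction.stabilizer (P × Subgroup.zpowers z) s →* P :=
    (MonoidHom.fst _ _).comp (MulAction.stabilizer (P × Subgroup.zpowers z) s).subtype
  have hcard : Nat.card (Subgroup.zpowers z) = p := by
    rw [Nat.card_zpowers, orderOf_eq_prime hzp hz1]
  have hφ : Function.Injective φ := by
    rw [injective_iff_map_eq_one]
    rintro ⟨⟨g, c⟩, hgc⟩ hg
    change g = 1 at hg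
    subst hg
    have h2 : (c : P) • s = s := by
      have : μ (1, c) • s = s := hgc
      rwa [hμ, one_mul] at this
    by_contra hne
    have h3 : c ≠ 1 := fun e => hne (Subtype.ext (Prod.ext rfl e))
    obtain ⟨n, hn⟩ := mem_zpowers_of_prime_card hcard (g' := ⟨z, Subgroup.mem_zpowers z⟩) h3
    have h4 : (c : P) ^ n = z := congrArg Subtype.val hn
    have h5 : (c : P) ^ n ∈ MulAction.stabilizer P s := zpow_mem (show (c : P) ∈ _ from h2) n
    rw [h4] at h5
    exact hS s h5
  have hH : φ.range ≠ ⊤ := by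
    intro h
    have h2 : MulAction.stabilizer P s = ⊤ := by
      refine hK _ (top_le_iff.1 fun g _ => ?_)
      obtain ⟨⟨⟨g', c⟩, hgc⟩, hg⟩ : g ∈ φ.range := h ▸ Subgroup.mem_top g
      change g' = g at hg
      subst hg
      have h3 : g' * c ∈ MulAction.stabilizer P s := by
        have : μ (g', c) • s = s := hgc
        rwa [hμ] at this
      have h4 := mul_mem (Subgroup.mem_sup_left (T := Subgroup.zpowers z) h3)
        (Subgroup.mem_sup_right (S := MulAction.stabilizer P s) (inv_mem c.2))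
      simpa using h4
    exact hS s (show z ∈ MulAction.stabilizer P s from h2 ▸ Subgroup.mem_top z)
  refine le_trans ?_ (hM _ hH)
  exact kap_res_le (hP.to_subgroup φ.range) φ.rangeRestrict
    (fun a b h => hφ (congrArg Subtype.val h)) (Cl.res φ.range.subtype X.cl)

theorem chouinard_step {k : Type u} [Field k] {p : ℕ} [Fact p.Prime] [CharP k p] {P : Type}
    [Group P] [Finite P] (hP : IsPGroup p P)
    (hne : ¬ ((∀ a b : P, a * b = b * a) ∧ ∀ a : P, a ^ p = 1)) :
    ∃ K : ℕ, ∀ a : Cl k P, ∃ H : Subgroup P, H ≠ ⊤ ∧ kap a ≤ K * kap (Cl.res H.subtype a) := by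
  obtain ⟨z, hz1, hzp, hz, hK⟩ := exists_central_nongen hP hne
  have hC := hP.to_subgroup (Subgroup.zpowers z)
  have hΓ := isPGroup_prod hP hC
  let σ : Subgroup.zpowers z := ⟨z, Subgroup.mem_zpowers z⟩
  have hσ1 : σ ≠ 1 := fun e => hz1 (congrArg Subtype.val e)
  have hσ : ∀ c, c ∈ Subgroup.zpowers σ := by
    rintro ⟨_, n, rfl⟩
    exact ⟨n, rfl⟩
  let μ : P × Subgroup.zpowers z →* P :=
    MonoidHom.noncommCoprod (MonoidHom.id P) (Subgroup.zpowers z).subtype (by
      rintro g ⟨_, n, rfl⟩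
      exact (show Commute g z from hz g).zpow_right n)
  obtain ⟨s, hs⟩ : ∃ s, SES 1 (Obj.reg : Obj k (P × Subgroup.zpowers z)).cl s :=
    ⟨_, exists_ses (isHom_constMap (k := k) (G := P × Subgroup.zpowers z)) constMap_injective⟩
  obtain ⟨N, Z, hZ0, hZN, hZ⟩ := exists_sphere (k := k) hP hz hz1
  have key : ∀ i ≤ N + 1, ∃ K : ℕ, ∀ (a : Cl k P) (M : ℕ),
      (∀ H : Subgroup P, H ≠ ⊤ → kap (Cl.res H.subtype a) ≤ M) →
      rm σ (s ^ i * Cl.res (MonoidHom.fst _ _) a * Cl.res μ (Z i)) ≤ Cl.rkN a + K * M := by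
    intro i hi
    induction i with
    | zero =>
      refine ⟨0, fun a M _ => ?_⟩
      rw [hZ0, map_one, pow_zero, one_mul, mul_one, zero_mul, add_zero]
      exact (rm_le_rkN σ _).trans (le_of_eq (by rw [res_inl_fst]))
    | succ i ih =>
      obtain ⟨K, hK'⟩ := ih (by omega)
      obtain ⟨S, _, _, hS, hses⟩ := hZ i (by omega)
      obtain ⟨K', hK''⟩ := kap_perm_le (k := k) hP hz1 hzp hK μ (fun _ _ => rfl) S hS
      refine ⟨K + K' * Cl.dim (s ^ i), fun a M hM => ?_⟩
      rw [pow_succ', mul_assoc s, mul_assoc s]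
      refine (rm_sigma_le hC hσ hs _).trans ((((hses.res μ).mul _).r0_le σ).trans ?_)
      have h1 := hK' a M hM
      have h2 := hK'' a M hM
      have h3 := hhat_le_kap hΓ (s ^ i * Cl.res (MonoidHom.fst _ _) a *
        Cl.res μ (Obj.funObj S Obj.one).cl)
      have h4 := kap_mul_le hΓ (Cl.res μ (Obj.funObj S Obj.one).cl *
        Cl.res (MonoidHom.fst _ _) a) (s ^ i)
      rw [mul_comm, mul_comm (Cl.res μ _), ← mul_assoc] at h4
      have h5 := Nat.mul_le_mul_right (Cl.dim (s ^ i)) h2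
      rw [mul_comm (Cl.res μ _)] at h5
      have h6 : (K + K' * Cl.dim (s ^ i)) * M = K * M + K' * M * Cl.dim (s ^ i) := by ring
      omega
  obtain ⟨K, hK'⟩ := key (N + 1) le_rfl
  refine ⟨Nat.card P * K, fun a => ?_⟩
  have hbot : (⊥ : Subgroup P) ≠ ⊤ := fun e =>
    hz1 (Subgroup.mem_bot.1 (e ▸ Subgroup.mem_top z))
  have : Nonempty {H : Subgroup P // H ≠ ⊤} := ⟨⟨⊥, hbot⟩⟩
  obtain ⟨H, hH⟩ := Finite.exists_max fun H : {H : Subgroup P // H ≠ ⊤} =>
    kap (Cl.res H.1.subtype a)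
  refine ⟨H.1, H.2, (kap_le_card_mul_hhat hP a).trans ?_⟩
  rw [mul_assoc]
  refine Nat.mul_le_mul_left _ ?_
  have h1 := hK' a _ fun H' hH' => hH ⟨H', hH'⟩
  rw [hZN, map_one, mul_one, pow_succ', mul_assoc] at h1
  have h2 := (dInv_le_r0 hC hσ1 hσ hs a N).trans (r0_le_rm_sigma σ hs _)
  unfold hhat
  omega

end Pool.Agent.Lib.MP_13b5a2_al
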