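import Mathlib

/-! A cochain complex of a join of boundaries of simplices, with signs given by a tournament. -/

universe u

namespace Pool.Agent.Lib.MP_13b5a2_al

namespace Car

open Module

variable {k : Type u} [Field k] {X : Type} [DecidableEq X]

/-- A sign function attached to a tournament. -/
structure Sgn (τ : X → X → k) : Prop where
  self : ∀ x, τ x x = 1
  sq : ∀ x y, τ x y * τ x y = 1
  anti : ∀ x y, x ≠ y → τ x y = - τ y x

/-- The incidence sign. -/
def eps (τ : X → X → k) (t : Finset X) (x : X) : k := ∏ y ∈ t, τ y x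

/-- Creation operator. -/
def cre (τ : X → X → k) (x : X) : (Finset X → k) →ₗ[k] (Finset X → k) where
  toFun f t := if x ∈ t then eps τ t x * f (t.erase x) else 0
  map_add' f g := by ext t; by_cases h : x ∈ t <;> simp [h, mul_add]
  map_smul' c f := by ext t; by_cases h : x ∈ t <;> simp [h, mul_left_comm]

/-- Annihilation operator. -/
def ann (τ : X → X → k) (x : X) : (Finset X → k) →ₗ[k] (Finset X → k) where
  toFun f t := if x ∈ t then 0 else eps τ t x * f (insert x t)
  map_add' f g := by ext t; by_cases h : x ∈ t <;> simp [h, mul_add]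
  map_smul' c f := by ext t; by_cases h : x ∈ t <;> simp [h, mul_left_comm]

variable {τ : X → X → k}

lemma cre_apply (x : X) (f : Finset X → k) (t : Finset X) :
    cre τ x f t = if x ∈ t then eps τ t x * f (t.erase x) else 0 := rfl

lemma ann_apply (x : X) (f : Finset X → k) (t : Finset X) :
    ann τ x f t = if x ∈ t then 0 else eps τ t x * f (insert x t) := rfl

omit [DecidableEq X] in
lemma eps_sq (h : Sgn τ) (t : Finset X) (x : X) : eps τ t x * eps τ t x = 1 := by
  unfold eps
  rw [← Finset.prod_mul_distrib]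
  exact Finset.prod_eq_one fun y _ => h.sq y x

lemma eps_insert {t : Finset X} {y : X} (hy : y ∉ t) (x : X) :
    eps τ (insert y t) x = τ y x * eps τ t x := Finset.prod_insert hy

lemma eps_erase {t : Finset X} {y : X} (hy : y ∈ t) (x : X) :
    eps τ t x = τ y x * eps τ (t.erase y) x := (Finset.mul_prod_erase t (fun y => τ y x) hy).symm

lemma cre_ann_self (h : Sgn τ) (x : X) (f : Finset X → k) :
    cre τ x (ann τ x f) + ann τ x (cre τ x f) = f := by
  ext t
  rw [Pi.add_apply, cre_apply, ann_apply, ann_apply, cre_apply]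
  by_cases hx : x ∈ t
  · rw [if_pos hx, if_pos hx, if_neg (Finset.notMem_erase x t), Finset.insert_erase hx, add_zero,
      eps_erase hx x, h.self, one_mul, ← mul_assoc, eps_sq h, one_mul]
  · rw [if_neg hx, if_neg hx, if_pos (Finset.mem_insert_self x t), Finset.erase_insert hx, zero_add,
      eps_insert hx x, h.self, one_mul, ← mul_assoc, eps_sq h, one_mul]

lemma cre_ann_ne (h : Sgn τ) {x y : X} (hxy : x ≠ y) (f : Finset X → k) :
    cre τ x (ann τ y f) = - ann τ y (cre τ x f) := by
  ext t
  rw [Pi.neg_apply, cre_apply, ann_apply, ann_apply, cre_apply]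
  by_cases hx : x ∈ t
  · by_cases hy : y ∈ t
    · rw [if_pos hx, if_pos hy, if_pos (Finset.mem_erase.2 ⟨hxy.symm, hy⟩)]; simp
    · rw [if_pos hx, if_neg hy, if_neg (fun h' => hy (Finset.mem_of_mem_erase h')),
        if_pos (Finset.mem_insert_of_mem hx), Finset.erase_insert_of_ne hxy.symm,
        eps_insert hy x, eps_erase hx y, h.anti y x hxy.symm]
      have := h.sq x y
      linear_combination
        (-(eps τ t x * eps τ (t.erase x) y * f (insert y (t.erase x)))) * this
  · have : x ∉ insert y t := fun h' => (Finset.mem_insert.1 h').elim hxy hx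
    rw [if_neg hx, if_neg this]; simp

lemma cre_cre_self (x : X) (f : Finset X → k) : cre τ x (cre τ x f) = 0 := by
  ext t
  rw [cre_apply, cre_apply, if_neg (Finset.notMem_erase x t)]; simp

lemma cre_cre (h : Sgn τ) (x y : X) (f : Finset X → k) :
    cre τ x (cre τ y f) = - cre τ y (cre τ x f) := by
  by_cases hxy : x = y
  · subst hxy; rw [cre_cre_self]; simp
  ext t
  rw [Pi.neg_apply, cre_apply, cre_apply, cre_apply, cre_apply]
  by_cases hx : x ∈ t
  · by_cases hy : y ∈ t
    · rw [if_pos hx, if_pos hy, if_pos (Finset.mem_erase.2 ⟨Ne.symm hxy, hy⟩),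
        if_pos (Finset.mem_erase.2 ⟨hxy, hx⟩), Finset.erase_right_comm, eps_erase hy x,
        eps_erase hx y, h.anti y x (Ne.symm hxy)]
      ring
    · rw [if_pos hx, if_neg hy, if_neg (fun h' => hy (Finset.mem_of_mem_erase h'))]; simp
  · rw [if_neg hx, if_neg (fun h' => hx (Finset.mem_of_mem_erase h'))]; simp

/-- Sum of creation operators. -/
def dS (τ : X → X → k) (A : Finset X) : (Finset X → k) →ₗ[k] (Finset X → k) := ∑ x ∈ A, cre τ x

lemma dS_apply (A : Finset X) (f : Finset X → k) : dS τ A f = ∑ x ∈ A, cre τ x f := by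
  simp [dS, LinearMap.sum_apply]

lemma dS_anti (h : Sgn τ) (A B : Finset X) (f : Finset X → k) :
    dS τ A (dS τ B f) = - dS τ B (dS τ A f) := by
  simp only [dS_apply, map_sum]
  rw [Finset.sum_comm, ← Finset.sum_neg_distrib]
  refine Finset.sum_congr rfl fun x _ => ?_
  rw [← Finset.sum_neg_distrib]
  exact Finset.sum_congr rfl fun y _ => cre_cre h _ _ _

lemma dS_self (h : Sgn τ) (A : Finset X) (f : Finset X → k) : dS τ A (dS τ A f) = 0 := by
  simp only [dS_apply, map_sum]
  rw [← Finset.sum_product']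
  refine Finset.sum_involution (fun a _ => a.swap) (fun a _ => ?_) (fun a _ h0 h1 => ?_)
    (fun a ha => ?_) (fun a _ => rfl)
  · rw [cre_cre h]; simp
  · have : a.2 = a.1 := congrArg Prod.fst h1
    exact h0 (by rw [this, cre_cre_self])
  · rw [Finset.mem_product] at ha ⊢
    exact ⟨ha.2, ha.1⟩

lemma dS_ann_notMem (h : Sgn τ) {A : Finset X} {b : X} (hb : b ∉ A) (f : Finset X → k) :
    dS τ A (ann τ b f) = - ann τ b (dS τ A f) := by
  simp only [dS_apply, map_sum]
  rw [← Finset.sum_neg_distrib]
  exact Finset.sum_congr rfl fun x hx => cre_ann_ne h (fun e : x = b => hb (e ▸ hx)) f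

lemma dS_ann_mem (h : Sgn τ) {A : Finset X} {b : X} (hb : b ∈ A) (f : Finset X → k) :
    dS τ A (ann τ b f) + ann τ b (dS τ A f) = f := by
  have h1 : ∀ g, dS τ A g = cre τ b g + dS τ (A.erase b) g := fun g => by
    rw [dS_apply, dS_apply, Finset.add_sum_erase A (fun x => cre τ x g) hb]
  rw [h1, h1, dS_ann_notMem h (Finset.notMem_erase b A), map_add]
  have := cre_ann_self h b f
  linear_combination this

lemma dS_ne_zero {A : Finset X} {f : Finset X → k} {t : Finset X} (h : dS τ A f t ≠ 0) :
    ∃ x ∈ A, x ∈ t ∧ f (t.erase x) ≠ 0 := by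
  rw [dS_apply, Finset.sum_apply] at h
  obtain ⟨x, hx, h1⟩ := Finset.exists_ne_zero_of_sum_ne_zero h
  rw [cre_apply] at h1
  by_cases hxt : x ∈ t
  · rw [if_pos hxt] at h1
    exact ⟨x, hx, hxt, right_ne_zero_of_mul h1⟩
  · rw [if_neg hxt] at h1; exact absurd rfl h1

lemma ann_ne_zero {b : X} {f : Finset X → k} {t : Finset X} (h : ann τ b f t ≠ 0) :
    b ∉ t ∧ f (insert b t) ≠ 0 := by
  rw [ann_apply] at h
  by_cases hb : b ∈ t
  · rw [if_pos hb] at h; exact absurd rfl h
  · rw [if_neg hb] at h; exact ⟨hb, right_ne_zero_of_mul h⟩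

/-- Functions supported on sets with a given property. -/
def Supp (k : Type u) [Field k] (c : Finset X → Prop) : Submodule k (Finset X → k) where
  carrier := {f | ∀ t, f t ≠ 0 → c t}
  add_mem' {f g} hf hg t ht := by
    by_cases h : f t = 0
    · exact hg t (by simpa [h] using ht)
    · exact hf t h
  zero_mem' t ht := absurd rfl ht
  smul_mem' a f hf t ht := hf t (right_ne_zero_of_mul ht)

omit [DecidableEq X] in
lemma mem_Supp {c : Finset X → Prop} {f : Finset X → k} :
    f ∈ Supp k c ↔ ∀ t, f t ≠ 0 → c t := Iff.rfl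

open Classical in
/-- Multiplication by an indicator function. -/
noncomputable def cut (c : Finset X → Prop) : (Finset X → k) →ₗ[k] (Finset X → k) where
  toFun f t := if c t then f t else 0
  map_add' f g := by ext t; by_cases h : c t <;> simp [h]
  map_smul' a f := by ext t; by_cases h : c t <;> simp [h]

omit [DecidableEq X] in
lemma cut_pos {c : Finset X → Prop} {t : Finset X} (h : c t) (f : Finset X → k) :
    cut c f t = f t := if_pos h

omit [DecidableEq X] in
lemma cut_neg {c : Finset X → Prop} {t : Finset X} (h : ¬ c t) (f : Finset X → k) :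
    cut c f t = 0 := if_neg h

lemma dS_cut {c : Finset X → Prop} {A : Finset X}
    (hc : ∀ x ∈ A, ∀ t, x ∈ t → (c t ↔ c (t.erase x))) (f : Finset X → k) :
    dS τ A (cut c f) = cut c (dS τ A f) := by
  simp only [dS_apply, map_sum]
  refine Finset.sum_congr rfl fun x hx => ?_
  ext t
  by_cases hxt : x ∈ t
  · by_cases h : c t
    · rw [cut_pos h, cre_apply, cre_apply, cut_pos ((hc x hx t hxt).1 h)]
    · rw [cut_neg h, cre_apply, cut_neg (fun h' => h ((hc x hx t hxt).2 h'))]; simp
  · by_cases h : c t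
    · rw [cut_pos h, cre_apply, cre_apply, if_neg hxt, if_neg hxt]
    · rw [cut_neg h, cre_apply, if_neg hxt]

variable [Fintype X] {Q : Type} [DecidableEq Q] (π : X → Q)

/-- The fibre over a point. -/
def fib (q : Q) : Finset X := Finset.univ.filter fun x => π x = q

omit [DecidableEq X] in
lemma mem_fib {q : Q} {x : X} : x ∈ fib π q ↔ π x = q := by simp [fib]

/-- Sets that meet every fibre. -/
def Good (t : Finset X) : Prop := ∀ q, ∃ y ∈ t, π y = q

/-- Sets that meet the fibre of `b` at most in `b`. -/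
def Thin (b : X) (t : Finset X) : Prop := ∀ y ∈ t, π y = π b → y = b

lemma step (h : Sgn τ) (b : X) {f : Finset X → k} (hf : f ∈ Supp k (Good π))
    (hd : dS τ Finset.univ f = 0) :
    f = dS τ Finset.univ (ann τ b (f - cut (Thin π b) f)) +
      dS τ (fib π (π b)) (ann τ b (cut (Thin π b) f)) := by
  have hsplit : ∀ g, dS τ Finset.univ g = dS τ (fib π (π b)) g + dS τ (fib π (π b))ᶜ g := fun g => by
    rw [dS_apply, dS_apply, dS_apply, Finset.sum_add_sum_compl]
  have h1 := dS_ann_mem h (Finset.mem_univ b) f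
  rw [hd, map_zero, add_zero] at h1
  have h2 : cut (Thin π b) (dS τ (fib π (π b)) f) = 0 := by
    ext t
    by_cases ht : Thin π b t
    · rw [cut_pos ht]
      by_contra hne
      obtain ⟨x, hx, hxt, h0⟩ := dS_ne_zero hne
      obtain ⟨y, hy, hy'⟩ := hf _ h0 (π b)
      have e1 := ht x hxt ((mem_fib π).1 hx)
      have e2 := ht y (Finset.mem_of_mem_erase hy) hy'
      exact (Finset.mem_erase.1 hy).1 (e2.trans e1.symm)
    · exact cut_neg ht _
  have h3 : dS τ (fib π (π b))ᶜ (ann τ b (cut (Thin π b) f)) = 0 := by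
    rw [dS_ann_notMem h (by simp [mem_fib]), dS_cut]
    · have : dS τ (fib π (π b))ᶜ f = - dS τ (fib π (π b)) f := by
        have := hsplit f
        rw [hd] at this
        linear_combination -this
      rw [this, map_neg, h2]; simp
    · intro x hx t _
      rw [Finset.mem_compl, mem_fib] at hx
      refine ⟨fun ht y hy => ht y (Finset.mem_of_mem_erase hy), fun ht y hy hy' => ?_⟩
      exact ht y (Finset.mem_erase.2 ⟨fun e => hx (e ▸ hy'), hy⟩) hy'
  have h4 := hsplit (ann τ b (cut (Thin π b) f))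
  rw [h3, add_zero] at h4
  rw [← h4, ← map_add, ← map_add, sub_add_cancel, h1]

omit [Fintype X] [DecidableEq Q] in
lemma supp_low (b : X) {j : ℕ} {f : Finset X → k}
    (hf : f ∈ Supp k fun t => Good π t ∧ t.card = j) :
    ann τ b (f - cut (Thin π b) f) ∈ Supp k fun t => Good π t ∧ t.card + 1 = j := by
  intro t ht
  obtain ⟨hb, h0⟩ := ann_ne_zero ht
  have hthin : ¬ Thin π b (insert b t) := fun h' => h0 (by rw [Pi.sub_apply, cut_pos h', sub_self])
  rw [Pi.sub_apply, cut_neg hthin, sub_zero] at h0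
  obtain ⟨hg, hc⟩ := hf _ h0
  refine ⟨fun q => ?_, by rw [← hc, Finset.card_insert_of_notMem hb]⟩
  by_cases hq : q = π b
  · unfold Thin at hthin
    push Not at hthin
    obtain ⟨y, hy, hy1, hy2⟩ := hthin
    exact ⟨y, (Finset.mem_insert.1 hy).resolve_left hy2, hy1.trans hq.symm⟩
  · obtain ⟨y, hy, hy1⟩ := hg q
    exact ⟨y, (Finset.mem_insert.1 hy).resolve_left (fun e => hq (by rw [← hy1, e])), hy1⟩

/-- Sets meeting the fibres over `R` at most once. -/
def Uniq (R : Finset Q) (t : Finset X) : Prop := ∀ y ∈ t, ∀ y' ∈ t, π y = π y' → π y ∈ R → y = y'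

lemma supp_high (b : X) {j : ℕ} {R : Finset Q} {f : Finset X → k}
    (hf : f ∈ Supp k fun t => Good π t ∧ t.card = j ∧ Uniq π R t) :
    dS τ (fib π (π b)) (ann τ b (cut (Thin π b) f)) ∈
      Supp k fun t => Good π t ∧ t.card = j ∧ Uniq π (insert (π b) R) t := by
  intro t ht
  obtain ⟨x, hx, hxt, h0⟩ := dS_ne_zero ht
  rw [mem_fib] at hx
  obtain ⟨hb, h1⟩ := ann_ne_zero h0
  have hthin : Thin π b (insert b (t.erase x)) := by
    by_contra h'
    exact h1 (cut_neg h' _)
  rw [cut_pos hthin] at h1
  obtain ⟨hg, hc, hu⟩ := hf _ h1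
  have hx' : ∀ y ∈ t, π y = π b → y = x := fun y hy hy' => by
    by_contra hne
    have h2 : y ∈ t.erase x := Finset.mem_erase.2 ⟨hne, hy⟩
    exact hb (hthin y (Finset.mem_insert_of_mem h2) hy' ▸ h2)
  refine ⟨fun q => ?_, ?_, fun y hy y' hy' e hR => ?_⟩
  · obtain ⟨y, hy, hy1⟩ := hg q
    rcases Finset.mem_insert.1 hy with rfl | hy2
    · exact ⟨x, hxt, hx.trans hy1⟩
    · exact ⟨y, Finset.mem_of_mem_erase hy2, hy1⟩
  · rw [← hc, Finset.card_insert_of_notMem hb, Finset.card_erase_add_one hxt]
  · by_cases hyb : π y = π b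
    · exact (hx' y hy hyb).trans (hx' y' hy' (e.symm.trans hyb)).symm
    · have hy2 : y ∈ t.erase x := Finset.mem_erase.2 ⟨fun e' => hyb (e' ▸ hx), hy⟩
      have hy3 : y' ∈ t.erase x := Finset.mem_erase.2 ⟨fun e' => hyb (e.trans (e' ▸ hx)), hy'⟩
      exact hu y (Finset.mem_insert_of_mem hy2) y' (Finset.mem_insert_of_mem hy3) e
        ((Finset.mem_insert.1 hR).resolve_left hyb)

omit [DecidableEq Q] in
lemma supp_d {j : ℕ} {f : Finset X → k} (hf : f ∈ Supp k fun t => Good π t ∧ t.card = j) :
    dS τ Finset.univ f ∈ Supp k fun t => Good π t ∧ t.card = j + 1 := by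
  intro t ht
  obtain ⟨x, -, hxt, h0⟩ := dS_ne_zero ht
  obtain ⟨hg, hc⟩ := hf _ h0
  refine ⟨fun q => ?_, by rw [← hc, Finset.card_erase_add_one hxt]⟩
  obtain ⟨y, hy, hy1⟩ := hg q
  exact ⟨y, Finset.mem_of_mem_erase hy, hy1⟩

omit [DecidableEq X] [Fintype X] in
lemma good_image [Fintype Q] {t : Finset X} (ht : Good π t) : t.image π = Finset.univ := by
  ext q
  simpa using ht q

/-- Exactness above the bottom degree. -/
theorem exact_above [Fintype Q] (h : Sgn τ) (hπ : Function.Surjective π) {j : ℕ}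
    (hj : Fintype.card Q ≤ j) {f : Finset X → k}
    (hf : f ∈ Supp k fun t => Good π t ∧ t.card = j + 1) (hd : dS τ Finset.univ f = 0) :
    ∃ g ∈ Supp k fun t => Good π t ∧ t.card = j, dS τ Finset.univ g = f := by
  have key : ∀ R : Finset Q, ∃ g ∈ Supp k fun t => Good π t ∧ t.card = j,
      f - dS τ Finset.univ g ∈ Supp k fun t => Good π t ∧ t.card = j + 1 ∧ Uniq π R t := by
    intro R
    induction R using Finset.induction_on with
    | empty =>
      refine ⟨0, zero_mem _, fun t ht => ?_⟩
      rw [map_zero, sub_zero] at ht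
      exact ⟨(hf t ht).1, (hf t ht).2, fun y _ y' _ _ hR => absurd hR (Finset.notMem_empty _)⟩
    | insert q R _ ih =>
      obtain ⟨g, hg, hg'⟩ := ih
      obtain ⟨b, rfl⟩ := hπ q
      have hd' : dS τ Finset.univ (f - dS τ Finset.univ g) = 0 := by
        rw [map_sub, hd, dS_self h, sub_zero]
      have h1 := step π h b (f := f - dS τ Finset.univ g) (fun t ht => (hg' t ht).1) hd'
      have h2 := supp_low (τ := τ) π b (j := j + 1) (f := f - dS τ Finset.univ g)
        (fun t ht => ⟨(hg' t ht).1, (hg' t ht).2.1⟩)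
      have h3 := supp_high (τ := τ) π b hg'
      refine ⟨g + _, add_mem hg (fun t ht => ⟨(h2 t ht).1, Nat.succ_injective (h2 t ht).2⟩), ?_⟩
      rw [map_add, ← sub_sub, ← eq_sub_of_add_eq' h1.symm]
      exact h3
  obtain ⟨g, hg, hg'⟩ := key Finset.univ
  refine ⟨g, hg, (sub_eq_zero.1 ?_).symm⟩
  ext t
  by_contra hne
  obtain ⟨h1, h2, h3⟩ := hg' t hne
  have h4 : (t.image π).card = t.card :=
    Finset.card_image_of_injOn fun y hy y' hy' e => h3 y hy y' hy' e (Finset.mem_univ _)
  rw [good_image π h1, Finset.card_univ] at h4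
  omega

/-- The space of cycles supported on the transversals over `R`. -/
def Cyc (τ : X → X → k) (R : Finset Q) : Submodule k (Finset X → k) :=
  (Supp k fun t => Set.InjOn π t ∧ t.image π = R) ⊓
    ⨅ q ∈ R, LinearMap.ker (dS τ (fib π q))

lemma mem_Cyc {R : Finset Q} {f : Finset X → k} : f ∈ Cyc π τ R ↔
    (∀ t, f t ≠ 0 → Set.InjOn π t ∧ t.image π = R) ∧ ∀ q ∈ R, dS τ (fib π q) f = 0 := by
  simp [Cyc, mem_Supp, Submodule.mem_iInf]

lemma finrank_Cyc (h : Sgn τ) (hπ : Function.Surjective π) (R : Finset Q) :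
    finrank k (Cyc π τ R) = 1 := by
  induction R using Finset.induction_on with
  | empty =>
    have : Cyc π τ (∅ : Finset Q) = k ∙ (Pi.single ∅ 1 : Finset X → k) := by
      ext f
      rw [mem_Cyc, Submodule.mem_span_singleton]
      constructor
      · rintro ⟨h1, -⟩
        refine ⟨f ∅, funext fun t => ?_⟩
        by_cases ht : t = ∅
        · subst ht; simp
        · rw [Pi.smul_apply, Pi.single_eq_of_ne ht, smul_zero]
          by_contra hne
          exact ht (Finset.image_eq_empty.1 (h1 t (Ne.symm hne)).2)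
      · rintro ⟨c, rfl⟩
        refine ⟨fun t ht => ?_, fun q hq => absurd hq (Finset.notMem_empty _)⟩
        have : t = ∅ := by
          by_contra hne
          exact ht (by rw [Pi.smul_apply, Pi.single_eq_of_ne hne, smul_zero])
        subst this; simp
    rw [this]
    exact finrank_span_singleton fun e => one_ne_zero (α := k) (by simpa using congrFun e ∅)
  | insert q R hq ih =>
    obtain ⟨b, rfl⟩ := hπ q
    have hb : b ∈ fib π (π b) := (mem_fib π).2 rfl
    have h1 : ∀ f ∈ Cyc π τ R, dS τ (fib π (π b)) f ∈ Cyc π τ (insert (π b) R) := by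
      intro f hf
      rw [mem_Cyc] at hf ⊢
      refine ⟨fun t ht => ?_, fun q' hq' => ?_⟩
      · obtain ⟨x, hx, hxt, h0⟩ := dS_ne_zero ht
        rw [mem_fib] at hx
        obtain ⟨e1, e2⟩ := hf.1 _ h0
        rw [← Finset.insert_erase hxt, Finset.image_insert, e2, hx, Finset.coe_insert,
          Set.injOn_insert (by simp)]
        refine ⟨⟨e1, ?_⟩, rfl⟩
        rw [← Finset.coe_image, e2, hx]
        exact hq
      · rcases Finset.mem_insert.1 hq' with rfl | hq''
        · exact dS_self h _ _
        · rw [dS_anti h, hf.2 q' hq'']; simp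
    have h2 : ∀ f ∈ Cyc π τ (insert (π b) R), ann τ b f ∈ Cyc π τ R := by
      intro f hf
      rw [mem_Cyc] at hf ⊢
      refine ⟨fun t ht => ?_, fun q' hq' => ?_⟩
      · obtain ⟨hbt, h0⟩ := ann_ne_zero ht
        obtain ⟨e1, e2⟩ := hf.1 _ h0
        rw [Finset.coe_insert, Set.injOn_insert (by simpa using hbt)] at e1
        refine ⟨e1.1, ?_⟩
        have e3 : π b ∉ t.image π := by
          have := e1.2
          rwa [← Finset.coe_image] at this
        rw [Finset.image_insert] at e2
        rw [← Finset.erase_insert e3, e2, Finset.erase_insert hq]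
      · rw [dS_ann_notMem h (by rw [mem_fib]; exact fun e => hq (e ▸ hq')),
          hf.2 q' (Finset.mem_insert_of_mem hq')]
        simp
    have h3 : ∀ f ∈ Cyc π τ R, ann τ b (dS τ (fib π (π b)) f) = f := by
      intro f hf
      have h0 : ann τ b f = 0 := by
        ext t
        by_contra hne
        obtain ⟨-, h0⟩ := ann_ne_zero hne
        have := (((mem_Cyc π).1 hf).1 _ h0).2
        exact hq (this ▸ Finset.mem_image_of_mem π (Finset.mem_insert_self b t))
      have := dS_ann_mem h hb f
      rwa [h0, map_zero, zero_add] at this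
    have h4 : ∀ f ∈ Cyc π τ (insert (π b) R), dS τ (fib π (π b)) (ann τ b f) = f := by
      intro f hf
      have := dS_ann_mem h hb f
      rwa [((mem_Cyc π).1 hf).2 _ (Finset.mem_insert_self _ _), map_zero, add_zero] at this
    rw [← ih]
    exact LinearEquiv.finrank_eq (LinearEquiv.ofLinearMap ((ann τ b).restrict h2)
      ((dS τ (fib π (π b))).restrict h1) (LinearMap.ext fun f => Subtype.ext (h3 f.1 f.2))
      (LinearMap.ext fun f => Subtype.ext (h4 f.1 f.2)))

/-- The cycles of bottom degree form a line. -/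
theorem finrank_bottom [Fintype Q] (h : Sgn τ) (hπ : Function.Surjective π) :
    finrank k ↥((Supp k fun t => Good π t ∧ t.card = Fintype.card Q) ⊓
      LinearMap.ker (dS τ Finset.univ)) = 1 := by
  suffices e : (Supp k fun t => Good π t ∧ t.card = Fintype.card Q) ⊓
      LinearMap.ker (dS τ Finset.univ) = Cyc π τ Finset.univ by
    rw [e, finrank_Cyc π h hπ Finset.univ]
  ext f
  rw [mem_Cyc, Submodule.mem_inf, LinearMap.mem_ker]
  constructor
  · rintro ⟨h1, h2⟩
    refine ⟨fun t ht => ?_, fun q _ => ?_⟩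
    · have e := good_image π (h1 t ht).1
      refine ⟨Finset.card_image_iff.1 ?_, e⟩
      rw [e, (h1 t ht).2, Finset.card_univ]
    · obtain ⟨b, rfl⟩ := hπ q
      have e1 := step π h b (f := f) (fun t ht => (h1 t ht).1) h2
      have e2 : ann τ b (f - cut (Thin π b) f) = 0 := by
        ext t
        by_contra hne
        obtain ⟨e3, e4⟩ := supp_low (τ := τ) π b h1 t hne
        have e5 := Finset.card_image_le (s := t) (f := π)
        rw [good_image π e3, Finset.card_univ] at e5
        omega
      rw [e2, map_zero, zero_add] at e1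
      rw [e1, dS_self h]
  · rintro ⟨h1, h2⟩
    refine ⟨fun t ht => ?_, ?_⟩
    · obtain ⟨e1, e2⟩ := h1 t ht
      refine ⟨fun q => ?_, by rw [← Finset.card_image_of_injOn e1, e2, Finset.card_univ]⟩
      have : q ∈ t.image π := e2 ▸ Finset.mem_univ q
      simpa using this
    · rw [dS_apply, ← Finset.sum_fiberwise Finset.univ π]
      refine Finset.sum_eq_zero fun q _ => ?_
      rw [← h2 q (Finset.mem_univ q), dS_apply]; rfl

end Car

end Pool.Agent.Lib.MP_13b5a2_al
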