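import Pool.Agent.Lib.MP_13b5a2_al.Shapiro

/-! Short exact sequences of classes, and ranks of restriction maps in Tate cohomology. -/

universe u

namespace Pool.Agent.Lib.MP_13b5a2_al

open TensorProduct Module

variable {k : Type u} [Field k]

section lin

variable {V W : Type*} [AddCommGroup V] [Module k V] [AddCommGroup W] [Module k W]

/-- Dimension of the image of `U` modulo `U'`. -/
noncomputable def relk (U U' : Submodule k V) : ℕ := finrank k (U.map U'.mkQ)

lemma relk_add [FiniteDimensional k V] (U U' : Submodule k V) :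
    relk U U' + finrank k U' = finrank k ↥(U ⊔ U') := by
  have h1 := LinearMap.finrank_range_add_finrank_ker (U'.mkQ ∘ₗ (U ⊔ U').subtype)
  rw [LinearMap.range_comp, Submodule.range_subtype, Submodule.map_sup, Submodule.mkQ_map_self,
    sup_bot_eq, LinearMap.ker_comp, Submodule.ker_mkQ,
    (Submodule.comapSubtypeEquivOfLe le_sup_right).finrank_eq] at h1
  exact h1

lemma relk_map [FiniteDimensional k V] [FiniteDimensional k W] {f : V →ₗ[k] W}
    (hf : Function.Injective f) (U U' : Submodule k V) :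
    relk (U.map f) (U'.map f) = relk U U' := by
  have h1 := relk_add U U'
  have h2 := relk_add (U.map f) (U'.map f)
  rw [← Submodule.map_sup, ← (Submodule.equivMapOfInjective f hf _).finrank_eq,
    ← (Submodule.equivMapOfInjective f hf _).finrank_eq] at h2
  omega

lemma relk_mono [FiniteDimensional k V] {U₁ U₂ : Submodule k V} (h : U₁ ≤ U₂)
    (U' : Submodule k V) : relk U₁ U' ≤ relk U₂ U' :=
  Submodule.finrank_mono (Submodule.map_mono h)

lemma relk_le [FiniteDimensional k V] (U U' : Submodule k V) : relk U U' ≤ finrank k U :=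
  Submodule.finrank_map_le _ _

lemma relk_bot [FiniteDimensional k V] (U : Submodule k V) : relk U ⊥ = finrank k U := by
  have := relk_add U ⊥
  rwa [finrank_bot, add_zero, sup_bot_eq] at this

lemma relk_add_le [FiniteDimensional k V] {U₁ U₂ : Submodule k V} (h : U₁ ≤ U₂)
    (U' : Submodule k V) : relk U₂ U' + finrank k U₁ ≤ relk U₁ U' + finrank k U₂ := by
  have h1 := relk_add U₁ U'
  have h2 := relk_add U₂ U'
  have h3 := Submodule.finrank_sup_add_finrank_inf_eq (U₁ ⊔ U') U₂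
  have h4 : (U₁ ⊔ U') ⊔ U₂ = U₂ ⊔ U' := by
    rw [sup_right_comm, sup_eq_right.2 h]
  have h5 : finrank k U₁ ≤ finrank k ↥((U₁ ⊔ U') ⊓ U₂) :=
    Submodule.finrank_mono (le_inf le_sup_left h)
  rw [h4] at h3
  omega

lemma relk_le_relk {S : Type*} [AddCommGroup S] [Module k S] [FiniteDimensional k S]
    (T : Submodule k S) (φ : S →ₗ[k] V) (ψ : S →ₗ[k] W) (U : Submodule k V) (U' : Submodule k W)
    (h : ∀ s ∈ T, φ s ∈ U → ψ s ∈ U') : relk (T.map ψ) U' ≤ relk (T.map φ) U := by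
  have h1 := LinearMap.finrank_range_add_finrank_ker (U.mkQ ∘ₗ φ ∘ₗ T.subtype)
  have h2 := LinearMap.finrank_range_add_finrank_ker (U'.mkQ ∘ₗ ψ ∘ₗ T.subtype)
  have h3 : LinearMap.ker (U.mkQ ∘ₗ φ ∘ₗ T.subtype) ≤ LinearMap.ker (U'.mkQ ∘ₗ ψ ∘ₗ T.subtype) := by
    intro s hs
    rw [LinearMap.mem_ker] at hs ⊢
    exact (Submodule.Quotient.mk_eq_zero _).2 (h s s.2 ((Submodule.Quotient.mk_eq_zero _).1 hs))
  have h4 := Submodule.finrank_mono h3
  rw [LinearMap.range_comp, LinearMap.range_comp, Submodule.range_subtype] at h1 h2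
  unfold relk
  omega

end lin

section ses

variable {G : Type} [Monoid G]

/-- Short exact sequences, on classes. -/
def SES (a b c : Cl k G) : Prop := ∃ A B C : Obj k G, A.cl = a ∧ B.cl = b ∧ C.cl = c ∧
  ∃ (i : A.V →ₗ[k] B.V) (q : B.V →ₗ[k] C.V), Obj.IsHom A B i ∧ Obj.IsHom B C q ∧
    Function.Injective i ∧ Function.Exact i q ∧ Function.Surjective q

lemma SES.mul {a b c : Cl k G} (h : SES a b c) (x : Cl k G) : SES (x * a) (x * b) (x * c) := by
  obtain ⟨A, B, C, rfl, rfl, rfl, i, q, hi, hq, h1, h2, h3⟩ := h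
  induction x using Cl.ind with | h X => ?_
  exact ⟨X.tensor A, X.tensor B, X.tensor C, rfl, rfl, rfl, i.lTensor X.V, q.lTensor X.V,
    (Obj.IsHom.id X).tensor hi, (Obj.IsHom.id X).tensor hq,
    Module.Flat.lTensor_preserves_injective_linearMap i h1, lTensor_exact X.V h2 h3,
    LinearMap.lTensor_surjective X.V h3⟩

lemma SES.res {H : Type} [Monoid H] (φ : H →* G) {a b c : Cl k G} (h : SES a b c) :
    SES (Cl.res φ a) (Cl.res φ b) (Cl.res φ c) := by
  obtain ⟨A, B, C, rfl, rfl, rfl, i, q, hi, hq, h1, h2, h3⟩ := h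
  exact ⟨A.res φ, B.res φ, C.res φ, rfl, rfl, rfl, i, q, fun g => hi (φ g), fun g => hq (φ g),
    h1, h2, h3⟩

lemma exists_ses {A B : Obj k G} {i : A.V →ₗ[k] B.V} (hi : Obj.IsHom A B i)
    (h : Function.Injective i) : SES A.cl B.cl (B.quot _ hi.range_inv).cl :=
  ⟨A, B, _, rfl, rfl, rfl, i, (LinearMap.range i).mkQ, hi, Obj.isHom_mkQ _ _ _, h,
    LinearMap.exact_map_mkQ_range i, Submodule.mkQ_surjective _⟩

end ses

lemma SES.dInv_le {G : Type} [Group G] [Finite G] {a b c : Cl k G} (h : SES a b c) :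
    Cl.dInv a ≤ Cl.dInv b := by
  obtain ⟨A, B, C, rfl, rfl, rfl, i, q, hi, hq, h1, h2, h3⟩ := h
  change finrank k A.ρ.invariants ≤ finrank k B.ρ.invariants
  rw [(Submodule.equivMapOfInjective i h1 _).finrank_eq]
  refine Submodule.finrank_mono ?_
  rintro _ ⟨v, hv, rfl⟩ g
  rw [← hi, hv g]

variable {P C : Type} [Group P] [Finite P] [Group C] [Finite C]

namespace Obj

/-- Norm of the first factor. -/
noncomputable def NP (Y : Obj k (P × C)) : Y.V →ₗ[k] Y.V := (Y.res (MonoidHom.inl P C)).N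

/-- Norm of the second factor. -/
noncomputable def NC (Y : Obj k (P × C)) : Y.V →ₗ[k] Y.V := (Y.res (MonoidHom.inr P C)).N

/-- The operator `σ - 1`. -/
def tt (σ : C) (Y : Obj k (P × C)) : Y.V →ₗ[k] Y.V := Y.ρ (1, σ) - LinearMap.id

lemma NC_NP (Y : Obj k (P × C)) (v : Y.V) : Y.NC (Y.NP v) = Y.N v := by
  have := Fintype.ofFinite P
  have := Fintype.ofFinite C
  unfold NC NP
  rw [norm_apply, norm_apply, norm_apply, Fintype.sum_prod_type, Finset.sum_comm]
  refine Finset.sum_congr rfl fun c _ => ?_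
  rw [map_sum]
  refine Finset.sum_congr rfl fun g _ => ?_
  change Y.ρ (1, c) (Y.ρ (g, 1) v) = _
  rw [← Module.End.mul_apply, ← map_mul]
  simp

omit [Finite P] in
lemma NC_tt (σ : C) (Y : Obj k (P × C)) (v : Y.V) : Y.NC (Y.tt σ v) = 0 := by
  have := (Y.res (MonoidHom.inr P C)).norm_self_apply σ v
  unfold tt NC
  rw [LinearMap.sub_apply, map_sub, LinearMap.id_apply]
  exact sub_eq_zero.2 this

omit [Finite C] in
lemma IsHom.NP {X Y : Obj k (P × C)} {f : X.V →ₗ[k] Y.V} (hf : IsHom X Y f) (v : X.V) :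
    f (X.NP v) = Y.NP (f v) :=
  IsHom.norm (X := X.res (MonoidHom.inl P C)) (Y := Y.res (MonoidHom.inl P C)) (fun _ => hf _) v

omit [Finite P] in
lemma IsHom.NC {X Y : Obj k (P × C)} {f : X.V →ₗ[k] Y.V} (hf : IsHom X Y f) (v : X.V) :
    f (X.NC v) = Y.NC (f v) :=
  IsHom.norm (X := X.res (MonoidHom.inr P C)) (Y := Y.res (MonoidHom.inr P C)) (fun _ => hf _) v

omit [Finite P] [Finite C] in
lemma IsHom.tt (σ : C) {X Y : Obj k (P × C)} {f : X.V →ₗ[k] Y.V} (hf : IsHom X Y f) (v : X.V) :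
    f (X.tt σ v) = Y.tt σ (f v) := by
  unfold Obj.tt
  rw [LinearMap.sub_apply, LinearMap.sub_apply, map_sub, hf]; rfl

/-- Rank of restriction to the second factor in degree zero. -/
noncomputable def r0 (Y : Obj k (P × C)) : ℕ := relk Y.ρ.invariants (LinearMap.range Y.NC)

/-- Rank of restriction to the second factor in degree minus one. -/
noncomputable def rm (σ : C) (Y : Obj k (P × C)) : ℕ :=
  relk ((LinearMap.ker Y.N).map Y.NP) (LinearMap.range (Y.tt σ))

end Obj

lemma range_conj {V W : Type*} [AddCommGroup V] [Module k V] [AddCommGroup W] [Module k W]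
    (e : V ≃ₗ[k] W) {A : V →ₗ[k] V} {B : W →ₗ[k] W} (h : ∀ v, e (A v) = B (e v)) :
    LinearMap.range B = (LinearMap.range A).map e.toLinearMap := by
  ext w
  constructor
  · rintro ⟨v, rfl⟩
    exact ⟨A (e.symm v), ⟨_, rfl⟩, by simp [h]⟩
  · rintro ⟨_, ⟨v, rfl⟩, rfl⟩
    exact ⟨e v, (h v).symm⟩

/-- Rank of restriction in degree zero, on classes. -/
noncomputable def r0 : Cl k (P × C) → ℕ := Cl.lift Obj.r0 fun X Y ⟨e, he⟩ => by
  unfold Obj.r0
  rw [invariants_map e he, range_conj e he.NC, relk_map e.injective]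

/-- Rank of restriction in degree minus one, on classes. -/
noncomputable def rm (σ : C) : Cl k (P × C) → ℕ := Cl.lift (Obj.rm σ) fun X Y ⟨e, he⟩ => by
  unfold Obj.rm
  have : (LinearMap.ker Y.N).map Y.NP = ((LinearMap.ker X.N).map X.NP).map e.toLinearMap := by
    ext w
    constructor
    · rintro ⟨v, hv, rfl⟩
      refine ⟨X.NP (e.symm v), ⟨_, ?_, rfl⟩, ?_⟩
      · have h1 := he.symm.norm v
        rw [show Y.N v = 0 from hv, map_zero] at h1
        exact h1.symm
      · rw [he.NP]; simp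
    · rintro ⟨_, ⟨v, hv, rfl⟩, rfl⟩
      refine ⟨e v, ?_, (he.NP v).symm⟩
      have h1 := he.norm v
      rw [show X.N v = 0 from hv, map_zero] at h1
      exact h1.symm
  rw [this, range_conj e (he.tt σ), relk_map e.injective]

omit [Finite P] [Finite C] in
lemma rm_eq (σ : C) {B D : Obj k (P × C)} {q : B.V →ₗ[k] D.V}
    (h3 : Function.Surjective q) : D.rm σ = relk (((LinearMap.ker D.N).comap q).map (D.NP ∘ₗ q))
      (LinearMap.range (D.tt σ)) := by
  rw [Submodule.map_comp, Submodule.map_comap_eq_of_surjective h3]; rfl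

theorem SES.r0_le (σ : C) {a b c : Cl k (P × C)} (h : SES a b c) : r0 a ≤ rm σ c + hhat b := by
  obtain ⟨A, B, D, rfl, rfl, rfl, i, q, hi, hq, h1, h2, h3⟩ := h
  change A.r0 ≤ D.rm σ + (finrank k B.ρ.invariants - finrank k (LinearMap.range B.N))
  rw [rm_eq σ h3, Obj.r0, ← relk_map h1]
  set T := (LinearMap.ker D.N).comap q with hT
  have e1 := relk_le_relk T (D.NP ∘ₗ q) B.N (LinearMap.range (D.tt σ))
    ((LinearMap.range A.NC).map i) (by
      rintro s - ⟨d, hd⟩
      obtain ⟨b, rfl⟩ := h3 d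
      have e2 : q (B.NP s - B.tt σ b) = 0 := by
        rw [map_sub, hq.NP, hq.tt, hd]; simp
      obtain ⟨a, ha⟩ := (h2 _).1 e2
      refine ⟨A.NC a, ⟨a, rfl⟩, ?_⟩
      rw [hi.NC, ha, map_sub, Obj.NC_tt, sub_zero, Obj.NC_NP])
  have e2 : T.map B.N = A.ρ.invariants.map i ⊓ LinearMap.range B.N := by
    ext w
    constructor
    · rintro ⟨s, hs, rfl⟩
      refine ⟨?_, s, rfl⟩
      have e3 : q (B.N s) = 0 := by rw [hq.norm]; exact hs
      obtain ⟨a, ha⟩ := (h2 _).1 e3
      refine ⟨a, fun g => h1 ?_, ha⟩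
      rw [hi, ha, Obj.self_norm_apply]
    · rintro ⟨⟨a, -, ha⟩, s, rfl⟩
      refine ⟨s, ?_, rfl⟩
      change D.N (q s) = 0
      rw [← hq.norm, ← ha]
      exact h2.apply_apply_eq_zero a
  have e3 := relk_add_le (U₁ := T.map B.N) (U₂ := A.ρ.invariants.map i) (e2 ▸ inf_le_left)
    ((LinearMap.range A.NC).map i)
  have e4 := Submodule.finrank_sup_add_finrank_inf_eq (A.ρ.invariants.map i) (LinearMap.range B.N)
  have e5 : finrank k ↥(A.ρ.invariants.map i ⊔ LinearMap.range B.N) ≤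
      finrank k B.ρ.invariants := by
    refine Submodule.finrank_mono (sup_le ?_ B.range_norm_le)
    rintro _ ⟨v, hv, rfl⟩ g
    rw [← hi, hv g]
  rw [← e2] at e4
  omega

omit [Finite P] in
lemma ker_NC_le {σ : C} (hσ : ∀ c, c ∈ Subgroup.zpowers σ) (B : Obj k (P × C))
    (hB : hhat (Cl.res (MonoidHom.inr P C) B.cl) = 0) :
    LinearMap.ker B.NC ≤ LinearMap.range (B.tt σ) := by
  have h1 : LinearMap.range (B.tt σ) ≤ LinearMap.ker B.NC := by
    rintro _ ⟨v, rfl⟩
    exact B.NC_tt σ v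
  have h2 : LinearMap.ker (B.tt σ) ≤ (B.res (MonoidHom.inr P C)).ρ.invariants := by
    intro v hv c
    have hv' : (B.res (MonoidHom.inr P C)).ρ σ v = v := sub_eq_zero.1 hv
    exact ((Representation.mem_invariants_iff_of_forall_mem_zpowers _ σ hσ v).2 hv') c
  have h3 := Submodule.finrank_mono h2
  have h4 := LinearMap.finrank_range_add_finrank_ker (B.tt σ)
  have h5 := LinearMap.finrank_range_add_finrank_ker B.NC
  have h6 : finrank k (LinearMap.ker (B.tt σ)) ≤ finrank k (LinearMap.range B.NC) :=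
    h3.trans (Nat.sub_eq_zero_iff_le.1 hB)
  exact (Submodule.eq_of_le_of_finrank_le h1 (by omega)).ge

theorem SES.rm_le {σ : C} (hσ : ∀ c, c ∈ Subgroup.zpowers σ) {a b c : Cl k (P × C)}
    (h : SES a b c) (hb : hhat (Cl.res (MonoidHom.inr P C) b) = 0) : rm σ c ≤ r0 a := by
  obtain ⟨A, B, D, rfl, rfl, rfl, i, q, hi, hq, h1, h2, h3⟩ := h
  change D.rm σ ≤ A.r0
  rw [rm_eq σ h3, Obj.r0, ← relk_map h1]
  set T := (LinearMap.ker D.N).comap q with hT
  have e1 := relk_le_relk T B.N (D.NP ∘ₗ q) ((LinearMap.range A.NC).map i)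
    (LinearMap.range (D.tt σ)) (by
      rintro s - ⟨_, ⟨a, rfl⟩, ha⟩
      have e2 : B.NP s - i a ∈ LinearMap.ker B.NC := by
        rw [LinearMap.mem_ker, map_sub, Obj.NC_NP, ← hi.NC, ha, sub_self]
      obtain ⟨b, hb'⟩ := ker_NC_le hσ B hb e2
      refine ⟨q b, ?_⟩
      rw [← hq.tt, hb', map_sub, h2.apply_apply_eq_zero, sub_zero, hq.NP]; rfl)
  refine e1.trans (relk_mono ?_ _)
  rintro _ ⟨s, hs, rfl⟩
  have e3 : q (B.N s) = 0 := by rw [hq.norm]; exact hs
  obtain ⟨a, ha⟩ := (h2 _).1 e3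
  refine ⟨a, fun g => h1 ?_, ha⟩
  rw [hi, ha, Obj.self_norm_apply]

lemma rm_le_rkN (σ : C) (a : Cl k (P × C)) : rm σ a ≤ Cl.rkN (Cl.res (MonoidHom.inl P C) a) := by
  induction a using Cl.ind with | h X => ?_
  exact (relk_le _ _).trans (Submodule.finrank_mono LinearMap.map_le_range)

omit [Finite P] in
lemma r0_eq_dInv (a : Cl k (P × C)) (h : Cl.rkN (Cl.res (MonoidHom.inr P C) a) = 0) :
    r0 a = Cl.dInv a := by
  induction a using Cl.ind with | h X => ?_
  have h1 : LinearMap.range X.NC = ⊥ := Submodule.finrank_eq_zero.1 h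
  change X.r0 = _
  rw [Obj.r0, h1, relk_bot]; rfl

end Pool.Agent.Lib.MP_13b5a2_al
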