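import Pool.Agent.Lib.MP_13b5a2_al.ChouRank
import Pool.Agent.Lib.MP_13b5a2_al.ChouCar

/-! A periodic exact sequence of permutation modules on which a central element acts freely. -/

universe u

namespace Pool.Agent.Lib.MP_13b5a2_al

open TensorProduct Module Car Pointwise

variable {k : Type u} [Field k] {p : ℕ} [Fact p.Prime] [CharP k p]

lemma cl_eq_one {G : Type} [Group G] [Finite G] (hG : IsPGroup p G) (X : Obj k G)
    (h : X.dim = 1) : X.cl = 1 := by
  have hnt : Nontrivial X.V := Module.nontrivial_of_finrank_eq_succ (R := k) (n := 0) h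
  obtain ⟨v, -, hv, hfix⟩ := exists_fixed hG X.ρ ⊤ (fun _ _ _ => trivial) top_ne_bot
  have hinj : Function.Injective (LinearMap.toSpanSingleton k X.V v) :=
    LinearMap.ker_eq_bot.1 (LinearMap.ker_toSpanSingleton k hv)
  refine (Obj.iso_of_bijective (X := Obj.one) (Y := X) (f := LinearMap.toSpanSingleton k X.V v)
    (fun g (c : k) => ?_) ⟨hinj, ?_⟩).cl_eq.symm
  · change c • v = X.ρ g (c • v)
    rw [map_smul, hfix]
  · exact (LinearMap.injective_iff_surjective_of_finrank_eq_finrank
      ((Module.finrank_self k).trans h.symm)).1 hinj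

variable {P : Type} [Group P]

lemma exists_sgn [Finite P] (hP : IsPGroup p P) :
    ∃ τ : P → P → k, Sgn τ ∧ ∀ g x y, τ (g * x) (g * y) = τ x y := by
  classical
  obtain ⟨ι, hι⟩ := Countable.exists_injective_nat P
  refine ⟨fun x y => if ι (y⁻¹ * x) < ι (x⁻¹ * y) then -1 else 1, ⟨fun x => by simp, fun x y => ?_,
    fun x y hxy => ?_⟩, fun g x y => by simp [mul_assoc]⟩
  · split_ifs <;> simp
  · rcases lt_trichotomy (ι (y⁻¹ * x)) (ι (x⁻¹ * y)) with h | h | h
    · rw [if_pos h, if_neg h.not_gt]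
    · rw [if_neg h.not_lt, if_neg h.not_gt]
      have h1 : (x⁻¹ * y) ^ 2 = 1 := by
        rw [sq]
        nth_rw 1 [← hι h]
        group
      have h2 : x⁻¹ * y ≠ 1 := fun e => hxy (inv_mul_eq_one.1 e)
      have h3 : orderOf (x⁻¹ * y) = 2 := orderOf_eq_prime h1 h2
      obtain ⟨n, hn⟩ := IsPGroup.iff_orderOf.1 hP (x⁻¹ * y)
      have h4 : 2 ∣ p := Nat.prime_two.dvd_of_dvd_pow (n := n) (by rw [← hn, h3])
      have h5 : 2 = p := (Nat.prime_dvd_prime_iff_eq Nat.prime_two Fact.out).1 h4
      have h6 : ((2 : ℕ) : k) = 0 := by rw [h5]; exact CharP.cast_eq_zero k p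
      push_cast at h6
      linear_combination h6
    · rw [if_neg h.not_gt, if_pos h, neg_neg]

variable [Fintype P] [DecidableEq P]

/-- Functions on the finite subsets of the group. -/
abbrev Lam (k : Type u) [Field k] (P : Type) [Group P] [Fintype P] [DecidableEq P] : Obj k P :=
  Obj.funObj (Finset P) Obj.one

lemma isHom_d {τ : P → P → k} (hτ : ∀ g x y, τ (g * x) (g * y) = τ x y) :
    Obj.IsHom (Lam k P) (Lam k P) (dS τ Finset.univ) := by
  intro g f
  rw [dS_apply, dS_apply, map_sum]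
  refine Fintype.sum_equiv (Equiv.mulLeft g⁻¹) _ _ fun x => ?_
  ext t
  change cre τ x _ t = cre τ (g⁻¹ * x) f (g⁻¹ • t)
  rw [cre_apply, cre_apply]
  have h1 : g⁻¹ * x ∈ g⁻¹ • t ↔ x ∈ t := Finset.smul_mem_smul_finset_iff g⁻¹
  have h2 : eps τ (g⁻¹ • t) (g⁻¹ * x) = eps τ t x := by
    unfold eps
    rw [Finset.smul_finset_def, Finset.prod_image fun a _ b _ e => MulAction.injective g⁻¹ e]
    exact Finset.prod_congr rfl fun y _ => hτ _ _ _
  have h3 : (g⁻¹ • t).erase (g⁻¹ * x) = g⁻¹ • t.erase x := by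
    ext y
    rw [Finset.mem_erase, Finset.mem_inv_smul_finset_iff, Finset.mem_inv_smul_finset_iff,
      Finset.mem_erase, smul_eq_mul, Ne, Ne, eq_inv_mul_iff_mul_eq]
  simp only [h1, h2, h3]
  rfl

omit [Fintype P] in
lemma good_smul (Z : Subgroup P) (g : P) {t : Finset P}
    (h : Good (QuotientGroup.mk : P → P ⧸ Z) t) : Good (QuotientGroup.mk : P → P ⧸ Z) (g • t) := by
  intro q
  obtain ⟨y, rfl⟩ := QuotientGroup.mk_surjective q
  obtain ⟨x, hx, e⟩ := h (QuotientGroup.mk (g⁻¹ * y))
  refine ⟨g * x, (Finset.smul_mem_smul_finset_iff g).2 hx, ?_⟩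
  rw [QuotientGroup.eq] at e ⊢
  simpa [mul_assoc] using e

lemma eq_univ_of_fixed {z : P} (hz : ∀ g, g * z = z * g) {t : Finset P}
    (h : Good (QuotientGroup.mk : P → P ⧸ Subgroup.zpowers z) t) (ht : z • t = t) :
    t = Finset.univ := by
  refine Finset.eq_univ_of_forall fun y => ?_
  obtain ⟨x, hx, e⟩ := h (QuotientGroup.mk y)
  rw [QuotientGroup.eq] at e
  have h1 : x⁻¹ * y ∈ MulAction.stabilizer P t :=
    (Subgroup.zpowers_le.2 (show z ∈ MulAction.stabilizer P t from ht)) e
  obtain ⟨n, hn⟩ := e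
  have h2 : (x⁻¹ * y) * x = y := by
    have h3 : x * z ^ n = z ^ n * x := ((show Commute x z from hz x).zpow_right n).eq
    change z ^ n = _ at hn
    rw [← hn, ← h3, hn]; group
  rw [← h2, ← (show (x⁻¹ * y) • t = t from h1)]
  exact (Finset.smul_mem_smul_finset_iff _).2 hx

lemma supp_inv {c : Finset P → Prop} (hc : ∀ (g : P) t, c t → c (g • t)) :
    ∀ g (f : (Lam k P).V), f ∈ Supp k c → (Lam k P).ρ g f ∈ Supp k c := by
  intro g f hf t ht
  have := hc g _ (hf (g⁻¹ • t) ht)
  rwa [smul_inv_smul] at this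

/-- The action on the sets with an invariant property. -/
@[reducible] def subAct {c : Finset P → Prop} (hc : ∀ (g : P) t, c t → c (g • t)) :
    MulAction P {t // c t} where
  smul g t := ⟨g • t.1, hc g t.1 t.2⟩
  one_smul t := Subtype.ext (one_smul P t.1)
  mul_smul g h t := Subtype.ext (mul_smul g h t.1)

lemma cl_supp {c : Finset P → Prop} (hc : ∀ (g : P) t, c t → c (g • t)) :
    letI := subAct hc
    ((Lam k P).sub (Supp k c) (supp_inv hc)).cl = (Obj.funObj {t // c t} (Obj.one : Obj k P)).cl := by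
  classical
  letI := subAct hc
  refine (Obj.iso_of_bijective (X := (Lam k P).sub (Supp k c) (supp_inv hc))
    (Y := Obj.funObj {t // c t} (Obj.one : Obj k P))
    (f := (LinearMap.funLeft k k Subtype.val) ∘ₗ (Supp k c).subtype) (fun g f => rfl)
    ⟨?_, fun f => ?_⟩).cl_eq
  · rw [injective_iff_map_eq_zero]
    intro f hf
    refine Subtype.ext (funext fun t => ?_)
    by_contra hne
    exact hne (congrFun hf ⟨t, f.2 t hne⟩)
  · refine ⟨⟨fun t => if h : c t then f ⟨t, h⟩ else 0, fun t ht => ?_⟩, funext fun t => ?_⟩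
    · by_contra h
      exact ht (dif_neg h)
    · exact dif_pos t.2

omit [Fintype P] [DecidableEq P] in
theorem exists_sphere [Finite P] (hP : IsPGroup p P) {z : P} (hz : ∀ g, g * z = z * g)
    (hz1 : z ≠ 1) : ∃ (N : ℕ) (Z : ℕ → Cl k P), Z 0 = 1 ∧ Z (N + 1) = 1 ∧ ∀ i ≤ N,
      ∃ (S : Type) (_ : Fintype S) (_ : MulAction P S), (∀ s : S, z • s ≠ s) ∧
        SES (Z (i + 1)) (Obj.funObj S Obj.one).cl (Z i) := by
  classical
  have := Fintype.ofFinite P
  obtain ⟨τ, hτ, hτ'⟩ := exists_sgn (k := k) hP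
  set π : P → P ⧸ Subgroup.zpowers z := QuotientGroup.mk with hπ
  have hsurj : Function.Surjective π := QuotientGroup.mk_surjective
  have hlt : Fintype.card (P ⧸ Subgroup.zpowers z) < Fintype.card P := by
    refine Fintype.card_lt_of_surjective_not_injective π hsurj fun h => hz1 (h ?_)
    exact QuotientGroup.eq.2 (by simp)
  have hc : ∀ j : ℕ, ∀ (g : P) t, (Good π t ∧ t.card = j) → Good π (g • t) ∧ (g • t).card = j :=
    fun j g t ht => ⟨good_smul _ g ht.1, by rw [Finset.card_smul_finset, ht.2]⟩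
  have hd := isHom_d hτ'
  have hZ : ∀ j : ℕ, ∀ g (f : (Lam k P).V),
      f ∈ (Supp k fun t => Good π t ∧ t.card = j) ⊓ LinearMap.ker (dS τ Finset.univ) →
      (Lam k P).ρ g f ∈ (Supp k fun t => Good π t ∧ t.card = j) ⊓
        LinearMap.ker (dS τ Finset.univ) :=
    fun j g f hf => ⟨supp_inv (hc j) g f hf.1, hd.ker_inv g f hf.2⟩
  obtain ⟨N, hN⟩ := Nat.exists_eq_add_of_lt hlt
  refine ⟨N, fun i => ((Lam k P).sub _ (hZ (Fintype.card P - i))).cl, ?_, ?_, fun i hi => ?_⟩
  · refine cl_eq_one hP _ ?_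
    have : (Supp k fun t => Good π t ∧ t.card = Fintype.card P - 0) ⊓
        LinearMap.ker (dS τ Finset.univ) = k ∙ (Pi.single Finset.univ 1 : Finset P → k) := by
      have h0 : ∀ f ∈ Supp k fun t => Good π t ∧ t.card = Fintype.card P - 0,
          f ∈ LinearMap.ker (dS τ Finset.univ) := by
        intro f hf
        ext t
        by_contra hne
        have h1 := (supp_d (τ := τ) π hf t hne).2
        have h2 := Finset.card_le_univ t
        omega
      rw [inf_eq_left.2 h0]
      ext f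
      rw [Submodule.mem_span_singleton]
      constructor
      · intro h1
        refine ⟨f Finset.univ, funext fun t => ?_⟩
        by_cases ht : t = Finset.univ
        · subst ht; simp
        · rw [Pi.smul_apply, Pi.single_eq_of_ne ht, smul_zero]
          by_contra hne
          exact ht (Finset.card_eq_iff_eq_univ t |>.1 (h1 t (Ne.symm hne)).2)
      · rintro ⟨c, rfl⟩ t ht
        have : t = Finset.univ := by
          by_contra hne
          exact ht (by rw [Pi.smul_apply, Pi.single_eq_of_ne hne, smul_zero])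
        subst this
        refine ⟨fun q => ?_, by simp⟩
        obtain ⟨y, hy⟩ := hsurj q
        exact ⟨y, Finset.mem_univ _, hy⟩
    change finrank k ↥((Supp k fun t => Good π t ∧ t.card = Fintype.card P - 0) ⊓
        LinearMap.ker (dS τ Finset.univ)) = 1
    rw [this]
    exact finrank_span_singleton fun e =>
      one_ne_zero (α := k) (by simpa using congrFun e Finset.univ)
  · refine cl_eq_one hP _ ?_
    change finrank k ↥((Supp k fun t => Good π t ∧ t.card = Fintype.card P - (N + 1)) ⊓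
        LinearMap.ker (dS τ Finset.univ)) = 1
    rw [show Fintype.card P - (N + 1) = Fintype.card (P ⧸ Subgroup.zpowers z) by omega]
    exact finrank_bottom π hτ hsurj
  · obtain ⟨j, hj⟩ : ∃ j, Fintype.card P - (i + 1) = j := ⟨_, rfl⟩
    have hj' : Fintype.card P - i = j + 1 := by omega
    refine ⟨{t // Good π t ∧ t.card = j}, inferInstance, subAct (hc j), fun s hs => ?_, ?_⟩
    · have h1 := eq_univ_of_fixed hz s.2.1 (congrArg Subtype.val hs)
      have h2 := s.2.2
      rw [h1, Finset.card_univ] at h2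
      omega
    · simp only [hj, hj']
      have h1 : ∀ f ∈ (Supp k fun t => Good π t ∧ t.card = j), dS τ Finset.univ f ∈
          (Supp k fun t => Good π t ∧ t.card = j + 1) ⊓ LinearMap.ker (dS τ Finset.univ) :=
        fun f hf => ⟨supp_d π hf, dS_self hτ _ _⟩
      refine ⟨(Lam k P).sub _ (hZ j), (Lam k P).sub _ (supp_inv (hc j)),
        (Lam k P).sub _ (hZ (j + 1)), rfl, cl_supp (hc j), rfl, Submodule.inclusion inf_le_left,
        (dS τ Finset.univ).restrict h1, fun g f => rfl, fun g f => Subtype.ext (hd g f.1),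
        Submodule.inclusion_injective _, fun f => ⟨fun hf => ?_, ?_⟩, fun f => ?_⟩
      · exact ⟨⟨f.1, f.2, congrArg Subtype.val hf⟩, rfl⟩
      · rintro ⟨g, rfl⟩
        exact Subtype.ext g.2.2
      · obtain ⟨g, hg, e⟩ := exact_above π hτ hsurj (j := j) (by omega) f.2.1 f.2.2
        exact ⟨⟨g, hg⟩, Subtype.ext e⟩

end Pool.Agent.Lib.MP_13b5a2_al
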