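import Pool.Agent.Lib.MP_13b5a2_al.Null

/-! Values below two of a positive self dual character. -/

universe u

namespace Pool.Agent.Lib.MP_13b5a2_al

open Module Filter Obj Gob Real

variable {k : Type u} [Field k] {G : Type} [Group G] {ι : Type} [Fintype ι] [DecidableEq ι]
  {p : ℕ} [Fact p.Prime] {D : Dat k G ι} {t : Emb p k}

lemma wt_unit_range (n : ℕ) (h : (Fintype.card ι : k) = t.τ n) :
    (unit D).Wt (t.wt (∑ j ∈ Finset.range n, Pi.single (-(j : ZMod p)) 1)) := by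
  have : ∀ n : ℕ, t.wt (∑ j ∈ Finset.range n, Pi.single (-(j : ZMod p)) 1) =
      Finsupp.single 0 1 + Finsupp.single (-t.τ n) (-1) := fun n => by
    induction n with
    | zero => simp [Emb.wt, ← Finsupp.single_add]
    | succ n ih =>
      rw [Finset.sum_range_succ, t.wt_add, ih, t.wt_single, Finsupp.single_neg, Finsupp.single_neg,
        map_neg, Nat.cast_succ, ← map_neg t.τ (_ + 1), neg_add']
      abel
  rw [this, ← h]
  exact wt_unit

/-- Two particles. -/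
def cfg (i j : ZMod p) : ZMod p → ℤ := Pi.single i 1 + Pi.single j 1

lemma cfg_apply (i j a : ZMod p) :
    cfg i j a = (if a = i then 1 else 0) + if a = j then 1 else 0 := by
  simp [cfg, Pi.single_apply]

lemma sum_cfg (i j : ZMod p) : ∑ a, cfg i j a = 2 := by simp [cfg, Finset.sum_add_distrib]

lemma mvF_cfg (i j : ZMod p) : mvF (cfg i j) i = cfg (i + 1) j := by
  simp only [mvF, cfg]; abel

lemma mvF_cfg' (i j : ZMod p) : mvF (cfg i j) j = cfg i (j + 1) := by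
  simp only [mvF, cfg]; abel

lemma mvE_cfg (i j : ZMod p) : mvE (cfg (i + 1) j) i = cfg i j := by
  simp only [mvE, cfg]; abel

lemma cfg_nonconst (hp : p ≠ 2) (i j : ZMod p) : ∃ a b, cfg i j a ≠ cfg i j b := by
  by_contra h
  push Not at h
  have := sum_cfg i j
  rw [Finset.sum_congr rfl fun a _ => h a 0, Finset.sum_const, Finset.card_univ, ZMod.card,
    nsmul_eq_mul] at this
  have h2 : p ∣ 2 := by exact_mod_cast (Dvd.intro _ this : (p : ℤ) ∣ 2)
  exact hp ((Nat.prime_dvd_prime_iff_eq Fact.out Nat.prime_two).1 h2)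

lemma cast_ne_zero {j : ℕ} (h0 : 0 < j) (h : j < p) : (j : ZMod p) ≠ 0 := by
  rw [Ne, ZMod.natCast_eq_zero_iff]
  exact Nat.not_dvd_of_pos_of_lt h0 h

lemma cast_ne_neg_one {j : ℕ} (h : j + 1 < p) : (j : ZMod p) ≠ -1 := fun e =>
  cast_ne_zero (Nat.succ_pos j) h (by push_cast; rw [e]; ring)

variable (D t) in
/-- The symmetric power like objects. -/
noncomputable abbrev Sy (j : ℕ) : Gob D := FF (fun j => t.τ j) j (unit D)

lemma wt_Sy (h : (Fintype.card ι : k) = t.τ 2) (j : ℕ) : (Sy D t j).Wt (t.wt (cfg j (-1))) := by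
  induction j with
  | zero =>
    have := wt_unit_range (D := D) 2 (by rw [h]; rfl)
    simp only [Finset.sum_range_succ, Finset.sum_range_zero, zero_add, Nat.cast_zero, neg_zero,
      Nat.cast_one] at this
    rw [Nat.cast_zero]
    exact this
  | succ j ih =>
    have := ih.mvF j
    rw [mvF_cfg] at this
    rw [Nat.cast_succ]
    exact this

lemma cl_Sy_one : (Sy D t 1).X.cl = D.M := by
  change ((unit D).Fa (t.τ ((0 : ℕ) : ZMod p))).X.cl = _
  rw [Nat.cast_zero, map_zero, cl_Fa_unit_zero]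

namespace Chr

variable {χ : Chr k G} [IsAlgClosed k]

lemma step_zero (h2 : (1 : k) ≠ -1) (a : Cl k G) (h0 : ((Cl.dim a : ℕ) : k) = 0)
    (hp : 0 < χ.s a) : ∃ b : Cl k G, ((Cl.dim b : ℕ) : k) = 0 ∧ 1 ≤ χ.s b ∧
      2 * χ.s b ≤ χ.s a ^ 2 := by
  classical
  obtain ⟨n, D, rfl⟩ := exists_dat a
  have hw := (wt_unit (D := D)).Fa 0
  have hc := cl_Fa_unit_zero (D := D)
  have hd : (((unit D).Fa 0).X.dim : k) = 0 := by rw [← Cl.dim_cl, hc]; exact h0
  rw [D.dim_M] at h0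
  rw [h0] at hw
  have key : ∀ c : k, (c = 1 ∨ c = -1) → 1 ≤ χ.s (((unit D).Fa 0).Fa c).X.cl := by
    intro c hc1
    have hm : (Finsupp.single 0 1 + Finsupp.single (-0 : k) (-1) - rt (0 : k) : k →₀ ℤ) c = 1 := by
      rcases hc1 with rfl | rfl <;> simp [rt, Finsupp.single_apply, h2, h2.symm]
    have := (χ.le_EF hw (a := c) (by rw [hm]; norm_num)).trans (χ.Ea_le _ c)
    rw [hm, hc] at this
    push_cast at this
    exact le_of_mul_le_mul_left (by rw [mul_one]; rw [one_mul] at this; exact this) hp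
  have h3 := χ.sum_Fa_le ((unit D).Fa 0) {1, -1}
  rw [Finset.sum_pair h2, hc, ← sq] at h3
  rcases le_total (χ.s (((unit D).Fa 0).Fa 1).X.cl) (χ.s (((unit D).Fa 0).Fa (-1)).X.cl) with h | h
  · exact ⟨_, hw.dim_Fa hd 1, key 1 (Or.inl rfl), by linarith⟩
  · exact ⟨_, hw.dim_Fa hd (-1), key _ (Or.inr rfl), by linarith⟩

lemma case_zero (h2 : (1 : k) ≠ -1) (a : Cl k G) (h0 : ((Cl.dim a : ℕ) : k) = 0)
    (hx : χ.s a < 2) : χ.s a = 0 := by
  by_contra hne
  have hp : 0 < χ.s a := lt_of_le_of_ne (χ.nn _) (Ne.symm hne)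
  have key : ∀ n : ℕ, ∃ b : Cl k G, ((Cl.dim b : ℕ) : k) = 0 ∧ 1 ≤ χ.s b ∧
      χ.s b / 2 ≤ (χ.s a / 2) ^ (n + 1) := by
    intro n
    induction n with
    | zero =>
      obtain ⟨b, h1, h3, h4⟩ := step_zero h2 a h0 hp
      exact ⟨b, h1, h3, by nlinarith⟩
    | succ n ih =>
      obtain ⟨b, h1, h3, h4⟩ := ih
      obtain ⟨c, h5, h6, h7⟩ := step_zero (χ := χ) h2 b h1 (by linarith)
      refine ⟨c, h5, h6, ?_⟩
      have h8 : (χ.s a / 2) ^ (n + 1) ≤ χ.s a / 2 :=
        pow_le_of_le_one (by linarith) (by linarith) (by omega)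
      rw [pow_succ]
      nlinarith [mul_le_mul h4 (h4.trans h8) (by linarith) (by positivity)]
  obtain ⟨n, hn⟩ := exists_pow_lt_of_lt_one (show (0 : ℝ) < 1 / 2 by norm_num)
    (show χ.s a / 2 < 1 by linarith)
  obtain ⟨b, -, h3, h4⟩ := key n
  have : (χ.s a / 2) ^ (n + 1) ≤ (χ.s a / 2) ^ n :=
    pow_le_pow_of_le_one (by linarith) (by linarith) (by omega)
  linarith

lemma case_one (hx : χ.s D.M < 2) (h : (Fintype.card ι : k) = t.τ 1) (h3 : p ≠ 3) :
    χ.s D.M = 1 := by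
  have hw := wt_unit_range (D := D) (t := t) 1 (by rw [h, Nat.cast_one])
  simp only [Finset.sum_range_succ, Finset.sum_range_zero, zero_add, Nat.cast_zero,
    neg_zero] at hw
  have hs : ∑ i : ZMod p, (Pi.single (0 : ZMod p) (1 : ℤ) : ZMod p → ℤ) i = 1 := by simp
  have h1 := decomp_E hx χ.s (fun _ h => h) (hw.mvF 0) (Or.inr ⟨by rw [sum_mvF, hs], h3⟩)
    ⟨0, 0 + 1, by rw [mvF_self, mvF_succ]; simp⟩ {0} (fun i hi => by
      have hi' : i ≠ 0 := by simpa using hi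
      simp [mvF, Pi.single_apply, hi'])
  rw [Finset.sum_singleton, (hw.EF_pos (n := 1) (by rw [t.wt_apply]; simp)).1, map_add,
    χ.Fa_null (null_of_neg hx (hw.mvE 0) (Or.inr ⟨by rw [sum_mvE, hs], h3⟩) (a := 0 + 1)
      (by rw [mvE_succ]; simp)), map_zero, cl_Fa_unit_zero, χ.s_M'] at h1
  simp only [Nat.cast_one, one_mul, zero_add, Cl.cl_one, map_one] at h1
  have := χ.nn D.M
  nlinarith

lemma case_generic (hx : χ.s D.M < 2) {n : ℕ} (h : (Fintype.card ι : k) = t.τ n) (h3 : 3 ≤ n)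
    (h4 : n + 3 ≤ p) : False := by
  have hw := wt_unit_range (D := D) n h
  have hc : ∀ i : ℕ, i < p → (∑ j ∈ Finset.range n, (Pi.single (-(j : ZMod p)) (1 : ℤ) :
      ZMod p → ℤ)) (-(i : ZMod p)) = if i < n then 1 else 0 := fun i hi => by
    rw [Finset.sum_apply, Finset.sum_congr rfl (g := fun j => if i = j then 1 else 0)]
    · simp
    · intro j hj
      have := Finset.mem_range.1 hj
      simp only [Pi.single_apply, neg_inj]
      exact if_congr ⟨CharP.natCast_injOn_Iio (ZMod p) p hi (by simp; omega), congrArg _⟩ rfl rfl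
  let f : Fin 6 → ℕ := ![0, n, 1, n + 1, 2, n + 2]
  have hf : ∀ i, f i < p := fun i => by fin_cases i <;> simp [f] <;> omega
  have hf' : Function.Injective f := by
    intro a b; fin_cases a <;> fin_cases b <;> simp [f] <;> omega
  have := Pos.three_pairs hx ⟨_, hw, by rw [Cl.cl_one, map_one]; norm_num⟩
    (fun i => -((f i : ℕ) : ZMod p)) fun a b e =>
      hf' (CharP.natCast_injOn_Iio (ZMod p) p (hf a) (hf b) (neg_injective e))
  simp only [hc _ (hf _)] at this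
  simp only [f, Matrix.cons_val] at this
  split_ifs at this <;> omega

section Two

variable (hx : χ.s D.M < 2) {A : Type*} [CommRing A] (φ : Cl k G →+* A)
  (hφ : ∀ a, χ.s a = 0 → φ a = 0)
include hx hφ

lemma FE_eq {Y : Gob D} {i : ZMod p} (hY : Y.Wt (t.wt (cfg (i + 1) (-1)))) (h0 : i + 1 ≠ 0)
    (h1 : i + 1 ≠ -1) : χ.s ((Y.Fa (t.τ i)).Ea (t.τ i)).X.cl = 0 ∧
      ((Y.Ea (t.τ i)).Fa (t.τ i)).X.cl = ((Y.Fa (t.τ i)).Ea (t.τ i)).X.cl + Y.X.cl ∧
      Retract Y ((Y.Ea (t.τ i)).Fa (t.τ i)) := by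
  have h2 : i ≠ -1 := fun e => h0 (by rw [e]; ring)
  have := hY.EF_neg (a := t.τ i) (n := 1) (by rw [t.wt_apply]; simp [cfg_apply, h1, h2])
  refine ⟨χ.Ea_null (null_of_neg hx (hY.mvF i) (Or.inl (by rw [sum_mvF, sum_cfg])) (a := i)
    (by rw [mvF_self]; simp [cfg_apply, h2])) _, by simpa using this.1, this.2 one_pos⟩

lemma F_eq_E [IsDomain A] (hp : p ≠ 2) (hM : φ D.M' = φ D.M) (hM0 : φ D.M ≠ 0) {Y : Gob D}
    {i : ZMod p} (hY : Y.Wt (t.wt (cfg (i + 1) (-1)))) (h0 : i + 1 ≠ 0) (h1 : i + 1 ≠ -1) :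
    φ (Y.Fa (t.τ (-1))).X.cl = φ (Y.Ea (t.τ i)).X.cl := by
  have h2 : i ≠ -1 := fun e => h0 (by rw [e]; ring)
  have w1 := hY.mvF (-1)
  rw [mvF_cfg'] at w1
  have w2 := hY.mvE i
  rw [mvE_cfg] at w2
  have e1 := decomp_E hx φ hφ w1 (Or.inl (sum_cfg _ _)) (cfg_nonconst hp _ _) {i, -1}
    (fun b hb => by
      simp only [Finset.mem_insert, Finset.mem_singleton, not_or] at hb
      simp only [cfg_apply, add_left_inj, hb.1, hb.2, if_false]; rfl)
  have e2 := decomp_F hx φ hφ w2 (Or.inl (sum_cfg _ _)) (cfg_nonconst hp _ _) {i, -1}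
    (fun b hb => by
      simp only [Finset.mem_insert, Finset.mem_singleton, not_or] at hb
      simp [cfg_apply, hb.1, hb.2])
  obtain ⟨n1, n2, -⟩ := FE_eq hx φ hφ hY h0 h1
  have n3 := (hY.EF_pos (a := t.τ (-1)) (n := 1) (by
    rw [t.wt_apply]; simp [cfg_apply, h1.symm, h0.symm])).1
  have n4 := χ.Fa_null (null_of_neg hx (hY.mvE (-1)) (Or.inl (by rw [sum_mvE, sum_cfg]))
    (a := -1 + 1) (by rw [mvE_succ]; simp [cfg_apply, h0.symm])) (t.τ (-1))
  rw [Finset.sum_pair h2, n3, map_add, hφ _ n4, EF_ne _ (t.inj.ne h2.symm), hM] at e1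
  rw [Finset.sum_pair h2, n2, map_add, hφ _ n1] at e2
  apply mul_left_cancel₀ hM0
  rw [e1, e2]; simp [add_comm]

lemma recur [IsDomain A] (hM : φ D.M' = φ D.M) (hM0 : p ≠ 2 → φ D.M ≠ 0)
    (h : (Fintype.card ι : k) = t.τ 2) {j : ℕ} (hj : j + 3 ≤ p) :
    φ (Sy D t (j + 2)).X.cl = φ D.M * φ (Sy D t (j + 1)).X.cl - φ (Sy D t j).X.cl := by
  have hp : p ≠ 2 := by omega
  have w := wt_Sy (D := D) h (j + 1)
  have h0 := cast_ne_zero (p := p) (j := j + 1) (by omega) (by omega)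
  have h1 := cast_ne_neg_one (p := p) (j := j + 1) (by omega)
  have h2 := cast_ne_neg_one (p := p) (j := j) (by omega)
  have e1 := decomp_F hx φ hφ w (Or.inl (sum_cfg _ _)) (cfg_nonconst hp _ _)
    {((j + 1 : ℕ) : ZMod p), -1} (fun b hb => by
      simp only [Finset.mem_insert, Finset.mem_singleton, not_or] at hb
      simp only [cfg_apply, hb.1, hb.2, if_false]; rfl)
  rw [Finset.sum_pair h1] at e1
  rw [Nat.cast_succ] at w h0 h1
  have e2 := F_eq_E hx φ hφ hp hM (hM0 hp) w h0 h1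
  have w0 := wt_Sy (D := D) h j
  have n3 := (w0.EF_pos (a := t.τ j) (n := 1) (by
    rw [t.wt_apply]; simp [cfg_apply, h1, h2])).1
  have n4 := χ.Fa_null (null_of_neg hx (w0.mvE j) (Or.inl (by rw [sum_mvE, sum_cfg]))
    (a := j + 1) (by rw [mvE_succ]; simp [cfg_apply, h1])) (t.τ j)
  have e3 : φ ((Sy D t (j + 1)).Ea (t.τ j)).X.cl = φ (Sy D t j).X.cl := by
    refine (congrArg φ n3).trans ?_
    rw [map_add, hφ _ n4]; simp
  rw [e1, e2, e3, add_sub_cancel_right]
  rfl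

end Two

lemma apx_Fa {Z W : Gob D} (h : Retract Z W) (e : χ.s W.X.cl = χ.s Z.X.cl) (a : k) :
    χ.s (W.Fa a).X.cl = χ.s (Z.Fa a).X.cl := by
  classical
  obtain ⟨S, hS⟩ := Z.exists_sum_Fa
  obtain ⟨S', hS'⟩ := W.exists_sum_Fa
  have h1 := congrArg χ.s (hS (insert a (S ∪ S')) (by intro x hx; simp [hx]))
  have h2 := congrArg χ.s (hS' (insert a (S ∪ S')) (by intro x hx; simp [hx]))
  rw [map_mul, map_sum] at h1 h2
  rw [e, h1] at h2
  exact ((Finset.sum_eq_sum_iff_of_le fun b _ => χ.retract_le (h.Fa b)).1 h2 a (by simp)).symm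

lemma apx_chain (hx : χ.s D.M < 2) (j : ℕ) (hj : j + 2 ≤ p) :
    ∀ Z : Gob D, Z.Wt (t.wt (cfg j (-1))) →
      Retract Z (FF (fun j => t.τ j) j (EE (fun j => t.τ j) j Z)) ∧
      χ.s (FF (fun j => t.τ j) j (EE (fun j => t.τ j) j Z)).X.cl = χ.s Z.X.cl := by
  induction j with
  | zero => exact fun Z _ => ⟨Retract.refl _, rfl⟩
  | succ j ih =>
    intro Z hZ
    have h0 := cast_ne_zero (p := p) (j := j + 1) (by omega) (by omega)
    have h1 := cast_ne_neg_one (p := p) (j := j + 1) (by omega)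
    rw [Nat.cast_succ] at hZ h0 h1
    have w := hZ.mvE j
    rw [mvE_cfg] at w
    obtain ⟨r, e⟩ := ih (by omega) _ w
    obtain ⟨n1, n2, n3⟩ := FE_eq hx χ.s (fun _ h => h) hZ h0 h1
    refine ⟨n3.trans (r.Fa _), (apx_Fa r e _).trans ?_⟩
    rw [n2, map_add, n1, zero_add]

omit [Fact p.Prime] in
lemma dim_FF_EE (r : ℕ → k) (i j : ℕ) {Z : Gob D} {m : k →₀ ℤ} (h : Z.Wt m)
    (h0 : (Z.X.dim : k) = 0) : ((FF r i (EE r j Z)).X.dim : k) = 0 := by
  have h1 : ∃ m, (EE r j Z).Wt m ∧ ((EE r j Z).X.dim : k) = 0 := by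
    induction j generalizing Z m with
    | zero => exact ⟨m, h, h0⟩
    | succ j ih => exact ih (h.Ea _) (h.dim_Ea h0 _)
  have h2 : ∃ m, (FF r i (EE r j Z)).Wt m ∧ ((FF r i (EE r j Z)).X.dim : k) = 0 := by
    induction i with
    | zero => exact h1
    | succ i ih =>
      obtain ⟨m, h, h0⟩ := ih
      exact ⟨_, h.Fa _, h.dim_Fa h0 _⟩
  exact h2.choose_spec.2

lemma two_step [CharP k p] (h : (Fintype.card ι : k) = t.τ 2) {θ : ℝ} (h0 : 0 < θ)
    (h1 : θ ≤ π / 2) (hθ : χ.s D.M = 2 * cos θ) : p * θ = π ∨ (p * θ < π ∧ ∃ N : Cl k G,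
      χ.s N = 2 * cos (p * θ) ∧ (((Cl.dim N : ℕ) : k) = 2 ∨ ((Cl.dim N : ℕ) : k) = -2)) := by
  have hpi := pi_pos
  have hx : χ.s D.M < 2 := by
    have : cos θ < cos 0 := cos_lt_cos_of_nonneg_of_le_pi le_rfl (by linarith) h0
    rw [cos_zero] at this; linarith
  have hsin : 0 < sin θ := sin_pos_of_pos_of_lt_pi h0 (by linarith)
  obtain ⟨q, hq⟩ : ∃ q, p = q + 2 := ⟨p - 2, by have := (Fact.out : p.Prime).two_le; omega⟩
  let δ : Cl k G →+* k := (Nat.castRingHom k).comp Cl.dim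
  have hδ : ∀ a, δ a = ((Cl.dim a : ℕ) : k) := fun _ => rfl
  have hδM : δ D.M = 2 * t.τ 1 := by
    rw [hδ, D.dim_M, h, ← one_add_one_eq_two, map_add]; ring
  have hε : t.τ 1 * t.τ 1 = 1 := by rcases t.one with e | e <;> rw [e] <;> ring
  have hδ0 : p ≠ 2 → δ D.M ≠ 0 := fun hp => by
    rw [hδM]
    refine mul_ne_zero (fun e => hp ?_) (left_ne_zero_of_mul_eq_one hε)
    have : p ∣ 2 := (CharP.cast_eq_zero_iff k p 2).1 (by exact_mod_cast e)
    exact (Nat.prime_dvd_prime_iff_eq Fact.out Nat.prime_two).1 this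
  have r1 : ∀ j, j + 2 ≤ p → χ.s (Sy D t j).X.cl * sin θ = sin ((j + 1 : ℕ) * θ) ∧
      χ.s (Sy D t (j + 1)).X.cl * sin θ = sin ((j + 2 : ℕ) * θ) := by
    intro j
    induction j with
    | zero =>
      intro _
      refine ⟨by change χ.s 1 * _ = _; simp, ?_⟩
      rw [cl_Sy_one, hθ]; push_cast; rw [sin_two_mul]; ring
    | succ j ih =>
      intro hj
      obtain ⟨a1, a2⟩ := ih (by omega)
      refine ⟨a2, ?_⟩
      rw [recur hx χ.s (fun _ h => h) (χ.s_M' D) (fun hp e => by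
        have := χ.one_le_sq D.M (hδ0 hp)
        rw [e] at this; norm_num at this) h hj, sub_mul, mul_assoc, a1, a2, hθ]
      have e1 : ((j + 1 + 2 : ℕ) : ℝ) * θ = (j + 2 : ℕ) * θ + θ := by push_cast; ring
      have e2 : ((j + 1 : ℕ) : ℝ) * θ = (j + 2 : ℕ) * θ - θ := by push_cast; ring
      rw [e1, e2, sin_add, sin_sub]; ring
  have r2 : ∀ j, j + 2 ≤ p → δ (Sy D t j).X.cl = t.τ 1 ^ j * (j + 1) ∧
      δ (Sy D t (j + 1)).X.cl = t.τ 1 ^ (j + 1) * (j + 2) := by
    intro j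
    induction j with
    | zero =>
      intro _
      refine ⟨by change δ 1 = _; simp, ?_⟩
      rw [cl_Sy_one, hδM]; simp [mul_comm]
    | succ j ih =>
      intro hj
      obtain ⟨a1, a2⟩ := ih (by omega)
      refine ⟨by rw [a2]; push_cast; ring, ?_⟩
      rw [recur hx δ (fun a h => χ.dim_eq_zero a h) (by rw [hδ, D.M'_eq, Cl.dim_dual, ← hδ])
        hδ0 h hj, a1, a2, hδM]
      push_cast
      linear_combination (t.τ 1 ^ j * (j + 1)) * hε
  have r3 : ∀ j : ℕ, 1 ≤ j → j ≤ p → 0 ≤ sin (j * θ) := fun j a b => by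
    rcases eq_or_lt_of_le a with rfl | a
    · simpa using hsin.le
    · obtain ⟨i, rfl⟩ : ∃ i, j = i + 2 := ⟨j - 2, by omega⟩
      rw [← (r1 i b).2]
      exact mul_nonneg (χ.nn _) hsin.le
  have r4 : ∀ j : ℕ, j ≤ p → j * θ ≤ π := fun j => by
    induction j with
    | zero => intro _; simpa using hpi.le
    | succ j ih =>
      intro hj
      have a1 := ih (by omega)
      by_contra hc
      push Not at hc
      have a2 := r3 (j + 1) (by omega) hj
      have a3 : 0 < sin ((j + 1 : ℕ) * θ - π) :=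
        sin_pos_of_pos_of_lt_pi (by linarith) (by push_cast; linarith)
      rw [sin_sub_pi] at a3
      linarith
  rcases eq_or_lt_of_le (r4 p le_rfl) with e | e
  · exact Or.inl e
  refine Or.inr ⟨e, ?_⟩
  obtain ⟨b1, b2⟩ := r1 q hq.ge
  obtain ⟨c1, c2⟩ := r2 q hq.ge
  have hp0 : ((q : k) + 2) = 0 := by
    have := CharP.cast_eq_zero k p
    rw [hq] at this
    exact_mod_cast this
  rw [hp0, mul_zero] at c2
  rw [← hq] at b2
  have hpθ : 0 < p * θ := mul_pos (by exact_mod_cast (Fact.out : p.Prime).pos) h0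
  have hSt : 0 < χ.s (Sy D t (q + 1)).X.cl :=
    (mul_pos_iff_of_pos_right hsin).1 (by rw [b2]; exact sin_pos_of_pos_of_lt_pi hpθ e)
  obtain ⟨N, hN⟩ := exists_twist D (fun j => t.τ j) (q + 1) q c2
  have w := wt_Sy (D := D) h (q + 1)
  have hq1 : ((q + 1 : ℕ) : ZMod p) = -1 := by
    have : ((q + 2 : ℕ) : ZMod p) = 0 := by rw [← hq]; exact CharP.cast_eq_zero (ZMod p) p
    push_cast at this ⊢
    linear_combination this
  have e1 := decomp_E hx χ.s (fun _ h => h) w (Or.inl (sum_cfg _ _))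
    ⟨-1, -1 + 1, by rw [hq1]; simp [cfg_apply]⟩ {(q : ZMod p)} (fun b hb => by
      have hb' : b + 1 ≠ -1 := fun e => hb (by
        rw [← hq1, Nat.cast_succ, add_left_inj] at e; simp [e])
      simp [hq1, cfg_apply, hb'])
  rw [Finset.sum_singleton, χ.s_M'] at e1
  have w1 := w
  rw [Nat.cast_succ] at w1
  have w2 := w1.mvE q
  rw [mvE_cfg] at w2
  have e2 := (apx_chain hx q hq.ge _ w2).2
  have e3 := congrArg χ.s hN
  rw [map_mul, map_mul] at e3
  have e4 := mul_left_cancel₀ hSt.ne' e3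
  have e5 : χ.s D.M * χ.s (Sy D t (q + 1)).X.cl =
      χ.s (Sy D t q).X.cl + χ.s (Sy D t q).X.cl + χ.s N := by
    rw [e1, ← e2, ← map_add, ← map_add, ← e4]; rfl
  have d1 := congrArg Cl.dim hN
  rw [map_mul, map_mul] at d1
  have d0 : Cl.dim (Sy D t (q + 1)).X.cl ≠ 0 := fun e => by
    have : Subsingleton (Sy D t (q + 1)).X.V := Module.finrank_zero_iff.1 e
    rw [(iso_zero_of_subsingleton _).cl_eq, Cl.cl_zero, map_zero] at hSt
    exact lt_irrefl _ hSt
  have d2 := congrArg (Nat.cast : ℕ → k) (mul_left_cancel₀ d0 d1)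
  rw [Cl.dim_cl, dim_FF_EE _ _ _ w c2, ← hδ, map_add, map_add, c1] at d2
  refine ⟨N, ?_, ?_⟩
  · apply mul_right_cancel₀ hsin.ne'
    have e6 : χ.s N * sin θ = 2 * cos θ * sin (p * θ) - 2 * sin ((q + 1 : ℕ) * θ) := by
      rw [← b1, ← b2, ← hθ]; linear_combination (-sin θ) * e5
    have e7 : ((q + 1 : ℕ) : ℝ) * θ = p * θ - θ := by rw [hq]; push_cast; ring
    rw [e6, e7, sin_sub]; ring
  · rw [← hδ]
    have : δ N = 2 * t.τ 1 ^ q := by linear_combination -d2 - 2 * t.τ 1 ^ q * hp0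
    rw [this]
    rcases t.one with e | e <;> rw [e]
    · simp
    · rcases neg_one_pow_eq_or k q with e | e <;> simp [e]

variable (k p) in
/-- The two embeddings. -/
def embP [CharP k p] : Emb p k :=
  ⟨(ZMod.castHom (dvd_refl p) k).toAddMonoidHom, (ZMod.castHom (dvd_refl p) k).injective,
    Or.inl (map_one (ZMod.castHom (dvd_refl p) k))⟩

variable (k p) in
/-- The two embeddings. -/
def embN [CharP k p] : Emb p k :=
  ⟨-(ZMod.castHom (dvd_refl p) k).toAddMonoidHom,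
    neg_injective.comp (ZMod.castHom (dvd_refl p) k).injective,
    Or.inr (congrArg Neg.neg (map_one (ZMod.castHom (dvd_refl p) k)))⟩

omit [IsAlgClosed k] in
lemma embP_nat [CharP k p] (n : ℕ) : (embP k p).τ n = n := map_natCast (ZMod.castHom (dvd_refl p) k) n

omit [IsAlgClosed k] in
lemma embN_nat [CharP k p] (n : ℕ) : (embN k p).τ n = -n :=
  congrArg Neg.neg (map_natCast (ZMod.castHom (dvd_refl p) k) n)

lemma case_two [CharP k p] (n : ℕ) : ∀ (a : Cl k G) (θ : ℝ),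
    (((Cl.dim a : ℕ) : k) = 2 ∨ ((Cl.dim a : ℕ) : k) = -2) → 0 < θ → θ ≤ π / 2 →
    χ.s a = 2 * cos θ → π ≤ p ^ n * θ → ∃ r : ℕ, θ = π / p ^ r := by
  have hpi := pi_pos
  have hp : (0 : ℝ) < p := by exact_mod_cast (Fact.out : p.Prime).pos
  induction n with
  | zero => intro a θ _ _ h1 _ h2; simp at h2; linarith
  | succ n ih =>
    intro a θ hd h0 h1 hθ h2
    obtain ⟨m, D, rfl⟩ := exists_dat a
    rw [D.dim_M] at hd
    obtain ⟨t, ht⟩ : ∃ t : Emb p k, (Fintype.card (Fin m) : k) = t.τ 2 := by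
      rcases hd with hd | hd
      · exact ⟨embP k p, hd.trans (by exact_mod_cast (embP_nat (k := k) (p := p) 2).symm)⟩
      · exact ⟨embN k p, hd.trans (by exact_mod_cast (embN_nat (k := k) (p := p) 2).symm)⟩
    rcases two_step ht h0 h1 hθ with e | ⟨e, N, hN, hN'⟩
    · exact ⟨1, by rw [← e]; field_simp⟩
    · have h3 : p * θ ≤ π / 2 := by
        by_contra hc
        push Not at hc
        have := cos_neg_of_pi_div_two_lt_of_lt hc (by linarith)
        linarith [χ.nn N]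
      obtain ⟨r, hr⟩ := ih N _ hN' (mul_pos hp h0) h3 hN (by rw [← mul_assoc, ← pow_succ]; exact h2)
      exact ⟨r + 1, by rw [pow_succ, ← div_div, ← hr]; field_simp⟩

/-- The classification of small values. -/
theorem classify [CharP k p] (χ : Chr k G) (a : Cl k G) (h1 : 1 < χ.s a) (h2 : χ.s a < 2) :
    ∃ r : ℕ, χ.s a = 2 * cos (π / p ^ r) := by
  have hp2 := (Fact.out : p.Prime).two_le
  have two : (((Cl.dim a : ℕ) : k) = 2 ∨ ((Cl.dim a : ℕ) : k) = -2) →
      ∃ r : ℕ, χ.s a = 2 * cos (π / p ^ r) := fun hd => by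
    have hc : χ.s a = 2 * cos (arccos (χ.s a / 2)) := by
      rw [cos_arccos (by linarith) (by linarith)]; ring
    have h0 : 0 < arccos (χ.s a / 2) := arccos_pos.2 (by linarith)
    obtain ⟨n, hn⟩ := pow_unbounded_of_one_lt (π / arccos (χ.s a / 2))
      (show (1 : ℝ) < p by exact_mod_cast hp2)
    obtain ⟨r, hr⟩ := case_two n a _ hd h0 (arccos_le_pi_div_two.2 (by linarith)) hc
      ((div_lt_iff₀ h0).1 hn).le
    exact ⟨r, by rw [← hr, ← hc]⟩
  obtain ⟨m, D, rfl⟩ := exists_dat a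
  have hd : ((Cl.dim D.M : ℕ) : k) = (Cl.dim D.M % p : ℕ) := (CharP.cast_eq_mod k p _)
  have hlt : Cl.dim D.M % p < p := Nat.mod_lt _ (by omega)
  generalize Cl.dim D.M % p = n at hd hlt
  have hp0 := CharP.cast_eq_zero k p
  have hneg : ∀ j : ℕ, n + j = p → (n : k) = -j := fun j hj => by
    rw [← hj] at hp0; push_cast at hp0; linear_combination hp0
  by_cases c1 : n = 2 ∨ n + 2 = p
  · rcases c1 with c1 | c1
    · exact two (Or.inl (by rw [hd, c1]; rfl))
    · exact two (Or.inr (by rw [hd, hneg 2 c1]; rfl))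
  exfalso
  rw [D.dim_M] at hd
  by_cases c2 : n = 0
  · have := case_zero (χ := χ) (fun e => by
      have h3 : p ∣ 2 := (CharP.cast_eq_zero_iff k p 2).1 (by push_cast; linear_combination e)
      have := Nat.le_of_dvd two_pos h3
      omega) D.M (by rw [D.dim_M, hd, c2, Nat.cast_zero]) h2
    linarith
  by_cases c3 : n = 1
  · have := case_one (t := embP k p) h2 (by
      rw [hd, c3]; exact_mod_cast (embP_nat (k := k) (p := p) 1).symm) (by omega)
    linarith
  by_cases c4 : n + 1 = p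
  · have := case_one (t := embN k p) h2 (by
      rw [hd, hneg 1 c4]; exact_mod_cast (embN_nat (k := k) (p := p) 1).symm) (by omega)
    linarith
  exact case_generic (t := embP k p) h2 (hd.trans (embP_nat n).symm) (by omega) (by omega)

end Chr

end Pool.Agent.Lib.MP_13b5a2_al
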