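import Pool.Agent.Lib.MP_13b5a2_al.Free

/-! The dimension of the core for representations of a finite p-group. -/

universe u

namespace Pool.Agent.Lib.MP_13b5a2_al

open TensorProduct Module

variable {k : Type u} {G : Type} [Field k] [Group G] [Finite G]

lemma finrank_range_conj {V W : Type*} [AddCommGroup V] [Module k V] [AddCommGroup W] [Module k W]
    (e : V ≃ₗ[k] W) {A : V →ₗ[k] V} {B : W →ₗ[k] W} (h : ∀ v, e (A v) = B (e v)) :
    finrank k (LinearMap.range A) = finrank k (LinearMap.range B) := by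
  have : LinearMap.range B = (LinearMap.range A).map e.toLinearMap := by
    ext w
    constructor
    · rintro ⟨v, rfl⟩
      exact ⟨A (e.symm v), ⟨_, rfl⟩, by simp [h]⟩
    · rintro ⟨_, ⟨v, rfl⟩, rfl⟩
      exact ⟨e v, (h v).symm⟩
  rw [this, LinearEquiv.finrank_map_eq]

lemma finrank_submodule_prod {V W : Type*} [AddCommGroup V] [Module k V] [AddCommGroup W]
    [Module k W] [FiniteDimensional k V] [FiniteDimensional k W] (A : Submodule k V)
    (B : Submodule k W) : finrank k (A.prod B) = finrank k A + finrank k B := by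
  rw [← Module.finrank_prod]
  exact LinearEquiv.finrank_eq
    { toFun := fun x => (⟨x.1.1, x.2.1⟩, ⟨x.1.2, x.2.2⟩)
      invFun := fun x => ⟨(x.1.1, x.2.1), x.1.2, x.2.2⟩
      map_add' := fun _ _ => rfl
      map_smul' := fun _ _ => rfl
      left_inv := fun _ => rfl
      right_inv := fun _ => rfl }

namespace Obj

/-- The norm element acting on a representation. -/
noncomputable def N (X : Obj k G) : X.V →ₗ[k] X.V := ∑ᶠ g, X.ρ g

lemma norm_apply [Fintype G] (X : Obj k G) (v : X.V) : X.N v = ∑ g, X.ρ g v := by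
  simp [N, finsum_eq_sum_of_fintype, LinearMap.sum_apply]

lemma self_norm_apply (X : Obj k G) (g : G) (v : X.V) : X.ρ g (X.N v) = X.N v := by
  have := Fintype.ofFinite G
  rw [norm_apply, map_sum]
  exact Fintype.sum_equiv (Equiv.mulLeft g) _ _ fun h => by simp

lemma norm_self_apply (X : Obj k G) (g : G) (v : X.V) : X.N (X.ρ g v) = X.N v := by
  have := Fintype.ofFinite G
  rw [norm_apply, norm_apply]
  exact Fintype.sum_equiv (Equiv.mulRight g) _ _ fun h => by simp

lemma IsHom.norm {X Y : Obj k G} {f : X.V →ₗ[k] Y.V} (hf : IsHom X Y f) (v : X.V) :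
    f (X.N v) = Y.N (f v) := by
  have := Fintype.ofFinite G
  simp only [norm_apply, map_sum, hf _ _]

/-- Rank of the norm element. -/
noncomputable def rkN (X : Obj k G) : ℕ := finrank k (LinearMap.range X.N)

/-- Dimension of the invariants. -/
noncomputable def dInv (X : Obj k G) : ℕ := finrank k X.ρ.invariants

end Obj

/-- Rank of the norm element on classes. -/
noncomputable def Cl.rkN : Cl k G →+ ℕ where
  toFun := Cl.lift Obj.rkN fun _ _ ⟨e, he⟩ => finrank_range_conj e he.norm
  map_zero' := by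
    change finrank k (LinearMap.range (Obj.zero : Obj k G).N) = 0
    exact Module.finrank_zero_of_subsingleton
  map_add' a b := by
    induction a using Cl.ind with | h X => ?_
    induction b using Cl.ind with | h Y => ?_
    change finrank k (LinearMap.range (X.sum Y).N) = X.rkN + Y.rkN
    have : (X.sum Y).N = X.N.prodMap Y.N := by
      refine LinearMap.ext fun v => ?_
      have := Fintype.ofFinite G
      rw [Obj.norm_apply]
      simp only [Obj.sum_ρ, LinearMap.prodMap_apply, Obj.norm_apply]
      ext <;> simp [Prod.fst_sum, Prod.snd_sum]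
    rw [this, LinearMap.range_prodMap, finrank_submodule_prod]; rfl

omit [Finite G] in
lemma invariants_map {X Y : Obj k G} (e : X.V ≃ₗ[k] Y.V) (he : Obj.IsHom X Y e.toLinearMap) :
    Y.ρ.invariants = X.ρ.invariants.map e.toLinearMap := by
  ext w
  simp only [Representation.mem_invariants, Submodule.mem_map]
  constructor
  · intro h
    refine ⟨e.symm w, fun g => ?_, by simp⟩
    have := he.symm g w
    simp only [LinearEquiv.coe_coe] at this
    rw [← this, h]
  · rintro ⟨v, hv, rfl⟩ g
    rw [← he, hv]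

/-- Dimension of invariants on classes. -/
noncomputable def Cl.dInv : Cl k G →+ ℕ where
  toFun := Cl.lift Obj.dInv fun X Y ⟨e, he⟩ => by
    unfold Obj.dInv
    rw [invariants_map e he, LinearEquiv.finrank_map_eq]
  map_zero' := by
    change finrank k (Obj.zero : Obj k G).ρ.invariants = 0
    exact Module.finrank_zero_of_subsingleton
  map_add' a b := by
    induction a using Cl.ind with | h X => ?_
    induction b using Cl.ind with | h Y => ?_
    change finrank k (X.sum Y).ρ.invariants = X.dInv + Y.dInv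
    have : (X.sum Y).ρ.invariants = X.ρ.invariants.prod Y.ρ.invariants := by
      ext v
      simp only [Representation.mem_invariants, Submodule.mem_prod, Obj.sum_ρ, Prod.ext_iff]
      exact forall_and
    rw [this, finrank_submodule_prod]; rfl

@[simp] lemma Cl.rkN_cl (X : Obj k G) : Cl.rkN X.cl = X.rkN := rfl
@[simp] lemma Cl.dInv_cl (X : Obj k G) : Cl.dInv X.cl = X.dInv := rfl

lemma reg_norm_apply [Fintype G] (f : G → k) (s : G) : (Obj.reg : Obj k G).N f s = ∑ g, f g := by
  rw [Obj.norm_apply, Finset.sum_apply]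
  simp only [Obj.funRep_apply, Representation.trivial_apply, smul_eq_mul]
  exact Fintype.sum_equiv ((Equiv.inv G).trans (Equiv.mulRight s)) _ _ (fun g => by simp)

lemma reg_invariants : (Obj.reg : Obj k G).ρ.invariants = k ∙ (fun _ => 1 : G → k) := by
  ext f
  rw [Representation.mem_invariants, Submodule.mem_span_singleton]
  constructor
  · intro h
    refine ⟨f 1, funext fun s => ?_⟩
    have := congrFun (h s) s
    simpa using this
  · rintro ⟨c, rfl⟩ g
    ext s; simp

lemma reg_range_norm : LinearMap.range (Obj.reg : Obj k G).N = k ∙ (fun _ => 1 : G → k) := by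
  classical
  have := Fintype.ofFinite G
  ext f
  rw [Submodule.mem_span_singleton]
  constructor
  · rintro ⟨f, rfl⟩
    exact ⟨∑ g, f g, funext fun s => by rw [reg_norm_apply]; simp⟩
  · rintro ⟨c, rfl⟩
    exact ⟨Pi.single 1 c, funext fun s => by rw [reg_norm_apply]; simp⟩

lemma rkN_reg : Cl.rkN (Obj.reg : Obj k G).cl = 1 := by
  change finrank k (LinearMap.range (Obj.reg : Obj k G).N) = 1
  rw [reg_range_norm]
  exact finrank_span_singleton fun h => one_ne_zero (congrFun h (1 : G))

lemma dInv_reg : Cl.dInv (Obj.reg : Obj k G).cl = 1 := by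
  change finrank k (Obj.reg : Obj k G).ρ.invariants = 1
  rw [reg_invariants]
  exact finrank_span_singleton fun h => one_ne_zero (congrFun h (1 : G))

lemma rkN_le_dInv (a : Cl k G) : Cl.rkN a ≤ Cl.dInv a := by
  induction a using Cl.ind with | h X => ?_
  refine Submodule.finrank_mono ?_
  rintro _ ⟨v, rfl⟩ g
  exact X.self_norm_apply g v

lemma dInv_le_dim (a : Cl k G) : Cl.dInv a ≤ Cl.dim a := by
  induction a using Cl.ind with | h X => ?_
  exact Submodule.finrank_le _

lemma rkN_dual (a : Cl k G) : Cl.rkN (Cl.dual a) = Cl.rkN a := by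
  induction a using Cl.ind with | h X => ?_
  change finrank k (LinearMap.range X.dual.N) = finrank k (LinearMap.range X.N)
  have : X.dual.N = X.N.dualMap := by
    ext φ v
    have := Fintype.ofFinite G
    rw [Obj.norm_apply, LinearMap.dualMap_apply, Obj.norm_apply, LinearMap.sum_apply, map_sum]
    exact Fintype.sum_equiv (Equiv.inv G) _ _ (fun g => rfl)
  rw [this, LinearMap.finrank_range_dualMap_eq_finrank_range]

variable {p : ℕ} [Fact p.Prime] [CharP k p]

lemma exists_reg_summand (hG : IsPGroup p G) (X : Obj k G) (h : X.rkN ≠ 0) :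
    ∃ z, X.cl = (Obj.reg : Obj k G).cl + z := by
  classical
  have := Fintype.ofFinite G
  obtain ⟨v, hv⟩ : ∃ v, X.N v ≠ 0 := by
    by_contra hc
    push Not at hc
    apply h
    unfold Obj.rkN
    rw [Submodule.finrank_eq_zero, LinearMap.range_eq_bot]
    exact LinearMap.ext hc
  obtain ⟨l, hl⟩ := Module.Projective.exists_dual_eq_one k hv
  let i : (G → k) →ₗ[k] X.V := ∑ g, (LinearMap.proj g).smulRight (X.ρ g v)
  have hi' : ∀ f, i f = ∑ g, f g • X.ρ g v := fun f => by simp [i, LinearMap.sum_apply]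
  have hi : Obj.IsHom Obj.reg X i := fun a f => by
    rw [hi', hi', map_sum]
    refine Fintype.sum_equiv (Equiv.mulLeft a⁻¹) _ _ fun g => ?_
    simp [← Module.End.mul_apply, ← map_mul]
  let r : X.V →ₗ[k] (G → k) := LinearMap.pi fun g => l ∘ₗ X.ρ g⁻¹
  have hr : Obj.IsHom X Obj.reg r := fun a x => by
    ext s
    simp [r, ← Module.End.mul_apply, ← map_mul]
  have hinj : Function.Injective (r ∘ₗ i) := by
    refine injective_of_fixed hG (hr.comp hi) fun f hf h0 => ?_
    have hf' : f ∈ (Obj.reg : Obj k G).ρ.invariants := hf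
    rw [reg_invariants, Submodule.mem_span_singleton] at hf'
    obtain ⟨c, rfl⟩ := hf'
    have h1 := congrFun h0 1
    simp only [LinearMap.comp_apply, hi', r, LinearMap.pi_apply, inv_one, map_one,
      Module.End.one_apply, Pi.smul_apply, smul_eq_mul, mul_one, ← Finset.smul_sum,
      ← Obj.norm_apply, map_smul, hl, Pi.zero_apply] at h1
    have h2 : c = 0 := h1
    rw [h2, zero_smul]
  have hbij : Function.Bijective (r ∘ₗ i) :=
    ⟨hinj, LinearMap.injective_iff_surjective.1 hinj⟩
  let e := LinearEquiv.ofBijective _ hbij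
  have he : Obj.IsHom (Obj.reg : Obj k G) Obj.reg e.toLinearMap := hr.comp hi
  exact Obj.exists_cl_of_retract hi (he.symm.comp hr) fun a => e.symm_apply_apply a

lemma exists_core (hG : IsPGroup p G) (a : Cl k G) :
    ∃ b, a = b + (Cl.rkN a : Cl k G) * (Obj.reg : Obj k G).cl ∧ Cl.rkN b = 0 := by
  induction h : Cl.rkN a generalizing a with
  | zero => exact ⟨a, by simp, h⟩
  | succ n ih =>
    induction a using Cl.ind with | h X => ?_
    obtain ⟨z, hz⟩ := exists_reg_summand hG X (by rw [← Cl.rkN_cl, h]; omega)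
    have hzn : Cl.rkN z = n := by
      rw [hz, map_add, rkN_reg] at h; omega
    obtain ⟨b, hb, hb0⟩ := ih z hzn
    refine ⟨b, ?_, hb0⟩
    rw [hz, hb]; push_cast; ring

/-- Dimension of the core. -/
noncomputable def kap (a : Cl k G) : ℕ := Cl.dim a - Nat.card G * Cl.rkN a

/-- Dimension of the zeroth Tate cohomology. -/
noncomputable def hhat (a : Cl k G) : ℕ := Cl.dInv a - Cl.rkN a

omit [Finite G] in
lemma addHom_natCast_mul (φ : Cl k G →+ ℕ) (n : ℕ) (a : Cl k G) :
    φ ((n : Cl k G) * a) = n * φ a := by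
  rw [← nsmul_eq_mul, map_nsmul, smul_eq_mul]

lemma card_mul_rkN_le (hG : IsPGroup p G) (a : Cl k G) : Nat.card G * Cl.rkN a ≤ Cl.dim a := by
  obtain ⟨b, hb, -⟩ := exists_core hG a
  have := congrArg Cl.dim hb
  rw [map_add, map_mul, map_natCast, Cl.dim_cl, Obj.dim_reg] at this
  simp only [Nat.cast_id] at this
  rw [this, mul_comm]; omega

lemma kap_add (hG : IsPGroup p G) (a b : Cl k G) : kap (a + b) = kap a + kap b := by
  have h1 := card_mul_rkN_le hG a
  have h2 := card_mul_rkN_le hG b
  unfold kap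
  rw [map_add, map_add, mul_add]; omega

lemma kap_le_dim (a : Cl k G) : kap a ≤ Cl.dim a := Nat.sub_le _ _

lemma kap_reg_mul (a : Cl k G) : kap ((Obj.reg : Obj k G).cl * a) = 0 := by
  unfold kap
  rw [Obj.reg_mul, addHom_natCast_mul, rkN_reg, map_mul, map_natCast, Cl.dim_cl, Obj.dim_reg]
  simp [mul_comm]

lemma exists_core' (hG : IsPGroup p G) (a : Cl k G) :
    ∃ b c, a = b + (Obj.reg : Obj k G).cl * c ∧ Cl.rkN b = 0 ∧ Cl.dim b = kap a := by
  obtain ⟨b, hb, hb0⟩ := exists_core hG a
  refine ⟨b, Cl.rkN a, by rw [mul_comm]; exact hb, hb0, ?_⟩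
  conv_rhs => rw [hb, kap_add hG, mul_comm, kap_reg_mul, add_zero, kap, hb0]
  simp

lemma kap_mul_le (hG : IsPGroup p G) (a c : Cl k G) : kap (a * c) ≤ kap a * Cl.dim c := by
  obtain ⟨b, d, hb, -, hd⟩ := exists_core' hG a
  rw [← hd]
  conv_lhs => rw [hb, add_mul, kap_add hG, mul_assoc, kap_reg_mul, add_zero]
  exact (kap_le_dim _).trans (map_mul _ _ _).le

lemma kap_mul_le' (hG : IsPGroup p G) (a c : Cl k G) : kap (a * c) ≤ kap a * kap c := by
  obtain ⟨b, d, hb, -, hd⟩ := exists_core' hG c
  rw [← hd]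
  conv_lhs => rw [hb, mul_add, kap_add hG, mul_left_comm, kap_reg_mul, add_zero]
  exact kap_mul_le hG _ _

lemma kap_dual (a : Cl k G) : kap (Cl.dual a) = kap a := by
  unfold kap; rw [Cl.dim_dual, rkN_dual]

lemma hhat_add (a b : Cl k G) : hhat (a + b) = hhat a + hhat b := by
  have h1 := rkN_le_dInv a
  have h2 := rkN_le_dInv b
  unfold hhat
  rw [map_add, map_add]; omega

lemma hhat_reg_mul (a : Cl k G) : hhat ((Obj.reg : Obj k G).cl * a) = 0 := by
  unfold hhat
  rw [Obj.reg_mul, addHom_natCast_mul, addHom_natCast_mul, rkN_reg, dInv_reg]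
  simp

lemma hhat_le_kap (hG : IsPGroup p G) (a : Cl k G) : hhat a ≤ kap a := by
  obtain ⟨b, d, hb, -, hd⟩ := exists_core' hG a
  rw [← hd]
  conv_lhs => rw [hb, hhat_add, hhat_reg_mul, add_zero]
  exact (Nat.sub_le _ _).trans (dInv_le_dim _)

lemma dim_le_card_mul_dInv (hG : IsPGroup p G) (a : Cl k G) :
    Cl.dim a ≤ Nat.card G * Cl.dInv a := by
  induction a using Cl.ind with | h X => ?_
  obtain ⟨π, hπ⟩ := LinearMap.exists_leftInverse_of_injective X.ρ.invariants.subtype
    (Submodule.ker_subtype _)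
  let f : X.V →ₗ[k] (G → X.ρ.invariants) := LinearMap.pi fun g => π ∘ₗ X.ρ g⁻¹
  have hf : Obj.IsHom X (Obj.funObj G (Obj.triv X.ρ.invariants)) f := fun a x => by
    ext s
    simp [f, ← Module.End.mul_apply, ← map_mul]
  have hinj := injective_of_fixed hG hf fun v hv h0 => by
    have h1 := congrFun h0 1
    have h2 := LinearMap.congr_fun hπ ⟨v, hv⟩
    simp only [f, LinearMap.pi_apply, inv_one, map_one, LinearMap.comp_apply,
      Module.End.one_apply, Pi.zero_apply] at h1
    simp only [LinearMap.comp_apply, Submodule.subtype_apply, h1, LinearMap.id_apply] at h2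
    exact (congrArg Subtype.val h2).symm
  have := LinearMap.finrank_le_finrank_of_injective hinj
  exact this.trans (Obj.dim_funObj G (Obj.triv X.ρ.invariants)).le

lemma kap_le_card_mul_hhat (hG : IsPGroup p G) (a : Cl k G) : kap a ≤ Nat.card G * hhat a := by
  obtain ⟨b, d, hb, h0, hd⟩ := exists_core' hG a
  rw [← hd]
  conv_rhs => rw [hb, hhat_add, hhat_reg_mul, add_zero, hhat, h0, Nat.sub_zero]
  exact dim_le_card_mul_dInv hG b

end Pool.Agent.Lib.MP_13b5a2_al
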