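import Mathlib

/-! Relative ranks of submodules over a domain. -/

namespace Pool.Agent.Lib.MP_13b5a2_al

open Module LinearMap Submodule

variable {R : Type*} [CommRing R] [IsDomain R] {M M' : Type*} [AddCommGroup M] [Module R M]
  [AddCommGroup M'] [Module R M']

/-- The rank of the image of `A` in the quotient by `B`. -/
noncomputable def rel (A B : Submodule R M) : ℕ := finrank R (A.map B.mkQ)

lemma finrank_range_add_ker [Module.Finite R M] (f : M →ₗ[R] M') :
    finrank R (range f) + finrank R (ker f) = finrank R M := by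
  rw [← f.quotKerEquivRange.finrank_eq]
  exact Submodule.finrank_quotient_add_finrank _

variable [IsNoetherian R M] [IsNoetherian R M']

omit [IsNoetherian R M'] in
lemma finrank_map_add (f : M →ₗ[R] M') (A : Submodule R M) :
    finrank R (A.map f) + finrank R (A ⊓ ker f : Submodule R M) = finrank R A := by
  rw [← finrank_range_add_ker (f ∘ₗ A.subtype), range_comp, range_subtype, ker_comp,
    ← (Submodule.comapSubtypeEquivOfLe (inf_le_left : A ⊓ ker f ≤ A)).finrank_eq,
    Submodule.comap_inf, Submodule.comap_subtype_self, top_inf_eq]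

lemma rel_add (A B : Submodule R M) : rel A B + finrank R (A ⊓ B : Submodule R M) = finrank R A := by
  have := finrank_map_add B.mkQ A
  rwa [ker_mkQ] at this

lemma rel_le_finrank (A B : Submodule R M) : rel A B ≤ finrank R A := by
  have := rel_add A B; omega

lemma rel_bot (A : Submodule R M) : rel A ⊥ = finrank R A := by
  have := rel_add A ⊥
  rw [inf_bot_eq, finrank_bot] at this
  omega

omit [IsNoetherian R M'] in
lemma finrank_map_le' (f : M →ₗ[R] M') (A : Submodule R M) : finrank R (A.map f) ≤ finrank R A := by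
  have := finrank_map_add f A; omega

lemma rel_le_of_comap (f : M →ₗ[R] M') {A B : Submodule R M} {A' B' : Submodule R M'}
    (h1 : ∀ v ∈ A, f v ∈ A') (h2 : ∀ v ∈ A, f v ∈ B' → v ∈ B) : rel A B ≤ rel A' B' := by
  have e1 := finrank_map_add (B'.mkQ ∘ₗ f) A
  have e2 := rel_add A B
  have e3 : finrank R (A.map (B'.mkQ ∘ₗ f)) ≤ rel A' B' := by
    refine Submodule.finrank_mono ?_
    rintro _ ⟨v, hv, rfl⟩
    exact ⟨f v, h1 v hv, rfl⟩
  have e4 : finrank R (A ⊓ ker (B'.mkQ ∘ₗ f) : Submodule R M) ≤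
      finrank R (A ⊓ B : Submodule R M) :=
    Submodule.finrank_mono fun v hv => ⟨hv.1, h2 v hv.1 ((Quotient.mk_eq_zero _).1 hv.2)⟩
  omega

lemma rel_mono {A B A' B' : Submodule R M} (h1 : A ≤ A') (h2 : B' ≤ B) : rel A B ≤ rel A' B' :=
  rel_le_of_comap LinearMap.id h1 fun _ _ h => h2 h

omit [IsNoetherian R M'] in
lemma map_mkQ_map (f : M →ₗ[R] M') (A : Submodule R M) {B : Submodule R M} {B' : Submodule R M'}
    (h : B ≤ B'.comap f) : (A.map f).map B'.mkQ = (A.map B.mkQ).map (B.mapQ B' f h) := by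
  rw [← Submodule.map_comp, ← Submodule.map_comp, Submodule.mapQ_mkQ]

omit [IsNoetherian R M'] in
lemma rel_map_le (f : M →ₗ[R] M') (A : Submodule R M) {B : Submodule R M} {B' : Submodule R M'}
    (h : B ≤ B'.comap f) : rel (A.map f) B' ≤ rel A B := by
  unfold rel
  rw [map_mkQ_map f A h]
  exact finrank_map_le' _ _

omit [IsNoetherian R M'] in
lemma rel_map_lt (f : M →ₗ[R] M') (A : Submodule R M) {B : Submodule R M} {B' : Submodule R M'}
    (h : B ≤ B'.comap f) {v : M} (hv : v ∈ A) (h1 : f v ∈ B') (h2 : ∀ r : R, r • v ∈ B → r = 0) :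
    rel (A.map f) B' < rel A B := by
  unfold rel
  rw [map_mkQ_map f A h]
  have e := finrank_map_add (B.mapQ B' f h) (A.map B.mkQ)
  have : finrank R (A.map B.mkQ ⊓ ker (B.mapQ B' f h) : Submodule R (M ⧸ B)) ≠ 0 := by
    rw [Ne, Module.finrank_eq_zero_iff]
    intro h0
    obtain ⟨r, hr, e⟩ := h0 ⟨B.mkQ v, ⟨v, hv, rfl⟩, (Quotient.mk_eq_zero _).2 h1⟩
    exact hr (h2 r ((Quotient.mk_eq_zero _).1 (congrArg Subtype.val e)))
  omega

lemma rel_tri (A B C : Submodule R M) : rel A C ≤ rel A B + rel B C := by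
  have e1 := rel_add (A.map C.mkQ) (B.map C.mkQ)
  have e2 := rel_map_le C.mkQ A (B := B) (B' := B.map C.mkQ) (Submodule.le_comap_map _ _)
  have e3 : finrank R (A.map C.mkQ ⊓ B.map C.mkQ : Submodule R (M ⧸ C)) ≤ rel B C :=
    Submodule.finrank_mono inf_le_right
  change finrank R (A.map C.mkQ) ≤ _
  omega

lemma rel_eq_zero_of_le {A B : Submodule R M} (h : A ≤ B) : rel A B = 0 := by
  have := rel_add A B
  rw [inf_eq_left.2 h] at this
  omega

lemma rel_le_of_le_sup {A B K : Submodule R M} (h : A ≤ K ⊔ B) : rel A B ≤ rel K B := by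
  refine (rel_mono h le_rfl).trans (le_of_eq ?_)
  unfold rel
  rw [Submodule.map_sup, Submodule.mkQ_map_self, sup_bot_eq]

lemma rel_master (f : M →ₗ[R] M') {A B K : Submodule R M} {A' B' : Submodule R M'}
    (h1 : ∀ v ∈ A, f v ∈ A') (h2 : ∀ v ∈ A, f v ∈ B' → v ∈ K ⊔ B) :
    rel A B ≤ rel A' B' + rel K B :=
  (rel_tri A (A ⊓ B'.comap f) B).trans (add_le_add
    (rel_le_of_comap f h1 fun _ hv h => ⟨hv, h⟩) (rel_le_of_le_sup fun v hv => h2 v hv.1 hv.2))

lemma rel_prod_le (A B : Submodule R M) (A' B' : Submodule R M') :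
    rel (A.prod A') (B.prod B') ≤ rel A B + rel A' B' := by
  refine (rel_master (LinearMap.fst R M M') (K := A'.map (LinearMap.inr R M M'))
    (A := A.prod A') (B := B.prod B') (A' := A) (B' := B) (fun v hv => hv.1) fun v hv h => ?_).trans (add_le_add le_rfl (rel_map_le _ _ ?_))
  · have : v = (0, v.2) + (v.1, 0) := by simp
    rw [this]
    exact Submodule.add_mem_sup ⟨v.2, hv.2, rfl⟩ ⟨h, B'.zero_mem⟩
  · exact fun v hv => ⟨B.zero_mem, hv⟩

lemma le_rel_prod (A B : Submodule R M) (A' B' : Submodule R M') :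
    rel A B + rel A' B' ≤ rel (A.prod A') (B.prod B') := by
  have key : ∀ (A : Submodule R M) (A' : Submodule R M'),
      finrank R (A.prod A') = finrank R A + finrank R A' := fun A A' => by
    have e := finrank_map_add (LinearMap.fst R M M') (A.prod A')
    have e1 : (A.prod A').map (LinearMap.fst R M M') = A := Submodule.prod_map_fst _ _
    have e2 : A.prod A' ⊓ ker (LinearMap.fst R M M') = A'.map (LinearMap.inr R M M') := by
      ext ⟨v, w⟩
      constructor
      · rintro ⟨h1, h2⟩
        exact ⟨w, h1.2, Prod.ext (Eq.symm h2) rfl⟩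
      · rintro ⟨w', h1, h2⟩
        cases h2
        exact ⟨⟨A.zero_mem, h1⟩, rfl⟩
    rw [e1, e2, (Submodule.equivMapOfInjective _ LinearMap.inr_injective A').symm.finrank_eq] at e
    omega
  have e1 := rel_add (A.prod A') (B.prod B')
  have e2 := rel_add A B
  have e3 := rel_add A' B'
  rw [Submodule.prod_inf_prod, key, key] at e1
  omega

lemma rel_le_mul_of_nilpotent (z : M →ₗ[R] M) {A B : Submodule R M} (hA : ∀ v ∈ A, z v ∈ A)
    (hB : ∀ v ∈ B, z v ∈ B) (n : ℕ) (hz : z ^ n = 0) : rel A B ≤ n * rel A (B ⊔ A.map z) := by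
  have key : ∀ j : ℕ, rel A (B ⊔ A.map (z ^ j)) ≤ j * rel A (B ⊔ A.map z) := by
    intro j
    induction j with
    | zero =>
      rw [rel_eq_zero_of_le (B := B ⊔ A.map (z ^ 0))
        fun v hv => Submodule.mem_sup_right ⟨v, hv, rfl⟩]
      exact Nat.zero_le _
    | succ j ih =>
      refine (rel_tri A (B ⊔ A.map (z ^ j)) _).trans ?_
      rw [add_mul, one_mul]
      refine add_le_add ih ((rel_le_of_le_sup (K := A.map (z ^ j)) ?_).trans (rel_map_le _ _ ?_))
      · exact sup_le (le_sup_of_le_right le_sup_left) le_sup_left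
      · refine sup_le (fun v hv => Submodule.mem_sup_left ?_) ?_
        · exact Module.End.pow_apply_mem_of_forall_mem j hB v hv
        · rintro _ ⟨v, hv, rfl⟩
          exact Submodule.mem_sup_right ⟨v, hv, by rw [pow_succ]; rfl⟩
  have := key n
  rwa [hz, Submodule.map_zero, sup_bot_eq] at this

lemma rel_equiv (e : M ≃ₗ[R] M') {A B : Submodule R M} {A' B' : Submodule R M'}
    (h1 : ∀ v, v ∈ A ↔ e v ∈ A') (h2 : ∀ v, v ∈ B ↔ e v ∈ B') : rel A B = rel A' B' :=
  le_antisymm (rel_le_of_comap e.toLinearMap (fun v hv => (h1 v).1 hv) fun v _ hv => (h2 v).2 hv)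
    (rel_le_of_comap e.symm.toLinearMap (fun v hv => (h1 _).2 (by simpa using hv))
      fun v _ hv => by simpa using (h2 _).1 hv)

lemma rel_pi (J : Type*) [Fintype J] (A B : Submodule R M) :
    rel (Submodule.pi Set.univ fun _ : J => A) (Submodule.pi Set.univ fun _ : J => B) =
      Fintype.card J * rel A B := by
  refine Fintype.induction_empty_option (P := fun J _ =>
    rel (Submodule.pi Set.univ fun _ : J => A) (Submodule.pi Set.univ fun _ : J => B) =
      Fintype.card J * rel A B) ?_ ?_ ?_ J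
  · intro α β _ e h
    letI := Fintype.ofEquiv β e.symm
    rw [← Fintype.card_congr e, ← h]
    symm
    refine rel_equiv (LinearEquiv.funCongrLeft R M e.symm) (fun v => ?_) fun v => ?_ <;>
      simp only [Submodule.mem_pi, Set.mem_univ, true_imp_iff] <;>
      exact e.symm.surjective.forall
  · rw [Fintype.card_pempty, zero_mul]
    exact rel_eq_zero_of_le fun v _ i => i.elim
  · intro α _ h
    rw [Fintype.card_option, add_mul, one_mul, ← h, add_comm]
    rw [le_antisymm (le_rel_prod _ _ _ _) (rel_prod_le _ _ _ _)]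
    refine rel_equiv (LinearEquiv.piOptionEquivProd R) (fun v => ?_) fun v => ?_ <;>
      simp only [Submodule.mem_pi, Set.mem_univ, true_imp_iff, Submodule.mem_prod] <;>
      exact Option.forall

/-- The rank of the homology of a square zero operator. -/
noncomputable def hd (d : M →ₗ[R] M) : ℕ := rel (ker d) (range d)

/-- The rank of the homology of a two periodic complex. -/
noncomputable def nu2 (θ η : M →ₗ[R] M) : ℕ := rel (ker θ) (range η) + rel (ker η) (range θ)

end Pool.Agent.Lib.MP_13b5a2_al
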