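import Pool.Agent.Lib.MP_13b5a2_al.Char
import Pool.Agent.Lib.MP_13b5a2_al.ChouRank
import Pool.Agent.Lib.MP_13b5a2_al.Rel

/-! Global characters on the representation semiring of a finite p-group. -/

universe u

namespace Pool.Agent.Lib.MP_13b5a2_al

open Module

variable {k : Type u} [Field k] {G : Type} [Group G]

lemma SES.dual {a b c : Cl k G} (h : SES a b c) : SES (Cl.dual c) (Cl.dual b) (Cl.dual a) := by
  obtain ⟨A, B, C, rfl, rfl, rfl, i, q, hi, hq, h1, h2, h3⟩ := h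
  refine ⟨C.dual, B.dual, A.dual, rfl, rfl, rfl, q.dualMap, i.dualMap, hq.dual, hi.dual,
    LinearMap.dualMap_injective_of_surjective h3, ?_, LinearMap.dualMap_surjective_of_injective h1⟩
  rw [LinearMap.exact_iff, LinearMap.ker_dualMap_eq_dualAnnihilator_range,
    LinearMap.range_dualMap_eq_dualAnnihilator_ker, LinearMap.exact_iff.1 h2]

lemma SES.dim {a b c : Cl k G} (h : SES a b c) : Cl.dim b = Cl.dim a + Cl.dim c := by
  obtain ⟨A, B, C, rfl, rfl, rfl, i, q, hi, hq, h1, h2, h3⟩ := h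
  have := LinearMap.finrank_range_add_finrank_ker q
  rw [LinearMap.range_eq_top.2 h3, finrank_top, LinearMap.exact_iff.1 h2,
    LinearMap.finrank_range_of_inj h1] at this
  change finrank k B.V = finrank k A.V + finrank k C.V
  omega

variable [Finite G]

lemma SES.rkN {a b c : Cl k G} (h : SES a b c) :
    Cl.rkN a + Cl.rkN c ≤ Cl.rkN b ∧ Cl.rkN b ≤ Cl.dInv a + Cl.rkN c := by
  obtain ⟨A, B, C, rfl, rfl, rfl, i, q, hi, hq, h1, h2, h3⟩ := h
  have e := finrank_map_add q (LinearMap.range B.N)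
  have e1 : (LinearMap.range B.N).map q = LinearMap.range C.N := by
    ext w
    constructor
    · rintro ⟨_, ⟨v, rfl⟩, rfl⟩
      exact ⟨q v, (hq.norm v).symm⟩
    · rintro ⟨w, rfl⟩
      obtain ⟨v, rfl⟩ := h3 w
      exact ⟨_, ⟨v, rfl⟩, hq.norm v⟩
  have e2 : finrank k (LinearMap.range A.N) ≤
      finrank k (LinearMap.range B.N ⊓ LinearMap.ker q : Submodule k B.V) := by
    rw [(Submodule.equivMapOfInjective i h1 _).finrank_eq]
    refine Submodule.finrank_mono ?_
    rintro _ ⟨_, ⟨v, rfl⟩, rfl⟩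
    exact ⟨⟨i v, (hi.norm v).symm⟩, h2.apply_apply_eq_zero _⟩
  have e3 : finrank k (LinearMap.range B.N ⊓ LinearMap.ker q : Submodule k B.V) ≤
      finrank k A.ρ.invariants := by
    rw [(Submodule.equivMapOfInjective i h1 _).finrank_eq]
    refine Submodule.finrank_mono ?_
    rintro _ ⟨⟨v, rfl⟩, hv⟩
    obtain ⟨w, hw⟩ := (h2 _).1 hv
    exact ⟨w, fun g => h1 (by rw [hi, hw, B.self_norm_apply]), hw⟩
  rw [e1] at e
  simp only [Cl.rkN_cl, Cl.dInv_cl, Obj.rkN, Obj.dInv]
  omega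

variable {p : ℕ} [Fact p.Prime] [CharP k p]

lemma SES.kap_mid (hG : IsPGroup p G) {a b c : Cl k G} (h : SES a b c) :
    kap b ≤ kap a + kap c := by
  have h1 := Nat.mul_le_mul_left (Nat.card G) h.rkN.1
  have h2 := h.dim
  have h3 := card_mul_rkN_le hG a
  have h4 := card_mul_rkN_le hG c
  rw [mul_add] at h1
  unfold kap; omega

lemma SES.kap_right (hG : IsPGroup p G) {a b c : Cl k G} (h : SES a b c) :
    kap c ≤ kap b + Nat.card G * kap a := by
  have h0 : Cl.rkN b ≤ kap a + Cl.rkN c + Cl.rkN a := by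
    have h1 := h.rkN.2
    have h2 := hhat_le_kap hG a
    unfold hhat at h2
    omega
  have h1 := Nat.mul_le_mul_left (Nat.card G) h0
  have h2 := h.dim
  have h3 := card_mul_rkN_le hG a
  have h4 := card_mul_rkN_le hG b
  rw [mul_add, mul_add] at h1
  generalize Nat.card G * kap a = x at h1 ⊢
  unfold kap; omega

lemma SES.kap_left (hG : IsPGroup p G) {a b c : Cl k G} (h : SES a b c) :
    kap a ≤ kap b + Nat.card G * kap c := by
  simpa only [kap_dual] using h.dual.kap_right hG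

/-- A character compatible with short exact sequences. -/
structure Glob (k : Type u) (G : Type) [Field k] [Group G] [Finite G] where
  S : Cl k G →+* ℝ
  nn : ∀ a, 0 ≤ S a
  reg : S (Obj.reg : Obj k G).cl = 0
  mid : ∀ {a b c}, SES a b c → S b ≤ S a + S c
  left : ∀ {a b c}, SES a b c → S a ≤ S b + Nat.card G * S c

/-- The core dimension as an additive map. -/
noncomputable def kapHom (hG : IsPGroup p G) : Cl k G →+ ℕ where
  toFun := kap
  map_zero' := Nat.le_zero.1 ((kap_le_dim _).trans (map_zero _).le)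
  map_add' := kap_add hG

theorem exists_Glob (hG : IsPGroup p G) {M : Cl k G} (h : 0 < gr fun n => kap (M ^ n)) :
    ∃ Γ : Glob k G, Γ.S M = gr fun n => kap (M ^ n) := by
  obtain ⟨S, h1, h2⟩ := exists_glob (κ := kapHom hG) (kap_mul_le' hG) (M := M) h
  have nn : ∀ a, 0 ≤ S a := fun a => by
    rw [← map_zero S]; exact h1 _ _ fun x => by simp
  refine ⟨⟨S, nn, le_antisymm ?_ (nn _), fun {a b c} h => ?_, fun {a b c} h => ?_⟩, h2⟩
  · rw [← map_zero S]
    refine h1 _ _ fun x => ?_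
    rw [mul_comm]
    exact (kap_reg_mul x).le.trans (Nat.zero_le _)
  · rw [← map_add]
    refine h1 _ _ fun x => ?_
    rw [mul_add, map_add]
    exact (h.mul x).kap_mid hG
  · rw [← map_natCast S, ← map_mul, ← map_add]
    refine h1 _ _ fun x => ?_
    rw [mul_add, map_add, mul_left_comm, kappa_nat]
    exact (h.mul x).kap_left hG

lemma Glob.retract (Γ : Glob k G) {A B A' C : Obj k G} {g : A.V →ₗ[k] B.V} {h : B.V →ₗ[k] A'.V}
    {q : A'.V →ₗ[k] C.V} (hg : Obj.IsHom A B g) (hh : Obj.IsHom B A' h) (hq : Obj.IsHom A' C q)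
    (h1 : Function.Injective (h ∘ₗ g)) (h2 : Function.Exact (h ∘ₗ g) q) (h3 : Function.Surjective q)
    (h0 : Γ.S C.cl = 0) : Γ.S A.cl ≤ Γ.S B.cl := by
  have e1 := Γ.left ⟨A, A', C, rfl, rfl, rfl, _, q, hh.comp hg, hq, h1, h2, h3⟩
  let q' : (B.V ⧸ LinearMap.range g) →ₗ[k] C.V := (LinearMap.range g).liftQ (q ∘ₗ h) (by
    rintro _ ⟨a, rfl⟩; exact h2.apply_apply_eq_zero a)
  have e2 := Γ.mid ⟨B, A'.sum (B.quot _ hg.range_inv), C, rfl, rfl, rfl,
    h.prod (LinearMap.range g).mkQ, q.coprod (-q'), fun a v => Prod.ext (hh a v) rfl,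
    fun a v => ?_, ?_, fun v => ?_, fun c => ?_⟩
  · rw [Cl.cl_sum, map_add, h0] at e2
    have := Γ.nn (B.quot _ hg.range_inv).cl
    rw [h0] at e1
    linarith
  · obtain ⟨v, w⟩ := v
    obtain ⟨w, rfl⟩ := Submodule.mkQ_surjective _ w
    change q (A'.ρ a v) + -q (h (B.ρ a w)) = C.ρ a (q v + -q (h w))
    rw [hh, hq, hq, map_add, map_neg]
  · rw [injective_iff_map_eq_zero]
    intro b hb
    obtain ⟨a, rfl⟩ := (Submodule.Quotient.mk_eq_zero _).1 (congrArg Prod.snd hb)
    rw [(injective_iff_map_eq_zero _).1 h1 a (congrArg Prod.fst hb), map_zero]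
  · obtain ⟨v, w⟩ := v
    obtain ⟨w, rfl⟩ := Submodule.mkQ_surjective _ w
    change q v + -q (h w) = 0 ↔ _
    rw [← sub_eq_add_neg, ← map_sub, h2]
    constructor
    · rintro ⟨a, ha⟩
      refine ⟨w + g a, Prod.ext ?_ ((Submodule.Quotient.eq _).2 ⟨a, by simp⟩)⟩
      change h (w + g a) = v
      rw [map_add, ← LinearMap.comp_apply h g, ha]; abel
    · rintro ⟨b, hb⟩
      obtain ⟨a, ha⟩ := (Submodule.Quotient.eq _).1 (congrArg Prod.snd hb)
      have : h b = v := congrArg Prod.fst hb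
      exact ⟨a, by rw [LinearMap.comp_apply, ha, map_sub, this]⟩
  · obtain ⟨v, rfl⟩ := h3 c
    exact ⟨(v, 0), by simp⟩

end Pool.Agent.Lib.MP_13b5a2_al
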