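import Pool.Agent.Lib.MP_13b5a2_al.Cyc

/-! Koszul type operators on the Fock space. -/

namespace Pool.Agent.Lib.MP_13b5a2_al

open Module LinearMap

lemma Anti.mul {B : Type*} [Ring B] {x y a b : B} (h : Anti x y) (h1 : Commute a y)
    (h2 : Commute b x) (h3 : Commute a b) : Anti (x * a) (y * b) := by
  unfold Anti at *
  rw [mul_assoc, ← mul_assoc a, h1.eq, mul_assoc y, ← mul_assoc x, h, mul_assoc y b,
    ← mul_assoc b, h2.eq, h3.eq, neg_mul, mul_assoc, mul_assoc]

lemma Anti.add {B : Type*} [Ring B] {x y z : B} (h : Anti x y) (h' : Anti x z) : Anti x (y + z) := by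
  unfold Anti at *
  rw [mul_add, add_mul, h, h', neg_add]

lemma Pair.homot {B : Type*} [Ring B] {ξ ι a b c e : B} (P : Pair ξ ι) (a1 : Commute a ξ)
    (a2 : Commute a ι) (b1 : Commute b ξ) (b2 : Commute b ι) (c1 : Commute c ξ)
    (c2 : Commute c ι) (e1 : Commute e ξ) (e2 : Commute e ι) :
    (ξ * a + ι * b) * (ι * c + ξ * e) + (ι * c + ξ * e) * (ξ * a + ι * b) =
      ξ * ι * (a * c + e * b) + ι * ξ * (b * e + c * a) := by
  have key : ∀ {x y u v : B}, Commute u y → x * u * (y * v) = x * y * (u * v) := by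
    intro x y u v h
    rw [mul_assoc, mul_assoc, ← mul_assoc u, h.eq, mul_assoc]
  simp only [mul_add, add_mul, key a1, key a2, key b1, key b2, key c1, key c2, key e1, key e2,
    P.xx, P.ii, zero_mul, add_zero, zero_add]
  abel

/-- Configurations of modes. -/
abbrev JJ (r : ℕ) : Type := Finset (Fin r)

variable {r : ℕ} {R : Type*} [CommRing R] {W : Type*} [AddCommGroup W] [Module R W]

/-- Componentwise action. -/
abbrev cL : End R W →+* End R (JJ r → W) := compLeftHom R W (JJ r)

/-- The Koszul type operator with given coefficients. -/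
def dG (a b : Fin r → End R W) : End R (JJ r → W) :=
  ∑ i, (fX R W i * cL (a i) + fI R W i * cL (b i))

lemma dG_apply (a b : Fin r → End R W) (F : JJ r → W) (s : JJ r) : dG a b F s =
    ∑ i, if i ∈ s then sgn s i • a i (F (s.erase i)) else sgn s i • b i (F (insert i s)) := by
  rw [dG, LinearMap.sum_apply, Finset.sum_apply]
  refine Finset.sum_congr rfl fun i _ => ?_
  rw [LinearMap.add_apply, Pi.add_apply, End.mul_apply, End.mul_apply, fX_apply, fI_apply]
  split_ifs <;> simp <;> rfl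

lemma cX (T : End R W) (i : Fin r) : Commute (cL T) (fX R W i) := commute_fX T i
lemma cI (T : End R W) (i : Fin r) : Commute (cL T) (fI R W i) := commute_fI T i

lemma anti_mode {i j : Fin r} (h : i ≠ j) {a b c e : End R W} (h1 : Commute a c) (h2 : Commute a e)
    (h3 : Commute b c) (h4 : Commute b e) :
    Anti (fX R W i * cL a + fI R W i * cL b) (fX R W j * cL c + fI R W j * cL e) :=
  (((fock_xx h).mul (cX _ _) (cX _ _) (h1.map _)).symm.add
    ((fock_xi h.symm).symm.mul (cX _ _) (cI _ _) (h3.map _)).symm).symm.add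
  (((fock_xi h).mul (cI _ _) (cX _ _) (h2.map _)).symm.add
    ((fock_ii h).mul (cI _ _) (cI _ _) (h4.map _)).symm).symm

lemma dG_sq {a b : Fin r → End R W} (h1 : ∀ i j, Commute (a i) (a j))
    (h2 : ∀ i j, Commute (a i) (b j)) (h3 : ∀ i j, Commute (b i) (b j)) (h4 : ∀ i, a i * b i = 0) :
    dG a b * dG a b = 0 := by
  refine sq_sum _ (fun i _ j _ h => anti_mode h (h1 _ _) (h2 _ _) (h2 _ _).symm (h3 _ _))
    fun j _ => ?_
  have key : ∀ {x y : End R (JJ r → W)} {u v : End R W}, Commute (cL u) y →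
      x * cL u * (y * cL v) = x * y * cL (u * v) := by
    intro x y u v h
    rw [map_mul, mul_assoc, mul_assoc, ← mul_assoc (cL u), h.eq, mul_assoc]
  simp only [mul_add, add_mul, key (cX _ _), key (cI _ _), (fock_pair j).xx, (fock_pair j).ii,
    h4, ← (h2 j j).eq, map_zero, mul_zero, zero_mul, add_zero]

lemma dG_homot {a b : Fin r → End R W} {c e : End R W} (j : Fin r)
    (h1 : ∀ i, i ≠ j → Commute (a i) c) (h2 : ∀ i, i ≠ j → Commute (a i) e)
    (h3 : ∀ i, i ≠ j → Commute (b i) c) (h4 : ∀ i, i ≠ j → Commute (b i) e) :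
    dG a b * (fI R W j * cL c + fX R W j * cL e) + (fI R W j * cL c + fX R W j * cL e) * dG a b =
      fX R W j * fI R W j * cL (a j * c + e * b j) + fI R W j * fX R W j * cL (b j * e + c * a j) := by
  have h : Anti (fI R W j * cL c + fX R W j * cL e)
      (∑ i ∈ Finset.univ.erase j, (fX R W i * cL (a i) + fI R W i * cL (b i))) :=
    anti_sum _ fun i hi => by
      have hi' := Finset.ne_of_mem_erase hi
      rw [add_comm]
      exact (anti_mode hi' (h2 i hi') (h1 i hi') (h4 i hi') (h3 i hi')).symm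
  rw [dG, ← Finset.add_sum_erase _ _ (Finset.mem_univ j), add_mul,
    mul_add (fI R W j * cL c + fX R W j * cL e), h, map_add, map_add,
    map_mul, map_mul, map_mul, map_mul, ← (fock_pair j).homot (cX _ _) (cI _ _) (cX _ _) (cI _ _)
      (cX _ _) (cI _ _) (cX _ _) (cI _ _)]
  abel

variable {R' : Type*} [CommRing R'] {W' : Type*} [AddCommGroup W'] [Module R' W']
  {Φ : Type*} [FunLike Φ W W'] [AddMonoidHomClass Φ W W']

lemma dG_nat {a b : Fin r → End R W} {a' b' : Fin r → End R' W'} (φ ψ : JJ r → Φ) (F : JJ r → W)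
    (s : JJ r) (h1 : ∀ i ∈ s, ψ s (a i (F (s.erase i))) = a' i (φ (s.erase i) (F (s.erase i))))
    (h2 : ∀ i ∉ s, ψ s (b i (F (insert i s))) = b' i (φ (insert i s) (F (insert i s)))) :
    ψ s (dG a b F s) = dG a' b' (fun s => φ s (F s)) s := by
  rw [dG_apply, dG_apply, map_sum]
  refine Finset.sum_congr rfl fun i _ => ?_
  split_ifs with h
  · rw [map_zsmul, h1 i h]
  · rw [map_zsmul, h2 i h]

variable {p : ℕ} [Fact p.Prime]

/-- The augmentation operators. -/
def xs (ρ : EA r p →* End R W) (i : Fin r) : End R W := ρ (gen p i) - 1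

/-- The complementary operators. -/
def ys (η : Fin r → R) (ρ : EA r p →* End R W) (i : Fin r) : End R W := η i • xs ρ i ^ (p - 1)

/-- The differential. -/
def dF (η : Fin r → R) (ρ : EA r p →* End R W) : End R (JJ r → W) := dG (xs ρ) (ys η ρ)

/-- The transposed differential. -/
def kF (η : Fin r → R) (ρ : EA r p →* End R W) : End R (JJ r → W) := dG (ys η ρ) (xs ρ)

variable {η : Fin r → R} {ρ : EA r p →* End R W} {η' : Fin r → R'} {ρ' : EA r p →* End R' W'}

lemma xs_comm (ρ : EA r p →* End R W) (i j : Fin r) : Commute (xs ρ i) (xs ρ j) := by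
  have := (Commute.all (gen p i) (gen p j)).map ρ
  exact (this.sub_right (Commute.one_right _)).sub_left (Commute.one_left _)

lemma end_eq_of_char (k : Type*) [Field k] [CharP k p] [Algebra k R] {a b : End R W}
    (h : CharP R p → a = b) : a = b := by
  rcases subsingleton_or_nontrivial R with _ | _
  · have := Module.subsingleton R W
    exact Subsingleton.elim _ _
  · exact h (charP_of_injective_algebraMap (algebraMap k R).injective p)

section

variable (k : Type*) [Field k] [CharP k p] [Algebra k R]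
include k

lemma xs_ys (η : Fin r → R) (ρ : EA r p →* End R W) (i : Fin r) : xs ρ i * ys η ρ i = 0 :=
  end_eq_of_char (p := p) k fun _ => by
    rw [ys, mul_smul_comm, ← pow_succ', Nat.sub_add_cancel (Fact.out : p.Prime).pos, xs,
      sub_one_pow_char _ (by rw [← map_pow, ea_pow, map_one]), smul_zero]

lemma dF_sq (η : Fin r → R) (ρ : EA r p →* End R W) : dF η ρ * dF η ρ = 0 :=
  dG_sq (xs_comm ρ) (fun i j => ((xs_comm ρ i j).pow_right _).smul_right _)
    (fun i j => (((xs_comm ρ i j).pow_pow _ _).smul_right _).smul_left _) (xs_ys k η ρ)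

lemma kF_sq (η : Fin r → R) (ρ : EA r p →* End R W) : kF η ρ * kF η ρ = 0 :=
  dG_sq (fun i j => (((xs_comm ρ i j).pow_pow _ _).smul_right _).smul_left _)
    (fun i j => ((xs_comm ρ i j).pow_left _).smul_left _) (xs_comm ρ) fun i => by
      rw [← xs_ys k η ρ i]; exact (((Commute.refl _).pow_left _).smul_left _).eq

end

lemma xs_nat {P : AddSubgroup W} (hP : ∀ g, ∀ w ∈ P, ρ g w ∈ P) (φ : Φ)
    (h : ∀ g, ∀ w ∈ P, φ (ρ g w) = ρ' g (φ w)) (i : Fin r) (n : ℕ) :
    ∀ w ∈ P, φ ((xs ρ i ^ n) w) = (xs ρ' i ^ n) (φ w) := by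
  induction n with
  | zero => intro w _; rfl
  | succ n ih =>
    intro w hw
    rw [pow_succ, pow_succ, End.mul_apply, End.mul_apply, ih (xs ρ i w) (P.sub_mem (hP _ w hw) hw)]
    congr 1
    exact (map_sub φ _ _).trans (congrArg (· - φ w) (h _ w hw))

section

variable {P : AddSubgroup W} (hP : ∀ g, ∀ w ∈ P, ρ g w ∈ P) (φ : ℤ → Φ)
  (h1 : ∀ m g, ∀ w ∈ P, φ m (ρ g w) = ρ' g (φ m w))
  (h2 : ∀ m i w, φ (m + 2) (η i • w) = η' i • φ m w) {F : JJ r → W} (hF : ∀ s, F s ∈ P)
include hP h1 h2 hF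

lemma dF_gr (t : ℤ) (s : JJ r) :
    φ (t + 1 - s.card) (dF η ρ F s) = dF η' ρ' (fun s => φ (t - s.card) (F s)) s := by
  refine dG_nat (fun s => φ (t - s.card)) (fun s => φ (t + 1 - s.card)) F s (fun i hi => ?_)
    fun i hi => ?_
  · rw [← Finset.card_erase_add_one hi, Nat.cast_succ, add_sub_add_right_eq_sub]
    simpa using xs_nat hP _ (h1 _) i 1 _ (hF _)
  · rw [Finset.card_insert_of_notMem hi, show t + 1 - s.card = t - (s.card + 1 : ℕ) + 2 by
      push_cast; ring]
    exact (h2 _ _ _).trans (congrArg _ (xs_nat hP _ (h1 _) i _ _ (hF _)))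

lemma kF_gr (t : ℤ) (s : JJ r) :
    φ (t + 1 + s.card) (kF η ρ F s) = kF η' ρ' (fun s => φ (t + s.card) (F s)) s := by
  refine dG_nat (fun s => φ (t + s.card)) (fun s => φ (t + 1 + s.card)) F s (fun i hi => ?_)
    fun i hi => ?_
  · rw [show t + 1 + s.card = t + (s.erase i).card + 2 by
      rw [← Finset.card_erase_add_one hi]; push_cast; ring]
    exact (h2 _ _ _).trans (congrArg _ (xs_nat hP _ (h1 _) i _ _ (hF _)))
  · rw [Finset.card_insert_of_notMem hi, show t + 1 + s.card = t + (s.card + 1 : ℕ) by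
      push_cast; ring]
    simpa using xs_nat hP _ (h1 _) i 1 _ (hF _)

end

lemma dF_nat (φ : Φ) (h1 : ∀ g w, φ (ρ g w) = ρ' g (φ w)) (h2 : ∀ i w, φ (η i • w) = η' i • φ w)
    (F : JJ r → W) : φ ∘ dF η ρ F = dF η' ρ' (φ ∘ F) := funext fun s =>
  dF_gr (P := ⊤) (fun _ _ _ => trivial) (fun _ => φ) (fun _ g w _ => h1 g w) (fun _ => h2)
    (fun _ => trivial) 0 s

lemma kF_nat (φ : Φ) (h1 : ∀ g w, φ (ρ g w) = ρ' g (φ w)) (h2 : ∀ i w, φ (η i • w) = η' i • φ w)
    (F : JJ r → W) : φ ∘ kF η ρ F = kF η' ρ' (φ ∘ F) := funext fun s =>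
  kF_gr (P := ⊤) (fun _ _ _ => trivial) (fun _ => φ) (fun _ g w _ => h1 g w) (fun _ => h2)
    (fun _ => trivial) 0 s

/-- Translation as a representation. -/
def trH (R W : Type*) [CommRing R] [AddCommGroup W] [Module R W] : EA r p →* End R (EA r p → W) where
  toFun := tr R W
  map_one' := tr_one
  map_mul' := tr_mul

lemma xs_lft {i j : Fin r} (h : i ≠ j) (T : End R (ZMod p → W)) :
    Commute (xs (trH R W) i) (lft j T) :=
  ((commute_lft h.symm T).sub_right (Commute.one_right _)).symm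

lemma eta_null (k : Type*) [Field k] [CharP k p] [Algebra k R] (η : Fin r → R) (j : Fin r) :
    ∃ h : End R (JJ r → EA r p → W), dF η (trH R W) * h + h * dF η (trH R W) = η j • 1 := by
  refine ⟨_, end_eq_of_char (p := p) k fun _ => (dG_homot (c := η j • hu R W j) (e := hw R W j) j
    (fun i hi => (xs_lft hi _).smul_right _) (fun i hi => xs_lft hi _)
    (fun i hi => (((xs_lft hi _).pow_left _).smul_left _).smul_right _)
    (fun i hi => ((xs_lft hi _).pow_left _).smul_left _)).trans ?_⟩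
  simp only [ys, mul_smul_comm, smul_mul_assoc, ← smul_add]
  rw [add_comm (_ * hw R W j)]
  erw [xu_eq, ux_eq]
  rw [← add_mul, (fock_pair j).ix, add_sub_cancel, one_mul]
  rfl

end Pool.Agent.Lib.MP_13b5a2_al
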