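import Pool.Agent.Lib.MP_13b5a2_al.Gm
import Pool.Agent.Lib.MP_13b5a2_al.Koz
import Pool.Agent.Lib.MP_13b5a2_al.Glob
import Pool.Agent.Lib.MP_13b5a2_al.Tw

/-! Graded complexes of representations with an action of a graded algebra. -/

universe u

namespace Pool.Agent.Lib.MP_13b5a2_al

open Module Filter

variable {k R R' R'' : Type u} [Field k] [CommRing R] [Algebra k R] [CommRing R'] [Algebra k R']
  [CommRing R''] [Algebra k R''] {r : ℕ} {G : Type} [Group G]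

/-- A graded complex. -/
structure Cx (G : Type) [Group G] (Γ : Gr k R r) where
  V : Type u
  [acg : AddCommGroup V]
  [modk : Module k V]
  [modR : Module R V]
  [tower : IsScalarTower k R V]
  [noeth : IsNoetherian R V]
  g : Gm k V
  ρ : G →* End R V
  d : End R V
  dd : ∀ v, d (d v) = 0
  ρd : ∀ a v, d (ρ a v) = ρ a (d v)
  ρπ : ∀ a t v, g.π t (ρ a v) = ρ a (g.π t v)
  πd : ∀ t v, g.π (t + 1) (d v) = d (g.π t v)
  πR : ∀ t u a v, g.π u v = v → g.π (t + u) (a • v) = Γ.π t a • v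

attribute [instance] Cx.acg Cx.modk Cx.modR Cx.tower Cx.noeth

namespace Cx

variable {Γ : Gr k R r} {Γ' : Gr k R' r} {Γ'' : Gr k R'' r} (C : Cx G Γ) (C' : Cx G Γ')
  (C'' : Cx G Γ'')

lemma πR' {u : ℤ} {a : R} (h : Γ.π u a = a) (t : ℤ) (v : C.V) :
    C.g.π (t + u) (a • v) = a • C.g.π t v := by
  conv_lhs => rw [← C.g.sum v, Finset.smul_sum, map_sum]
  rw [Finset.sum_eq_single t, add_comm, C.πR _ _ _ _ (C.g.idem _ _), h]
  · intro j _ hj
    rw [← sub_add_cancel (t + u) j, C.πR _ _ _ _ (C.g.idem _ _), Γ.of_ne h (by omega), zero_smul]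
  · intro e
    have : C.g.π t v = 0 := by simpa using e
    simp [this]

/-- The underlying representation. -/
def ρk : Representation k G C.V where
  toFun a := (C.ρ a).restrictScalars k
  map_one' := by ext; simp
  map_mul' a b := by ext; simp

/-- Invariant subspaces. -/
def Inv (U : Submodule k C.V) : Prop := ∀ a v, v ∈ U → C.ρ a v ∈ U

/-- The homogeneous part of a subspace. -/
def hp (t : ℤ) (U : Submodule k C.V) : Submodule k C.V :=
  LinearMap.eqLocus (C.g.π t) LinearMap.id ⊓ U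

lemma mem_hp {t : ℤ} {U : Submodule k C.V} {v : C.V} : v ∈ C.hp t U ↔ C.g.π t v = v ∧ v ∈ U :=
  Iff.rfl

instance (t : ℤ) (U : Submodule k C.V) : FiniteDimensional k (C.hp t U) :=
  have := Module.Finite.iff_fg.2 (C.g.fin t)
  Submodule.finiteDimensional_of_le inf_le_left

/-- The homogeneous part of an invariant subspace as a representation. -/
abbrev ob (t : ℤ) (U : Submodule k C.V) (hU : C.Inv U) : Obj k G :=
  ⟨C.hp t U, C.ρk.subrepresentation _ fun a v hv =>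
    ⟨(C.ρπ a t v).trans (congrArg _ hv.1), hU a v hv.2⟩⟩

/-- Cocycles. -/
def kd : Submodule k C.V := (LinearMap.ker C.d).restrictScalars k

lemma inv_kd : C.Inv C.kd := fun a v (hv : C.d v = 0) => show C.d _ = 0 by rw [C.ρd, hv, map_zero]

lemma inv_top : C.Inv ⊤ := fun _ _ _ => trivial

/-- Homogeneous cocycles. -/
abbrev Z (t : ℤ) : Obj k G := C.ob t C.kd C.inv_kd

variable {C C' C''}

lemma isHom_restrict {t t' U U' hU hU'} {f : C.V →ₗ[k] C'.V} (h : ∀ v ∈ C.hp t U, f v ∈ C'.hp t' U')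
    (hf : ∀ a, ∀ v ∈ C.hp t U, f (C.ρ a v) = C'.ρ a (f v)) :
    Obj.IsHom (C.ob t U hU) (C'.ob t' U' hU') (f.restrict h) := fun a v => Subtype.ext (hf a v v.2)

lemma ses_ob {t t' t'' U U' U'' hU hU' hU''} (f : C.V →ₗ[k] C'.V) (g : C'.V →ₗ[k] C''.V)
    (hf : ∀ a v, f (C.ρ a v) = C'.ρ a (f v)) (hg : ∀ a v, g (C'.ρ a v) = C''.ρ a (g v))
    (h1 : ∀ v ∈ C'.hp t' U', g v ∈ C''.hp t'' U'') (h2 : Function.Injective f)
    (h3 : ∀ w, (w ∈ C'.hp t' U' ∧ g w = 0) ↔ ∃ v ∈ C.hp t U, f v = w)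
    (h4 : ∀ x ∈ C''.hp t'' U'', ∃ w ∈ C'.hp t' U', g w = x) :
    SES (C.ob t U hU).cl (C'.ob t' U' hU').cl (C''.ob t'' U'' hU'').cl := by
  refine ⟨_, _, _, rfl, rfl, rfl, f.restrict fun v hv => ((h3 _).2 ⟨v, hv, rfl⟩).1, g.restrict h1,
    isHom_restrict _ fun a v _ => hf a v, isHom_restrict _ fun a v _ => hg a v,
    fun v w e => Subtype.ext (h2 (congrArg Subtype.val e)), fun w => ⟨fun e => ?_, ?_⟩, fun x => ?_⟩
  · obtain ⟨v, hv, e⟩ := (h3 w).1 ⟨w.2, congrArg Subtype.val e⟩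
    exact ⟨⟨v, hv⟩, Subtype.ext e⟩
  · rintro ⟨v, rfl⟩
    exact Subtype.ext ((h3 _).2 ⟨v, v.2, rfl⟩).2
  · obtain ⟨w, hw, e⟩ := h4 x x.2
    exact ⟨⟨w, hw⟩, Subtype.ext e⟩

variable (C C') in
/-- Graded equivariant chain maps. -/
structure IsMor (u : ℤ) (f : C.V → C'.V) : Prop where
  ρ : ∀ a v, f (C.ρ a v) = C'.ρ a (f v)
  d : ∀ v, f (C.d v) = C'.d (f v)
  π : ∀ t v, C'.g.π (t + u) (f v) = f (C.g.π t v)

lemma IsMor.comp {f : C.V → C'.V} {g : C'.V → C''.V} (hf : IsMor C C' 0 f) (hg : IsMor C' C'' 0 g) :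
    IsMor C C'' 0 (g ∘ f) :=
  ⟨fun a v => by simp [hf.ρ, hg.ρ], fun v => by simp [hf.d, hg.d], fun t v => by
    have := hf.π t v
    rw [add_zero] at this
    simp only [Function.comp_apply, hg.π, this]⟩

lemma IsMor.id : IsMor C C 0 id := ⟨fun _ _ => rfl, fun _ => rfl, fun t v => by simp⟩

lemma IsMor.smul {u : ℤ} {a : R} (h : Γ.π u a = a) : IsMor C C u (a • ·) :=
  ⟨fun _ _ => by simp, fun _ => by simp, C.πR' h⟩

lemma IsMor.π0 {f : C.V → C'.V} (hf : IsMor C C' 0 f) (t : ℤ) (v : C.V) :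
    C'.g.π t (f v) = f (C.g.π t v) := by simpa using hf.π t v

variable (C) in
/-- Exactness in a degree. -/
def Ex (t : ℤ) : Prop := ∀ v, C.g.π (t + 1) v = v → C.d v = 0 → ∃ w, C.g.π t w = w ∧ C.d w = v

lemma ex_of {t : ℤ} (h : ∀ v, C.g.π (t + 1) v = v → C.d v = 0 → ∃ w, C.d w = v) : C.Ex t :=
  fun v h1 h2 => by
    obtain ⟨w, rfl⟩ := h v h1 h2
    exact ⟨_, C.g.idem t w, by rw [← C.πd, h1]⟩

lemma ev_ex (h : ∀ j v, C.d v = 0 → Γ.η j • v ∈ LinearMap.range C.d) : ∀ᶠ t in atTop, C.Ex t := by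
  obtain ⟨s, hs⟩ := IsNoetherian.noetherian (LinearMap.ker C.d)
  filter_upwards [(tendsto_atTop_add_const_right _ 1 tendsto_id).eventually
    ((s.eventually_all).2 fun z _ => C.g.ev_zero z)] with t ht
  refine ex_of fun v h1 h2 => ?_
  have key : ∀ v ∈ Submodule.span R (s : Set C.V), C.g.π (t + 1) v ∈ LinearMap.range C.d := by
    intro v hv
    obtain ⟨c, -, rfl⟩ := Submodule.mem_span_finset.1 hv
    rw [map_sum]
    refine Submodule.sum_mem _ fun z hz => ?_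
    obtain ⟨c', b, e⟩ := Γ.gen (c z)
    have hz' : C.d z = 0 := (hs ▸ Submodule.subset_span hz : z ∈ LinearMap.ker C.d)
    rw [e, add_smul, smul_assoc, one_smul, map_add, map_smul, show C.g.π (t + 1) z = 0 from ht z hz, smul_zero, zero_add,
      Finset.sum_smul, map_sum]
    refine Submodule.sum_mem _ fun i _ => ?_
    obtain ⟨w, hw⟩ := h i (b i • z) (by rw [map_smul, hz', smul_zero])
    exact ⟨_, by rw [mul_smul, ← hw, C.πd]⟩
  exact h1 ▸ key v (hs ▸ h2)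

lemma ses_V {t : ℤ} (h : C.Ex t) : SES (C.Z t).cl (C.ob t ⊤ C.inv_top).cl (C.Z (t + 1)).cl :=
  ses_ob LinearMap.id (C.d.restrictScalars k) (fun _ _ => rfl) C.ρd
    (fun v hv => ⟨(C.πd t v).trans (congrArg _ hv.1), C.dd v⟩) Function.injective_id
    (fun w => ⟨fun e => ⟨w, ⟨e.1.1, e.2⟩, rfl⟩, by rintro ⟨v, hv, rfl⟩; exact ⟨⟨hv.1, trivial⟩, hv.2⟩⟩)
    fun x hx => by
      obtain ⟨w, h1, h2⟩ := h x hx.1 hx.2
      exact ⟨w, ⟨h1, trivial⟩, h2⟩

lemma IsMor.hp {u : ℤ} {f : C.V →ₗ[k] C'.V} (hf : IsMor C C' u f) (t : ℤ) :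
    ∀ v ∈ C.hp t C.kd, f v ∈ C'.hp (t + u) C'.kd := fun v hv =>
  ⟨(hf.π t v).trans (congrArg _ hv.1), (hf.d v).symm.trans (by rw [show C.d v = 0 from hv.2, map_zero])⟩

section

variable {u t : ℤ} {f : C.V →ₗ[k] C'.V} {g : C'.V →ₗ[k] C''.V} (hf : IsMor C C' u f)
  (hg : IsMor C' C'' 0 g) (h1 : Function.Injective f) (h2 : Function.Exact f g)
include hf h1 h2

lemma z_ker (w : C'.V) : (w ∈ C'.hp (t + u) C'.kd ∧ g w = 0) ↔ ∃ v ∈ C.hp t C.kd, f v = w := by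
  refine ⟨fun ⟨hw, e⟩ => ?_, ?_⟩
  · obtain ⟨v, rfl⟩ := (h2 w).1 e
    have e1 : f (C.g.π t v) = f v := (hf.π t v).symm.trans hw.1
    exact ⟨v, ⟨h1 e1, h1 ((hf.d v).trans (hw.2.trans (map_zero f).symm))⟩, rfl⟩
  · rintro ⟨v, hv, rfl⟩
    exact ⟨hf.hp t v hv, h2.apply_apply_eq_zero v⟩

include hg

lemma z_surj (h3 : Function.Surjective g) (h : C.Ex t) :
    ∀ x ∈ C''.hp (t + u) C''.kd, ∃ w ∈ C'.hp (t + u) C'.kd, g w = x := by
  intro x hx
  obtain ⟨w, rfl⟩ := h3 x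
  have e1 : g (C'.g.π (t + u) w) = g w := (hg.π0 _ w).symm.trans hx.1
  obtain ⟨v, hv, e⟩ := (z_ker (t := t + 1) hf h1 h2 (C'.d (C'.g.π (t + u) w))).1
    ⟨⟨by rw [add_right_comm]; exact (C'.πd _ _).trans (congrArg _ (C'.g.idem _ _)), C'.dd _⟩,
      by rw [hg.d, e1]; exact hx.2⟩
  obtain ⟨y, hy, rfl⟩ := h v hv.1 hv.2
  refine ⟨C'.g.π (t + u) w - f y, ⟨?_, ?_⟩, by rw [map_sub, e1, h2.apply_apply_eq_zero, sub_zero]⟩
  · change C'.g.π _ _ = _ - _
    rw [map_sub, C'.g.idem, hf.π, hy]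
  · change C'.d _ = 0
    rw [map_sub, ← e, hf.d, sub_self]

lemma ses_Z (h3 : Function.Surjective g) (h : C.Ex t) :
    SES (C.Z t).cl (C'.Z (t + u)).cl (C''.Z (t + u)).cl :=
  ses_ob f g hf.ρ hg.ρ (fun v hv => by simpa using hg.hp _ v hv) h1 (z_ker hf h1 h2)
    (z_surj hf hg h1 h2 h3 h)

end

lemma cl_Z_eq {g : C.V →ₗ[k] C'.V} (hg : IsMor C C' 0 g) (h : Function.Bijective g) (t : ℤ) :
    (C.Z t).cl = (C'.Z t).cl := by
  refine (Obj.iso_of_bijective (isHom_restrict (f := g) (fun v hv => by simpa using hg.hp _ v hv)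
    fun a v _ => hg.ρ a v) ⟨fun v w e => Subtype.ext (h.1 (congrArg Subtype.val e)), ?_⟩).cl_eq
  rintro ⟨x, hx⟩
  obtain ⟨v, rfl⟩ := h.2 x
  exact ⟨⟨v, h.1 ((hg.π0 t v).symm.trans hx.1), h.1 ((hg.d v).trans (hx.2.trans
    (map_zero g).symm))⟩, rfl⟩

variable {ι : Type} [Fintype ι] [DecidableEq ι]

/-- Twisting an action by a matrix representation. -/
def twE {V : Type*} [AddCommGroup V] [Module k V] [Module R V] [IsScalarTower k R V]
    (μ : G →* Matrix ι ι k) (ρ : G →* End R V) : G →* End R (ι → V) where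
  toFun g := LinearMap.pi fun a => ∑ b, μ g a b • (ρ g ∘ₗ LinearMap.proj b)
  map_one' := by
    refine LinearMap.ext fun φ => funext fun a => ?_
    simp [LinearMap.sum_apply, Matrix.one_apply]
  map_mul' g h := by
    refine LinearMap.ext fun φ => funext fun a => ?_
    simp only [map_mul, LinearMap.pi_apply, LinearMap.sum_apply, LinearMap.smul_apply,
      LinearMap.comp_apply, LinearMap.proj_apply, Module.End.mul_apply, Matrix.mul_apply,
      Finset.sum_smul, map_sum, LinearMap.map_smul_of_tower, Finset.smul_sum, smul_smul]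
    exact Finset.sum_comm

lemma twE_apply {V : Type*} [AddCommGroup V] [Module k V] [Module R V] [IsScalarTower k R V]
    (μ : G →* Matrix ι ι k) (ρ : G →* End R V) (g : G) (φ : ι → V) (a : ι) :
    twE μ ρ g φ a = ∑ b, μ g a b • ρ g (φ b) := by
  simp [twE, LinearMap.sum_apply]

variable (C) in
/-- Tensoring a complex with a matrix representation. -/
abbrev tw (μ : G →* Matrix ι ι k) : Cx G Γ where
  V := ι → C.V
  g := Gm.pi fun _ => C.g
  ρ := twE μ C.ρ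
  d := C.d.compLeft ι
  dd v := funext fun a => C.dd _
  ρd g v := funext fun a => by simp [twE_apply, C.ρd]
  ρπ g t v := funext fun a => by simp [twE_apply, Gm.pi_π, C.ρπ]
  πd t v := funext fun a => C.πd _ _
  πR t u c v h := funext fun a => C.πR _ _ _ _ (congrFun h a)

lemma IsMor.tw (μ : G →* Matrix ι ι k) {u : ℤ} {f : C.V →ₗ[k] C'.V} (h : IsMor C C' u f) :
    IsMor (C.tw μ) (C'.tw μ) u (f.compLeft ι) :=
  ⟨fun g v => funext fun a => by simp [twE_apply, h.ρ], fun v => funext fun a => h.d _,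
    fun t v => funext fun a => h.π _ _⟩

lemma cl_tw_ob (μ : G →* Matrix ι ι k) (t : ℤ) {U hU U' hU'} (h : ∀ φ, φ ∈ U' ↔ ∀ a, φ a ∈ U) :
    ((C.tw μ).ob t U' hU').cl = (Obj.tw μ Obj.one).cl * (C.ob t U hU).cl := by
  rw [← Obj.cl_tw]
  refine (Obj.iso_of_bijective (X := Obj.tw μ (C.ob t U hU)) (Y := (C.tw μ).ob t U' hU')
    (f := LinearMap.codRestrict ((C.tw μ).hp t U')
    ((C.hp t U).subtype.compLeft ι) fun φ => ⟨funext fun a => (φ a).2.1, (h _).2 fun a => (φ a).2.2⟩)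
    (fun g φ => Subtype.ext (funext fun a => ?_))
    ⟨fun φ ψ e => funext fun a => Subtype.ext (congrFun (congrArg Subtype.val e) a),
      fun φ => ⟨fun a => ⟨φ.1 a, congrFun φ.2.1 a, (h _).1 φ.2.2 a⟩, rfl⟩⟩).cl_eq.symm
  change (C.hp t U).subtype (Obj.twRep μ _ g φ a) = twE μ C.ρ g _ a
  rw [Obj.twRep_apply, twE_apply, map_sum]
  rfl

lemma cl_tw_Z (μ : G →* Matrix ι ι k) (t : ℤ) :
    ((C.tw μ).Z t).cl = (Obj.tw μ Obj.one).cl * (C.Z t).cl := cl_tw_ob μ t fun _ => funext_iff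

lemma Ex.tw (μ : G →* Matrix ι ι k) {t : ℤ} (h : C.Ex t) : (C.tw μ).Ex t := ex_of fun v h1 h2 => by
  choose w _ hw using fun a => h (v a) (congrFun h1 a) (congrFun h2 a)
  exact ⟨w, funext hw⟩

/-- The mapping cone. -/
abbrev cone {T D : Cx G Γ} {e : ℤ} {f : T.V →ₗ[R] D.V} (h : IsMor T D e f) : Cx G Γ where
  V := D.V × T.V
  g := D.g.prod (T.g.shift (1 - e))
  ρ := (LinearMap.prodMapRingHom R _ _).toMonoidHom.comp (D.ρ.prod T.ρ)
  d := (D.d.coprod f).prod (-(T.d ∘ₗ LinearMap.snd _ _ _))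
  dd v := Prod.ext (by simp [D.dd, h.d]) (by simp [T.dd])
  ρd g v := Prod.ext (by simp [D.ρd, h.ρ]) (by simp [T.ρd])
  ρπ g t v := Prod.ext (D.ρπ _ _ _) (T.ρπ _ _ _)
  πd t v := Prod.ext (by
    change D.g.π _ (D.d v.1 + f v.2) = D.d (D.g.π _ v.1) + f (T.g.π _ v.2)
    rw [map_add, D.πd, ← h.π, add_assoc, sub_add_cancel]) (by
    change T.g.π _ (-T.d v.2) = -T.d (T.g.π _ v.2)
    rw [map_neg, ← T.πd, add_right_comm])
  πR t u c v hv := Prod.ext (D.πR _ _ _ _ (congrArg Prod.fst hv)) (by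
    change T.g.π (t + u + (1 - e)) _ = _
    rw [add_assoc]
    exact T.πR _ _ _ _ (congrArg Prod.snd hv))

lemma isMor_inl {T D : Cx G Γ} {e : ℤ} {f : T.V →ₗ[R] D.V} (h : IsMor T D e f) :
    IsMor D (cone h) 0 (LinearMap.inl R D.V T.V) :=
  ⟨fun a v => by simp, fun v => by simp, fun t v => Prod.ext (by rw [add_zero]; rfl)
    (map_zero (T.g.π _))⟩

end Cx

end Pool.Agent.Lib.MP_13b5a2_al
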