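import Pool.Agent.Lib.MP_13b5a2_al.Fock

/-! Contracting homotopies for the regular module of an elementary abelian group. -/

namespace Pool.Agent.Lib.MP_13b5a2_al

open Module LinearMap

variable {p : ℕ} [Fact p.Prime] {R : Type*} [CommRing R] {N : Type*} [AddCommGroup N] [Module R N]

lemma pow_pred_eq_geom [CharP R p] (g : End R N) :
    (g - 1) ^ (p - 1) = ∑ i ∈ Finset.range p, g ^ i := by
  have := congrArg (Polynomial.aeval g) (geom_char (p := p) (Polynomial.X : Polynomial R) 1)
  simpa using this.symm

lemma sub_one_pow_char [CharP R p] (g : End R N) (h : g ^ p = 1) : (g - 1) ^ p = 0 := by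
  have := congrArg (Polynomial.aeval g) (sub_pow_char (p := p) (Polynomial.X : Polynomial R) 1)
  simpa [h] using this

lemma sum_range_cast {M : Type*} [AddCommMonoid M] (F : ZMod p → M) :
    ∑ i ∈ Finset.range p, F i = ∑ b, F b := by
  refine Finset.sum_bij' (fun i _ => (i : ZMod p)) (fun b _ => b.val) (by simp)
    (fun b _ => Finset.mem_range.2 (ZMod.val_lt b)) (fun i hi => ?_) (by simp) fun _ _ => rfl
  exact ZMod.val_cast_of_lt (Finset.mem_range.1 hi)

variable (p R N)

/-- Translation. -/
def c1g : End R (ZMod p → N) := LinearMap.funLeft R N fun a => a - 1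

/-- First homotopy. -/
def c1u : End R (ZMod p → N) :=
  LinearMap.pi fun a => ∑ b ∈ Finset.Ico (a.val + 1) p, LinearMap.proj (b : ZMod p)

/-- Second homotopy. -/
def c1w : End R (ZMod p → N) := LinearMap.pi fun a => if a = 0 then LinearMap.proj (-1) else 0

variable {p R N}

lemma c1g_pow (i : ℕ) (F : ZMod p → N) (a : ZMod p) : (c1g p R N ^ i) F a = F (a - i) := by
  induction i generalizing a with
  | zero => simp
  | succ i ih =>
    rw [pow_succ', Module.End.mul_apply]
    change (c1g p R N ^ i) F (a - 1) = _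
    rw [ih]; congr 1; push_cast; ring

lemma c1_norm [CharP R p] (F : ZMod p → N) (a : ZMod p) :
    ((c1g p R N - 1) ^ (p - 1)) F a = ∑ b, F b := by
  rw [pow_pred_eq_geom, LinearMap.sum_apply, Finset.sum_apply]
  simp only [c1g_pow]
  rw [sum_range_cast fun b => F (a - b)]
  exact Fintype.sum_equiv (Equiv.subLeft a) _ _ fun _ => rfl

lemma c1u_apply (F : ZMod p → N) (a : ZMod p) :
    c1u p R N F a = ∑ b ∈ Finset.Ico (a.val + 1) p, F b := by
  simp [c1u, LinearMap.sum_apply]

lemma c1w_apply (F : ZMod p → N) (a : ZMod p) : c1w p R N F a = if a = 0 then F (-1) else 0 := by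
  simp only [c1w, LinearMap.pi_apply]; split_ifs <;> rfl

lemma cast_pred : ((p - 1 : ℕ) : ZMod p) = -1 := by
  rw [Nat.cast_sub (Fact.out : p.Prime).pos]; simp

lemma c1_xu [CharP R p] :
    (c1g p R N - 1) * c1u p R N + c1w p R N * (c1g p R N - 1) ^ (p - 1) = 1 := by
  refine LinearMap.ext fun F => funext fun a => ?_
  change c1u p R N F (a - 1) - c1u p R N F a + c1w p R N _ a = F a
  have hp := (Fact.out : p.Prime).pos
  rw [c1w_apply, c1_norm, c1u_apply, c1u_apply]
  split_ifs with h
  · subst h
    rw [zero_sub, ← cast_pred, ZMod.val_cast_of_lt (by omega), Nat.sub_add_cancel hp,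
      Finset.Ico_self, Finset.sum_empty, ZMod.val_zero, ← sum_range_cast, Finset.range_eq_Ico,
      Finset.sum_eq_sum_Ico_succ_bot hp]
    simp
  · have h1 : 0 < a.val := Nat.pos_of_ne_zero (by simpa using h)
    have h2 : a - 1 = ((a.val - 1 : ℕ) : ZMod p) := by rw [Nat.cast_sub h1]; simp
    have h3 := ZMod.val_lt a
    rw [h2, ZMod.val_cast_of_lt (by omega), Nat.sub_add_cancel h1,
      Finset.sum_eq_sum_Ico_succ_bot h3]
    simp

lemma c1_ux [CharP R p] :
    c1u p R N * (c1g p R N - 1) + (c1g p R N - 1) ^ (p - 1) * c1w p R N = 1 := by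
  refine LinearMap.ext fun F => funext fun a => ?_
  change c1u p R N _ a + ((c1g p R N - 1) ^ (p - 1)) (c1w p R N F) a = F a
  have h3 := ZMod.val_lt a
  rw [c1_norm, c1u_apply, Finset.sum_Ico_eq_sum_range]
  simp only [c1w_apply, Finset.sum_ite_eq', Finset.mem_univ, if_true]
  have := Finset.sum_range_sub' (fun j : ℕ => F ((a.val + j : ℕ) : ZMod p)) (p - (a.val + 1))
  rw [show a.val + (p - (a.val + 1)) = p - 1 by omega, cast_pred] at this
  rw [Finset.sum_congr rfl (g := fun j => F ((a.val + j : ℕ) : ZMod p) -
    F ((a.val + (j + 1) : ℕ) : ZMod p)), this]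
  · simp
  · intro j _
    change F (_ - 1) - F _ = _
    congr 2
    · push_cast; ring
    · congr 1; ring

/-- The elementary abelian group of rank `r`. -/
abbrev EA (r p : ℕ) : Type := Fin r → Multiplicative (ZMod p)

variable {r : ℕ}

/-- The standard generators. -/
def gen (p : ℕ) (i : Fin r) : EA r p := Pi.mulSingle i (Multiplicative.ofAdd 1)

lemma ea_pow (g : EA r p) : g ^ p = 1 := by
  ext i
  simp [← ofAdd_nsmul]

variable (R N) in
/-- Translation of functions. -/
def tr (g : EA r p) : End R (EA r p → N) := LinearMap.funLeft R N fun s => g⁻¹ * s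

lemma tr_apply (g : EA r p) (f : EA r p → N) (s : EA r p) : tr R N g f s = f (g⁻¹ * s) := rfl

lemma tr_mul (g h : EA r p) : tr R N (g * h) = tr R N g * tr R N h := by
  refine LinearMap.ext fun f => funext fun s => ?_
  simp [tr_apply, mul_assoc]

lemma tr_one : tr R N (1 : EA r p) = 1 := by
  refine LinearMap.ext fun f => funext fun s => ?_
  simp [tr_apply]

/-- Operators acting in one coordinate. -/
def lft (i : Fin r) : End R (ZMod p → N) →+* End R (EA r p → N) where
  toFun T := LinearMap.pi fun s => LinearMap.proj (s i).toAdd ∘ₗ T ∘ₗ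
    LinearMap.funLeft R N fun a => Function.update s i (Multiplicative.ofAdd a)
  map_one' := LinearMap.ext fun f => funext fun s => by simp
  map_mul' T T' := LinearMap.ext fun f => funext fun s => by
    change T (T' _) _ = T _ _
    refine congrFun (congrArg T (funext fun a => ?_)) _
    simp only [LinearMap.funLeft_apply, LinearMap.pi_apply, LinearMap.comp_apply,
      LinearMap.proj_apply, Function.update_self, toAdd_ofAdd]
    refine congrFun (congrArg T' (funext fun b => ?_)) _
    simp
  map_zero' := rfl
  map_add' _ _ := rfl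

lemma lft_apply (i : Fin r) (T : End R (ZMod p → N)) (f : EA r p → N) (s : EA r p) :
    lft i T f s = T (fun a => f (Function.update s i (Multiplicative.ofAdd a))) (s i).toAdd := rfl

lemma lft_c1g (i : Fin r) : lft i (c1g p R N) = tr R N (gen p i) := by
  refine LinearMap.ext fun f => funext fun s => ?_
  change f _ = f _
  congr 1
  ext j
  by_cases h : j = i
  · subst h; simp [gen, sub_eq_neg_add]
  · simp [gen, h]

lemma commute_lft {i j : Fin r} (h : i ≠ j) (T : End R (ZMod p → N)) :
    Commute (lft i T) (tr R N (gen p j)) := by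
  refine LinearMap.ext fun f => funext fun s => ?_
  simp only [Module.End.mul_apply, lft_apply, tr_apply]
  have e : ((gen p j)⁻¹ * s) i = s i := by simp [gen, h]
  rw [e]
  refine congrFun (congrArg T (funext fun a => congrArg f ?_)) _
  ext l
  by_cases e : l = i
  · subst e; simp [gen, h]
  · simp [e]

/-- First homotopy in a coordinate. -/
def hu (R N : Type*) [CommRing R] [AddCommGroup N] [Module R N] (i : Fin r) :
    End R (EA r p → N) := lft i (c1u p R N)

/-- Second homotopy in a coordinate. -/
def hw (R N : Type*) [CommRing R] [AddCommGroup N] [Module R N] (i : Fin r) :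
    End R (EA r p → N) := lft i (c1w p R N)

lemma xu_eq [CharP R p] (i : Fin r) : (tr R N (gen p i) - 1) * hu R N i +
    hw R N i * (tr R N (gen p i) - 1) ^ (p - 1) = 1 := by
  have := congrArg (lft i) (c1_xu (p := p) (R := R) (N := N))
  simpa [lft_c1g, hu, hw] using this

lemma ux_eq [CharP R p] (i : Fin r) : hu R N i * (tr R N (gen p i) - 1) +
    (tr R N (gen p i) - 1) ^ (p - 1) * hw R N i = 1 := by
  have := congrArg (lft i) (c1_ux (p := p) (R := R) (N := N))
  simpa [lft_c1g, hu, hw] using this

end Pool.Agent.Lib.MP_13b5a2_al
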