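import Pool.Agent.Lib.MP_13b5a2_al.Shapiro

/-! The criterion of Higman and the comparison of cores with a Sylow subgroup. -/

universe u

namespace Pool.Agent.Lib.MP_13b5a2_al

open Module

set_option backward.isDefEq.respectTransparency false

section Modules

variable {k : Type u} {G : Type} [Field k] [Group G] [Fintype G]
variable {Q : Type*} [AddCommGroup Q] [Module k Q] [Module (MonoidAlgebra k G) Q]
  [IsScalarTower k (MonoidAlgebra k G) Q]
variable {M : Type*} [AddCommGroup M] [Module k M] [Module (MonoidAlgebra k G) M]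
  [IsScalarTower k (MonoidAlgebra k G) M]

lemma higman_of_projective [h : Module.Projective (MonoidAlgebra k G) Q] :
    ∃ β : Q →ₗ[k] Q, ∀ q, β.sumOfConjugatesEquivariant G q = q := by
  obtain ⟨s, hs⟩ := Module.projective_def.1 h
  let θ : MonoidAlgebra k G →ₗ[k] MonoidAlgebra k G :=
    MonoidAlgebra.lsingle (1 : G) ∘ₗ Finsupp.lapply (1 : G) ∘ₗ
      (MonoidAlgebra.coeffLinearEquiv k).toLinearMap
  have hθ : ∀ r : MonoidAlgebra k G, ∑ g : G, MonoidAlgebra.single g⁻¹ (1 : k) *
      θ (MonoidAlgebra.single g (1 : k) * r) = r := by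
    intro r
    have h1 : ∀ g : G, MonoidAlgebra.single g⁻¹ (1 : k) *
        θ (MonoidAlgebra.single g (1 : k) * r) = MonoidAlgebra.single g⁻¹ (r.coeff g⁻¹) := by
      intro g
      change MonoidAlgebra.single g⁻¹ (1 : k) * MonoidAlgebra.single 1
        ((MonoidAlgebra.single g (1 : k) * r).coeff 1) = _
      simp [MonoidAlgebra.single_mul_single]
    simp only [h1]
    refine (Fintype.sum_equiv (Equiv.inv G) _ (fun g => MonoidAlgebra.single g (r.coeff g))
      fun _ => rfl).trans ?_
    ext g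
    simp [MonoidAlgebra.coeff_sum]
  let L := Finsupp.linearCombination (MonoidAlgebra k G) (id : Q → Q)
  refine ⟨L.restrictScalars k ∘ₗ Finsupp.mapRange.linearMap θ ∘ₗ s.restrictScalars k, fun q => ?_⟩
  rw [LinearMap.sumOfConjugatesEquivariant_apply]
  simp only [LinearMap.conjugate_apply, LinearMap.comp_apply, LinearMap.restrictScalars_apply,
    ← map_smul L, map_smul s, ← map_sum L]
  refine Eq.trans (congrArg L ?_) (hs q)
  ext1 x
  rw [Finsupp.finsetSum_apply]
  simpa using hθ (s q x)

lemma projective_of_higman (β : Q →ₗ[k] Q)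
    (h : Function.Bijective (β.sumOfConjugatesEquivariant G)) :
    Module.Projective (MonoidAlgebra k G) Q := by
  refine Module.Projective.of_lifting_property'' fun f hf => ?_
  obtain ⟨σ, hσ⟩ := (f.restrictScalars k).exists_rightInverse_of_surjective
    (LinearMap.range_eq_top.2 hf)
  let e := LinearEquiv.ofBijective _ h
  refine ⟨(σ ∘ₗ β).sumOfConjugatesEquivariant G ∘ₗ e.symm.toLinearMap, LinearMap.ext fun q => ?_⟩
  have h1 : ∀ v, f (σ v) = v := fun v => LinearMap.congr_fun hσ v
  have h2 := e.apply_symm_apply q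
  simp only [LinearMap.comp_apply, LinearMap.id_apply, LinearEquiv.coe_coe]
  generalize e.symm q = v at h2 ⊢
  rw [← h2]
  simp [e, LinearMap.sumOfConjugatesEquivariant_apply, LinearMap.conjugate_apply, h1]

lemma exists_fitting [FiniteDimensional k M] (β : M →ₗ[k] M) :
    ∃ U Q : Submodule (MonoidAlgebra k G) M, IsCompl U Q ∧
      Module.Projective (MonoidAlgebra k G) Q ∧
      finrank k U ≤ finrank k (LinearMap.range (LinearMap.id - β.sumOfConjugates G)) := by
  let B := β.sumOfConjugatesEquivariant G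
  have : IsNoetherian (MonoidAlgebra k G) M := isNoetherian_of_tower k inferInstance
  have : IsArtinian (MonoidAlgebra k G) M := isArtinian_of_tower k inferInstance
  obtain ⟨n, hn, hc⟩ := ((Filter.eventually_ge_atTop 1).and
    (LinearMap.eventually_isCompl_ker_pow_range_pow B)).exists
  obtain ⟨m, rfl⟩ : ∃ m, n = m + 1 := ⟨n - 1, by omega⟩
  refine ⟨_, _, hc, ?_, ?_⟩
  · let π := Submodule.projectionOnto _ _ hc.symm
    have hB : ∀ q : LinearMap.range (B ^ (m + 1)), B q ∈ LinearMap.range (B ^ (m + 1)) := by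
      rintro ⟨_, v, rfl⟩
      exact ⟨B v, by rw [← Module.End.mul_apply, ← pow_succ, pow_succ', Module.End.mul_apply]⟩
    refine projective_of_higman (π.restrictScalars k ∘ₗ β ∘ₗ
      (LinearMap.range (B ^ (m + 1))).subtype.restrictScalars k) ?_
    have h1 : ∀ q, ((π.restrictScalars k ∘ₗ β ∘ₗ (LinearMap.range
        (B ^ (m + 1))).subtype.restrictScalars k).sumOfConjugatesEquivariant G) q =
        ⟨B q, hB q⟩ := by
      intro q
      rw [← Submodule.projectionOnto_apply_left hc.symm ⟨B q, hB q⟩]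
      simp [B, π, LinearMap.sumOfConjugatesEquivariant_apply, LinearMap.conjugate_apply]
    have : FiniteDimensional k (LinearMap.range (B ^ (m + 1))) :=
      FiniteDimensional.of_injective
        ((LinearMap.range (B ^ (m + 1))).subtype.restrictScalars k) Subtype.val_injective
    have hinj : Function.Injective ((π.restrictScalars k ∘ₗ β ∘ₗ (LinearMap.range
        (B ^ (m + 1))).subtype.restrictScalars k).sumOfConjugatesEquivariant G) := by
      rw [injective_iff_map_eq_zero]
      intro q hq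
      rw [h1] at hq
      have h2 : B q = 0 := congrArg Subtype.val hq
      refine Subtype.ext (Submodule.disjoint_def.1 hc.disjoint q ?_ q.2)
      generalize q.1 = v at h2
      rw [LinearMap.mem_ker, pow_succ, Module.End.mul_apply, h2, map_zero]
    exact ⟨hinj, (LinearMap.injective_iff_surjective (f := LinearMap.restrictScalars k _)).1 hinj⟩
  · refine LinearMap.finrank_le_finrank_of_injective
      (f := (LinearMap.id - β.sumOfConjugates G).rangeRestrict ∘ₗ
        (LinearMap.ker (B ^ (m + 1))).subtype.restrictScalars k) ?_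
    rw [injective_iff_map_eq_zero]
    intro u hu
    have h1 : u.1 - B u.1 = 0 := congrArg Subtype.val hu
    have h2 : ∀ j : ℕ, (B ^ j) u.1 = u.1 := by
      intro j
      induction j with
      | zero => rfl
      | succ j ih => rw [pow_succ', Module.End.mul_apply, ih, ← sub_eq_zero.1 h1]
    exact Subtype.ext ((h2 _).symm.trans u.2)

end Modules

variable {k : Type u} {G : Type} [Field k] [Group G]

/-- The least dimension of a complement of a projective summand. -/
noncomputable def cdim (X : Obj k G) : ℕ :=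
  sInf {d : ℕ | ∃ U Q : Submodule (MonoidAlgebra k G) (Representation.asModule X.ρ),
    IsCompl U Q ∧ Module.Projective (MonoidAlgebra k G) Q ∧ d = Module.finrank k U}

variable {p : ℕ} [Fact p.Prime] [CharP k p]

lemma kap_res_of_higman [Fintype G] {H : Type} [Group H] [Finite H] (hH : IsPGroup p H)
    (φ : H →* G) (hφ : Function.Injective φ) (X : Obj k G) (β : X.V →ₗ[k] X.V)
    (h : ∀ v, ∑ g, X.ρ g (β (X.ρ g⁻¹ v)) = v) : kap (Cl.res φ X.cl) = 0 := by
  let i : X.V →ₗ[k] (G → X.V) := LinearMap.pi fun s => X.ρ s ∘ₗ β ∘ₗ X.ρ s⁻¹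
  let r : (G → X.V) →ₗ[k] X.V := ∑ s, LinearMap.proj s
  have hr' : ∀ f, r f = ∑ s, f s := fun f => by simp [r, LinearMap.sum_apply]
  have hi : Obj.IsHom X (Obj.funObj G X) i := fun a v => by
    ext s
    change X.ρ s (β (X.ρ s⁻¹ (X.ρ a v))) = X.ρ a (X.ρ (a⁻¹ * s) (β (X.ρ (a⁻¹ * s)⁻¹ v)))
    simp [map_mul]
  have hr : Obj.IsHom (Obj.funObj G X) X r := fun a f => by
    rw [hr', hr', map_sum]
    exact Fintype.sum_equiv (Equiv.mulLeft a⁻¹) _ _ fun g => by simp
  obtain ⟨z, hz⟩ := Obj.exists_cl_of_retract hi hr fun v => by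
    rw [hr']
    exact h v
  have h1 := congrArg (fun c => kap (Cl.res φ c)) hz
  simp only [Obj.cl_funObj G X, map_mul, map_add, kap_add hH] at h1
  rw [kap_res_reg_mul hH φ hφ] at h1
  omega

lemma kap_res_le_cdim [Finite G] {H : Type} [Group H] [Finite H] (hH : IsPGroup p H)
    (φ : H →* G) (hφ : Function.Injective φ) (X : Obj k G) : kap (Cl.res φ X.cl) ≤ cdim X := by
  have := Fintype.ofFinite G
  obtain ⟨U, Q, hc, hQ, hd⟩ := Nat.sInf_mem (s := {d : ℕ | ∃ U Q : Submodule (MonoidAlgebra k G)
    (Representation.asModule X.ρ), IsCompl U Q ∧ Module.Projective (MonoidAlgebra k G) Q ∧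
      d = Module.finrank k U}) ⟨_, ⊤, ⊥, isCompl_top_bot, inferInstance, rfl⟩
  have hsm : ∀ (g : G) (v : Representation.asModule X.ρ),
      MonoidAlgebra.single g (1 : k) • v = X.ρ g v := fun g v => by
    rw [Representation.single_smul, one_smul]
    rfl
  have hinv : ∀ W : Submodule (MonoidAlgebra k G) (Representation.asModule X.ρ), ∀ (g : G) v,
      v ∈ (W.restrictScalars k : Submodule k X.V) →
      X.ρ g v ∈ (W.restrictScalars k : Submodule k X.V) := fun W g v hv => by
    have := W.smul_mem (MonoidAlgebra.single g (1 : k)) hv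
    rwa [hsm] at this
  have h1 := X.cl_of_isCompl (U.restrictScalars k) (Q.restrictScalars k) (hinv U) (hinv Q)
    ((Submodule.isCompl_restrictScalars_iff k).2 hc)
  obtain ⟨β, hβ⟩ := higman_of_projective (k := k) (G := G) (Q := Q)
  have h2 := kap_res_of_higman hH φ hφ (X.sub (Q.restrictScalars k) (hinv Q)) β fun v => by
    have h3 := hβ v
    rw [LinearMap.sumOfConjugatesEquivariant_apply] at h3
    refine Eq.trans (Fintype.sum_equiv (Equiv.inv G) _ _ fun g => ?_) h3
    have hq : ∀ (g : G) (v : Q), (X.sub (Q.restrictScalars k) (hinv Q)).ρ g v =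
        MonoidAlgebra.single g (1 : k) • v := fun g v => Subtype.ext (hsm g v).symm
    rw [LinearMap.conjugate_apply, hq, hq, Equiv.inv_apply, inv_inv]
    rfl
  rw [h1, map_add, kap_add hH, h2, add_zero]
  exact (kap_le_dim _).trans hd.ge

lemma exists_eps [Fintype G] (hG : IsPGroup p G) (X : Obj k G) :
    ∃ ε β : X.V →ₗ[k] X.V, finrank k (LinearMap.range ε) ≤ kap X.cl ∧
      ∀ v, v = ε v + ∑ h, X.ρ h⁻¹ (β (X.ρ h v)) := by
  classical
  obtain ⟨b, c, hb, -, hd⟩ := exists_core' hG X.cl
  induction b using Cl.ind with | h B => ?_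
  induction c using Cl.ind with | h Z => ?_
  rw [← Obj.cl_funObj, ← Cl.cl_sum, Obj.cl_eq_iff] at hb
  obtain ⟨e, he⟩ := hb
  let β₀ : (B.V × (G → Z.V)) →ₗ[k] (B.V × (G → Z.V)) :=
    LinearMap.inr k _ _ ∘ₗ LinearMap.single k (fun _ : G => Z.V) 1 ∘ₗ LinearMap.proj 1 ∘ₗ
      LinearMap.snd k _ _
  refine ⟨(e.symm.toLinearMap ∘ₗ LinearMap.inl k _ _) ∘ₗ LinearMap.fst k _ _ ∘ₗ e.toLinearMap,
    e.symm.toLinearMap ∘ₗ β₀ ∘ₗ e.toLinearMap, ?_, fun v => ?_⟩
  · rw [← hd]
    exact (Submodule.finrank_mono (LinearMap.range_comp_le_range _ _)).trans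
      (LinearMap.finrank_range_le _)
  · have h1 : ∀ g v, e (X.ρ g v) = (B.sum (Obj.funObj G Z)).ρ g (e v) := he
    have h2 : ∀ g w, X.ρ g (e.symm w) = e.symm ((B.sum (Obj.funObj G Z)).ρ g w) :=
      fun g w => (he.symm g w).symm
    simp only [LinearMap.comp_apply, LinearEquiv.coe_coe, h1, h2, ← map_sum, ← map_add]
    rw [LinearEquiv.eq_symm_apply]
    generalize e v = w
    refine Prod.ext ?_ (funext fun s => ?_)
    · simp [β₀, Prod.fst_sum]
    · rw [Prod.snd_add, Prod.snd_sum, Pi.add_apply, Finset.sum_apply]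
      change w.2 s = 0 + ∑ g, Z.ρ g⁻¹ ((Pi.single 1 (Z.ρ g (w.2 (g⁻¹ * 1))) : G → Z.V) (g⁻¹⁻¹ * s))
      rw [Finset.sum_eq_single s⁻¹]
      · simp
      · intro g _ hg
        rw [Pi.single_eq_of_ne, map_zero]
        intro h
        apply hg
        simpa [mul_eq_one_iff_eq_inv] using h
      · simp

lemma finrank_range_sum_le {V ι : Type*} [AddCommGroup V] [Module k V] [FiniteDimensional k V]
    (s : Finset ι) (f : ι → V →ₗ[k] V) (d : ℕ) (h : ∀ i, finrank k (LinearMap.range (f i)) ≤ d) :
    finrank k (LinearMap.range (∑ i ∈ s, f i)) ≤ s.card * d := by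
  classical
  induction s using Finset.induction_on with
  | empty => rw [Finset.sum_empty, LinearMap.range_zero, finrank_bot]; omega
  | insert i s hi ih =>
    rw [Finset.sum_insert hi, Finset.card_insert_of_notMem hi]
    have h1 := Submodule.finrank_mono (LinearMap.range_add_le (f i) (∑ i ∈ s, f i))
    have h2 := Submodule.finrank_add_le_finrank_add_finrank (LinearMap.range (f i))
      (LinearMap.range (∑ i ∈ s, f i))
    have h3 := h i
    rw [add_mul]
    omega

lemma cdim_le [Finite G] (P : Sylow p G) (X : Obj k G) :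
    cdim X ≤ (P : Subgroup G).index * kap (Cl.res (P : Subgroup G).subtype X.cl) := by
  classical
  have := Fintype.ofFinite G
  have := Fintype.ofFinite (G ⧸ (P : Subgroup G))
  obtain ⟨ε, β, h1, h2⟩ := exists_eps P.isPGroup' (X.res (P : Subgroup G).subtype)
  have hc : (((P : Subgroup G).index : ℕ) : k) ≠ 0 := fun h =>
    P.not_dvd_index ((CharP.cast_eq_zero_iff k p _).1 h)
  let c : k := (((P : Subgroup G).index : ℕ) : k)⁻¹
  obtain ⟨U, Q, hUQ, hQ, hd⟩ := exists_fitting (k := k) (G := G)
    (M := Representation.asModule X.ρ) (c • β)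
  refine le_trans (b := finrank k U) (Nat.sInf_le ⟨U, Q, hUQ, hQ, rfl⟩) (hd.trans ?_)
  have hsm : ∀ (g : G) (v : Representation.asModule X.ρ),
      MonoidAlgebra.single g (1 : k) • v = X.ρ g v := fun g v => by
    rw [Representation.single_smul, one_smul]
    rfl
  have hbij : Function.Bijective fun x : (G ⧸ (P : Subgroup G)) × (P : Subgroup G) =>
      (x.1.out * x.2)⁻¹ := by
    constructor
    · rintro ⟨t, h⟩ ⟨t', h'⟩ e
      have e1 : t.out * h = t'.out * h' := inv_injective e
      have e2 : t = t' := by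
        have := congrArg (QuotientGroup.mk (s := (P : Subgroup G))) e1
        simpa using this
      subst e2
      exact Prod.ext rfl (Subtype.ext (mul_left_cancel e1))
    · intro g
      refine ⟨(QuotientGroup.mk g⁻¹, ⟨(QuotientGroup.mk g⁻¹ : G ⧸ (P : Subgroup G)).out⁻¹ * g⁻¹,
        QuotientGroup.eq.1 (Quotient.out_eq _)⟩), by simp⟩
  have e : (LinearMap.id - LinearMap.sumOfConjugates (k := k) (W := Representation.asModule X.ρ)
      (V := Representation.asModule X.ρ) G (c • β) : X.V →ₗ[k] X.V) =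
      ∑ t : G ⧸ (P : Subgroup G), (c • X.ρ t.out) ∘ₗ ε ∘ₗ X.ρ t.out⁻¹ := by
    refine LinearMap.ext fun v => ?_
    have h3 : ∀ t : G ⧸ (P : Subgroup G), X.ρ t.out (ε (X.ρ t.out⁻¹ v)) =
        v - ∑ h : (P : Subgroup G), X.ρ (t.out * h) (β (X.ρ (t.out * h)⁻¹ v)) := by
      intro t
      have h4 := congrArg (X.ρ t.out) (h2 (X.ρ t.out⁻¹ v))
      rw [map_add, map_sum, Representation.self_inv_apply] at h4
      rw [eq_sub_iff_add_eq]
      refine Eq.trans ?_ h4.symm
      congr 1
      refine Fintype.sum_equiv (Equiv.inv _) _ _ fun h => ?_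
      simp [map_mul]
    have h5 : LinearMap.sumOfConjugates (k := k) (W := Representation.asModule X.ρ)
        (V := Representation.asModule X.ρ) G (c • β) v =
        c • ∑ g, X.ρ g⁻¹ (β (X.ρ g v)) := by
      rw [LinearMap.sumOfConjugates_apply, Finset.smul_sum]
      refine Finset.sum_congr rfl fun g _ => ?_
      rw [LinearMap.conjugate_apply, hsm, hsm]
      exact map_smul (X.ρ g⁻¹) c _
    refine Eq.trans (b := v - c • ∑ g, X.ρ g⁻¹ (β (X.ρ g v))) (congrArg (v - ·) h5) ?_
    rw [LinearMap.sum_apply]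
    simp only [LinearMap.comp_apply, LinearMap.smul_apply, h3]
    rw [← Finset.smul_sum, Finset.sum_sub_distrib, smul_sub, Finset.sum_const, Finset.card_univ,
      ← Nat.card_eq_fintype_card, ← Subgroup.index_eq_card, ← Nat.cast_smul_eq_nsmul k, smul_smul,
      inv_mul_cancel₀ hc, one_smul, ← Fintype.sum_prod_type']
    congr 2
    exact (Fintype.sum_bijective _ hbij _ _ fun x => by simp only [inv_inv]).symm
  have h6 := finrank_range_sum_le Finset.univ
    (fun t : G ⧸ (P : Subgroup G) => (c • X.ρ t.out) ∘ₗ ε ∘ₗ X.ρ t.out⁻¹) _ fun t =>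
      ((by rw [LinearMap.range_comp]; exact Submodule.finrank_map_le _ _ :
        _ ≤ finrank k (LinearMap.range (ε ∘ₗ X.ρ t.out⁻¹))).trans
        (Submodule.finrank_mono (LinearMap.range_comp_le_range _ _))).trans h1
  rw [← e, Finset.card_univ, ← Nat.card_eq_fintype_card, ← Subgroup.index_eq_card] at h6
  exact h6

end Pool.Agent.Lib.MP_13b5a2_al
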