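import Mathlib

/-! Exponential growth rates of sequences of natural numbers. -/

namespace Pool.Agent.Lib.MP_13b5a2_al

/-- Exponential upper bounds. -/
def Up (c : ℕ → ℕ) (β : ℝ) : Prop := 0 ≤ β ∧ ∃ C : ℝ, ∀ n, (c n : ℝ) ≤ C * β ^ n

/-- The exponential growth rate. -/
noncomputable def gr (c : ℕ → ℕ) : ℝ := sInf {β | Up c β}

lemma bdd_up (c : ℕ → ℕ) : BddBelow {β | Up c β} := ⟨0, fun _ h => h.1⟩

lemma gr_nonneg (c : ℕ → ℕ) : 0 ≤ gr c := Real.sInf_nonneg fun _ h => h.1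

lemma gr_le {c : ℕ → ℕ} {β : ℝ} (h : Up c β) : gr c ≤ β := csInf_le (bdd_up c) h

lemma Up.mono {c : ℕ → ℕ} {β β' : ℝ} (h : Up c β) (e : β ≤ β') : Up c β' := by
  obtain ⟨h0, C, hC⟩ := h
  have : (0 : ℝ) ≤ C := by simpa using (Nat.cast_nonneg _).trans (hC 0)
  exact ⟨h0.trans e, C, fun n => (hC n).trans (by gcongr)⟩

lemma up_of_gr_lt {c : ℕ → ℕ} {β₀ β : ℝ} (h0 : Up c β₀) (h : gr c < β) : Up c β := by
  obtain ⟨β', h1, h2⟩ := exists_lt_of_csInf_lt ⟨β₀, h0⟩ h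
  exact Up.mono h1 h2.le

lemma le_gr {c : ℕ → ℕ} {β₀ x : ℝ} (h0 : Up c β₀) (h : ∀ β, Up c β → x ≤ β) : x ≤ gr c :=
  le_csInf ⟨β₀, h0⟩ h

end Pool.Agent.Lib.MP_13b5a2_al
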