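import Pool.Agent.Lib.MP_13b5a2_al.Chou
import Pool.Agent.Lib.MP_13b5a2_al.Cyc
import Pool.Agent.Lib.MP_13b5a2_al.Gr
import Pool.Agent.Lib.MP_13b5a2_al.FinalA

/-! Growth rates and the reduction to elementary abelian subgroups. -/

universe u

namespace Pool.Agent.Lib.MP_13b5a2_al

open Filter Topology

lemma Up.of_le {c c' : ℕ → ℕ} {β : ℝ} {K : ℕ} (h : Up c' β) (hK : ∀ n, c n ≤ K * c' n) :
    Up c β := by
  obtain ⟨h0, C, hC⟩ := h
  refine ⟨h0, K * C, fun n => ?_⟩
  have h1 : (c n : ℝ) ≤ K * c' n := by exact_mod_cast hK n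
  rw [mul_assoc]
  exact h1.trans (mul_le_mul_of_nonneg_left (hC n) (Nat.cast_nonneg K))

lemma gr_mono {c c' : ℕ → ℕ} {β : ℝ} {K : ℕ} (h : Up c' β) (hK : ∀ n, c n ≤ K * c' n) :
    gr c ≤ gr c' :=
  le_gr h fun _ h' => gr_le (h'.of_le hK)

lemma Up.eventually_le {c : ℕ → ℕ} {β β' : ℝ} (h : Up c β) (hβ : β < β') :
    ∀ᶠ n : ℕ in atTop, (c n : ℝ) ^ ((1 : ℝ) / n) ≤ β' := by
  obtain ⟨h0, C, hC⟩ := h
  have h1 : (0 : ℝ) < max C 1 := lt_max_of_lt_right one_pos
  have h2 : Tendsto (fun n : ℕ => max C 1 ^ ((1 : ℝ) / n) * β) atTop (𝓝 (max C 1 ^ (0 : ℝ) * β)) :=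
    ((Real.continuousAt_const_rpow h1.ne').tendsto.comp
      tendsto_one_div_atTop_nhds_zero_nat).mul_const β
  rw [Real.rpow_zero, one_mul] at h2
  filter_upwards [h2.eventually (gt_mem_nhds hβ), eventually_ne_atTop 0] with n h3 hn
  refine le_trans ?_ h3.le
  have h4 : (c n : ℝ) ≤ max C 1 * β ^ n :=
    (hC n).trans (mul_le_mul_of_nonneg_right (le_max_left _ _) (pow_nonneg h0 n))
  refine (Real.rpow_le_rpow (Nat.cast_nonneg _) h4 (by positivity)).trans (le_of_eq ?_)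
  rw [Real.mul_rpow h1.le (pow_nonneg h0 n), one_div, Real.pow_rpow_inv_natCast h0 hn]

lemma limsup_eq_gr {c : ℕ → ℕ} {β₀ : ℝ} (h : Up c β₀) :
    limsup (fun n : ℕ => (c n : ℝ) ^ ((1 : ℝ) / n)) atTop = gr c := by
  have h0 : ∀ n : ℕ, (0 : ℝ) ≤ (c n : ℝ) ^ ((1 : ℝ) / n) := fun n => by positivity
  refine le_antisymm (le_gr h fun β hβ => le_of_forall_gt_imp_ge_of_dense fun β' h' =>
    limsup_le_of_le (isCoboundedUnder_le_of_le _ h0) (hβ.eventually_le h'))
    (le_of_forall_gt_imp_ge_of_dense fun β hβ => gr_le ?_)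
  obtain ⟨N, hN⟩ := eventually_atTop.1 (eventually_lt_of_limsup_lt hβ
    (isBoundedUnder_of_eventually_le (h.eventually_le (lt_add_one β₀))))
  have h1 : 0 < β := (h0 N).trans_lt (hN N le_rfl)
  refine ⟨h1.le, 1 + ∑ i ∈ Finset.range (N + 1), c i / β ^ i, fun n => ?_⟩
  have h2 : 0 ≤ ∑ i ∈ Finset.range (N + 1), (c i : ℝ) / β ^ i := by positivity
  have h3 := pow_pos h1 n
  rcases lt_or_ge n (N + 1) with hn | hn
  · have h4 := Finset.single_le_sum (f := fun i => (c i : ℝ) / β ^ i)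
      (fun i _ => by positivity) (Finset.mem_range.2 hn)
    rw [← div_le_iff₀ h3]
    exact h4.trans (by linarith)
  · have h4 := pow_le_pow_left₀ (h0 n) (hN n (by omega)).le n
    rw [one_div, Real.rpow_inv_natCast_pow (Nat.cast_nonneg _) (by omega)] at h4
    nlinarith

variable {k : Type u} [Field k] {p : ℕ} [Fact p.Prime] [CharP k p]

lemma up_kap {P : Type} [Group P] [Finite P] (a : Cl k P) :
    Up (fun n => kap (a ^ n)) (Cl.dim a) := by
  refine ⟨Nat.cast_nonneg _, 1, fun n => ?_⟩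
  have := kap_le_dim (a ^ n)
  rw [map_pow] at this
  rw [one_mul]
  exact_mod_cast this

omit [CharP k p] in
lemma exists_ea_add (A : Type) [AddCommGroup A] [Finite A] [Module (ZMod p) A] :
    ∃ r, Nonempty (A ≃+ (Fin r → ZMod p)) :=
  have : Module.Finite (ZMod p) A := Module.Finite.of_finite
  ⟨_, ⟨(Module.finBasis (ZMod p) A).equivFun.toAddEquiv⟩⟩

lemma exists_ea_equiv {P : Type} [Group P] [Finite P] (h1 : ∀ a b : P, a * b = b * a)
    (h2 : ∀ a : P, a ^ p = 1) : ∃ r, Nonempty (EA r p ≃* P) := by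
  let : CommGroup P := { mul_comm := h1 }
  let : Module (ZMod p) (Additive P) := AddCommGroup.zmodModule fun x => h2 x.toMul
  obtain ⟨r, ⟨e⟩⟩ := exists_ea_add (p := p) (Additive P)
  exact ⟨r, ⟨{
    toFun := fun g => (e.symm fun i => (g i).toAdd).toMul
    invFun := fun x i => Multiplicative.ofAdd (e (Additive.ofMul x) i)
    left_inv := fun g => by simp
    right_inv := fun x => by simp
    map_mul' := fun g h => by
      rw [← toMul_add, ← map_add]
      rfl }⟩⟩

lemma exists_ea {P : Type} [Group P] [Finite P] (hP : IsPGroup p P) (a : Cl k P) :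
    ∃ (r : ℕ) (φ : EA r p →* P), Function.Injective φ ∧
      gr (fun n => kap (a ^ n)) = gr fun n => kap (Cl.res φ a ^ n) := by
  induction hm : Nat.card P using Nat.strong_induction_on generalizing P with
  | h m ih =>
  by_cases hne : (∀ a b : P, a * b = b * a) ∧ ∀ a : P, a ^ p = 1
  · obtain ⟨r, ⟨e⟩⟩ := exists_ea_equiv hne.1 hne.2
    refine ⟨r, e.toMonoidHom, e.injective, congrArg gr (funext fun n => ?_)⟩
    rw [← map_pow]
    generalize a ^ n = b
    refine le_antisymm (le_of_eq_of_le (congrArg kap ?_) (kap_res_le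
      (hP.of_injective e.toMonoidHom e.injective) e.symm.toMonoidHom e.symm.injective _))
      (kap_res_le hP _ e.injective b)
    induction b using Cl.ind with | h X => ?_
    exact Obj.Iso.cl_eq ⟨LinearEquiv.refl _ _, fun g v => by
      change X.ρ g v = X.ρ (e (e.symm g)) v
      rw [e.apply_symm_apply]⟩
  obtain ⟨K, hK⟩ := chouinard_step (k := k) hP hne
  have : Nonempty {H : Subgroup P // H ≠ ⊤} := by
    obtain ⟨H, hH, -⟩ := hK 0
    exact ⟨H, hH⟩
  obtain ⟨H, hH⟩ := Finite.exists_max fun H : {H : Subgroup P // H ≠ ⊤} =>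
    gr fun n => kap (Cl.res H.1.subtype a ^ n)
  obtain ⟨r, φ, hφ, h⟩ := ih (Nat.card H.1) (by
    rw [← hm]
    exact lt_of_le_of_ne (Subgroup.card_le_card_group _) fun e =>
      H.2 (Subgroup.eq_top_of_card_eq _ e)) (hP.to_subgroup H.1) (Cl.res H.1.subtype a) rfl
  refine ⟨r, H.1.subtype.comp φ, Subtype.val_injective.comp hφ, ?_⟩
  have e : Cl.res (H.1.subtype.comp φ) a = Cl.res φ (Cl.res H.1.subtype a) := by
    induction a using Cl.ind
    rfl
  rw [e, ← h]
  refine le_antisymm (le_of_forall_gt_imp_ge_of_dense fun β hβ => gr_le ?_)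
    (gr_mono (K := 1) (up_kap a) fun n => ?_)
  · have := Fintype.ofFinite {H : Subgroup P // H ≠ ⊤}
    have h1 : ∀ H' : {H : Subgroup P // H ≠ ⊤}, Up (fun n => kap (Cl.res H'.1.subtype a ^ n)) β :=
      fun H' => up_of_gr_lt (up_kap _) ((hH H').trans_lt hβ)
    choose h0 C hC using h1
    have hC0 : ∀ H', 0 ≤ C H' := fun H' => by
      simpa using (Nat.cast_nonneg _).trans (hC H' 0)
    refine ⟨h0 H, K * ∑ H', C H', fun n => ?_⟩
    obtain ⟨H', h2, h3⟩ := hK (a ^ n)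
    rw [map_pow] at h3
    have h4 : (kap (a ^ n) : ℝ) ≤ K * kap (Cl.res H'.subtype a ^ n) := by exact_mod_cast h3
    rw [mul_assoc]
    refine h4.trans (mul_le_mul_of_nonneg_left ((hC ⟨H', h2⟩ n).trans
      (mul_le_mul_of_nonneg_right ?_ (pow_nonneg (h0 H) n))) (Nat.cast_nonneg K))
    exact Finset.single_le_sum (fun i _ => hC0 i) (Finset.mem_univ _)
  · rw [one_mul, ← map_pow]
    exact kap_res_le hP _ Subtype.val_injective _

end Pool.Agent.Lib.MP_13b5a2_al
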