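import Pool.Agent.Lib.MP_13b5a2_al.Chou
import Pool.Agent.Lib.MP_13b5a2_al.Cyc
import Pool.Agent.Lib.MP_13b5a2_al.Gr
import Pool.Agent.Lib.MP_13b5a2_al.FinalB

universe u

namespace Pool.Agent.Lib.MP_13b5a2_al

open CategoryTheory MonoidalCategory

/-- The tensor powers of a representation. -/
noncomputable def tensorPow {k : Type u} {G : Type} [Field k] [Group G] (M : FDRep k G) :
    ℕ → FDRep k G
  | 0 => 𝟙_ (FDRep k G)
  | n + 1 => tensorPow M n ⊗ M

/-- The dimension of the core: the least dimension of a complement of a projective summand. -/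
noncomputable def coreDim {k : Type u} {G : Type} [Field k] [Group G] (X : FDRep k G) : ℕ :=
  sInf {d : ℕ | ∃ U Q : Submodule (MonoidAlgebra k G) (Representation.asModule X.ρ),
    IsCompl U Q ∧ Module.Projective (MonoidAlgebra k G) Q ∧ d = Module.finrank k U}

/-- The gamma invariant. -/
noncomputable def gamma {k : Type u} {G : Type} [Field k] [Group G] (M : FDRep k G) : ℝ :=
  Filter.limsup (fun n : ℕ => (coreDim (tensorPow M n) : ℝ) ^ ((1 : ℝ) / n)) Filter.atTop

theorem gamma_eq_ea {k : Type u} {G : Type} [Field k] [Group G] [Finite G] {p : ℕ} [Fact p.Prime]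
    [CharP k p] (M : FDRep k G) :
    ∃ (r : ℕ) (φ : EA r p →* G), Function.Injective φ ∧
      gamma M = gr fun n => kap (Cl.res φ (Obj.mk M M.ρ).cl ^ n) := by
  obtain ⟨P⟩ : Nonempty (Sylow p G) := inferInstance
  have h1 : ∀ n, (Obj.mk (tensorPow M n) (tensorPow M n).ρ).cl = (Obj.mk M M.ρ).cl ^ n := by
    intro n
    induction n with
    | zero => rfl
    | succ n ih =>
      rw [pow_succ, ← ih]
      rfl
  obtain ⟨r, φ, hφ, h⟩ := exists_ea P.isPGroup' (Cl.res (P : Subgroup G).subtype (Obj.mk M M.ρ).cl)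
  refine ⟨r, (P : Subgroup G).subtype.comp φ, Subtype.val_injective.comp hφ, ?_⟩
  have h2 := up_kap (Cl.res (P : Subgroup G).subtype (Obj.mk M M.ρ).cl)
  have h3 : ∀ n, coreDim (tensorPow M n) ≤ (P : Subgroup G).index *
      kap (Cl.res (P : Subgroup G).subtype (Obj.mk M M.ρ).cl ^ n) := fun n => by
    rw [← map_pow, ← h1]
    exact cdim_le P (Obj.mk (tensorPow M n) (tensorPow M n).ρ)
  have h4 : ∀ n, kap (Cl.res (P : Subgroup G).subtype (Obj.mk M M.ρ).cl ^ n) ≤
      1 * coreDim (tensorPow M n) := fun n => by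
    rw [← map_pow, ← h1, one_mul]
    exact kap_res_le_cdim P.isPGroup' _ Subtype.val_injective
      (Obj.mk (tensorPow M n) (tensorPow M n).ρ)
  exact (limsup_eq_gr (h2.of_le h3)).trans
    ((le_antisymm (gr_mono h2 h3) (gr_mono (h2.of_le h3) h4)).trans h)

end Pool.Agent.Lib.MP_13b5a2_al
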