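import Pool.Agent.Lib.MP_13b5a2_al.CAR

/-! The Fock space model and comparison results for commuting nilpotent operators. -/

namespace Pool.Agent.Lib.MP_13b5a2_al

open Module LinearMap

section Fock

variable {I : Type*} [LinearOrder I]

/-- The sign of a mode in a configuration. -/
def sgn (s : Finset I) (i : I) : ℤ := (-1) ^ (s.filter (· < i)).card

lemma sgn_insert {s : Finset I} {j : I} (h : j ∉ s) (i : I) :
    sgn (insert j s) i = if j < i then -sgn s i else sgn s i := by
  unfold sgn
  rw [Finset.filter_insert]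
  split_ifs
  · rw [Finset.card_insert_of_notMem (by simp [h]), pow_succ]; simp
  · rfl

lemma sgn_erase {s : Finset I} {j : I} (h : j ∈ s) (i : I) :
    sgn (s.erase j) i = if j < i then -sgn s i else sgn s i := by
  have := sgn_insert (s := s.erase j) (j := j) (by simp) i
  rw [Finset.insert_erase h] at this
  rw [this]; split_ifs <;> simp

lemma sgn_mul_self (s : Finset I) (i : I) : sgn s i * sgn s i = 1 := by
  unfold sgn; rw [← mul_pow]; simp

variable (R : Type*) [CommRing R] (V : Type*) [AddCommGroup V] [Module R V]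

/-- Creation operator. -/
def fX (i : I) : End R (Finset I → V) :=
  LinearMap.pi fun s => if i ∈ s then sgn s i • LinearMap.proj (s.erase i) else 0

/-- Annihilation operator. -/
def fI (i : I) : End R (Finset I → V) :=
  LinearMap.pi fun s => if i ∈ s then 0 else sgn s i • LinearMap.proj (insert i s)

variable {R V}

lemma fX_apply (i : I) (f : Finset I → V) (s : Finset I) :
    fX R V i f s = if i ∈ s then sgn s i • f (s.erase i) else 0 := by
  simp only [fX, LinearMap.pi_apply]; split_ifs <;> rfl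

lemma fI_apply (i : I) (f : Finset I → V) (s : Finset I) :
    fI R V i f s = if i ∈ s then 0 else sgn s i • f (insert i s) := by
  simp only [fI, LinearMap.pi_apply]; split_ifs <;> rfl

lemma fock_pair (i : I) : Pair (fX R V i) (fI R V i) := by
  refine ⟨?_, ?_, ?_⟩ <;> refine LinearMap.ext fun f => funext fun s => ?_
  · simp [fX_apply]
  · simp [fI_apply]
  · by_cases h : i ∈ s
    · simp [fX_apply, fI_apply, h, sgn_erase h, smul_smul, sgn_mul_self, Finset.insert_erase h]
    · simp [fX_apply, fI_apply, h, sgn_insert h, smul_smul, sgn_mul_self, Finset.erase_insert h]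

lemma fock_xx {i j : I} (h : i ≠ j) : Anti (fX R V i) (fX R V j) := by
  refine LinearMap.ext fun f => funext fun s => ?_
  by_cases h1 : i ∈ s <;> by_cases h2 : j ∈ s <;>
    simp [fX_apply, h1, h2, h, h.symm, smul_smul]
  rw [sgn_erase h1, sgn_erase h2, Finset.erase_right_comm]
  rcases lt_or_gt_of_ne h with e | e <;> simp [e, e.not_gt, mul_comm]

lemma fock_ii {i j : I} (h : i ≠ j) : Anti (fI R V i) (fI R V j) := by
  refine LinearMap.ext fun f => funext fun s => ?_
  by_cases h1 : i ∈ s <;> by_cases h2 : j ∈ s <;>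
    simp [fI_apply, h1, h2, h, h.symm, smul_smul]
  rw [sgn_insert h1, sgn_insert h2, Finset.insert_comm]
  rcases lt_or_gt_of_ne h with e | e <;> simp [e, e.not_gt, mul_comm]

lemma fock_xi {i j : I} (h : i ≠ j) : Anti (fX R V i) (fI R V j) := by
  refine LinearMap.ext fun f => funext fun s => ?_
  by_cases h1 : i ∈ s <;> by_cases h2 : j ∈ s <;>
    simp [fX_apply, fI_apply, h1, h2, h, h.symm, smul_smul]
  rw [sgn_erase h1, sgn_insert h2, Finset.erase_insert_of_ne h.symm]
  rcases lt_or_gt_of_ne h with e | e <;> simp [e, e.not_gt, mul_comm]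

variable {R' V' : Type*} [CommRing R'] [AddCommGroup V'] [Module R' V']

lemma fX_natural (φ : V →+ V') (i : I) (f : Finset I → V) :
    φ ∘ fX R V i f = fX R' V' i (φ ∘ f) := by
  ext s; simp only [Function.comp_apply, fX_apply]; split_ifs <;> simp

lemma fI_natural (φ : V →+ V') (i : I) (f : Finset I → V) :
    φ ∘ fI R V i f = fI R' V' i (φ ∘ f) := by
  ext s; simp only [Function.comp_apply, fI_apply]; split_ifs <;> simp

lemma commute_fX (T : End R V) (i : I) : Commute (T.compLeft (Finset I)) (fX R V i) :=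
  LinearMap.ext (fX_natural T.toAddMonoidHom i)

lemma commute_fI (T : End R V) (i : I) : Commute (T.compLeft (Finset I)) (fI R V i) :=
  LinearMap.ext (fI_natural T.toAddMonoidHom i)

end Fock

variable {R : Type*} [CommRing R] {W : Type*} [AddCommGroup W] [Module R W]

/-- Acting componentwise is a ring homomorphism. -/
def compLeftHom (R W : Type*) [CommRing R] [AddCommGroup W] [Module R W] (J : Type*) :
    End R W →+* End R (J → W) where
  toFun T := T.compLeft J
  map_one' := rfl
  map_mul' _ _ := rfl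
  map_zero' := rfl
  map_add' _ _ := rfl

variable {A : Type*} [CommRing A] (φ : A →+* End R W)

/-- The commutant as an algebra. -/
@[reducible] def cenAlg : Algebra A (Subring.centralizer (Set.range φ)) :=
  (φ.codRestrict _ fun a => Subring.mem_centralizer_iff.2 (by
    rintro _ ⟨b, rfl⟩; rw [← map_mul, ← map_mul, mul_comm])).toAlgebra' fun a x =>
      Subtype.ext (x.2 _ ⟨a, rfl⟩)

/-- Elements of the commutant. -/
def cen (x : End R W) (h : ∀ a, Commute (φ a) x) : Subring.centralizer (Set.range φ) :=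
  ⟨x, by rintro _ ⟨a, rfl⟩; exact (h a).eq⟩

lemma pair_cen {x y : End R W} {h h'} (P : Pair x y) : Pair (cen φ x h) (cen φ y h') :=
  ⟨Subtype.ext P.xx, Subtype.ext P.ii, Subtype.ext P.ix⟩

lemma anti_cen {x y : End R W} {h h'} (P : Anti x y) : Anti (cen φ x h) (cen φ y h') :=
  Subtype.ext P

lemma Anti.smul {B : Type*} [Ring B] [Algebra A B] {y x : B} (h : Anti y x) (a : A) :
    Anti y (a • x) := by
  simpa using h.lin h a 0

variable [IsDomain R] [IsNoetherian R W] (p : ℕ)

/-- The number of nonprojective Jordan blocks, doubled. -/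
noncomputable def nu (θ : End R W) : ℕ := nu2 θ (θ ^ (p - 1))

lemma nu_compLeft (J : Type*) [Fintype J] (θ : End R W) :
    nu p (θ.compLeft J) = Fintype.card J * nu p θ := by
  have hk : ∀ T : End R W, ker (T.compLeft J) = Submodule.pi Set.univ fun _ => ker T := fun T => by
    ext v; simp [funext_iff]
  have hr : ∀ T : End R W, range (T.compLeft J) = Submodule.pi Set.univ fun _ => range T :=
    fun T => by
      ext v
      simp only [mem_range, Submodule.mem_pi, Set.mem_univ, true_imp_iff]
      refine ⟨fun ⟨w, e⟩ i => ⟨w i, congrFun e i⟩, fun h => ?_⟩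
      choose w hw using h
      exact ⟨w, funext hw⟩
  have : θ.compLeft J ^ (p - 1) = (θ ^ (p - 1)).compLeft J :=
    (map_pow (compLeftHom R W J) θ _).symm
  unfold nu nu2
  rw [this, hk, hk, hr, hr, rel_pi, rel_pi, mul_add]

variable {p} [Fact p.Prime] [CharP A p]

theorem hd_koszul_le {I : Type*} [Fintype I] (ξ ι : I → End R W) (α z : I → A)
    (hz : ∀ j, (α j * z j) ^ p = 0) (c1 : ∀ j a, Commute (φ a) (ξ j))
    (c2 : ∀ j a, Commute (φ a) (ι j)) (P : ∀ j, Pair (ξ j) (ι j))
    (a1 : ∀ i j, i ≠ j → Anti (ξ i) (ξ j)) (a2 : ∀ i j, i ≠ j → Anti (ξ i) (ι j))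
    (a3 : ∀ i j, i ≠ j → Anti (ι i) (ι j)) (i0 : I) (u : A) (hu : α i0 * u = 1) :
    hd (∑ j, (ξ j * φ (z j) + ι j * φ (α j ^ p * z j ^ (p - 1)))) ≤
      2 ^ Fintype.card I * nu p (φ (∑ j, α j * z j)) := by
  classical
  letI := cenAlg φ
  have P0 := pair_cen φ (h := c1 i0) (h' := c2 i0) (P i0)
  have h := merge_all (Subring.centralizer (Set.range φ)).subtype (fun j => cen φ (ξ j) (c1 j))
    (fun j => cen φ (ι j) (c2 j)) α z hz (fun j => pair_cen φ (P j))
    (fun i j h => anti_cen φ (a1 i j h)) (fun i j h => anti_cen φ (a2 i j h))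
    (fun i j h => anti_cen φ (a3 i j h)) (Finset.univ.erase i0) (u • cen φ (ξ i0) (c1 i0))
    (α i0 • cen φ (ι i0) (c2 i0)) (α i0 * z i0)
    ⟨by simp [P0.xx], by simp [P0.ii], by
      simp only [mul_smul_comm, smul_mul_assoc, smul_smul, P0.ix, hu, mul_comm u, one_smul]⟩
    (hz i0) (fun j hj => by
      have hj' := Finset.ne_of_mem_erase hj
      exact ⟨(anti_cen φ (a1 j i0 hj')).smul _, (anti_cen φ (a2 j i0 hj')).smul _,
        (anti_cen φ (a2 i0 j hj'.symm).symm).smul _, (anti_cen φ (a3 j i0 hj')).smul _⟩)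
  have e1 : α i0 * z i0 * u = z i0 := by rw [mul_right_comm, hu, one_mul]
  have e2 : (α i0 * z i0) ^ (p - 1) * α i0 = α i0 ^ p * z i0 ^ (p - 1) := by
    rw [mul_pow, mul_right_comm, ← pow_succ, Nat.sub_add_cancel (Fact.out : p.Prime).pos]
  rw [smul_smul, smul_smul, e1, e2, Finset.add_sum_erase _ (fun j => α j * z j) (Finset.mem_univ _),
    Finset.add_sum_erase _ (fun j => z j • cen φ (ξ j) (c1 j) +
      (α j ^ p * z j ^ (p - 1)) • cen φ (ι j) (c2 j)) (Finset.mem_univ _), map_sum] at h
  simp only [map_add (Subring.centralizer (Set.range φ)).subtype, map_smul_eq] at h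
  refine h.trans (Nat.mul_le_mul (Nat.pow_le_pow_right two_pos (Finset.card_le_univ _))
    (le_of_eq ?_))
  unfold nu
  rw [← map_pow]
  rfl

theorem nu_add_mul_le {Θ y z : A} (hΘ : Θ ^ p = 0) (hy : y ^ p = 0) (hz : z ^ p = 0) :
    nu p (φ (Θ + y * z)) ≤ 16 * p * nu p (φ Θ) := by
  let ψ := (compLeftHom R W (Finset (Fin 2))).comp φ
  letI := cenAlg ψ
  have c1 : ∀ j a, Commute (ψ a) (fX R W j) := fun j a => commute_fX _ j
  have c2 : ∀ j a, Commute (ψ a) (fI R W j) := fun j a => commute_fI _ j
  have h := rad_two (Subring.centralizer (Set.range ψ)).subtype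
    (pair_cen ψ (h := c1 0) (h' := c2 0) (fock_pair 0))
    (pair_cen ψ (h := c1 1) (h' := c2 1) (fock_pair 1)) (anti_cen ψ (fock_xx (by decide)))
    (anti_cen ψ (fock_xi (by decide))) (anti_cen ψ (fock_xi (by decide)).symm)
    (anti_cen ψ (fock_ii (by decide))) hΘ hy hz
  have e : ∀ a : A, nu2 ((Subring.centralizer (Set.range ψ)).subtype (algebraMap A _ a))
      ((Subring.centralizer (Set.range ψ)).subtype (algebraMap A _ (a ^ (p - 1)))) =
      Fintype.card (Finset (Fin 2)) * nu p (φ a) := fun a => by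
    rw [← nu_compLeft, map_pow, map_pow]; rfl
  rw [e, e, mul_left_comm] at h
  exact Nat.le_of_mul_le_mul_left h Fintype.card_pos

theorem nu_add_sum_le {I : Type*} (s : Finset I) {Θ : A} {y z : I → A} (hΘ : Θ ^ p = 0)
    (hy : ∀ j, y j ^ p = 0) (hz : ∀ j, z j ^ p = 0) :
    nu p (φ (Θ + ∑ j ∈ s, y j * z j)) ≤ (16 * p) ^ s.card * nu p (φ Θ) := by
  classical
  induction s using Finset.induction_on with
  | empty => simp
  | insert a s ha ih =>
    rw [Finset.sum_insert ha, add_comm (y a * z a), ← add_assoc, Finset.card_insert_of_notMem ha,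
      pow_succ', mul_assoc]
    refine (nu_add_mul_le φ ?_ (hy a) (hz a)).trans (Nat.mul_le_mul_left _ ih)
    rw [add_pow_char, hΘ, sum_pow_char, zero_add]
    exact Finset.sum_eq_zero fun j _ => by rw [mul_pow, hy, zero_mul]

end Pool.Agent.Lib.MP_13b5a2_al
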