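import Pool.Agent.Lib.MP_13b5a2_al.Obj

/-! Permutation and free representations, duals, fixed vectors of p-groups. -/

universe u

namespace Pool.Agent.Lib.MP_13b5a2_al

open TensorProduct Module

variable {k : Type u} {G : Type} [Field k]

namespace Obj

/-- A vector space with trivial action. -/
abbrev triv [Monoid G] (V : Type u) [AddCommGroup V] [Module k V] [FiniteDimensional k V] :
    Obj k G := ⟨V, Representation.trivial k G V⟩

lemma cl_triv [Monoid G] (n : ℕ) : ∀ (V : Type u) [AddCommGroup V] [Module k V]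
    [FiniteDimensional k V], finrank k V = n → (triv V : Obj k G).cl = (n : Cl k G) := by
  induction n with
  | zero =>
    intro V _ _ _ h
    have : Subsingleton V := Module.finrank_zero_iff.1 h
    exact (iso_zero_of_subsingleton _).cl_eq
  | succ n ih =>
    intro V _ _ _ h
    have e : V ≃ₗ[k] (Fin n → k) × k := LinearEquiv.ofFinrankEq _ _ (by simp [h])
    have h1 : (triv V : Obj k G).cl = ((triv (Fin n → k) : Obj k G).sum one).cl :=
      Iso.cl_eq ⟨e, fun _ _ => rfl⟩
    rw [h1, Cl.cl_sum, ih _ (by simp), Cl.cl_one, Nat.cast_succ]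

variable [Group G]

/-- Functions on a finite `G`-set with values in a representation. -/
def funRep (S : Type) [MulAction G S] (X : Obj k G) : Representation k G (S → X.V) where
  toFun g := LinearMap.pi fun s => X.ρ g ∘ₗ LinearMap.proj (g⁻¹ • s)
  map_one' := by ext f s; simp
  map_mul' g h := by ext f s; simp [mul_smul]

/-- Functions on a finite `G`-set with values in a representation. -/
abbrev funObj (S : Type) [Finite S] [MulAction G S] (X : Obj k G) : Obj k G := ⟨S → X.V, funRep S X⟩

@[simp] lemma funRep_apply (S : Type) [MulAction G S] (X : Obj k G) (g : G) (f : S → X.V) (s : S) :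
    funRep S X g f s = X.ρ g (f (g⁻¹ • s)) := rfl

lemma funObj_iso (S : Type) [Finite S] [MulAction G S] (X : Obj k G) :
    Iso (X.tensor (funObj S one)) (funObj S X) := by
  classical
  have := Fintype.ofFinite S
  refine ⟨TensorProduct.piScalarRight k k X.V S, isHom_tensor fun g v w => ?_⟩
  ext s
  simp [TensorProduct.piScalarRightHom_tmul]

lemma cl_funObj (S : Type) [Finite S] [MulAction G S] (X : Obj k G) :
    (funObj S X).cl = (funObj S one).cl * X.cl := by
  rw [mul_comm]; exact (funObj_iso S X).cl_eq.symm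

/-- The regular representation. -/
abbrev reg [Finite G] : Obj k G := funObj G one

lemma funObj_untwist [Finite G] (X : Obj k G) : Iso (funObj G X) (funObj G (triv X.V)) := by
  refine ⟨LinearEquiv.piCongrRight fun h : G =>
    LinearEquiv.ofLinear (X.ρ h⁻¹) (X.ρ h) ?_ ?_, fun g f => ?_⟩
  · ext v; simp
  · ext v; simp
  · ext s
    change X.ρ s⁻¹ (X.ρ g (f (g⁻¹ • s))) = X.ρ (g⁻¹ • s)⁻¹ (f (g⁻¹ • s))
    simp [map_mul]

lemma reg_mul [Finite G] (a : Cl k G) : (reg : Obj k G).cl * a = (Cl.dim a : Cl k G) * reg.cl := by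
  induction a using Cl.ind with
  | h X =>
    rw [← cl_funObj, (funObj_untwist X).cl_eq, cl_funObj, cl_triv _ _ rfl, mul_comm]; rfl

lemma dim_funObj (S : Type) [Finite S] [MulAction G S] (X : Obj k G) :
    (funObj S X).dim = Nat.card S * X.dim := by
  have := Fintype.ofFinite S
  simp [dim, Module.finrank_pi_fintype]

lemma dim_reg [Finite G] : (reg : Obj k G).dim = Nat.card G := by
  rw [dim_funObj]; simp [dim]

/-- The dual representation. -/
noncomputable abbrev dual (X : Obj k G) : Obj k G := ⟨Dual k X.V, X.ρ.dual⟩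

lemma dual_ρ (X : Obj k G) (g : G) (f : Dual k X.V) (v : X.V) :
    X.ρ.dual g f v = f (X.ρ g⁻¹ v) := rfl

lemma IsHom.dual {X Y : Obj k G} {f : X.V →ₗ[k] Y.V} (hf : IsHom X Y f) :
    IsHom Y.dual X.dual f.dualMap := fun g φ => by
  ext v
  change φ (Y.ρ g⁻¹ (f v)) = φ (f (X.ρ g⁻¹ v))
  rw [hf]

lemma Iso.dual {X Y : Obj k G} (h : Iso X Y) : Iso X.dual Y.dual := by
  obtain ⟨e, he⟩ := h
  exact ⟨e.symm.dualMap, he.symm.dual⟩

lemma dual_tensor (X Y : Obj k G) : Iso (X.dual.tensor Y.dual) (X.tensor Y).dual := by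
  refine ⟨TensorProduct.dualDistribEquiv k X.V Y.V, isHom_tensor fun g φ ψ => ?_⟩
  ext v w
  rfl

lemma dual_sum (X Y : Obj k G) : Iso (X.dual.sum Y.dual) (X.sum Y).dual := by
  refine ⟨Module.dualProdDualEquivDual k X.V Y.V, fun g φ => ?_⟩
  refine LinearMap.ext fun v => ?_
  rfl

lemma dual_one : Iso (one : Obj k G).dual one :=
  ⟨LinearMap.ringLmapEquivSelf k k k, fun _ _ => rfl⟩

lemma dual_dual (X : Obj k G) : Iso X X.dual.dual := by
  refine ⟨Module.evalEquiv k X.V, fun g v => ?_⟩
  ext φ
  change φ (X.ρ g v) = φ (X.ρ g⁻¹⁻¹ v)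
  rw [inv_inv]

end Obj

/-- Duality on classes. -/
noncomputable def Cl.dual [Group G] : Cl k G →+* Cl k G where
  toFun := Cl.lift (fun X => X.dual.cl) fun _ _ h => h.dual.cl_eq
  map_one' := Obj.dual_one.cl_eq
  map_zero' := (Obj.iso_zero_of_subsingleton _).cl_eq
  map_mul' a b := by
    induction a using Cl.ind; induction b using Cl.ind
    exact (Obj.dual_tensor _ _).cl_eq.symm
  map_add' a b := by
    induction a using Cl.ind; induction b using Cl.ind
    exact (Obj.dual_sum _ _).cl_eq.symm

@[simp] lemma Cl.dual_cl [Group G] (X : Obj k G) : Cl.dual X.cl = X.dual.cl := rfl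

lemma Cl.dual_dual [Group G] (a : Cl k G) : Cl.dual (Cl.dual a) = a := by
  induction a using Cl.ind with
  | h X => exact (Obj.dual_dual X).cl_eq.symm

lemma Cl.dim_dual [Group G] (a : Cl k G) : Cl.dim (Cl.dual a) = Cl.dim a := by
  induction a using Cl.ind with
  | h X => exact Subspace.dual_finrank_eq

/-- A nonzero invariant subspace for a finite p-group contains a nonzero fixed vector. -/
lemma exists_fixed {p : ℕ} [Fact p.Prime] [CharP k p] [Group G] [Finite G] (hG : IsPGroup p G)
    {V : Type*} [AddCommGroup V] [Module k V] (ρ : Representation k G V) (U : Submodule k V)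
    (hU : ∀ g v, v ∈ U → ρ g v ∈ U) (hne : U ≠ ⊥) : ∃ v ∈ U, v ≠ 0 ∧ ∀ g, ρ g v = v := by
  obtain ⟨v, hvU, hv⟩ := Submodule.exists_mem_ne_zero_of_ne_bot hne
  letI : Algebra (ZMod p) k := ZMod.algebra k p
  letI : Module (ZMod p) V := Module.compHom V (algebraMap (ZMod p) k)
  have hsm : ∀ (c : ZMod p) (w : V), c • w = (algebraMap (ZMod p) k c) • w := fun _ _ => rfl
  let S : Submodule (ZMod p) V := Submodule.span (ZMod p) (Set.range fun g => ρ g v)
  have hSU : ∀ w ∈ S, w ∈ U := by
    intro w hw
    induction hw using Submodule.span_induction with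
    | mem x hx => obtain ⟨g, rfl⟩ := hx; exact hU g v hvU
    | zero => exact U.zero_mem
    | add x y _ _ hx hy => exact U.add_mem hx hy
    | smul c x _ hx => rw [hsm]; exact U.smul_mem _ hx
  have hS : ∀ g, ∀ w ∈ S, ρ g w ∈ S := by
    intro g w hw
    induction hw using Submodule.span_induction with
    | mem x hx =>
      obtain ⟨h, rfl⟩ := hx
      exact Submodule.subset_span ⟨g * h, by simp⟩
    | zero => simp
    | add x y _ _ hx hy => rw [map_add]; exact S.add_mem hx hy
    | smul c x _ hx => rw [hsm, map_smul, ← hsm]; exact S.smul_mem _ hx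
  have hfin : Module.Finite (ZMod p) S := Module.Finite.span_of_finite _ (Set.finite_range _)
  have : Finite S := Module.finite_of_finite (ZMod p)
  letI : MulAction G S :=
    { smul := fun g w => ⟨ρ g w, hS g w w.2⟩
      one_smul := fun w => Subtype.ext (by change ρ 1 w = w; simp)
      mul_smul := fun g h w => Subtype.ext (by change ρ (g * h) w = ρ g (ρ h w); simp) }
  have hsmul : ∀ (g : G) (w : S), ((g • w : S) : V) = ρ g w := fun _ _ => rfl
  have hvS : v ∈ S := Submodule.subset_span ⟨1, by simp⟩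
  have hnt : Nontrivial S := ⟨⟨v, hvS⟩, 0, fun h => hv (congrArg Subtype.val h)⟩
  have hdvd : p ∣ Nat.card S := by
    rw [Module.natCard_eq_pow_finrank (K := ZMod p), Nat.card_zmod]
    exact dvd_pow_self p Module.finrank_pos.ne'
  obtain ⟨b, hb, hb0⟩ := hG.exists_fixed_point_of_prime_dvd_card_of_fixed_point S hdvd
    (a := 0) (fun g => Subtype.ext (by rw [hsmul]; simp))
  refine ⟨b, hSU _ b.2, fun h => hb0 (Subtype.ext h.symm), fun g => ?_⟩
  exact congrArg Subtype.val (hb g)

/-- An equivariant map with no nonzero fixed vector in its kernel is injective. -/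
lemma injective_of_fixed {p : ℕ} [Fact p.Prime] [CharP k p] [Group G] [Finite G]
    (hG : IsPGroup p G) {X Y : Obj k G} {f : X.V →ₗ[k] Y.V} (hf : Obj.IsHom X Y f)
    (h : ∀ v, (∀ g, X.ρ g v = v) → f v = 0 → v = 0) : Function.Injective f := by
  rw [← LinearMap.ker_eq_bot]
  by_contra hne
  obtain ⟨v, hv, hv0, hfix⟩ := exists_fixed hG X.ρ _ hf.ker_inv hne
  exact hv0 (h v hfix hv)

end Pool.Agent.Lib.MP_13b5a2_al
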