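import Pool.Agent.Lib.MP_13b5a2_al.Polar

/-! Generalised eigenspaces under a perturbation factoring through a small space. -/

universe u

namespace Pool.Agent.Lib.MP_13b5a2_al

open Polynomial Filter Module

variable {k : Type u} [Field k]

lemma exists_common_ker {V : Type*} [AddCommGroup V] [Module k V] [FiniteDimensional k V]
    {ι : Type*} (ν : ι → End k V) (hn : ∀ i, IsNilpotent (ν i)) (hc : ∀ i j, Commute (ν i) (ν j))
    (K : Submodule k V) (hK : ∀ i, ∀ v ∈ K, ν i v ∈ K) (hne : K ≠ ⊥) :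
    ∃ v ∈ K, v ≠ 0 ∧ ∀ i, ν i v = 0 := by
  induction h : finrank k K using Nat.strong_induction_on generalizing K with
  | _ n ih =>
  by_cases h0 : ∀ i, ∀ v ∈ K, ν i v = 0
  · obtain ⟨v, hv, hv0⟩ := Submodule.exists_mem_ne_zero_of_ne_bot hne
    exact ⟨v, hv, hv0, fun i => h0 i v hv⟩
  · push Not at h0
    obtain ⟨i, v, hv, hv0⟩ := h0
    have hlt : K ⊓ LinearMap.ker (ν i) < K :=
      lt_of_le_of_ne inf_le_left fun e => hv0 (by rw [← e] at hv; exact hv.2)
    have hne' : K ⊓ LinearMap.ker (ν i) ≠ ⊥ := by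
      intro e
      obtain ⟨N, hN⟩ := hn i
      have : ∀ j : ℕ, ∀ w ∈ K, (ν i ^ j) w = 0 → w = 0 := by
        intro j
        induction j with
        | zero => intro w _ hw; simpa using hw
        | succ j ihj =>
          intro w hw h1
          rw [pow_succ, Module.End.mul_apply] at h1
          have h2 := ihj _ (hK i w hw) h1
          have : w ∈ K ⊓ LinearMap.ker (ν i) := ⟨hw, h2⟩
          rwa [e] at this
      exact hv0 (by rw [this N v hv (by rw [hN]; rfl), map_zero])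
    obtain ⟨w, hw, hw0, hw1⟩ := ih _ (h ▸ Submodule.finrank_lt_finrank_of_lt hlt)
      (K ⊓ LinearMap.ker (ν i))
      (fun j w hw => ⟨hK j w hw.1, by
        have h1 : ν i w = 0 := hw.2
        change ν i (ν j w) = 0
        rw [← Module.End.mul_apply, (hc i j).eq, Module.End.mul_apply, h1, map_zero]⟩) hne' rfl
    exact ⟨w, hw.1, hw0, hw1⟩

variable {X W : Type*} [AddCommGroup X] [Module k X] [AddCommGroup W] [Module k W]

/-- The bubble function. -/
noncomputable def bub (x : End k W) (c : X →ₗ[k] W) (e : W →ₗ[k] X) (u : k) : End k X :=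
  1 + e ∘ₗ resolvent x u ∘ₗ c

lemma bub_apply (x : End k W) (c : X →ₗ[k] W) (e : W →ₗ[k] X) (u : k) (v : X) :
    bub x c e u v = v + e (resolvent x u (c v)) := rfl

lemma e_res {x : End k W} {c : X →ₗ[k] W} {e : W →ₗ[k] X} {u : k} (h : Good x u)
    (h' : Good (x - c ∘ₗ e) u) (w : W) :
    e (resolvent x u w) = bub x c e u (e (resolvent (x - c ∘ₗ e) u w)) := by
  have h1 := h'.apply_res w
  set r := resolvent (x - c ∘ₗ e) u w
  have h2 : w = (u • r - x r) + c (e r) := by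
    rw [← h1]; simp only [LinearMap.sub_apply, LinearMap.comp_apply]; abel
  rw [bub_apply, ← map_add]
  conv_lhs => rw [h2, map_add, h.res_apply]

lemma pow_eq_of_forall {x : End k W} {c : X →ₗ[k] W} {e : W →ₗ[k] X} {a : k} {w : W}
    (h : ∀ j : ℕ, e (((x - a • 1) ^ j) w) = 0) (j : ℕ) :
    ((x - c ∘ₗ e - a • 1) ^ j) w = ((x - a • 1) ^ j) w := by
  induction j with
  | zero => rfl
  | succ j ih =>
    rw [pow_succ', pow_succ', Module.End.mul_apply, Module.End.mul_apply, ih]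
    simp [h j]

/-- Hypotheses of the perturbation lemma. -/
structure Pert (x : End k W) (c : X →ₗ[k] W) (e : W →ₗ[k] X) (f : k → k) (U : Set k)
    (ν : k → End k W) : Prop where
  hU : U ∈ cofinite
  nilX : ∀ u ∈ U, IsNilpotent (bub x c e u - f u • 1)
  nilW : ∀ u ∈ U, IsNilpotent (ν u)
  comX : ∀ u ∈ U, ∀ v ∈ U, Commute (bub x c e u) (bub x c e v)
  comW : ∀ u ∈ U, ∀ v ∈ U, Commute (ν u) (ν v)
  νx : ∀ u ∈ U, ∀ w, ν u (x w) = x (ν u w)
  νc : ∀ u ∈ U, ∀ v, ν u (c v) = c ((bub x c e u - f u • 1) v)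
  eν : ∀ u ∈ U, ∀ w, e (ν u w) = (bub x c e u - f u • 1) (e w)

variable [FiniteDimensional k X] [FiniteDimensional k W] [Infinite k]
  {x : End k W} {c : X →ₗ[k] W} {e : W →ₗ[k] X} {f : k → k} {U : Set k} {ν : k → End k W}

omit [FiniteDimensional k X] [FiniteDimensional k W] [Infinite k] in
lemma Pert.νx' (h : Pert x c e f U ν) {u : k} (hu : u ∈ U) (w : W) :
    ν u ((x - c ∘ₗ e) w) = (x - c ∘ₗ e) (ν u w) := by
  simp only [LinearMap.sub_apply, LinearMap.comp_apply, map_sub, h.νx u hu, h.eν u hu,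
    h.νc u hu]

omit [FiniteDimensional k X] [Infinite k] in
lemma Pert.e_res (h : Pert x c e f U ν) {w : W} (hw : ∀ u ∈ U, ν u w = 0) :
    ∀ᶠ u in cofinite, e (resolvent x u w) = f u • e (resolvent (x - c ∘ₗ e) u w) := by
  filter_upwards [h.hU, eventually_good x, eventually_good (x - c ∘ₗ e)] with u hu h1 h2
  have h3 := h.eν u hu (resolvent (x - c ∘ₗ e) u w)
  rw [res_natural h2 h2 (ν u) (h.νx' hu), hw u hu, map_zero, map_zero] at h3
  rw [Pool.Agent.Lib.MP_13b5a2_al.e_res h1 h2]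
  simp only [LinearMap.sub_apply, LinearMap.smul_apply, Module.End.one_apply] at h3
  exact sub_eq_zero.1 h3.symm

omit [FiniteDimensional k X] in
lemma Pert.psi (h : Pert x c e f U ν) {a : k} {m : ℕ} (hf : Reg a fun u => (u - a) ^ m * f u)
    {w : W} (hw : w ∈ Gen x a) (h1 : prj (x - c ∘ₗ e) a w = 0)
    (h2 : ∀ j : Fin m, e (((x - a • 1) ^ (j : ℕ)) w) = 0) : w = 0 := by
  by_contra hne
  let K : Submodule k W := Gen x a ⊓ LinearMap.ker (prj (x - c ∘ₗ e) a) ⊓
    ⨅ j : Fin m, LinearMap.ker (e ∘ₗ ((x - a • 1) ^ (j : ℕ)))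
  have hmem : ∀ w, w ∈ K ↔ (w ∈ Gen x a ∧ prj (x - c ∘ₗ e) a w = 0) ∧
      ∀ j : Fin m, e (((x - a • 1) ^ (j : ℕ)) w) = 0 := fun w => by
    simp [K, Submodule.mem_iInf]
  obtain ⟨w, hw, hw0, hν⟩ := exists_common_ker (fun u : U => ν u) (fun u => h.nilW u u.2)
    (fun u v => h.comW u u.2 v v.2) K (fun u w hw => by
      obtain ⟨⟨h1, h2⟩, h3⟩ := (hmem w).1 hw
      refine (hmem _).2 ⟨⟨Gen_natural _ (h.νx u u.2) h1, ?_⟩, fun j => ?_⟩
      · rw [← prj_natural _ (h.νx' u.2), h2, map_zero]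
      · rw [← aeval_X_sub_C_pow, ← aeval_natural _ (h.νx u u.2), h.eν u u.2,
          aeval_X_sub_C_pow, h3, map_zero])
    (fun e0 => hne (by
      have : w ∈ K := (hmem w).2 ⟨⟨hw, h1⟩, h2⟩
      rwa [e0] at this))
  obtain ⟨⟨h1, h2⟩, h3⟩ := (hmem w).1 hw
  obtain ⟨N, hN⟩ := mem_Gen.1 h1
  have r1 : RegV a fun u => e (resolvent (x - c ∘ₗ e) u w) :=
    (regV_res_of_mem_Cmp (prj_eq_zero_iff.1 h2)).map e
  have r2 : RegV a fun u => e (resolvent x u (((x - a • 1) ^ m) w)) := by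
    refine ((RegV.smul hf r1).sub ((regV_pow_res x a m w).map e)).congr ?_
    filter_upwards [h.e_res fun u hu => hν ⟨u, hu⟩] with u hu
    rw [map_sub, map_smul, hu, mul_smul, sub_sub_cancel]
  have h4 := polar_eq_zero e N _ (by
    rw [← Module.End.mul_apply, ← pow_add, add_comm, pow_add, Module.End.mul_apply, hN,
      map_zero]) r2
  have h5 : ∀ j : ℕ, e (((x - a • 1) ^ j) w) = 0 := fun j => by
    rcases lt_or_ge j m with hj | hj
    · exact h3 ⟨j, hj⟩
    · obtain ⟨i, rfl⟩ := Nat.exists_eq_add_of_le' hj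
      rw [pow_add, Module.End.mul_apply, h4]
  have h6 : w ∈ Gen (x - c ∘ₗ e) a := mem_Gen.2 ⟨N, by rw [pow_eq_of_forall h5, hN]⟩
  rw [prj_of_mem h6] at h2
  exact hw0 h2

/-- The comparison map. -/
noncomputable def phiMap (x : End k W) (c : X →ₗ[k] W) (a : k) (m : ℕ) :
    W × (Fin m → X) →ₗ[k] W :=
  prj x a ∘ₗ (LinearMap.fst k _ _ +
    ∑ j : Fin m, ((x - a • 1) ^ (j : ℕ)) ∘ₗ c ∘ₗ LinearMap.proj j ∘ₗ LinearMap.snd k _ _)

omit [FiniteDimensional k X] [Infinite k] in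
lemma phiMap_apply (x : End k W) (c : X →ₗ[k] W) (a : k) (m : ℕ) (w : W) (ξ : Fin m → X) :
    phiMap x c a m (w, ξ) = prj x a (w + ∑ j : Fin m, ((x - a • 1) ^ (j : ℕ)) (c (ξ j))) := by
  simp [phiMap, LinearMap.sum_apply]

omit [FiniteDimensional k X] [Infinite k] in
lemma phiMap_natural (a : k) (m : ℕ) (tW : End k W) (tX : End k X)
    (h1 : ∀ w, tW (x w) = x (tW w)) (h2 : ∀ v, tW (c v) = c (tX v)) (w : W) (ξ : Fin m → X) :
    phiMap x c a m (tW w, fun j => tX (ξ j)) = tW (phiMap x c a m (w, ξ)) := by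
  rw [phiMap_apply, phiMap_apply, prj_natural tW h1, map_add tW, map_sum tW]
  congr 2
  refine Finset.sum_congr rfl fun j _ => ?_
  rw [← aeval_X_sub_C_pow, aeval_natural tW h1, h2]

lemma Pert.phi (h : Pert x c e f U ν) {a : k} {m : ℕ}
    (hf : Reg a fun u => ((u - a) ^ m * f u)⁻¹) (hf0 : ∀ᶠ u in cofinite, f u ≠ 0)
    {w : W} {ξ : Fin m → X} (hw : w ∈ Gen (x - c ∘ₗ e) a) (h1 : phiMap x c a m (w, ξ) = 0) :
    w = 0 ∧ ξ = 0 := by
  by_contra hne
  let K : Submodule k (W × (Fin m → X)) :=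
    (Gen (x - c ∘ₗ e) a).comap (LinearMap.fst k _ _) ⊓ LinearMap.ker (phiMap x c a m)
  obtain ⟨⟨w, ξ⟩, hw, hw0, hν⟩ := exists_common_ker
    (fun u : U => (ν u).prodMap ((bub x c e u - f u • 1).compLeft (Fin m)))
    (fun u => by
      obtain ⟨N, hN⟩ := h.nilW u u.2
      obtain ⟨N', hN'⟩ := h.nilX u u.2
      refine ⟨N + N', LinearMap.ext fun v => ?_⟩
      have : ∀ j : ℕ, (((ν u).prodMap ((bub x c e u - f u • 1).compLeft (Fin m))) ^ j) v =
          ((ν u ^ j) v.1, fun i => ((bub x c e u - f u • 1) ^ j) (v.2 i)) := by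
        intro j
        induction j with
        | zero => rfl
        | succ j ih => rw [pow_succ', Module.End.mul_apply, ih, pow_succ', pow_succ']; rfl
      rw [this, pow_add, hN, zero_mul, pow_add, hN', mul_zero]; rfl)
    (fun u v => by
      refine LinearMap.ext fun w => Prod.ext ?_ (funext fun i => ?_)
      · exact LinearMap.congr_fun (h.comW u u.2 v v.2).eq w.1
      · have : Commute (bub x c e u - f u • 1) (bub x c e v - f v • 1) :=
          ((h.comX u u.2 v v.2).sub_right ((Commute.one_right _).smul_right _)).sub_left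
            ((Commute.one_left _).smul_left _)
        exact LinearMap.congr_fun this.eq (w.2 i))
    K (fun u w hw => ⟨Gen_natural _ (h.νx' u.2) hw.1, by
      have h2 : phiMap x c a m (w.1, w.2) = 0 := hw.2
      have := phiMap_natural a m (ν u) _ (h.νx u u.2) (h.νc u u.2) w.1 w.2
      rw [h2, map_zero] at this
      exact this⟩)
    (fun e0 => hne (by
      have : (w, ξ) ∈ K := ⟨hw, h1⟩
      rw [e0] at this
      exact Prod.ext_iff.1 this))
  have h1 : w ∈ Gen (x - c ∘ₗ e) a := hw.1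
  have h2 : phiMap x c a m (w, ξ) = 0 := hw.2
  rw [phiMap_apply, prj_eq_zero_iff] at h2
  have hν1 : ∀ u ∈ U, ν u w = 0 := fun u hu => congrArg Prod.fst (hν ⟨u, hu⟩)
  have hν2 : ∀ u ∈ U, ∀ j, e (resolvent x u (c (ξ j))) = f u • ξ j - ξ j := fun u hu j => by
    have h3 : (bub x c e u - f u • 1) (ξ j) = 0 := congrFun (congrArg Prod.snd (hν ⟨u, hu⟩)) j
    simp only [LinearMap.sub_apply, bub_apply, LinearMap.smul_apply, Module.End.one_apply] at h3
    rw [← sub_eq_zero, ← h3]; abel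
  obtain ⟨N, hN⟩ := mem_Gen.1 h1
  have r1 : RegV a fun u =>
      f u • (e (resolvent (x - c ∘ₗ e) u w) + ∑ j : Fin m, (u - a) ^ (j : ℕ) • ξ j) := by
    refine ((((regV_res_of_mem_Cmp h2).map e).add (RegV.sum Finset.univ fun (j : Fin m) _ =>
      (regV_pow_res x a j (c (ξ j))).map e)).add (RegV.sum Finset.univ fun (j : Fin m) _ =>
      RegV.smul (Reg.sub_self_pow a a j) (RegV.const (ξ j)))).congr ?_
    filter_upwards [h.e_res hν1, h.hU] with u hu hU
    simp only [map_add, map_sum, map_sub, map_smul, hν2 u hU, hu, smul_add, Finset.smul_sum,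
      Finset.sum_sub_distrib, smul_sub, smul_comm (f u)]
    abel
  have r2 := RegV.smul hf r1
  have e2 : ∀ᶠ u in cofinite,
      e (resolvent (x - c ∘ₗ e) u w) + ∑ j : Fin m, (u - a) ^ (j : ℕ) • ξ j =
      (u - a) ^ m • (((u - a) ^ m * f u)⁻¹ •
      f u • (e (resolvent (x - c ∘ₗ e) u w) + ∑ j : Fin m, (u - a) ^ (j : ℕ) • ξ j)) := by
    filter_upwards [hf0, eventually_cofinite_ne a] with u hu hua
    have := pow_ne_zero m (sub_ne_zero.2 hua)
    rw [smul_smul, smul_smul]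
    have h3 : (u - a) ^ m * ((u - a) ^ m * f u)⁻¹ * f u = 1 := by field_simp
    rw [h3, one_smul]
  have r3 : RegV a fun u => e (resolvent (x - c ∘ₗ e) u w) := by
    refine ((RegV.smul (Reg.sub_self_pow a a m) r2).sub (RegV.sum Finset.univ
      fun (j : Fin m) _ => RegV.smul (Reg.sub_self_pow a a j) (RegV.const (ξ j)))).congr ?_
    filter_upwards [e2] with u hu
    rw [← hu, add_sub_cancel_right]
  have h4 := polar_eq_zero e N _ hN r3
  have h5 := res_eq_zero_of_forall e N _ hN h4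
  have h6 : ξ = 0 := funext fun j => RegV.eq_zero_of_poly ξ r2 (by
    filter_upwards [e2, eventually_cofinite_ne a, eventually_good (x - c ∘ₗ e)] with u hu hua hg
    rw [← hu, h5 u hua hg, zero_add]) j
  have h7 : w ∈ Gen x a := by
    have := pow_eq_of_forall (c := -c) h4 N
    rw [hN] at this
    refine mem_Gen.2 ⟨N, ?_⟩
    simpa using this
  subst h6
  simp only [Pi.zero_apply, map_zero, Finset.sum_const_zero, add_zero] at h2
  rw [← prj_eq_zero_iff, prj_of_mem h7] at h2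
  exact hw0 (by rw [h2]; rfl)

/-- The perturbation lemma. -/
theorem Pert.bij (h : Pert x c e f U ν) {a : k} {m : ℕ} (hf : Reg a fun u => (u - a) ^ m * f u)
    (hf' : Reg a fun u => ((u - a) ^ m * f u)⁻¹) (hf0 : ∀ᶠ u in cofinite, f u ≠ 0) :
    ∃ Φ : (Gen (x - c ∘ₗ e) a × (Fin m → X)) ≃ₗ[k] Gen x a,
      ∀ v, (Φ v : W) = phiMap x c a m (v.1, v.2) := by
  let Φ : (Gen (x - c ∘ₗ e) a × (Fin m → X)) →ₗ[k] Gen x a :=
    LinearMap.codRestrict _ (phiMap x c a m ∘ₗ (Submodule.subtype _).prodMap LinearMap.id)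
      fun v => prj_mem _ _ _
  let Ψ : Gen x a →ₗ[k] (Gen (x - c ∘ₗ e) a × (Fin m → X)) :=
    (LinearMap.codRestrict _ (prj (x - c ∘ₗ e) a ∘ₗ Submodule.subtype _)
      fun v => prj_mem _ _ _).prod
      (LinearMap.pi fun j : Fin m => e ∘ₗ ((x - a • 1) ^ (j : ℕ)) ∘ₗ Submodule.subtype _)
  have hΦ : Function.Injective Φ := by
    rw [injective_iff_map_eq_zero]
    intro v hv
    have := h.phi hf' hf0 v.1.2 (congrArg Subtype.val hv)
    exact Prod.ext (Subtype.ext this.1) this.2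
  have hΨ : Function.Injective Ψ := by
    rw [injective_iff_map_eq_zero]
    intro v hv
    exact Subtype.ext (h.psi hf v.2 (congrArg Subtype.val (congrArg Prod.fst hv))
      fun j => congrFun (congrArg Prod.snd hv) j)
  have hd := le_antisymm (LinearMap.finrank_le_finrank_of_injective hΦ)
    (LinearMap.finrank_le_finrank_of_injective hΨ)
  exact ⟨LinearEquiv.ofBijective Φ
    ⟨hΦ, (LinearMap.injective_iff_surjective_of_finrank_eq_finrank hd).1 hΦ⟩, fun v => rfl⟩

end Pool.Agent.Lib.MP_13b5a2_al
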