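import Pool.Agent.Lib.MP_13b5a2_al.Tw
import Pool.Agent.Lib.MP_13b5a2_al.Pert

/-! Representations with a compatible action of the general linear Lie algebra. -/

universe u

namespace Pool.Agent.Lib.MP_13b5a2_al

open Module Filter Obj

section Lin

variable {k : Type u} [Field k] {ι : Type} [Fintype ι] [DecidableEq ι]
  {V V' : Type*} [AddCommGroup V] [Module k V] [AddCommGroup V'] [Module k V']

/-- The Casimir type operator. -/
def xop (e : ι → ι → End k V) : End k (ι → V) :=
  LinearMap.pi fun a => ∑ b, e b a ∘ₗ LinearMap.proj b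

omit [DecidableEq ι] in
lemma xop_apply (e : ι → ι → End k V) (φ : ι → V) (a : ι) : xop e φ a = ∑ b, e b a (φ b) := by
  simp [xop, LinearMap.sum_apply]

/-- The action on the tensor product with the natural module. -/
def eF (e : ι → ι → End k V) (a b : ι) : End k (ι → V) :=
  LinearMap.single k (fun _ => V) a ∘ₗ LinearMap.proj b + (e a b).compLeft ι

omit [Fintype ι] in
lemma eF_apply (e : ι → ι → End k V) (a b : ι) (φ : ι → V) (c : ι) :
    eF e a b φ c = (if c = a then φ b else 0) + e a b (φ c) := by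
  simp [eF, Pi.single_apply]

/-- The commutation relations. -/
def Rel (e : ι → ι → End k V) : Prop := ∀ a b c d v,
  e a b (e c d v) - e c d (e a b v) = (if b = c then e a d v else 0) - (if d = a then e c b v else 0)

omit [Fintype ι] in
lemma Rel.eF {e : ι → ι → End k V} (h : Rel e) : Rel (eF e) := fun a b c d φ => by
  ext i
  have := h a b c d (φ i)
  simp only [Pi.sub_apply, eF_apply, map_add, apply_ite (e _ _), map_zero, ite_apply,
    Pi.zero_apply]
  rw [sub_eq_iff_eq_add.1 this]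
  split_ifs <;> subst_vars <;> first | abel1 | contradiction

omit [Fintype ι] in
lemma Rel.op {e : ι → ι → End k V} (h : Rel e) : Rel (fun a b => -e b a) := fun a b c d v => by
  have := h b a d c v
  simp only [LinearMap.neg_apply, map_neg, neg_neg]
  rw [this]
  simp only [@eq_comm _ a d, @eq_comm _ c b]
  split_ifs <;> subst_vars <;> abel1

lemma Rel.xop_eF {e : ι → ι → End k V} (h : Rel e) (a b : ι) (φ : ι → V) :
    xop e (Pool.Agent.Lib.MP_13b5a2_al.eF e a b φ) =
      Pool.Agent.Lib.MP_13b5a2_al.eF e a b (xop e φ) := by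
  ext c
  simp only [xop_apply, eF_apply, map_add, Finset.sum_add_distrib, map_sum, apply_ite (e _ _),
    map_zero, Finset.sum_ite_eq', Finset.mem_univ, if_true]
  have : ∀ d, e a b (e d c (φ d)) = e d c (e a b (φ d)) +
      ((if b = d then e a c (φ d) else 0) - (if c = a then e d b (φ d) else 0)) := fun d => by
    rw [← h a b d c (φ d)]; abel
  simp only [this, Finset.sum_add_distrib, Finset.sum_sub_distrib, Finset.sum_ite_eq,
    Finset.mem_univ, if_true]
  split_ifs
  · abel1
  · simp only [Finset.sum_const_zero]; abel1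

/-- Swapping the two outer factors. -/
def flp : End k (ι → ι → V) := LinearMap.pi fun a => LinearMap.pi fun b =>
  LinearMap.proj a ∘ₗ LinearMap.proj b

omit [Fintype ι] [DecidableEq ι] in
@[simp] lemma flp_apply (w : ι → ι → V) (a b : ι) : flp (k := k) w a b = w b a := rfl

omit [Fintype ι] [DecidableEq ι] in
lemma flp_flp (w : ι → ι → V) : flp (k := k) (flp (k := k) w) = w := rfl

lemma xop_eF_eq (e : ι → ι → End k V) :
    xop (eF e) = flp * (xop e).compLeft ι * flp + flp := by
  refine LinearMap.ext fun w => funext fun a => funext fun b => ?_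
  simp [xop_apply, eF_apply, Finset.sum_apply, Finset.sum_add_distrib, add_comm]

/-- Partial trace. -/
def ptr (T : End k (ι → V)) : End k V :=
  ∑ a, LinearMap.proj a ∘ₗ T ∘ₗ LinearMap.single k (fun _ => V) a

lemma ptr_apply (T : End k (ι → V)) (v : V) : ptr T v = ∑ a, T (Pi.single a v) a := by
  simp [ptr, LinearMap.sum_apply]

lemma ptr_add (T T' : End k (ι → V)) : ptr (T + T') = ptr T + ptr T' := by
  ext v; simp [ptr_apply, Finset.sum_add_distrib]

lemma ptr_left (A : End k V) (T : End k (ι → V)) : ptr (A.compLeft ι * T) = A * ptr T := by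
  ext v; simp [ptr_apply]

omit [Fintype ι] in
lemma compLeft_single (A : V →ₗ[k] V') (a : ι) (v : V) :
    A.compLeft ι (Pi.single a v) = Pi.single a (A v) := by
  ext b; by_cases h : b = a <;> simp [h]

lemma ptr_right (A : End k V) (T : End k (ι → V)) : ptr (T * A.compLeft ι) = ptr T * A := by
  ext v; simp [ptr_apply, compLeft_single]

lemma ptr_flp : ptr (flp : End k (ι → ι → V)) = 1 := by
  refine LinearMap.ext fun v => funext fun b => ?_
  simp [ptr_apply, Finset.sum_apply, Pi.single_apply, ite_apply]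

lemma ptr_conj (T : End k (ι → V)) : ptr (flp * T.compLeft ι * flp) = (ptr T).compLeft ι := by
  refine LinearMap.ext fun v => funext fun b => ?_
  simp only [ptr_apply, Finset.sum_apply, Module.End.mul_apply, flp_apply,
    LinearMap.compLeft_apply, Function.comp_apply]
  refine Finset.sum_congr rfl fun a _ => ?_
  have : flp (k := k) (Pi.single a v : ι → ι → V) b = Pi.single a (v b) := by
    ext c
    by_cases h : c = a <;> simp [h]
  rw [this]

lemma ptr_natural {T : End k (ι → V)} {T' : End k (ι → V')} (f : V →ₗ[k] V')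
    (h : ∀ φ, f.compLeft ι (T φ) = T' (f.compLeft ι φ)) (v : V) : f (ptr T v) = ptr T' (f v) := by
  rw [ptr_apply, ptr_apply, map_sum]
  refine Finset.sum_congr rfl fun a _ => ?_
  rw [← compLeft_single, ← h]; rfl

lemma trace_ptr [FiniteDimensional k V] (T : End k (ι → V)) :
    LinearMap.trace k V (ptr T) = LinearMap.trace k _ T := by
  have : T = ∑ a, T ∘ₗ LinearMap.single k (fun _ => V) a ∘ₗ LinearMap.proj a := by
    refine LinearMap.ext fun v => ?_
    simp only [LinearMap.sum_apply, LinearMap.comp_apply, ← map_sum]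
    congr 1
    ext b
    simp [Finset.sum_apply, Pi.single_apply]
  conv_rhs => rw [this]
  rw [ptr, map_sum, map_sum]
  refine Finset.sum_congr rfl fun a _ => ?_
  rw [← LinearMap.comp_assoc _ _ T, LinearMap.trace_comp_comm']

/-- Coevaluation. -/
def cev : V →ₗ[k] (ι → ι → V) := LinearMap.pi fun b => LinearMap.single k (fun _ => V) b

omit [Fintype ι] in
lemma cev_apply (v : V) (b a : ι) : cev (k := k) v b a = if a = b then v else 0 := by
  simp [cev, Pi.single_apply]

/-- Evaluation. -/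
def evl : (ι → ι → V) →ₗ[k] V := ∑ a, LinearMap.proj a ∘ₗ LinearMap.proj a

omit [DecidableEq ι] in
lemma evl_apply (w : ι → ι → V) : evl (k := k) w = ∑ a, w a a := by
  simp [evl, LinearMap.sum_apply]

omit [Fintype ι] [DecidableEq ι] in
lemma good_compLeft {T : End k V} {u : k} (h : Good T u) : Good (T.compLeft ι) u :=
  ⟨⟨_, (resolvent T u).compLeft ι, LinearMap.ext fun w => funext fun a => h.apply_res (w a),
    LinearMap.ext fun w => funext fun a => h.res_apply (w a)⟩, rfl⟩

omit [Fintype ι] [DecidableEq ι] in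
lemma res_compLeft {T : End k V} {u : k} (h : Good T u) :
    resolvent (T.compLeft ι) u = (resolvent T u).compLeft ι :=
  LinearMap.ext fun w => (good_compLeft h).res_eq (funext fun a => h.apply_res (w a))

lemma mem_Gen_compLeft {T : End k V} {a : k} {w : ι → V} :
    w ∈ Gen (T.compLeft ι) a ↔ ∀ i, w i ∈ Gen T a := by
  refine ⟨fun h i => Gen_natural (T := T.compLeft ι) (T' := T)
    (LinearMap.proj (R := k) (φ := fun _ : ι => V) i) (fun _ => rfl) h, fun h => ?_⟩
  rw [← Finset.univ_sum_single w]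
  exact Submodule.sum_mem _ fun i _ => Gen_natural (LinearMap.single k (fun _ => V) i)
    (fun v => (compLeft_single T i v).symm) (h i)

lemma mem_Gen_iff_of_injective {T : End k V} {T' : End k V'} (f : V →ₗ[k] V')
    (hf : ∀ v, f (T v) = T' (f v)) (hi : Function.Injective f) {a : k} {v : V} :
    f v ∈ Gen T' a ↔ v ∈ Gen T a := by
  refine ⟨fun h => ?_, Gen_natural f hf⟩
  obtain ⟨N, hN⟩ := mem_Gen.1 h
  refine mem_Gen.2 ⟨N, hi ?_⟩
  rw [← aeval_X_sub_C_pow] at hN ⊢
  rw [aeval_natural f hf, hN, map_zero]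

lemma Gen_neg (T : End k V) (b d : k) : Gen (-T - d • 1) b = Gen T (-b - d) := by
  ext w
  have : -T - d • 1 - b • 1 = -(T - (-b - d) • 1) := by
    rw [sub_smul, neg_smul]; abel
  simp only [mem_Gen, this, neg_pow (T - _)]
  refine exists_congr fun N => ?_
  rcases neg_one_pow_eq_or (End k V) N with h | h <;> simp [h]

lemma Gen_inf_sub {x y : End k V} (h : Commute x y) (a b : k) :
    Gen x a ⊓ Gen y b = Gen x a ⊓ Gen (x - y) (a - b) := by
  have key : ∀ {x y : End k V}, Commute x y → ∀ {a b : k} {w : V}, w ∈ Gen x a → w ∈ Gen y b →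
      w ∈ Gen (x - y) (a - b) := by
    intro x y h a b w h1 h2
    obtain ⟨N, hN⟩ := mem_Gen.1 h1
    obtain ⟨M, hM⟩ := mem_Gen.1 h2
    refine mem_Gen.2 ⟨N + M, ?_⟩
    have e : x - y - (a - b) • 1 = (x - a • 1) + -(y - b • 1) := by rw [sub_smul]; abel
    have hc : Commute (x - a • 1) (-(y - b • 1)) :=
      ((h.sub_right ((Commute.one_right _).smul_right _)).sub_left
        ((Commute.one_left _).smul_left _)).neg_right
    rw [e, hc.add_pow, LinearMap.sum_apply]
    refine Finset.sum_eq_zero fun i hi => ?_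
    rw [← (Nat.cast_commute _ _).eq, Module.End.mul_apply]
    rcases le_or_gt N i with h3 | h3
    · obtain ⟨j, rfl⟩ := Nat.exists_eq_add_of_le' h3
      rw [(hc.pow_pow _ _).eq, Module.End.mul_apply, pow_add, Module.End.mul_apply, hN]; simp
    · obtain ⟨j, hj⟩ := Nat.exists_eq_add_of_le' (show M ≤ N + M - i by omega)
      rw [hj, neg_pow, pow_add (y - _)]
      simp only [Module.End.mul_apply, hM, map_zero]
  ext w
  refine ⟨fun hw => ⟨hw.1, key h hw.1 hw.2⟩, fun hw => ⟨hw.1, ?_⟩⟩
  have := key ((Commute.refl x).sub_right h) hw.1 hw.2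
  simpa using this

lemma range_lift {T : End k V} {a b : k} {T2 : End k (ι → Gen T a)} {T2' : End k (ι → V)}
    (h : ∀ w, (Gen T a).subtype.compLeft ι (T2 w) = T2' ((Gen T a).subtype.compLeft ι w)) :
    LinearMap.range ((Gen T a).subtype.compLeft ι ∘ₗ (Gen T2 b).subtype) =
      Gen (T.compLeft ι) a ⊓ Gen T2' b := by
  have hi : Function.Injective ((Gen T a).subtype.compLeft ι) := fun v w e =>
    funext fun i => Subtype.ext (congrFun e i)
  ext w
  constructor
  · rintro ⟨v, rfl⟩
    exact ⟨mem_Gen_compLeft.2 fun i => (v.1 i).2, Gen_natural _ h v.2⟩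
  · rintro ⟨h1, h2⟩
    exact ⟨⟨fun i => ⟨w i, mem_Gen_compLeft.1 h1 i⟩, (mem_Gen_iff_of_injective _ h hi).1 h2⟩, rfl⟩

end Lin

/-- A matrix representation together with its dual. -/
structure Dat (k : Type u) [Field k] (G : Type) [Group G] (ι : Type) [Fintype ι]
    [DecidableEq ι] where
  μ : G →* Matrix ι ι k
  μ' : G →* Matrix ι ι k
  h : ∀ g, μ' g = (μ g⁻¹).transpose

variable {k : Type u} [Field k] {G : Type} [Group G] {ι : Type} [Fintype ι] [DecidableEq ι]

/-- The dual data. -/
abbrev Dat.op (D : Dat k G ι) : Dat k G ι :=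
  ⟨D.μ', D.μ, fun g => by rw [D.h, inv_inv, Matrix.transpose_transpose]⟩

lemma Dat.sum_mul (D : Dat k G ι) (g : G) (a b : ι) :
    ∑ c, D.μ' g c a * D.μ g c b = if a = b then 1 else 0 := by
  have : D.μ g⁻¹ * D.μ g = 1 := by rw [← map_mul]; simp
  have h := congrFun (congrFun this a) b
  rw [Matrix.mul_apply, Matrix.one_apply] at h
  simpa [D.h] using h

lemma Dat.sum_mul' (D : Dat k G ι) (g : G) (a b : ι) :
    ∑ c, D.μ' g a c * D.μ g b c = if a = b then 1 else 0 := by
  have : D.μ g * D.μ g⁻¹ = 1 := by rw [← map_mul]; simp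
  have h := congrFun (congrFun this b) a
  rw [Matrix.mul_apply, Matrix.one_apply] at h
  simpa [D.h, mul_comm, eq_comm] using h

/-- A representation with a compatible action of the general linear Lie algebra. -/
structure Gob (D : Dat k G ι) where
  X : Obj k G
  e : ι → ι → End k X.V
  rel : Rel e
  eqv : IsHom (tw D.μ X) (tw D.μ X) (xop e)

lemma isHom_flp (μ μ' : G →* Matrix ι ι k) (X : Obj k G) :
    IsHom (tw μ (tw μ' X)) (tw μ' (tw μ X)) flp := fun g w => by
  ext a b
  change twRep μ (tw μ' X) g w b a = twRep μ' (tw μ X) g (flp (k := k) w) a b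
  simp only [twRep_apply, Finset.sum_apply, Pi.smul_apply, Finset.smul_sum, flp_apply]
  rw [Finset.sum_comm]
  exact Finset.sum_congr rfl fun _ _ => Finset.sum_congr rfl fun _ _ => smul_comm _ _ _

lemma IsHom.add {X Y : Obj k G} {f g : X.V →ₗ[k] Y.V} (hf : IsHom X Y f) (hg : IsHom X Y g) :
    IsHom X Y (f + g) := fun a v => by
  simp only [LinearMap.add_apply, map_add]; rw [hf, hg]

namespace Gob

variable {D : Dat k G ι}

/-- The Casimir type operator. -/
abbrev x (X : Gob D) : End k (ι → X.X.V) := xop X.e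

/-- Morphisms. -/
def IsMor (X Y : Gob D) (f : X.X.V →ₗ[k] Y.X.V) : Prop :=
  IsHom X.X Y.X f ∧ ∀ a b v, f (X.e a b v) = Y.e a b (f v)

lemma IsMor.id (X : Gob D) : IsMor X X LinearMap.id := ⟨IsHom.id _, fun _ _ _ => rfl⟩

lemma IsMor.comp {X Y Z : Gob D} {f : Y.X.V →ₗ[k] Z.X.V} {g : X.X.V →ₗ[k] Y.X.V}
    (hf : IsMor Y Z f) (hg : IsMor X Y g) : IsMor X Z (f ∘ₗ g) :=
  ⟨hf.1.comp hg.1, fun a b v => by simp only [LinearMap.comp_apply]; rw [hg.2, hf.2]⟩

lemma IsMor.x {X Y : Gob D} {f : X.X.V →ₗ[k] Y.X.V} (hf : IsMor X Y f) (φ : ι → X.X.V) :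
    f.compLeft ι (X.x φ) = Y.x (f.compLeft ι φ) := by
  ext a; simp [xop_apply, hf.2]

/-- Tensoring with the natural module. -/
abbrev F (X : Gob D) : Gob D where
  X := tw D.μ X.X
  e := eF X.e
  rel := X.rel.eF
  eqv := by
    rw [xop_eF_eq]
    exact IsHom.add (((isHom_flp _ _ _).comp (X.eqv.tw _)).comp (isHom_flp _ _ _))
      (isHom_flp _ _ _)

lemma op_eqv (X : Gob D) : IsHom (tw D.μ' X.X) (tw D.μ' X.X) (xop fun a b => -X.e b a) := by
  intro g φ
  have h1 : ∀ a c v, ∑ b, D.μ g b c • X.e b a (X.X.ρ g v) =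
      ∑ b, D.μ g a b • X.X.ρ g (X.e c b v) := fun a c v => by
    have := congrFun (X.eqv g (Pi.single c v)) a
    change xop X.e (twRep _ _ g _) a = twRep _ _ g _ a at this
    rw [twRep_single, twRep_apply] at this
    simpa [xop_apply, Finset.sum_apply, Pi.single_apply, apply_ite (X.e _ _)] using this
  have h2 : ∀ a c v, ∑ b, D.μ' g b c • X.e a b (X.X.ρ g v) =
      ∑ b, D.μ' g a b • X.X.ρ g (X.e b c v) := fun a c v => by
    have e1 : ∑ i, ∑ b, (D.μ' g i c * D.μ' g a b) • ∑ j, D.μ g j b • X.e j i (X.X.ρ g v) =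
        ∑ b, D.μ' g b c • X.e a b (X.X.ρ g v) := by
      refine Finset.sum_congr rfl fun i _ => ?_
      simp only [mul_smul, ← Finset.smul_sum]
      congr 1
      simp only [Finset.smul_sum, smul_smul]
      rw [Finset.sum_comm]
      simp only [← Finset.sum_smul, D.sum_mul']
      simp
    have e2 : ∑ i, ∑ b, (D.μ' g i c * D.μ' g a b) • ∑ j, D.μ g i j • X.X.ρ g (X.e b j v) =
        ∑ b, D.μ' g a b • X.X.ρ g (X.e b c v) := by
      rw [Finset.sum_comm]
      refine Finset.sum_congr rfl fun b _ => ?_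
      simp only [mul_comm (D.μ' g _ c), mul_smul, ← Finset.smul_sum]
      congr 1
      simp only [Finset.smul_sum, smul_smul]
      rw [Finset.sum_comm]
      simp only [← Finset.sum_smul, D.sum_mul]
      simp
    rw [← e1, ← e2]
    simp only [h1]
  ext a
  change xop _ (twRep _ _ g _) a = twRep _ _ g _ a
  simp only [xop_apply, twRep_apply, LinearMap.neg_apply, map_sum, map_smul, map_neg, smul_neg,
    Finset.sum_neg_distrib, Finset.smul_sum]
  rw [Finset.sum_comm]
  conv_rhs => rw [Finset.sum_comm]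
  simp only [h2]

/-- The same object for the dual data. -/
abbrev op (X : Gob D) : Gob D.op where
  X := X.X
  e a b := -X.e b a
  rel := X.rel.op
  eqv := X.op_eqv

lemma op_op (X : Gob D) : X.op.op = X := by
  cases X; simp [op]

lemma IsMor.op {X Y : Gob D} {f : X.X.V →ₗ[k] Y.X.V} (hf : IsMor X Y f) : IsMor X.op Y.op f :=
  ⟨hf.1, fun a b v => by simp [hf.2]⟩

/-- Subobjects. -/
abbrev sub (X : Gob D) (U : Submodule k X.X.V) (hU : ∀ g v, v ∈ U → X.X.ρ g v ∈ U)
    (he : ∀ a b, ∀ v ∈ U, X.e a b v ∈ U) : Gob D where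
  X := X.X.sub U hU
  e a b := (X.e a b).restrict (he a b)
  rel a b c d v := Subtype.ext (by
    have := X.rel a b c d v
    simpa [apply_ite Subtype.val] using this)
  eqv g φ := by
    have h := X.eqv g (U.subtype.compLeft ι φ)
    have h1 := (isHom_subtype X.X U hU).tw D.μ g
    have h2 : ∀ φ : ι → U, U.subtype.compLeft ι (xop (fun a b => (X.e a b).restrict (he a b)) φ) =
        xop X.e (U.subtype.compLeft ι φ) := fun φ => by
      ext a; simp [xop_apply]
    rw [← h1, ← h2, ← h2, ← h1] at h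
    exact funext fun a => Subtype.ext (congrFun h a)

lemma isMor_subtype (X : Gob D) (U : Submodule k X.X.V) (hU) (he) :
    IsMor (X.sub U hU he) X U.subtype := ⟨fun _ _ => rfl, fun _ _ _ => rfl⟩

lemma IsMor.F {X Y : Gob D} {f : X.X.V →ₗ[k] Y.X.V} (hf : IsMor X Y f) :
    IsMor X.F Y.F (f.compLeft ι) := ⟨hf.1.tw _, fun a b φ => by
  ext c
  simp [eF_apply, hf.2, apply_ite f]⟩

lemma isMor_x (X : Gob D) : IsMor X.F X.F X.x := ⟨X.eqv, X.rel.xop_eF⟩

/-- Generalised eigenspace in the tensor product with the natural module. -/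
noncomputable abbrev Fa (X : Gob D) (a : k) : Gob D := X.F.sub (Gen X.x a)
  (fun g _ hv => Gen_natural _ (fun w => (X.eqv g w).symm) hv)
  (fun b c _ hv => Gen_natural _ (fun w => (X.isMor_x.2 b c w).symm) hv)

/-- Tensoring with the dual module. -/
abbrev E (X : Gob D) : Gob D := X.op.F.op

/-- Generalised eigenspace in the tensor product with the dual module. -/
noncomputable abbrev Ea (X : Gob D) (b : k) : Gob D := (X.op.Fa (-b - Fintype.card ι)).op

/-- Functoriality. -/
noncomputable def faMap {X Y : Gob D} {f : X.X.V →ₗ[k] Y.X.V} (hf : IsMor X Y f) (a : k) :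
    (X.Fa a).X.V →ₗ[k] (Y.Fa a).X.V :=
  (f.compLeft ι).restrict fun _ hv => Gen_natural _ hf.x hv

lemma faMap_apply {X Y : Gob D} {f : X.X.V →ₗ[k] Y.X.V} (hf : IsMor X Y f) (a : k)
    (v : (X.Fa a).X.V) (i : ι) : (faMap hf a v).1 i = f (v.1 i) := rfl

lemma isMor_faMap {X Y : Gob D} {f : X.X.V →ₗ[k] Y.X.V} (hf : IsMor X Y f) (a : k) :
    IsMor (X.Fa a) (Y.Fa a) (faMap hf a) :=
  ⟨fun g v => Subtype.ext (hf.F.1 g v.1), fun b c v => Subtype.ext (hf.F.2 b c v.1)⟩

/-- Retracts. -/
def Retract (X Y : Gob D) : Prop := ∃ i r, IsMor X Y i ∧ IsMor Y X r ∧ ∀ v, r (i v) = v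

lemma Retract.refl (X : Gob D) : Retract X X := ⟨_, _, IsMor.id X, IsMor.id X, fun _ => rfl⟩

lemma Retract.trans {X Y Z : Gob D} (h : Retract X Y) (h' : Retract Y Z) : Retract X Z := by
  obtain ⟨i, r, hi, hr, e⟩ := h
  obtain ⟨i', r', hi', hr', e'⟩ := h'
  exact ⟨_, _, hi'.comp hi, hr.comp hr', fun v => by simp [e, e']⟩

lemma Retract.Fa {X Y : Gob D} (h : Retract X Y) (a : k) : Retract (X.Fa a) (Y.Fa a) := by
  obtain ⟨i, r, hi, hr, e⟩ := h
  exact ⟨_, _, isMor_faMap hi a, isMor_faMap hr a, fun v => Subtype.ext (funext fun j => e _)⟩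

lemma Retract.op {X Y : Gob D} (h : Retract X Y) : Retract X.op Y.op := by
  obtain ⟨i, r, hi, hr, e⟩ := h
  exact ⟨_, _, hi.op, hr.op, e⟩

lemma Retract.Ea {X Y : Gob D} (h : Retract X Y) (a : k) : Retract (X.Ea a) (Y.Ea a) :=
  (h.op.Fa _).op

lemma Retract.cl {X Y : Gob D} (h : Retract X Y) : ∃ z, Y.X.cl = X.X.cl + z := by
  obtain ⟨i, r, hi, hr, e⟩ := h
  exact exists_cl_of_retract hi.1 hr.1 e

lemma cl_F (X : Gob D) : X.F.X.cl = (tw D.μ one).cl * X.X.cl := cl_tw _ _

lemma exists_sum_Fa [IsAlgClosed k] (X : Gob D) : ∃ S : Finset k, ∀ T : Finset k, S ⊆ T →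
    (tw D.μ one).cl * X.X.cl = ∑ a ∈ T, (X.Fa a).X.cl := by
  have hi := Module.End.independent_maxGenEigenspace X.x
  have hf := WellFoundedGT.finite_ne_bot_of_iSupIndep hi
  refine ⟨hf.toFinset, fun T hT => ?_⟩
  rw [← cl_F]
  refine cl_eq_sum X.F.X (fun a => Gen X.x a) _ hi T ?_
  rw [eq_top_iff, ← Module.End.iSup_maxGenEigenspace_eq_top X.x]
  refine iSup_le fun a => ?_
  by_cases h : Gen X.x a = ⊥
  · exact h.le.trans bot_le
  · exact le_iSup₂ (f := fun a (_ : a ∈ T) => Gen X.x a) a (hT (by simpa using h))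

end Gob

end Pool.Agent.Lib.MP_13b5a2_al
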