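import Pool.Agent.Lib.MP_13b5a2_al.GL

/-! Bubbles and weights. -/

universe u

namespace Pool.Agent.Lib.MP_13b5a2_al

open Module Filter Obj

variable {k : Type u} [Field k] {G : Type} [Group G] {ι : Type} [Fintype ι] [DecidableEq ι]

lemma ring_R2 {A : Type*} [Ring A] {S U1 U2 R1 R2 : A} (hS : S * S = 1)
    (h : U2 = S * U1 * S - S) (h1 : U1 * R1 = 1) (h2 : R2 * U2 = 1) :
    R2 * S = S * R1 + R2 * R1 := by
  have e : U2 * S * R1 = S - R1 := by
    rw [h, sub_mul, mul_assoc _ S S, hS, mul_one, sub_mul, mul_assoc, h1, mul_one, one_mul]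
  have e2 : S * R1 = R2 * S - R2 * R1 := by
    rw [← mul_sub, ← e, ← mul_assoc, ← mul_assoc, h2, one_mul]
  rw [e2, sub_add_cancel]

lemma nilp_R2 {A : Type*} [Ring A] [Algebra k A] {O R N n : A} {t f : k} (ht : t ≠ 0)
    (hs : 1 - (t ^ 2)⁻¹ ≠ 0) (hR : t • R = 1 + R * n) (hn : IsNilpotent n) (hN : IsNilpotent N)
    (cRn : Commute R n) (cOR : Commute O R) (cNO : Commute N O) (cNR : Commute N R)
    (h : O - R * O * R = f • 1 + N) : IsNilpotent (O - (f / (1 - (t ^ 2)⁻¹)) • 1) := by
  have h2 : IsNilpotent (R - t⁻¹ • 1) := by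
    have : R - t⁻¹ • 1 = t⁻¹ • (R * n) := by
      rw [← add_sub_cancel_left 1 (R * n), ← hR, smul_sub, smul_smul, inv_mul_cancel₀ ht, one_smul]
    rw [this]
    exact (cRn.isNilpotent_mul_left hn).smul _
  have c1 : ∀ {a : A}, Commute a R → ∀ s : k, Commute a (R - s • 1) := fun h s =>
    h.sub_right ((Commute.one_right _).smul_right _)
  have c2 : ∀ {a : A}, Commute a R → ∀ s : k, Commute a (R + s • 1) := fun h s =>
    h.add_right ((Commute.one_right _).smul_right _)
  have h3 : IsNilpotent (O * (R + t⁻¹ • 1) * (R - t⁻¹ • 1)) :=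
    ((c1 cOR _).mul_left (c1 (c2 (Commute.refl R) _).symm _)).isNilpotent_mul_left h2
  have h4 := (Commute.isNilpotent_add ((cNO.mul_right (c2 cNR _)).mul_right (c1 cNR _)) hN h3).smul
    (1 - (t ^ 2)⁻¹)⁻¹
  convert h4 using 1
  have e : N = O - O * R * R - f • 1 := by rw [cOR.eq, h]; abel
  have e2 : N + O * (R + t⁻¹ • 1) * (R - t⁻¹ • 1) = (1 - (t ^ 2)⁻¹) • O - f • 1 := by
    rw [e]
    simp only [mul_add, mul_sub, add_mul, mul_smul_comm, mul_one, smul_mul_assoc, smul_add,
      smul_smul, sub_smul, one_smul, ← pow_two, inv_pow]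
    abel
  rw [e2, smul_sub, smul_smul, inv_mul_cancel₀ hs, one_smul, smul_smul, div_eq_inv_mul]

namespace Gob

variable {D : Dat k G ι}

/-- The bubble. -/
noncomputable def O (X : Gob D) (u : k) : End k X.X.V := 1 + ptr (resolvent X.x u)

lemma IsMor.O {X Y : Gob D} {f : X.X.V →ₗ[k] Y.X.V} (hf : IsMor X Y f) {u : k} (hu : Good X.x u)
    (hu' : Good Y.x u) (v : X.X.V) : f (X.O u v) = Y.O u (f v) := by
  simp only [Gob.O, LinearMap.add_apply, Module.End.one_apply, map_add]
  rw [ptr_natural f (res_natural hu hu' _ hf.x)]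

lemma IsMor.E {X Y : Gob D} {f : X.X.V →ₗ[k] Y.X.V} (hf : IsMor X Y f) :
    IsMor X.E Y.E (f.compLeft ι) := hf.op.F.op

lemma isMor_cev (X : Gob D) : IsMor X X.F.E cev := by
  refine ⟨fun g v => ?_, fun a b v => ?_⟩
  · ext b a
    change cev (k := k) _ b a = twRep D.μ' (tw D.μ X.X) g _ b a
    simp only [twRep_apply, Finset.sum_apply, Pi.smul_apply, cev_apply, apply_ite (X.X.ρ g),
      map_zero, smul_ite, smul_zero, Finset.sum_ite_eq', Finset.mem_univ, if_true, smul_smul,
      ← Finset.sum_smul, D.sum_mul']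
    simp [eq_comm]
  · ext i j
    simp only [LinearMap.neg_apply, Pi.neg_apply, eF_apply, Pi.add_apply, ite_apply, cev_apply,
      Pi.zero_apply, apply_ite (X.e a b), map_zero]
    simp only [@eq_comm _ b i]
    split_ifs <;> simp

lemma isMor_evl (X : Gob D) : IsMor X.F.E X evl := by
  refine ⟨fun g w => ?_, fun a b w => ?_⟩
  · change evl (k := k) (twRep D.μ' (tw D.μ X.X) g w) = _
    simp only [evl_apply, twRep_apply, Finset.sum_apply, Pi.smul_apply, Finset.smul_sum,
      smul_smul, map_sum]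
    rw [Finset.sum_comm]
    refine Finset.sum_congr rfl fun c _ => ?_
    rw [Finset.sum_comm]
    simp only [← Finset.sum_smul, D.sum_mul]
    simp
  · simp only [evl_apply, LinearMap.neg_apply, Pi.neg_apply, eF_apply, Pi.add_apply, ite_apply,
      Pi.zero_apply, map_sum, neg_add, neg_neg, Finset.sum_add_distrib, Finset.sum_neg_distrib,
      Finset.sum_ite_eq', Finset.mem_univ, if_true]
    abel

lemma isMor_flp (X : Gob D) : IsMor X.E.F X.F.E flp := by
  refine ⟨isHom_flp _ _ _, fun a b w => ?_⟩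
  ext i j
  simp only [LinearMap.neg_apply, Pi.neg_apply, eF_apply, Pi.add_apply, ite_apply,
    Pi.zero_apply, flp_apply, neg_add, neg_neg]
  abel

lemma isMor_res (X : Gob D) {u : k} (hu : Good X.x u) : IsMor X.F X.F (resolvent X.x u) :=
  ⟨fun g v => (res_natural hu hu _ (fun w => (X.eqv g w).symm) v).symm,
    fun a b v => (res_natural hu hu _ (fun w => (X.isMor_x.2 a b w).symm) v).symm⟩

lemma bub_eq (X : Gob D) {u : k} (hu : Good X.x u) :
    bub (X.x.compLeft ι) cev evl u = X.O u := by
  ext v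
  rw [bub_apply, res_compLeft hu]
  simp only [Gob.O, LinearMap.add_apply, Module.End.one_apply, ptr_apply, evl_apply]
  rfl

lemma isMor_O (X : Gob D) {u : k} (hu : Good X.x u) : IsMor X X (X.O u) := by
  have h := X.isMor_evl.comp ((X.isMor_res hu).E.comp X.isMor_cev)
  rw [← X.bub_eq hu, bub, res_compLeft hu]
  exact ⟨IsHom.add (IsHom.id _) h.1, fun a b v => by
    have := h.2 a b v
    simp only [LinearMap.add_apply, Module.End.one_apply, map_add]
    rw [this]⟩

lemma isMor_O_sub (X : Gob D) {u : k} (hu : Good X.x u) (c : k) : IsMor X X (X.O u - c • 1) :=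
  ⟨fun g v => by simp [(X.isMor_O hu).1 g v], fun a b v => by simp [(X.isMor_O hu).2 a b v]⟩

lemma O_F (X : Gob D) {u : k} (h1 : Good X.x u) (h2 : Good X.F.x u) :
    X.F.O u - resolvent X.x u * X.F.O u * resolvent X.x u = (X.O u).compLeft ι := by
  have hS : (flp : End k (ι → ι → X.X.V)) * flp = 1 := rfl
  have e1 := ring_R2 (U1 := algebraMap k _ u - X.x.compLeft ι) hS (by
    change algebraMap k _ u - xop (eF X.e) = _
    rw [xop_eF_eq X.e, mul_sub, sub_mul, ← Algebra.commutes,
      mul_assoc _ flp flp, hS, mul_one]; abel) (good_compLeft h1).mul_res h2.res_mul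
  rw [res_compLeft h1] at e1
  have c : resolvent X.F.x u * (resolvent X.x u).compLeft ι =
      (resolvent X.x u).compLeft ι * resolvent X.F.x u :=
    LinearMap.ext fun w => (res_natural h2 h2 _ (X.isMor_res h1).x w).symm
  have e2 : resolvent X.F.x u = flp * (resolvent X.x u).compLeft ι * flp +
      (resolvent X.x u).compLeft ι * (resolvent X.F.x u * flp) := by
    rw [← mul_assoc, ← c, ← add_mul, ← e1, mul_assoc, hS, mul_one]
  have e3 := congrArg ptr e2
  rw [ptr_add, ptr_conj, ptr_left, e1, ptr_add, ptr_right, ptr_right, ptr_flp] at e3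
  have e4 : (X.O u).compLeft ι = 1 + (ptr (resolvent X.x u)).compLeft ι := rfl
  rw [e4, Gob.O]
  nth_rewrite 1 [e3]
  noncomm_ring

/-- Weights. -/
def HasWt (X : Gob D) (f : k → k) : Prop := ∀ᶠ u in cofinite, IsNilpotent (X.O u - f u • 1)

lemma HasWt.congr {X : Gob D} {f g : k → k} (h : X.HasWt f) (e : ∀ᶠ u in cofinite, f u = g u) :
    X.HasWt g := by
  filter_upwards [h, e] with u h e
  rwa [← e]

lemma isNilpotent_of_injective {V W : Type*} [AddCommGroup V] [Module k V] [AddCommGroup W]
    [Module k W] {T : End k V} {T' : End k W} (j : V →ₗ[k] W) (hj : Function.Injective j)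
    (h : ∀ v, j (T v) = T' (j v)) (hT : IsNilpotent T') : IsNilpotent T := by
  obtain ⟨N, hN⟩ := hT
  refine ⟨N, LinearMap.ext fun v => hj ?_⟩
  have := aeval_natural j h (Polynomial.X ^ N) v
  simpa [hN] using this

omit [Fintype ι] [DecidableEq ι] in
lemma isNilpotent_compLeft {V : Type*} [AddCommGroup V] [Module k V] {T : End k V}
    (hT : IsNilpotent T) : IsNilpotent (T.compLeft ι) := by
  obtain ⟨N, hN⟩ := hT
  refine ⟨N, LinearMap.ext fun v => funext fun i => ?_⟩
  have := aeval_natural (T := T.compLeft ι) (T' := T)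
    (LinearMap.proj (R := k) (φ := fun _ : ι => V) i) (fun _ => rfl) (Polynomial.X ^ N) v
  simpa [hN] using this

lemma eventually_one_sub_ne (a : k) : ∀ᶠ u in cofinite, u - a ≠ 0 ∧ 1 - ((u - a) ^ 2)⁻¹ ≠ 0 := by
  filter_upwards [eventually_cofinite_ne a, eventually_cofinite_ne (a + 1),
    eventually_cofinite_ne (a - 1)] with u h1 h2 h3
  refine ⟨sub_ne_zero.2 h1, fun h => ?_⟩
  rw [sub_eq_zero, eq_comm, inv_eq_one, sq_eq_one_iff] at h
  rcases h with h | h
  · exact h2 (by rw [← h]; ring)
  · exact h3 (by rw [sub_eq_add_neg a, ← h]; ring)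

lemma HasWt.Fa {X : Gob D} {f : k → k} (h : X.HasWt f) (a : k) :
    (X.Fa a).HasWt fun u => f u / (1 - ((u - a) ^ 2)⁻¹) := by
  let j := (Gen X.x a).subtype
  have hj : Function.Injective j := Subtype.val_injective
  let xr : End k (Gen X.x a) := X.x.restrict fun _ hv => Gen_natural _ (fun _ => rfl) hv
  filter_upwards [h, eventually_good X.x, eventually_good X.F.x, eventually_good (X.Fa a).x,
    eventually_good xr, eventually_one_sub_ne a] with u h g1 g2 g3 g4 hu
  have hm := (X.isMor_O_sub g1 (f u)).F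
  have hm' := (X.isMor_O_sub g1 (f u)).x
  let N : End k (Gen X.x a) := ((X.O u - f u • 1).compLeft ι).restrict
    fun _ hv => Gen_natural _ hm' hv
  have jR : ∀ v, j (resolvent xr u v) = resolvent X.x u (j v) :=
    res_natural g4 g1 j fun _ => rfl
  have jO : ∀ v, j ((X.Fa a).O u v) = X.F.O u (j v) := (isMor_subtype _ _ _ _).O g3 g2
  have jN : ∀ v, j (N v) = (X.O u - f u • 1).compLeft ι (j v) := fun _ => rfl
  refine nilp_R2 (R := resolvent xr u) (N := N) (n := xr - a • 1) hu.1 hu.2
    (LinearMap.ext fun v => res_step g4 a v) ?_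
    (isNilpotent_of_injective j hj jN (isNilpotent_compLeft h)) ?_ ?_ ?_ ?_ ?_
  · refine Module.End.isNilpotent_iff_of_finite.2 fun v => mem_Gen.1 ?_
    exact (mem_Gen_iff_of_injective (T := xr) j (fun _ => rfl) hj).1 v.2
  · exact LinearMap.ext fun v => (res_natural g4 g4 _ (fun w => by simp) v).symm
  · refine LinearMap.ext fun v => hj ?_
    simp only [Module.End.mul_apply, jR, jO]
    exact ((X.isMor_res g1).O g2 g2 _).symm
  · refine LinearMap.ext fun v => hj ?_
    simp only [Module.End.mul_apply, jN, jO]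
    exact hm.O g2 g2 _
  · refine LinearMap.ext fun v => hj ?_
    simp only [Module.End.mul_apply, jN, jR]
    exact res_natural g1 g1 _ hm' _
  · refine LinearMap.ext fun v => hj ?_
    have := LinearMap.congr_fun (X.O_F g1 g2) (j v)
    simp only [LinearMap.sub_apply, LinearMap.add_apply, Module.End.mul_apply, map_sub, map_add,
      jN, jR, jO] at this ⊢
    rw [this]
    ext i
    simp

/-- The second Casimir type operator. -/
abbrev yy (X : Gob D) : End k (ι → ι → X.X.V) := -X.F.op.x - (Fintype.card ι : k) • 1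

/-- The first operator. -/
abbrev xt (X : Gob D) : End k (ι → ι → X.X.V) := X.x.compLeft ι

/-- The perturbed first operator. -/
abbrev x' (X : Gob D) : End k (ι → ι → X.X.V) :=
  X.xt - (cev : X.X.V →ₗ[k] (ι → ι → X.X.V)) ∘ₗ evl

/-- The perturbed second operator. -/
abbrev y' (X : Gob D) : End k (ι → ι → X.X.V) :=
  X.yy - (cev : X.X.V →ₗ[k] (ι → ι → X.X.V)) ∘ₗ evl

lemma A_cev (X : Gob D) (v : X.X.V) : (X.xt - X.yy) (cev (k := k) v) = 0 := by
  ext b a
  simp only [LinearMap.sub_apply, LinearMap.neg_apply, Pi.sub_apply, Pi.neg_apply, xop_apply,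
    LinearMap.compLeft_apply, Function.comp_apply, eF_apply, Finset.sum_apply, Pi.add_apply,
    cev_apply, apply_ite (X.e _ _), map_zero, Finset.sum_ite_eq', Finset.sum_ite_eq,
    Finset.mem_univ, if_true, neg_add, Finset.sum_add_distrib, Finset.sum_neg_distrib,
    LinearMap.smul_apply, Module.End.one_apply, Pi.smul_apply, Pi.zero_apply, neg_neg]
  split_ifs <;> simp [Nat.cast_smul_eq_nsmul]

lemma evl_A (X : Gob D) (w : ι → ι → X.X.V) : evl (k := k) ((X.xt - X.yy) w) = 0 := by
  simp only [evl_apply, LinearMap.sub_apply, LinearMap.neg_apply, Pi.sub_apply, Pi.neg_apply,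
    xop_apply, LinearMap.compLeft_apply, Function.comp_apply, eF_apply, Finset.sum_apply,
    Pi.add_apply, if_true, neg_add, Finset.sum_add_distrib, Finset.sum_neg_distrib,
    LinearMap.smul_apply, Module.End.one_apply, Pi.smul_apply, neg_neg, Finset.sum_sub_distrib,
    ← Finset.smul_sum, Finset.sum_const, Finset.card_univ, Nat.cast_smul_eq_nsmul]
  rw [Finset.sum_comm]
  abel

lemma comm_xy (X : Gob D) : Commute X.xt X.yy :=
  Commute.sub_right (Commute.neg_right (LinearMap.ext X.isMor_x.op.x))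
    ((Commute.one_right _).smul_right _)

lemma x'_eq (X : Gob D) (w : ι → ι → X.X.V) :
    flp (k := k) (X.E.x w) = X.x' (flp (k := k) w) := by
  ext b a
  simp only [flp_apply, xop_apply, LinearMap.neg_apply, Finset.sum_apply, Pi.neg_apply, eF_apply,
    Pi.add_apply, LinearMap.sub_apply, Pi.sub_apply, LinearMap.compLeft_apply,
    Function.comp_apply, LinearMap.comp_apply, cev_apply, evl_apply, neg_add, neg_neg,
    Finset.sum_add_distrib, Finset.sum_neg_distrib, @eq_comm _ b a]
  split_ifs <;> simp [sub_eq_neg_add]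

lemma y'_eq (X : Gob D) (w : ι → ι → X.X.V) :
    flp (k := k) ((-X.op.x - (Fintype.card ι : k) • 1).compLeft ι w) =
      X.y' (flp (k := k) w) := by
  ext b a
  simp only [flp_apply, xop_apply, LinearMap.neg_apply, Finset.sum_apply, Pi.neg_apply, eF_apply,
    Pi.add_apply, LinearMap.sub_apply, Pi.sub_apply, LinearMap.compLeft_apply,
    Function.comp_apply, LinearMap.comp_apply, cev_apply, evl_apply, neg_add, neg_neg,
    Finset.sum_add_distrib, Finset.sum_neg_distrib, LinearMap.smul_apply, Module.End.one_apply,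
    Pi.smul_apply]
  split_ifs
  · abel1
  · simp

lemma comm_A_ce (X : Gob D) : 
    Commute (X.xt - X.yy) ((cev : X.X.V →ₗ[k] (ι → ι → X.X.V)) ∘ₗ evl) :=
  LinearMap.ext fun w => by
    simp only [Module.End.mul_apply, LinearMap.comp_apply]
    rw [A_cev, evl_A, map_zero]

lemma comm_xy' (X : Gob D) : Commute X.x' X.y' := by
  have h : Commute (X.xt - X.yy) X.x' :=
    ((Commute.refl _).sub_left X.comm_xy.symm).sub_right X.comm_A_ce
  have := (Commute.refl X.x').sub_right h.symm
  have e : X.x' - (X.xt - X.yy) = X.y' := by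
    rw [x', y']; abel
  rwa [e] at this

lemma eventually_O_mul (X : Gob D) :
    ∀ᶠ u in cofinite, X.O u * X.op.O (-u - Fintype.card ι) = 1 := by
  have hinj : Function.Injective fun v : k => -v - Fintype.card ι := fun x y hxy => by
    simpa using hxy
  filter_upwards [eventually_good X.x, eventually_good X.x',
    eventually_good X.y',
    hinj.tendsto_cofinite.eventually (eventually_good X.op.x)] with u g1 g2 g3 g4
  ext v
  let r : ι → ι → X.X.V := flp (k := k)
    fun a => -resolvent X.op.x (-u - Fintype.card ι) (Pi.single a v)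
  have h1 : u • r - X.y' r = cev (k := k) v := by
    rw [← y'_eq, ← map_smul, ← map_sub]
    ext b a
    have := congrFun (g4.apply_res (Pi.single a v)) b
    rw [flp_apply, cev_apply, if_congr eq_comm rfl rfl, ← Pi.single_apply, ← this]
    simp only [Pi.sub_apply, Pi.smul_apply, Pi.neg_apply, LinearMap.compLeft_apply,
      Function.comp_apply, LinearMap.sub_apply, LinearMap.neg_apply, map_neg,
      LinearMap.smul_apply, Module.End.one_apply, sub_smul, neg_smul, smul_neg]
    abel
  have cA : Commute (X.xt - X.yy) X.y' :=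
    (X.comm_xy.sub_left (Commute.refl _)).sub_right X.comm_A_ce
  have h2 : (X.xt - X.yy) r = 0 := by
    rw [← g3.res_eq h1, res_natural g3 g3 _ (LinearMap.congr_fun cA.eq), A_cev, map_zero]
  have h3 : resolvent X.x' u (cev (k := k) v) = r := by
    apply g2.res_eq
    rw [← h1]
    rw [LinearMap.sub_apply, sub_eq_zero] at h2
    simp only [LinearMap.sub_apply X.xt, LinearMap.sub_apply X.yy, h2]
  have h4 := e_res (good_compLeft g1) g2 (cev (k := k) v)
  have h5 := bub_apply (X.x.compLeft ι) cev evl u v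
  rw [h4, h3, X.bub_eq g1] at h5
  have h6 : X.op.O (-u - Fintype.card ι) v = v - evl (k := k) r := by
    simp [Gob.O, ptr_apply, evl_apply, r]
  rw [Module.End.mul_apply, h6, map_sub, h5]
  simp

lemma HasWt.op {X : Gob D} {f : k → k} (h : X.HasWt f) (h0 : ∀ᶠ u in cofinite, f u ≠ 0) :
    X.op.HasWt fun v => (f (-v - Fintype.card ι))⁻¹ := by
  have hinj : Function.Injective fun v : k => -v - Fintype.card ι := fun x y hxy => by
    simpa using hxy
  filter_upwards [hinj.tendsto_cofinite.eventually (h.and (h0.and X.eventually_O_mul))]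
    with v ⟨h1, h2, h3⟩
  have e : -(-v - (Fintype.card ι : k)) - Fintype.card ι = v := by ring
  rw [e] at h3
  have h4 := mul_eq_one_comm.1 h3
  have c : Commute (X.op.O v) (X.O (-v - Fintype.card ι)) := h4.trans h3.symm
  have h5 := ((c.sub_right ((Commute.one_right _).smul_right _)).isNilpotent_mul_left h1).smul
    (-(f (-v - Fintype.card ι))⁻¹)
  rw [mul_sub, h4, mul_smul_comm, mul_one, smul_sub, smul_smul, neg_mul, inv_mul_cancel₀ h2,
    neg_smul, neg_smul, one_smul, neg_sub_neg] at h5
  exact h5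

lemma HasWt.Ea {X : Gob D} {f : k → k} (h : X.HasWt f) (h0 : ∀ᶠ u in cofinite, f u ≠ 0) (b : k) :
    (X.Ea b).HasWt fun u => f u * (1 - ((u - b) ^ 2)⁻¹) := by
  have hinj : Function.Injective fun v : k => -v - Fintype.card ι := fun x y hxy => by
    simpa using hxy
  refine (((h.op h0).Fa (-b - Fintype.card ι)).op ?_).congr (Eventually.of_forall fun u => ?_)
  · filter_upwards [hinj.tendsto_cofinite.eventually h0,
      eventually_one_sub_ne (-b - (Fintype.card ι : k))] with v h1 h2
    exact div_ne_zero (inv_ne_zero h1) h2.2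
  · have e : -(-u - (Fintype.card ι : k)) - Fintype.card ι = u := by ring
    have e2 : (-u - (Fintype.card ι : k) - (-b - Fintype.card ι)) ^ 2 = (u - b) ^ 2 := by ring
    simp only [e, e2, inv_div, div_inv_eq_mul, mul_comm]

end Gob

end Pool.Agent.Lib.MP_13b5a2_al
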