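import Pool.Agent.Lib.MP_13b5a2_al.GL2

/-! Commutation relations between the eigenspace functors. -/

universe u

namespace Pool.Agent.Lib.MP_13b5a2_al

open Module Filter Obj

variable {k : Type u} [Field k] {G : Type} [Group G] {ι : Type} [Fintype ι] [DecidableEq ι]

lemma eq_zero_of_mem_Gen_zero {V : Type*} [AddCommGroup V] [Module k V] {a : k} (ha : a ≠ 0)
    {v : V} (h : v ∈ Gen (0 : End k V) a) : v = 0 := by
  obtain ⟨N, hN⟩ := mem_Gen.1 h
  rw [zero_sub, ← neg_smul, smul_pow, one_pow, LinearMap.smul_apply, Module.End.one_apply] at hN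
  exact (smul_eq_zero.1 hN).resolve_left (pow_ne_zero _ (neg_ne_zero.2 ha))

namespace Gob

variable {D : Dat k G ι}

/-- Embedding of the first composite. -/
noncomputable def j1 (X : Gob D) (a b : k) : ((X.Fa a).Ea b).X.V →ₗ[k] (ι → ι → X.X.V) :=
  (Gen X.x a).subtype.compLeft ι ∘ₗ (Gen (X.Fa a).op.x (-b - Fintype.card ι)).subtype

/-- Embedding of the second composite. -/
noncomputable def j2 (X : Gob D) (a b : k) : ((X.Ea b).Fa a).X.V →ₗ[k] (ι → ι → X.X.V) :=
  flp ∘ₗ (Gen X.op.x (-b - Fintype.card ι)).subtype.compLeft ι ∘ₗ (Gen (X.Ea b).x a).subtype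

lemma isMor_Fa (X : Gob D) (a : k) : IsMor (X.Fa a) X.F (Gen X.x a).subtype :=
  isMor_subtype _ _ _ _

lemma isMor_Ea (X : Gob D) (b : k) :
    IsMor (X.Ea b) X.E (Gen X.op.x (-b - Fintype.card ι)).subtype := (X.op.isMor_Fa _).op

lemma isMor_j1 (X : Gob D) (a b : k) : IsMor ((X.Fa a).Ea b) X.F.E (X.j1 a b) :=
  (X.isMor_Fa a).E.comp ((X.Fa a).isMor_Ea b)

lemma isMor_j2 (X : Gob D) (a b : k) : IsMor ((X.Ea b).Fa a) X.F.E (X.j2 a b) :=
  X.isMor_flp.comp ((X.isMor_Ea b).F.comp ((X.Ea b).isMor_Fa a))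

lemma j1_inj (X : Gob D) (a b : k) : Function.Injective (X.j1 a b) := fun _ _ e =>
  Subtype.ext (funext fun i => Subtype.ext (congrFun e i))

lemma j2_inj (X : Gob D) (a b : k) : Function.Injective (X.j2 a b) := fun _ _ e =>
  Subtype.ext (funext fun i => Subtype.ext (funext fun j => congrFun (congrFun e j) i))

lemma range_j1 (X : Gob D) (a b : k) :
    LinearMap.range (X.j1 a b) = Gen X.xt a ⊓ Gen (X.xt - X.yy) (a - b) := by
  rw [← Gen_inf_sub X.comm_xy, Gen_neg]
  exact range_lift (X.isMor_Fa a).op.x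

lemma range_j2 (X : Gob D) (a b : k) :
    LinearMap.range (X.j2 a b) = Gen X.x' a ⊓ Gen (X.xt - X.yy) (a - b) := by
  have e : X.xt - X.yy = X.x' - X.y' := by rw [x', y']; abel
  have hi : Function.Injective (flp : End k (ι → ι → X.X.V)) := fun v w h =>
    congrArg (flp (k := k)) h
  rw [e, ← Gen_inf_sub X.comm_xy', j2, LinearMap.range_comp, range_lift (X.isMor_Ea b).x]
  have key : ∀ w : ι → ι → X.X.V, w ∈ Gen (X.op.x.compLeft ι) (-b - Fintype.card ι) ⊓
      Gen X.E.x a ↔ flp (k := k) w ∈ Gen X.x' a ⊓ Gen X.y' b := fun w => by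
    rw [Submodule.mem_inf, Submodule.mem_inf, mem_Gen_iff_of_injective _ X.x'_eq hi,
      mem_Gen_iff_of_injective _ X.y'_eq hi, mem_Gen_compLeft, mem_Gen_compLeft, Gen_neg,
      and_comm]
  ext w
  constructor
  · rintro ⟨v, hv, rfl⟩
    exact (key v).1 hv
  · intro hw
    exact ⟨flp (k := k) w, (key _).2 hw, rfl⟩

lemma comm_A_x (X : Gob D) : Commute (X.xt - X.yy) X.xt :=
  (Commute.refl _).sub_left X.comm_xy.symm

lemma comm_A_x' (X : Gob D) : Commute (X.xt - X.yy) X.x' := X.comm_A_x.sub_right X.comm_A_ce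

theorem EF_ne (X : Gob D) {a b : k} (hab : a ≠ b) :
    ((X.Fa a).Ea b).X.cl = ((X.Ea b).Fa a).X.cl := by
  have key : ∀ {x : End k (ι → ι → X.X.V)}, Commute (X.xt - X.yy) x →
      ∀ (w : ι → ι → X.X.V) (j : ℕ), w ∈ Gen (X.xt - X.yy) (a - b) →
      evl (k := k) (((x - a • (1 : End k (ι → ι → X.X.V))) ^ j) w) = 0 := by
    intro x hx w j hw
    refine eq_zero_of_mem_Gen_zero (sub_ne_zero.2 hab) 
      (Gen_natural (T := X.xt - X.yy) (T' := 0) evl X.evl_A ?_)
    refine Gen_natural _ (fun v => ?_) hw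
    exact LinearMap.congr_fun
      ((hx.sub_right ((Commute.one_right _).smul_right _)).pow_right j).symm.eq v
  have hr : LinearMap.range (X.j1 a b) = LinearMap.range (X.j2 a b) := by
    rw [range_j1, range_j2]
    ext w
    refine ⟨fun hw => ⟨?_, hw.2⟩, fun hw => ⟨?_, hw.2⟩⟩
    · obtain ⟨N, hN⟩ := mem_Gen.1 hw.1
      exact mem_Gen.2 ⟨N, by rw [pow_eq_of_forall fun j => key X.comm_A_x w j hw.2, hN]⟩
    · obtain ⟨N, hN⟩ := mem_Gen.1 hw.1
      have := pow_eq_of_forall (c := -cev) (fun j => key X.comm_A_x' w j hw.2) N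
      rw [hN] at this
      refine mem_Gen.2 ⟨N, ?_⟩
      simpa using this
  obtain ⟨e, he⟩ := exists_equiv_of_range _ _ (X.j1_inj a b) (X.j2_inj a b) hr
  refine Iso.cl_eq ⟨e, fun g v => X.j2_inj a b ?_⟩
  rw [LinearEquiv.coe_coe, he, (X.isMor_j1 a b).1, (X.isMor_j2 a b).1, he]

lemma HasWt.pert {X : Gob D} {f : k → k} (h : X.HasWt f) :
    Pert X.xt cev evl f {u | Good X.x u ∧ IsNilpotent (X.O u - f u • 1)}
      fun u => ((X.O u - f u • 1).compLeft ι).compLeft ι where
  hU := (eventually_good X.x).and h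
  nilX u hu := by rw [X.bub_eq hu.1]; exact hu.2
  nilW u hu := isNilpotent_compLeft (isNilpotent_compLeft hu.2)
  comX u hu v hv := by
    rw [X.bub_eq hu.1, X.bub_eq hv.1]
    exact LinearMap.ext ((X.isMor_O hu.1).O hv.1 hv.1)
  comW u hu v hv := by
    have c : Commute (X.O u) (X.O v) := LinearMap.ext ((X.isMor_O hu.1).O hv.1 hv.1)
    have c2 : Commute (X.O u - f u • 1) (X.O v - f v • 1) :=
      (c.sub_right ((Commute.one_right _).smul_right _)).sub_left
        ((Commute.one_left _).smul_left _)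
    exact LinearMap.ext fun w => funext fun i => funext fun j => LinearMap.congr_fun c2.eq (w i j)
  νx u hu w := funext fun i => (X.isMor_O_sub hu.1 (f u)).x (w i)
  νc u hu v := by
    rw [X.bub_eq hu.1]
    ext i j
    simp only [LinearMap.compLeft_apply, Function.comp_apply, cev_apply]
    split_ifs
    · rfl
    · rw [map_zero]
  eν u hu w := by
    rw [X.bub_eq hu.1, evl_apply, evl_apply, map_sum]
    rfl

theorem EF_pos [Infinite k] {X : Gob D} {f : k → k} (h : X.HasWt f) {a : k} {m : ℕ}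
    (hf : Reg a fun u => (u - a) ^ m * f u) (hf' : Reg a fun u => ((u - a) ^ m * f u)⁻¹)
    (hf0 : ∀ᶠ u in cofinite, f u ≠ 0) :
    ((X.Fa a).Ea a).X.cl = ((X.Ea a).Fa a).X.cl + m * X.X.cl ∧
      (0 < m → Retract X ((X.Fa a).Ea a)) := by
  have hp := h.pert
  obtain ⟨Φ, hΦ⟩ := hp.bij hf hf' hf0
  have m2 : ∀ p, X.j2 a a p ∈ Gen X.x' a ⊓ Gen (X.xt - X.yy) (a - a) := fun p =>
    X.range_j2 a a ▸ LinearMap.mem_range_self _ p
  let i : ((X.Ea a).Fa a).X.V × (Fin m → X.X.V) →ₗ[k] (ι → ι → X.X.V) :=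
    phiMap X.xt cev a m ∘ₗ (X.j2 a a).prodMap LinearMap.id
  have hi : Function.Injective i := by
    rw [injective_iff_map_eq_zero]
    intro v hv
    have := hp.phi hf' hf0 (m2 v.1).1 hv
    exact Prod.ext (X.j2_inj a a (by rw [this.1]; simp)) this.2
  let T : End k ((ι → ι → X.X.V) × (Fin m → X.X.V)) := (X.xt - X.yy).prodMap 0
  have hT : ∀ v, phiMap X.xt cev a m (T v) = (X.xt - X.yy) (phiMap X.xt cev a m v) := fun v =>
    phiMap_natural a m (X.xt - X.yy) 0 (LinearMap.congr_fun X.comm_A_x.eq)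
      (fun v => by rw [A_cev]; simp) v.1 v.2
  have hT1 : ∀ (N : ℕ) v, ((T ^ N) v).1 = ((X.xt - X.yy) ^ N) v.1 := fun N v => by
    have := aeval_natural (T := T) (T' := X.xt - X.yy) (LinearMap.fst k _ _) (fun _ => rfl)
      (Polynomial.X ^ N) v
    simpa using this
  have hr : LinearMap.range i = LinearMap.range (X.j1 a a) := by
    rw [range_j1, sub_self]
    ext w
    constructor
    · rintro ⟨v, rfl⟩
      refine ⟨prj_mem _ _ _, Gen_natural _ hT ?_⟩
      obtain ⟨N, hN⟩ := mem_Gen.1 (m2 v.1).2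
      rw [sub_self, zero_smul, sub_zero] at hN
      refine mem_Gen.2 ⟨N + 1, ?_⟩
      rw [zero_smul, sub_zero]
      refine Prod.ext ?_ ?_
      · rw [hT1, pow_succ', Module.End.mul_apply]
        change (X.xt - X.yy) (((X.xt - X.yy) ^ N) (X.j2 a a v.1)) = 0
        rw [hN, map_zero]
      · rw [pow_succ']; rfl
    · rintro ⟨h1, h2⟩
      obtain ⟨v, hv⟩ := Φ.surjective ⟨w, h1⟩
      have hw : phiMap X.xt cev a m (v.1, v.2) = w := by rw [← hΦ, hv]
      obtain ⟨N, hN⟩ := mem_Gen.1 h2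
      rw [zero_smul, sub_zero] at hN
      have h3 := aeval_natural _ hT (Polynomial.X ^ N) (v.1, v.2)
      simp only [map_pow, Polynomial.aeval_X] at h3
      rw [hw, hN] at h3
      have h4 := (hp.phi hf' hf0 (w := ((T ^ N) (v.1, v.2)).1) (by
        rw [hT1]
        exact Gen_natural _ (LinearMap.congr_fun (X.comm_A_x'.pow_left N).eq) v.1.2) h3).1
      rw [hT1] at h4
      have h5 : (v.1 : ι → ι → X.X.V) ∈ LinearMap.range (X.j2 a a) := by
        rw [range_j2, sub_self]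
        exact ⟨v.1.2, mem_Gen.2 ⟨N, by rw [zero_smul, sub_zero]; exact h4⟩⟩
      obtain ⟨p, hp⟩ := h5
      exact ⟨(p, v.2), by rw [← hw, ← hp]; rfl⟩
  obtain ⟨Θ, hΘ⟩ := exists_equiv_of_range _ _ hi (X.j1_inj a a) hr
  have nat : ∀ (tW : End k (ι → ι → X.X.V)) (tX : End k X.X.V) (t1 : End k ((X.Fa a).Ea a).X.V)
      (t2 : End k ((X.Ea a).Fa a).X.V), (∀ w, X.xt (tW w) = tW (X.xt w)) →
      (∀ v, cev (k := k) (tX v) = tW (cev (k := k) v)) → (∀ v, X.j1 a a (t1 v) = tW (X.j1 a a v)) →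
      (∀ v, X.j2 a a (t2 v) = tW (X.j2 a a v)) →
      ∀ p ξ, Θ (t2 p, fun j => tX (ξ j)) = t1 (Θ (p, ξ)) := by
    intro tW tX t1 t2 h1 h2 h3 h4 p ξ
    apply X.j1_inj a a
    rw [h3, hΘ, hΘ]
    change phiMap X.xt cev a m (X.j2 a a (t2 p), fun j => tX (ξ j)) = _
    rw [h4]
    exact phiMap_natural a m tW tX (fun w => (h1 w).symm) (fun v => (h2 v).symm) _ _
  have natG := fun g => nat _ _ _ _ (X.isMor_x.E.1 g) (X.isMor_cev.1 g) ((X.isMor_j1 a a).1 g)
    ((X.isMor_j2 a a).1 g)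
  have natE := fun b c => nat _ _ _ _ (X.isMor_x.E.2 b c) (X.isMor_cev.2 b c)
    ((X.isMor_j1 a a).2 b c) ((X.isMor_j2 a a).2 b c)
  constructor
  · have : Iso (((X.Ea a).Fa a).X.sum (pw (Fin m) X.X)) ((X.Fa a).Ea a).X :=
      ⟨Θ, fun g v => natG g v.1 v.2⟩
    rw [← this.cl_eq, Cl.cl_sum, cl_pw, Nat.card_eq_fintype_card, Fintype.card_fin]
  · intro hm
    let z : Fin m := ⟨0, hm⟩
    have hs : ∀ (t : End k X.X.V) (v : X.X.V), (fun j => t ((Pi.single z v : Fin m → _) j)) =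
        Pi.single z (t v) := fun t v => compLeft_single t z v
    have hs2 : ∀ (tX : End k X.X.V) (t1 : End k ((X.Fa a).Ea a).X.V)
        (t2 : End k ((X.Ea a).Fa a).X.V), (∀ p ξ, Θ (t2 p, fun j => tX (ξ j)) = t1 (Θ (p, ξ))) →
        ∀ w, (Θ.symm (t1 w)).2 z = tX ((Θ.symm w).2 z) := fun tX t1 t2 H w => by
      obtain ⟨v, rfl⟩ := Θ.surjective w
      rw [← H v.1 v.2, Θ.symm_apply_apply, Θ.symm_apply_apply]
    refine ⟨Θ.toLinearMap ∘ₗ LinearMap.inr k _ _ ∘ₗ LinearMap.single k (fun _ => X.X.V) z,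
      LinearMap.proj z ∘ₗ LinearMap.snd k _ _ ∘ₗ Θ.symm.toLinearMap,
      ⟨fun g v => ?_, fun b c v => ?_⟩, ⟨fun g => hs2 _ _ _ (natG g),
        fun b c => hs2 _ _ _ (natE b c)⟩, fun v => by simp⟩
    · have := natG g 0 (Pi.single z v)
      rw [map_zero, hs] at this
      exact this
    · have := natE b c 0 (Pi.single z v)
      rw [map_zero, hs] at this
      exact this

theorem EF_neg [Infinite k] {X : Gob D} {f : k → k} (h : X.HasWt f) {a : k} {m : ℕ}
    (hf : Reg a fun u => ((u - a) ^ m)⁻¹ * f u) (hf' : Reg a fun u => (((u - a) ^ m)⁻¹ * f u)⁻¹)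
    (hf0 : ∀ᶠ u in cofinite, f u ≠ 0) :
    ((X.Ea a).Fa a).X.cl = ((X.Fa a).Ea a).X.cl + m * X.X.cl ∧
      (0 < m → Retract X ((X.Ea a).Fa a)) := by
  have hinj : Function.Injective fun v : k => -v - Fintype.card ι := fun x y hxy => by
    simpa using hxy
  have e1 : ∀ v : k, (v - (-a - Fintype.card ι)) ^ m =
      (-1) ^ m * (-v - Fintype.card ι - a) ^ m := fun v => by rw [← mul_pow]; congr 1; ring
  have h1 := EF_pos (h.op hf0) (a := -a - Fintype.card ι) (m := m)
    (((Reg.const ((-1) ^ m)).mul (hf'.comp_affine (Fintype.card ι))).congr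
      (Eventually.of_forall fun v => by simp only [e1, mul_inv, inv_inv]; ring))
    (((Reg.const (((-1) ^ m)⁻¹)).mul (hf.comp_affine (Fintype.card ι))).congr
      (Eventually.of_forall fun v => by simp only [e1, mul_inv, inv_inv]; ring))
    (by filter_upwards [hinj.tendsto_cofinite.eventually hf0] with v hv using inv_ne_zero hv)
  have e2 : -(-a - (Fintype.card ι : k)) - Fintype.card ι = a := by ring
  have e3 : (X.op.Fa (-a - Fintype.card ι)).Ea (-a - Fintype.card ι) = ((X.Ea a).Fa a).op := by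
    rw [Ea, e2]
  have e4 : X.op.Ea (-a - Fintype.card ι) = (X.Fa a).op := by
    rw [Ea, e2, op_op]
  rw [e3, e4] at h1
  refine ⟨h1.1, fun hm => ?_⟩
  have := (h1.2 hm).op
  rwa [op_op, op_op] at this

theorem dim_Fa [Infinite k] {X : Gob D} {f : k → k} (h : X.HasWt f) (h0 : (X.X.dim : k) = 0)
    (a : k) : ((X.Fa a).X.dim : k) = 0 := by
  let T : End k (End k (ι → X.X.V)) := LinearMap.mulLeft k X.x
  have e1 : prj T a 1 = prj X.x a := LinearMap.ext fun v =>
    prj_natural (T := T) (T' := X.x) (LinearMap.applyₗ v) (fun _ => rfl) a 1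
  obtain ⟨N, hN⟩ := mem_Gen.1 (prj_mem T a 1)
  have r1 : RegV a fun u => LinearMap.trace k _ (resolvent T u (prj T a 1)) := by
    refine ((RegV.const 0).sub
      ((regV_res_of_mem_Cmp (sub_prj_mem T a 1)).map (LinearMap.trace k _))).congr ?_
    filter_upwards [h, eventually_good T, eventually_good X.x] with u hu g1 g2
    have e2 : resolvent T u 1 = resolvent X.x u := LinearMap.ext fun v =>
      res_natural g1 g2 (LinearMap.applyₗ v) (fun _ => rfl) 1
    have e3 := (LinearMap.isNilpotent_trace_of_isNilpotent hu).eq_zero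
    rw [O, map_sub, map_add, map_smul, LinearMap.trace_one, trace_ptr] at e3
    change (X.X.dim : k) + _ - f u • (X.X.dim : k) = 0 at e3
    rw [h0, zero_add, smul_zero, sub_zero] at e3
    rw [map_sub, map_sub, e2, e3]; ring
  have h2 := polar_eq_zero _ N _ hN r1 0
  rw [pow_zero, Module.End.one_apply, e1, LinearMap.IsProj.trace (p := Gen X.x a)
    ⟨prj_mem _ _, fun _ hv => prj_of_mem hv⟩] at h2
  exact h2

/-- The unit object. -/
abbrev unit (D : Dat k G ι) : Gob D where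
  X := one
  e _ _ := 0
  rel _ _ _ _ _ := by simp
  eqv g φ := by ext a; simp [xop_apply, twRep_apply]

lemma unit_x : (unit D).x = 0 := by ext φ a; simp [xop_apply]

lemma hasWt_unit : (unit D).HasWt fun u => (u + Fintype.card ι) / u := by
  filter_upwards [eventually_cofinite_ne (0 : k), eventually_good (unit D).x] with u hu g
  have e : resolvent (unit D).x u = u⁻¹ • 1 := LinearMap.ext fun v => g.res_eq (by
    rw [unit_x]; simp [smul_smul, mul_inv_cancel₀ hu])
  have : (unit D).O u = ((u + Fintype.card ι) / u) • 1 := by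
    refine LinearMap.ext fun v => ?_
    simp only [O, e, LinearMap.add_apply, ptr_apply, Module.End.one_apply, LinearMap.smul_apply,
      Pi.smul_apply, Pi.single_eq_same, Finset.sum_const, Finset.card_univ, smul_eq_mul,
      nsmul_eq_mul]
    field_simp
  rw [this, sub_self]
  exact IsNilpotent.zero

lemma cl_Fa_unit_zero : ((unit D).Fa 0).X.cl = (tw D.μ one).cl := by
  refine cl_sub_top _ _ _ (eq_top_iff.2 fun v _ => mem_Gen.2 ⟨1, ?_⟩)
  rw [unit_x]; simp

end Gob

/-- The rational function with prescribed pole orders. -/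
noncomputable def fw (m : k →₀ ℤ) (u : k) : k := m.prod fun a n => (u - a) ^ (-n)

lemma eventually_notMem (S : Finset k) : ∀ᶠ u in cofinite, ∀ a ∈ S, u - a ≠ 0 := by
  filter_upwards [S.finite_toSet.compl_mem_cofinite] with u hu a ha h
  exact hu (by rw [sub_eq_zero.1 h]; exact ha)

lemma fw_add (m m' : k →₀ ℤ) : ∀ᶠ u in cofinite, fw (m + m') u = fw m u * fw m' u := by
  classical
  filter_upwards [eventually_notMem (m.support ∪ m'.support)] with u hu
  exact Finsupp.prod_add_index (by simp) fun a ha b c => by rw [neg_add, zpow_add₀ (hu a ha)]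

lemma fw_single (a : k) (n : ℤ) (u : k) : fw (Finsupp.single a n) u = (u - a) ^ (-n) :=
  Finsupp.prod_single_index (by simp)

lemma fw_ne_zero (m : k →₀ ℤ) : ∀ᶠ u in cofinite, fw m u ≠ 0 := by
  filter_upwards [eventually_notMem m.support] with u hu
  exact Finset.prod_ne_zero_iff.2 fun a ha => zpow_ne_zero _ (hu a ha)

lemma reg_fw (m : k →₀ ℤ) (a : k) : (Reg a fun u => (u - a) ^ (m a) * fw m u) ∧
    Reg a fun u => ((u - a) ^ (m a) * fw m u)⁻¹ := by
  classical
  have e : ∀ᶠ u in cofinite, fw (m.erase a) u = (u - a) ^ (m a) * fw m u := by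
    filter_upwards [fw_add (m.erase a) (Finsupp.single a (m a)), eventually_cofinite_ne a]
      with u hu ha
    rw [Finsupp.erase_add_single, fw_single] at hu
    rw [hu, mul_left_comm, ← zpow_add₀ (sub_ne_zero.2 ha)]; simp
  have hne : ∀ b ∈ (m.erase a).support, a ≠ b := fun b hb h => by
    subst h; simp at hb
  constructor
  · exact (Reg.prod _ fun b hb => Reg.zpow_sub (hne b hb) _).congr e
  · refine (Reg.prod _ fun b hb => Reg.zpow_sub (hne b hb) (m.erase a b)).congr ?_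
    filter_upwards [e] with u hu
    rw [← hu, fw, Finsupp.prod, ← Finset.prod_inv_distrib]
    simp

/-- The simple roots. -/
noncomputable def rt (a : k) : k →₀ ℤ :=
  Finsupp.single a 2 + Finsupp.single (a + 1) (-1) + Finsupp.single (a - 1) (-1)

lemma fw_rt (a : k) : ∀ᶠ u in cofinite, fw (rt a) u = 1 - ((u - a) ^ 2)⁻¹ := by
  filter_upwards [fw_add (Finsupp.single a 2 + Finsupp.single (a + 1) (-1))
    (Finsupp.single (a - 1) (-1)), fw_add (Finsupp.single a 2) (Finsupp.single (a + 1) (-1)),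
    eventually_cofinite_ne a] with u h1 h2 h3
  have := sub_ne_zero.2 h3
  rw [rt, h1, h2, fw_single, fw_single, fw_single]
  simp only [neg_neg, zpow_one, zpow_neg, zpow_ofNat]
  field_simp
  ring

namespace Gob

variable {D : Dat k G ι}

/-- Weights given by pole orders. -/
def Wt (X : Gob D) (m : k →₀ ℤ) : Prop := X.HasWt (fw m)

lemma Wt.Fa {X : Gob D} {m : k →₀ ℤ} (h : X.Wt m) (a : k) : (X.Fa a).Wt (m - rt a) := by
  refine (HasWt.Fa h a).congr ?_
  filter_upwards [fw_add (m - rt a) (rt a), fw_rt a, eventually_one_sub_ne a] with u h1 h2 h3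
  rw [sub_add_cancel, h2] at h1
  rw [h1, mul_div_cancel_right₀ _ h3.2]

lemma Wt.Ea {X : Gob D} {m : k →₀ ℤ} (h : X.Wt m) (a : k) : (X.Ea a).Wt (m + rt a) := by
  refine (HasWt.Ea h (fw_ne_zero m) a).congr ?_
  filter_upwards [fw_add m (rt a), fw_rt a] with u h1 h2
  rw [h1, h2]

lemma wt_unit : (unit D).Wt (Finsupp.single 0 1 + Finsupp.single (-(Fintype.card ι : k)) (-1)) := by
  refine hasWt_unit.congr ?_
  filter_upwards [fw_add (Finsupp.single 0 1) (Finsupp.single (-(Fintype.card ι : k)) (-1))]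
    with u h1
  rw [h1, fw_single, fw_single]
  simp [div_eq_inv_mul]

theorem Wt.EF_pos [Infinite k] {X : Gob D} {m : k →₀ ℤ} (h : X.Wt m) {a : k} {n : ℕ}
    (hn : m a = n) : ((X.Fa a).Ea a).X.cl = ((X.Ea a).Fa a).X.cl + n * X.X.cl ∧
      (0 < n → Retract X ((X.Fa a).Ea a)) := by
  have := reg_fw m a
  rw [hn] at this
  exact Gob.EF_pos h (by simpa using this.1) (by simpa using this.2) (fw_ne_zero m)

theorem Wt.EF_neg [Infinite k] {X : Gob D} {m : k →₀ ℤ} (h : X.Wt m) {a : k} {n : ℕ}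
    (hn : m a = -n) : ((X.Ea a).Fa a).X.cl = ((X.Fa a).Ea a).X.cl + n * X.X.cl ∧
      (0 < n → Retract X ((X.Ea a).Fa a)) := by
  have := reg_fw m a
  rw [hn] at this
  exact Gob.EF_neg h (by simpa using this.1) (by simpa using this.2) (fw_ne_zero m)

theorem Wt.dim_Fa [Infinite k] {X : Gob D} {m : k →₀ ℤ} (h : X.Wt m) (h0 : (X.X.dim : k) = 0)
    (a : k) : ((X.Fa a).X.dim : k) = 0 := Gob.dim_Fa h h0 a

theorem Wt.dim_Ea [Infinite k] {X : Gob D} {m : k →₀ ℤ} (h : X.Wt m) (h0 : (X.X.dim : k) = 0)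
    (a : k) : ((X.Ea a).X.dim : k) = 0 := Gob.dim_Fa (HasWt.op h (fw_ne_zero m)) h0 _

lemma exists_sum_Ea [IsAlgClosed k] (X : Gob D) : ∃ S : Finset k, ∀ T : Finset k, S ⊆ T →
    (tw D.μ' one).cl * X.X.cl = ∑ a ∈ T, (X.Ea a).X.cl := by
  classical
  obtain ⟨S, hS⟩ := X.op.exists_sum_Fa
  have hinj : Function.Injective fun v : k => -v - Fintype.card ι := fun x y hxy => by
    simpa using hxy
  refine ⟨S.image fun v => -v - Fintype.card ι, fun T hT => ?_⟩
  rw [hS (T.image fun v => -v - Fintype.card ι) fun a ha => Finset.mem_image.2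
    ⟨_, hT (Finset.mem_image_of_mem _ ha), by ring⟩, Finset.sum_image hinj.injOn]

end Gob

end Pool.Agent.Lib.MP_13b5a2_al
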