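import Pool.Agent.Lib.MP_13b5a2_al.Cyc
import Pool.Agent.Lib.MP_13b5a2_al.Core

/-! The number of nonprojective Jordan blocks of a shifted cyclic subgroup. -/

universe u

namespace Pool.Agent.Lib.MP_13b5a2_al

open Module LinearMap

variable {K : Type u} [Field K] {p : ℕ} [Fact p.Prime]

section lin

variable {V W : Type*} [AddCommGroup V] [Module K V] [FiniteDimensional K V]
  [AddCommGroup W] [Module K W] [FiniteDimensional K W]

lemma rel_ker_range {θ η : End K V} (h : θ * η = 0) :
    rel (ker θ) (range η) + finrank K (range θ) + finrank K (range η) = finrank K V := by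
  have h1 := rel_add (ker θ) (range η)
  rw [inf_eq_right.2 (range_le_ker_iff.2 h)] at h1
  have := θ.finrank_range_add_finrank_ker
  omega

lemma nu_eq {θ : End K V} (h : θ ^ p = 0) :
    nu p θ + 2 * finrank K (range θ) + 2 * finrank K (range (θ ^ (p - 1))) = 2 * finrank K V := by
  have hp := Nat.sub_add_cancel (Fact.out : p.Prime).pos
  have h1 := rel_ker_range (θ := θ) (η := θ ^ (p - 1)) (by rw [← pow_succ', hp, h])
  have h2 := rel_ker_range (θ := θ ^ (p - 1)) (η := θ) (by rw [← pow_succ, hp, h])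
  unfold nu nu2
  omega

omit [Fact p.Prime] in
lemma nu_conj (e : V ≃ₗ[K] W) {θ : End K V} {θ' : End K W} (h : ∀ v, e (θ v) = θ' (e v)) :
    nu p θ = nu p θ' := by
  have h' : ∀ (n : ℕ) v, e ((θ ^ n) v) = (θ' ^ n) (e v) := fun n => by
    induction n with
    | zero => simp
    | succ n ih => intro v; rw [pow_succ, pow_succ, End.mul_apply, End.mul_apply, ih, h]
  have hk : ∀ {a : End K V} {a' : End K W}, (∀ v, e (a v) = a' (e v)) →
      ∀ v, v ∈ ker a ↔ e v ∈ ker a' := fun h v => by simp [← h]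
  have hr : ∀ {a : End K V} {a' : End K W}, (∀ v, e (a v) = a' (e v)) →
      ∀ v, v ∈ range a ↔ e v ∈ range a' := fun h v =>
    ⟨fun ⟨w, hw⟩ => ⟨e w, by rw [← h, hw]⟩, fun ⟨w, hw⟩ => ⟨e.symm w, e.injective (by simp [h, hw])⟩⟩
  unfold nu nu2
  rw [rel_equiv e (hk h) (hr (h' _)), rel_equiv e (hk (h' _)) (hr h)]

omit [Fact p.Prime] in
lemma nu_prod (θ : End K V) (θ' : End K W) : nu p (θ.prodMap θ') = nu p θ + nu p θ' := by
  have : θ.prodMap θ' ^ (p - 1) = (θ ^ (p - 1)).prodMap (θ' ^ (p - 1)) :=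
    (map_pow (prodMapRingHom K V W) (θ, θ') _).symm
  unfold nu nu2
  rw [this, ker_prodMap, ker_prodMap, range_prodMap, range_prodMap,
    le_antisymm (rel_prod_le _ _ _ _) (le_rel_prod _ _ _ _),
    le_antisymm (rel_prod_le _ _ _ _) (le_rel_prod _ _ _ _)]
  ring

omit [Fact p.Prime] in
lemma nu_neg (θ : End K V) : nu p (-θ) = nu p θ := by
  unfold nu nu2
  rw [neg_pow]
  rcases neg_one_pow_eq_or (End K V) (p - 1) with h | h <;> simp [h]

lemma nu_dual {θ : End K V} (h : θ ^ p = 0) : nu p (θ.dualMap : End K (Dual K V)) = nu p θ := by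
  have h' : ∀ n : ℕ, (θ.dualMap : End K (Dual K V)) ^ n = (θ ^ n).dualMap := fun n => by
    induction n with
    | zero => rfl
    | succ n ih => rw [pow_succ, ih, pow_succ']; rfl
  have h1 := nu_eq h
  have h2 := nu_eq (θ := (θ.dualMap : End K (Dual K V))) (p := p) (by rw [h', h]; ext; simp)
  rw [h', finrank_range_dualMap_eq_finrank_range, finrank_range_dualMap_eq_finrank_range,
    Subspace.dual_finrank_eq] at h2
  omega

end lin

variable {G : Type} [CommGroup G]

/-- The invariant attached to an element of the group algebra. -/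
noncomputable def nuA (p : ℕ) (a : MonoidAlgebra K G) : Cl K G →+ ℕ where
  toFun := Cl.lift (fun X => nu p (X.ρ.asAlgebraHom a)) fun X Y ⟨e, he⟩ => nu_conj e fun v => by
    induction a using MonoidAlgebra.induction_on with
    | of g => simpa using he g v
    | add a b ha hb => simp only [map_add, LinearMap.add_apply, ha, hb]
    | smul c a ha => simp only [map_smul, LinearMap.smul_apply, ha]
  map_zero' := by
    change nu p _ = 0
    unfold nu nu2
    rw [rel_eq_zero_of_le fun v _ => by rw [Subsingleton.elim v 0]; exact zero_mem _,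
      rel_eq_zero_of_le fun v _ => by rw [Subsingleton.elim v 0]; exact zero_mem _]
  map_add' x y := by
    induction x using Cl.ind with | h X => ?_
    induction y using Cl.ind with | h Y => ?_
    change nu p ((X.sum Y).ρ.asAlgebraHom a) = nu p _ + nu p _
    rw [← nu_prod]
    congr 1
    induction a using MonoidAlgebra.induction_on with
    | of g => simp only [Representation.asAlgebraHom_of]; rfl
    | add a b ha hb => simp only [map_add, ha, hb, prodMap_add]
    | smul c a ha => simp only [map_smul, ha]; rfl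

lemma nuA_cl (a : MonoidAlgebra K G) (X : Obj K G) : nuA p a X.cl = nu p (X.ρ.asAlgebraHom a) := rfl

lemma nuA_le_dim {a : MonoidAlgebra K G} (h : a ^ p = 0) (x : Cl K G) : nuA p a x ≤ 2 * Cl.dim x := by
  induction x using Cl.ind with | h X => ?_
  have := nu_eq (θ := X.ρ.asAlgebraHom a) (p := p) (by rw [← map_pow, h, map_zero])
  rw [nuA_cl, Cl.dim_cl, Obj.dim]
  omega

variable [CharP K p]

instance charP_monoidAlgebra : CharP (MonoidAlgebra K G) p :=
  charP_of_injective_algebraMap (algebraMap K (MonoidAlgebra K G)).injective p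

/-- The augmentation elements. -/
noncomputable def xg (K : Type u) [Field K] (g : G) : MonoidAlgebra K G := MonoidAlgebra.of K G g - 1

lemma xg_pow {g : G} (h : g ^ p = 1) : xg K g ^ p = 0 := by
  rw [xg, sub_pow_char, ← map_pow, h, map_one, one_pow, sub_self]

omit [CharP K p] [Fact p.Prime] in
lemma rho_xg {V : Type*} [AddCommGroup V] [Module K V] (ρ : Representation K G V) (g : G) :
    ρ.asAlgebraHom (xg K g) = ρ g - 1 := by simp [xg]

lemma sum_smul_pow {I : Type*} (s : Finset I) (α : I → K) {x : I → MonoidAlgebra K G}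
    (h : ∀ i, x i ^ p = 0) : (∑ i ∈ s, α i • x i) ^ p = 0 := by
  rw [sum_pow_char]
  exact Finset.sum_eq_zero fun i _ => by rw [smul_pow, h, smul_zero]

variable {r : ℕ}

/-- The nilpotent generator of a shifted cyclic subgroup. -/
noncomputable def th (p : ℕ) [Fact p.Prime] (α : Fin r → K) : MonoidAlgebra K (EA r p) :=
  ∑ i, α i • xg K (gen p i)

lemma th_pow (α : Fin r → K) : th p α ^ p = 0 := sum_smul_pow _ _ fun _ => xg_pow (ea_pow _)

lemma isPGroup_ea : IsPGroup p (EA r p) := fun g => ⟨1, by rw [pow_one, ea_pow]⟩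

lemma nuA_reg {α : Fin r → K} {i : Fin r} (hi : α i ≠ 0) : nuA p (th p α) Obj.reg.cl = 0 := by
  let φ := (Obj.reg : Obj K (EA r p)).ρ.asAlgebraHom
  have hρ : ∀ j, φ (xg K (gen p j)) = tr K K (gen p j) - 1 := fun j => rho_xg _ _
  set x := xg K (gen p i)
  let n := ∑ j ∈ Finset.univ.erase i, α j • xg K (gen p j)
  have hn : n ^ p = 0 := sum_smul_pow _ _ fun _ => xg_pow (ea_pow _)
  have e1 : th p α = α i • x + n := (Finset.add_sum_erase _ _ (Finset.mem_univ i)).symm
  obtain ⟨q, hq⟩ : n ∣ th p α ^ (p - 1) - (α i • x) ^ (p - 1) := by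
    have := sub_dvd_pow_sub_pow (th p α) (α i • x) (p - 1)
    rwa [e1, add_sub_cancel_left, ← e1] at this
  have hc : ∀ T, Commute (lft i T) (φ n) := fun T => by
    simp only [n, map_sum, map_smul, hρ]
    exact Commute.sum_right _ _ _ fun j hj => (((commute_lft (Finset.ne_of_mem_erase hj).symm
      T).sub_right (Commute.one_right _)).smul_right _)
  let u := (α i)⁻¹ • hu K K (p := p) i
  let w := (α i ^ (p - 1))⁻¹ • hw K K (p := p) i
  have e2 : u * φ (th p α) + φ (th p α) ^ (p - 1) * w = 1 + φ n * (u + φ q * w) := by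
    have c1 : φ n * u = u * φ n := ((hc _).symm.smul_right _).eq
    rw [← map_pow, eq_add_of_sub_eq hq, ← ux_eq (p := p) (R := K) (N := K) i, ← hρ, mul_add (φ n), c1]
    conv_lhs => rw [e1]
    simp only [map_add, map_mul, map_smul, smul_pow, map_pow, mul_add, add_mul, u, w,
      smul_mul_assoc, mul_smul_comm, smul_smul, mul_inv_cancel₀ hi, inv_mul_cancel₀ hi,
      mul_inv_cancel₀ (pow_ne_zero (p - 1) hi), inv_mul_cancel₀ (pow_ne_zero (p - 1) hi),
      one_smul, mul_assoc, smul_add, x]
    abel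
  have hu : IsUnit (1 + φ n * (u + φ q * w)) := by
    refine IsNilpotent.isUnit_one_add (Commute.isNilpotent_mul_right ?_ ⟨p, by rw [← map_pow, hn, map_zero]⟩)
    exact ((hc _).symm.smul_right _).add_right (((Commute.all n q).map φ).mul_right
      ((hc _).symm.smul_right _))
  rw [← e2] at hu
  have h1 : finrank K (ker (φ (th p α))) ≤ finrank K (range (φ (th p α) ^ (p - 1))) := by
    rw [(Submodule.equivMapOfInjective _ ((End.isUnit_iff _).1 hu).1 _).finrank_eq]
    refine Submodule.finrank_mono ?_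
    rintro _ ⟨v, hv, rfl⟩
    exact ⟨w v, by simp [mem_ker.1 hv]⟩
  have h2 := nu_eq (θ := φ (th p α)) (p := p) (by rw [← map_pow, th_pow, map_zero])
  have h3 := (φ (th p α)).finrank_range_add_finrank_ker
  change nu p (φ (th p α)) = 0
  omega

lemma nuA_le_kap {α : Fin r → K} {i : Fin r} (hi : α i ≠ 0) (x : Cl K (EA r p)) :
    nuA p (th p α) x ≤ 2 * kap x := by
  obtain ⟨b, c, hb, -, hd⟩ := exists_core' isPGroup_ea x
  rw [← hd]
  conv_lhs => rw [hb, map_add, Obj.reg_mul, ← nsmul_eq_mul, map_nsmul, nuA_reg hi, smul_zero, add_zero]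
  exact nuA_le_dim (th_pow α) b

lemma nuA_one (α : Fin r → K) : nuA p (th p α) 1 = 2 := by
  have h : (Obj.one : Obj K (EA r p)).ρ.asAlgebraHom (th p α) = 0 := by
    simp only [th, map_sum, map_smul, rho_xg]
    exact Finset.sum_eq_zero fun i _ => by
      rw [show (Obj.one : Obj K (EA r p)).ρ (gen p i) = 1 from rfl, sub_self, smul_zero]
  have hp := (Fact.out : p.Prime).two_le
  have := nu_eq (θ := (0 : End K K)) (p := p) (zero_pow (by omega))
  rw [zero_pow (by omega), range_zero, finrank_bot, finrank_self] at this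
  change nu p ((Obj.one : Obj K (EA r p)).ρ.asAlgebraHom (th p α)) = 2
  rw [h]
  exact this

lemma nuA_dual (α : Fin r → K) (x : Cl K (EA r p)) :
    nuA p (th p α) (Cl.dual x) ≤ (16 * p) ^ r * nuA p (th p α) x := by
  induction x using Cl.ind with | h X => ?_
  let φ := X.ρ.asAlgebraHom
  have e1 : X.dual.ρ.asAlgebraHom (th p α) = (φ (∑ i, α i • xg K (gen p i)⁻¹)).dualMap := by
    simp only [φ, th, map_sum, map_smul, rho_xg]
    ext f v
    simp [LinearMap.sum_apply, Dual.transpose_apply]
  have e2 : ∑ i, α i • xg K (gen p i)⁻¹ =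
      -th p α + ∑ i, (-α i • xg K (gen p i)) * xg K (gen p i)⁻¹ := by
    rw [th, ← Finset.sum_neg_distrib, ← Finset.sum_add_distrib]
    refine Finset.sum_congr rfl fun i _ => ?_
    have : MonoidAlgebra.of K _ (gen p i) * MonoidAlgebra.of K _ (gen p i)⁻¹ = 1 := by
      rw [← map_mul, mul_inv_cancel, map_one]
    simp only [xg, Algebra.smul_def, map_neg]
    linear_combination (algebraMap K _ (α i)) * this
  have h0 : ∀ i : Fin r, xg K (gen p i)⁻¹ ^ p = 0 := fun i => xg_pow (ea_pow _)
  rw [Cl.dual_cl, nuA_cl, e1, nu_dual (by rw [← map_pow, sum_smul_pow _ _ h0, map_zero]), e2]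
  refine (nu_add_sum_le φ.toRingHom _ (by rw [neg_pow, th_pow, mul_zero])
    (fun i => by rw [smul_pow, xg_pow (ea_pow _), smul_zero]) h0).trans (le_of_eq ?_)
  rw [map_neg, nu_neg, Finset.card_univ, Fintype.card_fin]
  rfl

end Pool.Agent.Lib.MP_13b5a2_al
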