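import Pool.Agent.Lib.MP_13b5a2_al.Tower
import Pool.Agent.Lib.MP_13b5a2_al.Loc1

/-! The converse ghost lemma along the socle layers. -/

universe u

namespace Pool.Agent.Lib.MP_13b5a2_al

open Module Filter

variable {k R : Type u} [Field k] {r p : ℕ} [Fact p.Prime] [CharP k p]

lemma exists_chain : ∃ l : ℕ, ∀ X : Obj k (EA r p), ∃ U : ℕ → Submodule k X.V, U 0 = ⊥ ∧ U l = ⊤ ∧
    (∀ j g, ∀ y ∈ U j, X.ρ g y ∈ U j) ∧ ∀ j g, ∀ y ∈ U (j + 1), X.ρ g y - y ∈ U j := by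
  let J : Ideal (MonoidAlgebra k (EA r p)) := Ideal.span (Set.range (xg k))
  obtain ⟨l, hl⟩ := Ideal.exists_pow_le_of_le_radical_of_fg (I := J) (J := ⊥)
    (Ideal.span_le.2 (by rintro _ ⟨g, rfl⟩; exact ⟨p, xg_pow (ea_pow g)⟩))
    (Submodule.fg_span (Set.finite_range _))
  refine ⟨l, fun X => ⟨fun j => ⨅ a ∈ J ^ j, LinearMap.ker (X.ρ.asAlgebraHom a), ?_, ?_, ?_, ?_⟩⟩
  · refine eq_bot_iff.2 fun y hy => ?_
    simpa using (Submodule.mem_iInf _).1 ((Submodule.mem_iInf _).1 hy 1) (by simp)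
  · refine eq_top_iff.2 fun y _ => (Submodule.mem_iInf _).2 fun a => (Submodule.mem_iInf _).2
      fun ha => ?_
    rw [show a = 0 from hl ha]; simp
  · simp only [Submodule.mem_iInf, LinearMap.mem_ker]
    intro j g y hy a ha
    simpa using hy (a * MonoidAlgebra.of k _ g) (Ideal.mul_mem_right _ _ ha)
  · simp only [Submodule.mem_iInf, LinearMap.mem_ker]
    intro j g y hy a ha
    simpa [rho_xg] using hy (a * xg k g)
      (pow_succ J j ▸ Ideal.mul_mem_mul ha (Ideal.subset_span ⟨g, rfl⟩))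

lemma exists_pseudo {V W : Type*} [AddCommGroup V] [Module k V] [AddCommGroup W] [Module k W]
    (f : V →ₗ[k] W) : ∃ g : W →ₗ[k] V, ∀ v, f (g (f v)) = f v := by
  obtain ⟨s, hs⟩ := f.rangeRestrict.exists_rightInverse_of_surjective f.range_rangeRestrict
  obtain ⟨g, hg⟩ := s.exists_extend
  exact ⟨g, fun v => (congrArg f (LinearMap.congr_fun hg ⟨_, v, rfl⟩)).trans
    (congrArg Subtype.val (LinearMap.congr_fun hs ⟨_, v, rfl⟩))⟩

namespace Cx

variable [CommRing R] [Algebra k R] {Γ : Gr k R r} {D : Cx (EA r p) Γ}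
  {ι : Type} [Fintype ι] [DecidableEq ι] {μ μ' : EA r p →* Matrix ι ι k}

/-- Evaluation at a vector. -/
def pr (D : Cx (EA r p) Γ) (y : ι → k) : (ι → D.V) →ₗ[R] D.V := ∑ a, y a • LinearMap.proj a

omit [CharP k p] [DecidableEq ι] in
lemma pr_apply (y : ι → k) (w : ι → D.V) : pr D y w = ∑ a, y a • w a := by
  simp [pr, LinearMap.sum_apply]

omit [CharP k p] in
lemma pr_ρ (h : ∀ g, μ' g = (μ g⁻¹).transpose) (y : ι → k) (g : EA r p) (w : ι → D.V) :
    pr D y (twE μ' D.ρ g w) = D.ρ g (pr D ((Obj.tw μ Obj.one).ρ g⁻¹ y) w) := by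
  simp only [pr_apply, twE_apply, Obj.twRep_apply, h, map_sum, LinearMap.map_smul_of_tower,
    Finset.smul_sum, Finset.sum_smul, smul_smul, Matrix.transpose_apply, smul_eq_mul,
    Representation.trivial_apply, mul_comm (y _)]
  exact Finset.sum_comm

omit [CharP k p] in
lemma pr_δ (h : ∀ g, μ' g = (μ g⁻¹).transpose) {U : Submodule k (ι → k)}
    (hU : ∀ g, ∀ y ∈ U, (Obj.tw μ Obj.one).ρ g y ∈ U) {y : ι → k}
    (hy : ∀ g, (Obj.tw μ Obj.one).ρ g y - y ∈ U) {ψ : JJ r → ι → D.V}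
    (hψ : ∀ s, ∀ z ∈ U, pr D z (ψ s) = 0) :
    pr D y ∘ (D.tw μ').δp ψ = D.δp (pr D y ∘ ψ) ∧ pr D y ∘ (D.tw μ').δm ψ = D.δm (pr D y ∘ ψ) := by
  have h1 : ∀ s, pr D y (kF Γ.η (D.tw μ').ρ ψ s) = kF Γ.η D.ρ (pr D y ∘ ψ) s :=
    kF_gr (P := (⨅ z ∈ U, LinearMap.ker (pr D z)).toAddSubgroup) (fun g w hw => by
      simp only [Submodule.mem_toAddSubgroup, Submodule.mem_iInf, LinearMap.mem_ker] at hw ⊢
      intro z hz
      rw [pr_ρ h, hw _ (hU _ z hz), map_zero]) (fun _ => pr D y) (fun _ g w hw => by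
      simp only [Submodule.mem_toAddSubgroup, Submodule.mem_iInf, LinearMap.mem_ker] at hw
      have := hw _ (hy g⁻¹)
      simp only [pr_apply, Pi.sub_apply, sub_smul, Finset.sum_sub_distrib, sub_eq_zero] at this
      rw [pr_ρ h, pr_apply, pr_apply, this]) (fun _ _ _ => map_smul _ _ _) (fun s => by
      simpa using hψ s) 0
  have h2 : ∀ s, pr D y ((D.tw μ').d (ψ s)) = D.d (pr D y (ψ s)) := fun s => by
    simp [pr_apply]
  exact ⟨funext fun s => (map_add _ _ _).trans (congrArg₂ _ (h2 s) (h1 s)),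
    funext fun s => (map_sub _ _ _).trans (congrArg₂ _ (h2 s) (h1 s))⟩

/-- The adjoint of a map out of a twisted complex. -/
def adj {T : Cx (EA r p) Γ} (j : (T.tw μ).V →ₗ[R] D.V) : T.V →ₗ[R] (D.tw μ').V :=
  LinearMap.pi fun a => j ∘ₗ LinearMap.single R (fun _ => T.V) a

omit [CharP k p] in
lemma adj_ρ (h : ∀ g, μ' g = (μ g⁻¹).transpose) {T : Cx (EA r p) Γ} {j : (T.tw μ).V →ₗ[R] D.V}
    (hj : IsMor _ D 0 j) (g : EA r p) (v : T.V) : adj j (T.ρ g v) = (D.tw μ').ρ g (adj j v) := by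
  ext a
  change j (Pi.single a _) = twE μ' D.ρ g (fun b => j (Pi.single b v)) a
  simp only [twE_apply, ← hj.ρ, ← LinearMap.map_smul_of_tower j, ← map_sum]
  congr 1
  ext1 c
  have := congrFun₂ (show μ g * μ g⁻¹ = 1 by rw [← map_mul, mul_inv_cancel, map_one]) c a
  simp only [Finset.sum_apply, Pi.smul_apply, twE_apply, Pi.single_apply, h, apply_ite, map_zero,
    smul_zero, Finset.sum_ite_eq', Finset.sum_ite_eq, Finset.mem_univ, if_true, smul_smul,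
    ← Finset.sum_smul, Matrix.transpose_apply, mul_comm (μ g⁻¹ _ _)]
  rw [← Matrix.mul_apply, this, Matrix.one_apply]
  split_ifs <;> simp

omit [CharP k p] in
lemma adj_d {T : Cx (EA r p) Γ} {j : (T.tw μ).V →ₗ[R] D.V}
    (hj : IsMor _ D 0 j) (v : T.V) : adj j (T.d v) = (D.tw μ').d (adj j v) := by
  ext a
  change j (Pi.single a _) = D.d (j (Pi.single a v))
  rw [← hj.d]
  congr 1
  ext1 c
  change _ = T.d (Pi.single (M := fun _ => T.V) a v c)
  simp only [Pi.single_apply]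
  split_ifs <;> simp

variable [IsNoetherianRing R]

lemma δm_adj (h : ∀ g, μ' g = (μ g⁻¹).transpose) {j : ((TT p Γ).tw μ).V →ₗ[R] D.V}
    (hj : IsMor _ D 0 j) : (D.tw μ').δm (adj j ∘ es p Γ) = 0 :=
  δm_comp_es _ (adj_ρ h hj) (adj_d hj)

variable [IsDomain R] {𝒮 : Glob k (EA r p)} {σ : ℝ}

lemma ghost (h : ∀ g, μ' g = (μ g⁻¹).transpose) (h0 : 0 ≤ σ)
    (h2 : ∀ᶠ t in atTop, 𝒮.S ((TT p Γ).Z t).cl ≤ σ) {U : ℕ → Submodule k (ι → k)} (u0 : U 0 = ⊥)
    (u1 : ∀ j g, ∀ y ∈ U j, (Obj.tw μ Obj.one).ρ g y ∈ U j)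
    (u2 : ∀ j g, ∀ y ∈ U (j + 1), (Obj.tw μ Obj.one).ρ g y - y ∈ U j) (n : ℕ) :
    ∃ (D : Cx (EA r p) Γ) (j : ((TT p Γ).tw μ).V →ₗ[R] D.V),
      Good 𝒮 σ j (n * ((1 + c0 p Γ) ^ n * nn ((TT p Γ).tw μ)))
        ((1 + c0 p Γ) ^ n * nn ((TT p Γ).tw μ)) ∧ ∃ (f : R) (ψ : JJ r → ι → D.V), f ≠ 0 ∧
        ∀ s, ∀ y ∈ U n, pr D y ((f • (adj (μ' := μ') j ∘ es p Γ) - (D.tw μ').δp ψ) s) = 0 := by
  induction n with
  | zero =>
    refine ⟨_, LinearMap.id, ⟨IsMor.id, Function.injective_id, Eventually.of_forall fun t => ?_,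
      ?_, by simp⟩, 1, 0, one_ne_zero, fun s y hy => ?_⟩
    · obtain ⟨z, hz⟩ := cl_TT_top (p := p) (Γ := Γ) t
      rw [cl_tw_ob μ t (U := ⊤) (hU := inv_top _) (by simp [bU]), hz]
      simp [𝒮.reg]
    · exact Eventually.of_forall fun t c _ _ => ⟨c, 0, by simp⟩
    · rw [u0, Submodule.mem_bot] at hy
      rw [pr_apply, hy]; simp
  | succ n ih =>
    obtain ⟨D, j, hG, f, ψ, hf, hψ⟩ := ih
    obtain ⟨D', i, hi, hG', f', hf', h3⟩ := kill h0 h2 _ (LinearMap.ker D.δm) hG (fun _ h => h)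
      (fun t φ hφ => by
        rw [LinearMap.mem_ker, ← gH_δm,
          LinearMap.mem_ker.1 hφ, map_zero]) hG.nn
    obtain ⟨τ, hτ⟩ := exists_pseudo (D'.δp.restrictScalars k)
    set χ := f • (adj (μ' := μ') j ∘ es p Γ) - (D.tw μ').δp ψ with hχ
    let ψ' : JJ r → ι → D'.V := fun s a => τ (fun s' => f' • i (χ s' a)) s
    have e1 : ∀ y, pr D' y ∘ ψ' = τ (f' • (i ∘ pr D y ∘ χ)) := fun y => by
      have : f' • (i ∘ pr D y ∘ χ) = ∑ a, y a • fun s' => f' • i (χ s' a) := by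
        ext s
        simp [pr_apply, Finset.smul_sum, smul_comm f']
      ext s
      rw [this, map_sum]
      simp [pr_apply, ψ']
    refine ⟨D', i ∘ₗ j, hG'.mono h0 ?_ (le_of_eq (by ring)), f' * f,
      f' • (i.compLeft ι ∘ ψ) + ψ', mul_ne_zero hf' hf, fun s y hy => ?_⟩
    · rw [← add_one_mul]
      gcongr <;> omega
    have e2 : D.δm (pr D y ∘ χ) = 0 := by
      rw [← (pr_δ h (u1 n) (fun g => u2 n g y hy) hψ).2, hχ, map_sub, map_smul, δm_adj h hG.mor,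
        δm_δp]
      ext; simp
    obtain ⟨w, hw⟩ := h3 _ e2
    have e3 := (pr_δ (ψ := ψ') h (u1 n) (fun g => u2 n g y hy) fun s z hz => by
      refine (congrFun (e1 z) s).trans ?_
      rw [show pr D z ∘ χ = 0 from funext fun s => hψ s z hz]
      simp).1
    rw [e1, ← hw, show D'.δp (τ (D'.δp w)) = D'.δp w from hτ w, hw] at e3
    have e4 := congrFun (IsMor.δp (D := D.tw μ') (D' := D'.tw μ') (f := i.compLeft ι)
      (hi.tw μ' (f := i.restrictScalars k)) ψ) s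
    rw [map_add, map_smul, Pi.sub_apply, Pi.add_apply, map_sub, map_add, Pi.smul_apply f', ← e4]
    rw [show pr D' y ((D'.tw μ').δp ψ' s) = _ from congrFun e3 s]
    simp [hχ, pr_apply, adj, mul_smul, smul_sub, Finset.smul_sum, smul_comm f']

end Cx

end Pool.Agent.Lib.MP_13b5a2_al
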