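import Pool.Agent.Lib.MP_13b5a2_al.Ghost

/-! The bound obtained from the converse ghost lemma. -/

universe u

namespace Pool.Agent.Lib.MP_13b5a2_al

open Module Filter

namespace Cx

variable {k R : Type u} [Field k] {r p : ℕ} [Fact p.Prime] [CharP k p]
  [CommRing R] [Algebra k R] {Γ : Gr k R r} {D : Cx (EA r p) Γ}
  {ι : Type} [Fintype ι] [DecidableEq ι] {μ μ' : EA r p →* Matrix ι ι k}

/-- Multiplication on cocycles has negligible cokernel. -/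
def NC (𝒮 : Glob k (EA r p)) (C : Cx (EA r p) Γ) (t u : ℤ) (a : R) : Prop :=
  ∃ (X : Obj k (EA r p)) (q : (C.Z (t + u)).V →ₗ[k] X.V), Obj.IsHom _ X q ∧ Function.Surjective q ∧
    (∀ z, q z = 0 ↔ ∃ v ∈ C.hp t C.kd, a • v = z.1) ∧ 𝒮.S X.cl = 0

/-- Contraction. -/
def ctr {T : Cx (EA r p) Γ} (f : T.V →ₗ[R] (D.tw μ').V) : (T.tw μ).V →ₗ[R] D.V :=
  ∑ a, LinearMap.proj a ∘ₗ f ∘ₗ LinearMap.proj a

omit [CharP k p] in
lemma ctr_apply {T : Cx (EA r p) Γ} (f : T.V →ₗ[R] (D.tw μ').V) (F : (T.tw μ).V) :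
    ctr f F = ∑ a, f (F a) a := by simp [ctr, LinearMap.sum_apply]

omit [CharP k p] in
lemma ctr_ρ (h : ∀ g, μ' g = (μ g⁻¹).transpose) {T : Cx (EA r p) Γ} {f : T.V →ₗ[R] (D.tw μ').V}
    (hf : ∀ g v, f (T.ρ g v) = (D.tw μ').ρ g (f v)) (g : EA r p) (F : (T.tw μ).V) :
    ctr f ((T.tw μ).ρ g F) = D.ρ g (ctr f F) := by
  have : ∀ c b, ∑ a, μ g⁻¹ c a * μ g a b = if c = b then 1 else 0 := fun c b => by
    rw [← Matrix.mul_apply, ← map_mul, inv_mul_cancel, map_one, Matrix.one_apply]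
  rw [ctr_apply, ctr_apply]
  simp only [twE_apply, map_sum, LinearMap.map_smul_of_tower, hf, Finset.sum_apply,
    Pi.smul_apply, Finset.smul_sum, smul_smul, h, Matrix.transpose_apply, mul_comm (μ g _ _)]
  rw [Finset.sum_comm]
  refine Finset.sum_congr rfl fun b _ => ?_
  rw [Finset.sum_comm]
  simp [← Finset.sum_smul, this]

omit [CharP k p] in
lemma retract_bound [IsDomain R] {𝒮 : Glob k (EA r p)} {σ : ℝ} {C : Cx (EA r p) Γ}
    {j : C.V →ₗ[R] D.V} {x y : ℕ} (hG : Good 𝒮 σ j x y) (H : C.V →ₗ[R] D.V)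
    (hH : ∀ g v, H (C.ρ g v) = D.ρ g (H v)) {f : R} (hf : f ≠ 0)
    (e2 : ∀ F, C.d F = 0 → D.d (H F) = f • j F)
    (tf : ∀ a : R, a ≠ 0 → Function.Injective fun v : C.V => a • v)
    (hNC : ∀ u a, Γ.π u a = a → a ≠ 0 → ∀ᶠ t in atTop, NC 𝒮 C t u a) :
    ∀ᶠ t in atTop, 𝒮.S (C.Z t).cl ≤ x * σ := by
  obtain ⟨u, hu⟩ := not_forall.1 fun e => hf (Γ.ext f e)
  obtain ⟨j', hj'⟩ := (j.restrictScalars k).exists_leftInverse_of_injective
    (LinearMap.ker_eq_bot.2 hG.inj)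
  replace hj' : ∀ v, j' (j v) = v := LinearMap.congr_fun hj'
  filter_upwards [hNC u _ (Γ.idem u f) hu, shift_ev hG.bd (u - 1)] with t ⟨X, q, q1, q2, q3, q4⟩ e3
  have e4 : ∀ v ∈ C.hp t (kd _), D.d (D.g.π (t + (u - 1)) (H v)) =
      j (Γ.π u f • v) := fun v hv => by
    rw [← D.πd, e2 v hv.2, show t + (u - 1) + 1 = u + t by ring,
      D.πR _ _ _ _ ((hG.mor.π0 t v).trans (congrArg j hv.1)), map_smul]
  have e5 : ∀ v ∈ C.hp t (kd _), (D.g.π (t + (u - 1)) ∘ₗ H.restrictScalars k) v ∈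
      D.hp (t + (u - 1)) (bU j) := fun v hv => ⟨D.g.idem _ _, _, (e4 v hv).symm⟩
  have e6 : ∀ v ∈ D.hp (t + (u - 1)) (bU j), (j' ∘ₗ D.d.restrictScalars k) v ∈
      C.hp (t + u) (kd _) := fun v ⟨hv, c, hc⟩ => by
    change j' (D.d v) ∈ _
    rw [← hc, hj']
    refine ⟨hG.inj ?_, hG.inj ?_⟩
    · rw [← hG.mor.π0, show t + u = t + (u - 1) + 1 by ring, hc, D.πd, hv]
      exact hc.symm
    · rw [hG.mor.d, hc, D.dd, map_zero]
  have e7 : ∀ v : (C.Z t).V, ((LinearMap.restrict _ e6 ∘ₗ LinearMap.restrict _ e5) v).1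
      = Γ.π u f • v.1 := fun v => (congrArg j' (e4 v v.2)).trans (hj' _)
  refine (𝒮.retract (isHom_restrict e5 fun a v _ => ?_) (isHom_restrict e6 fun a v hv => ?_) q1
    (fun v w e => Subtype.ext (tf _ hu ?_)) (fun z => (q3 z).trans ?_) q2
    q4).trans e3
  · exact (congrArg _ (hH a v)).trans (D.ρπ _ _ _)
  · obtain ⟨-, c, hc⟩ := hv
    change j' (D.d _) = C.ρ a (j' (D.d v))
    rw [D.ρd, ← hc, ← hG.mor.ρ, hj', hj']
  · exact (e7 v).symm.trans ((congrArg Subtype.val e).trans (e7 w))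
  · exact ⟨fun ⟨v, hv, e⟩ => ⟨⟨v, hv⟩, Subtype.ext ((e7 _).trans e)⟩,
      fun ⟨v, e⟩ => ⟨v, v.2, (e7 v).symm.trans (congrArg Subtype.val e)⟩⟩

variable [IsNoetherianRing R] [IsDomain R] {𝒮 : Glob k (EA r p)} {σ : ℝ}

lemma tower_bound (h : ∀ g, μ' g = (μ g⁻¹).transpose) (h0 : 0 ≤ σ)
    (h2 : ∀ᶠ t in atTop, 𝒮.S ((TT p Γ).Z t).cl ≤ σ) {U : ℕ → Submodule k (ι → k)} (u0 : U 0 = ⊥)
    (u1 : ∀ j g, ∀ y ∈ U j, (Obj.tw μ Obj.one).ρ g y ∈ U j)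
    (u2 : ∀ j g, ∀ y ∈ U (j + 1), (Obj.tw μ Obj.one).ρ g y - y ∈ U j) {n : ℕ} (u3 : U n = ⊤)
    (hNC : ∀ u a, Γ.π u a = a → a ≠ 0 → ∀ᶠ t in atTop, NC 𝒮 ((TT p Γ).tw μ) t u a) :
    ∀ᶠ t in atTop, 𝒮.S (((TT p Γ).tw μ).Z t).cl ≤
      (n * ((1 + c0 p Γ) ^ n * nn ((TT p Γ).tw μ)) : ℕ) * σ := by
  obtain ⟨D, j, hG, f, ψ, hf, hψ⟩ := ghost h h0 h2 u0 u1 u2 n
  have e1 : (D.tw μ').δp ψ = f • (adj (μ' := μ') j ∘ es p Γ) := by
    ext s a
    have := hψ s (Pi.single a 1) (u3 ▸ trivial)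
    rw [pr_apply, Finset.sum_eq_single a (fun b _ hb => by simp [hb]) (by simp)] at this
    exact (sub_eq_zero.1 (by simpa using this)).symm
  let H : ((TT p Γ).tw μ).V →ₗ[R] D.V := ctr (ev (D := D.tw μ') ψ)
  have e2 : ∀ F, ((TT p Γ).tw μ).d F = 0 → D.d (H F) = f • j F := fun F hF => by
    have e3 : ∀ a, D.d (ev (D := D.tw μ') ψ (F a) a) = f • j (Pi.single a (F a)) := fun a => by
      have := ev_δp (D := D.tw μ') ψ (F a)
      rw [e1, ev_smul, ev_comp _ (adj_ρ h hG.mor), ev_self,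
        show (TT p Γ).d (F a) = 0 from congrFun hF a, map_zero, add_zero] at this
      exact (congrFun this a).symm
    rw [ctr_apply, map_sum, Finset.sum_congr rfl fun a _ => e3 a, ← Finset.smul_sum, ← map_sum,
      Finset.univ_sum_single]
  refine retract_bound hG H (ctr_ρ h (ev_ρ (D := D.tw μ') ψ)) hf e2 (fun a ha => ?_) hNC
  exact smul_right_injective (ι → JJ r → EA r p → R) ha

end Cx

end Pool.Agent.Lib.MP_13b5a2_al
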