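import Mathlib

/-! Gradings given by projections. -/

universe u

namespace Pool.Agent.Lib.MP_13b5a2_al

open Filter

/-- A grading with finite dimensional pieces. -/
structure Gm (k V : Type*) [Field k] [AddCommGroup V] [Module k V] where
  π : ℤ → V →ₗ[k] V
  ππ : ∀ t u v, π t (π u v) = if t = u then π u v else 0
  bdd : ∀ v, {t | π t v ≠ 0}.Finite
  ext : ∀ v, (∀ t, π t v = 0) → v = 0
  fin : ∀ t, (LinearMap.eqLocus (π t) LinearMap.id).FG

namespace Gm

variable {k V W : Type*} [Field k] [AddCommGroup V] [Module k V] [AddCommGroup W] [Module k W]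
  (g : Gm k V)

lemma idem (t : ℤ) (v : V) : g.π t (g.π t v) = g.π t v := by rw [g.ππ, if_pos rfl]

lemma of_ne {t u : ℤ} {v : V} (h : g.π u v = v) (e : t ≠ u) : g.π t v = 0 := by
  rw [← h, g.ππ, if_neg e]

lemma sum (v : V) : ∑ t ∈ (g.bdd v).toFinset, g.π t v = v := by
  symm
  refine sub_eq_zero.1 (g.ext _ fun t => ?_)
  simp only [map_sub, map_sum, g.ππ, Finset.sum_ite_eq, Set.Finite.mem_toFinset, Set.mem_setOf_eq]
  split_ifs with h
  · exact sub_self _
  · simpa using h

lemma mem {S : Type*} [SetLike S V] [AddSubmonoidClass S V] {U : S} {v : V}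
    (h : ∀ t, g.π t v ∈ U) : v ∈ U := g.sum v ▸ sum_mem fun t _ => h t

lemma ev_zero (v : V) : ∀ᶠ t in atTop, g.π t v = 0 := by
  obtain ⟨b, hb⟩ := (g.bdd v).bddAbove
  filter_upwards [eventually_gt_atTop b] with t ht
  by_contra h
  exact (hb h).not_gt ht

/-- Shifted grading. -/
def shift (m : ℤ) : Gm k V where
  π t := g.π (t + m)
  ππ t u v := by simp only [g.ππ, add_left_inj]
  bdd v := (g.bdd v).preimage (add_left_injective m).injOn
  ext v h := g.ext v fun t => by simpa using h (t - m)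
  fin t := g.fin _

/-- Finite products of gradings. -/
def pi {I : Type*} [Finite I] (g : I → Gm k V) : Gm k (I → V) where
  π t := LinearMap.pi fun i => (g i).π t ∘ₗ LinearMap.proj i
  ππ t u v := funext fun i => by
    change (g i).π t ((g i).π u (v i)) = _
    rw [(g i).ππ]; split_ifs <;> rfl
  bdd v := (Set.finite_iUnion fun i => (g i).bdd (v i)).subset fun t ht => by
    by_contra h
    exact ht (funext fun i => by_contra fun e => h (Set.mem_iUnion.2 ⟨i, e⟩))
  ext v h := funext fun i => (g i).ext _ fun t => congrFun (h t) i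
  fin t := by
    refine Eq.mpr (congrArg Submodule.FG ?_) (Submodule.fg_pi fun i => (g i).fin t)
    ext v
    simp [funext_iff]

lemma pi_π {I : Type*} [Finite I] (g : I → Gm k V) (t : ℤ) (v : I → V) (i : I) :
    (pi g).π t v i = (g i).π t (v i) := rfl

/-- Binary products of gradings. -/
def prod (g' : Gm k W) : Gm k (V × W) where
  π t := (g.π t).prodMap (g'.π t)
  ππ t u v := by
    change (g.π t (g.π u v.1), g'.π t (g'.π u v.2)) = _
    rw [g.ππ, g'.ππ]; split_ifs <;> rfl
  bdd v := ((g.bdd v.1).union (g'.bdd v.2)).subset fun t ht => by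
    by_contra h
    simp only [Set.mem_union, Set.mem_setOf_eq, not_or, not_not] at h
    exact ht (Prod.ext h.1 h.2)
  ext v h := Prod.ext (g.ext _ fun t => congrArg Prod.fst (h t))
    (g'.ext _ fun t => congrArg Prod.snd (h t))
  fin t := by
    refine Eq.mpr (congrArg Submodule.FG ?_) ((g.fin t).prod (g'.fin t))
    ext v
    simp [Prod.ext_iff]

variable (q : V →ₗ[k] W) (hq : Function.Surjective q) (h : ∀ t v, q v = 0 → q (g.π t v) = 0)

/-- The projections on a quotient. -/
noncomputable def qπ (t : ℤ) : W →ₗ[k] W :=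
  (LinearMap.ker q).liftQ (q ∘ₗ g.π t) (h t) ∘ₗ (q.quotKerEquivOfSurjective hq).symm.toLinearMap

lemma qπ_apply (t : ℤ) (v : V) : g.qπ q hq h t (q v) = q (g.π t v) := by
  have : (q.quotKerEquivOfSurjective hq).symm (q v) = Submodule.Quotient.mk v := by
    rw [LinearEquiv.symm_apply_eq]; rfl
  simp [qπ, this]

/-- Quotient grading. -/
noncomputable def quot : Gm k W where
  π := g.qπ q hq h
  ππ t u w := by
    obtain ⟨v, rfl⟩ := hq w
    simp only [qπ_apply, g.ππ]; split_ifs <;> simp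
  bdd w := by
    obtain ⟨v, rfl⟩ := hq w
    exact (g.bdd v).subset fun t ht e => ht (by rw [qπ_apply, e, map_zero])
  ext w e := by
    obtain ⟨v, rfl⟩ := hq w
    exact g.mem (U := LinearMap.ker q) fun t => (g.qπ_apply q hq h t v).symm.trans (e t)
  fin t := by
    convert (g.fin t).map q
    ext w
    obtain ⟨v, rfl⟩ := hq w
    refine ⟨fun e => ⟨g.π t v, g.idem t v, (g.qπ_apply q hq h t v).symm.trans e⟩, ?_⟩
    rintro ⟨x, hx, e⟩
    rw [← e]
    exact (g.qπ_apply q hq h t x).trans (congrArg q hx)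

end Gm

/-- A graded algebra generated by elements of degree two. -/
structure Gr (k R : Type u) [Field k] [CommRing R] [Algebra k R] (r : ℕ) extends Gm k R where
  η : Fin r → R
  mul : ∀ t u a b, π u b = b → π (t + u) (a * b) = π t a * b
  one : π 0 1 = 1
  πη : ∀ i, π 2 (η i) = η i
  gen : ∀ a, ∃ (c : k) (b : Fin r → R), a = c • 1 + ∑ i, η i * b i

namespace Gr

variable {k R : Type u} [Field k] [CommRing R] [Algebra k R] {r : ℕ} (Γ : Gr k R r)

/-- Homogeneous ideals. -/
def Hom (I : Ideal R) : Prop := ∀ t a, a ∈ I → Γ.π t a ∈ I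

variable {Γ} {I : Ideal R}

lemma mul' {u : ℤ} {a : R} (h : Γ.π u a = a) (t : ℤ) (b : R) : Γ.π (t + u) (a * b) = a * Γ.π t b := by
  rw [mul_comm, Γ.mul _ _ _ _ h, mul_comm]

lemma Hom.colon (h : Γ.Hom I) {u : ℤ} {a : R} (ha : Γ.π u a = a) : Γ.Hom (I.colon {a}) := by
  intro t b hb
  rw [Submodule.mem_colon_singleton, smul_eq_mul] at hb ⊢
  rw [← Γ.mul _ _ _ _ ha]
  exact h _ _ hb

lemma Hom.sup (h : Γ.Hom I) {u : ℤ} {a : R} (ha : Γ.π u a = a) : Γ.Hom (I ⊔ Ideal.span {a}) := by
  intro t b hb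
  obtain ⟨x, hx, y, hy, rfl⟩ := Submodule.mem_sup.1 hb
  obtain ⟨c, rfl⟩ := Ideal.mem_span_singleton'.1 hy
  rw [map_add, ← sub_add_cancel t u, Γ.mul _ _ _ _ ha]
  exact Submodule.add_mem_sup (h _ _ hx) (Ideal.mul_mem_left _ _ (Ideal.mem_span_singleton_self a))

lemma Hom.isPrime (h : Γ.Hom I) (h1 : I ≠ ⊤) (h2 : ∀ t u a b, Γ.π t a = a → Γ.π u b = b →
    a * b ∈ I → a ∈ I ∨ b ∈ I) : I.IsPrime := by
  have key : ∀ a ∉ I, ∃ t, Γ.π t a ∉ I ∧ ∀ u, t < u → Γ.π u a ∈ I := fun a ha => by
    obtain ⟨t, ht, ht'⟩ := Set.exists_max_image {t | Γ.π t a ∉ I} id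
      ((Γ.bdd a).subset fun t ht e => ht (e ▸ I.zero_mem)) (by
        by_contra e
        exact ha (Γ.mem fun t => by_contra fun e' => e ⟨t, e'⟩))
    exact ⟨t, ht, fun u hu => by_contra fun e => (ht' u e).not_gt hu⟩
  refine ⟨h1, fun {a b} hab => ?_⟩
  by_contra! ⟨ha, hb⟩
  obtain ⟨t, h3, h4⟩ := key a ha
  obtain ⟨u, h5, h6⟩ := key b hb
  refine (h2 t u _ _ (Γ.idem _ _) (Γ.idem _ _) ?_).elim h3 h5
  have e := h (t + u) _ hab
  have hu : u ∈ (Γ.bdd b).toFinset := by
    rw [Set.Finite.mem_toFinset]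
    exact fun e => h5 (by rw [e]; exact I.zero_mem)
  rw [← Γ.sum b, Finset.mul_sum, map_sum, ← Finset.add_sum_erase _ _ hu,
    Γ.mul _ _ _ _ (Γ.idem _ _)] at e
  refine (Submodule.add_mem_iff_left _ (Submodule.sum_mem _ fun j hj => ?_)).1 e
  rw [← sub_add_cancel (t + u) j, Γ.mul _ _ _ _ (Γ.idem _ _)]
  rcases lt_or_gt_of_ne (Finset.ne_of_mem_erase hj) with e | e
  · exact I.mul_mem_right _ (h4 _ (by omega))
  · exact I.mul_mem_left _ (h6 _ e)

/-- The grading on a quotient by a homogeneous ideal. -/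
noncomputable def quotGm (h : Γ.Hom I) : Gm k (R ⧸ I) :=
  Γ.toGm.quot (Ideal.Quotient.mkₐ k I).toLinearMap Ideal.Quotient.mk_surjective
    fun t v hv => Ideal.Quotient.eq_zero_iff_mem.2 (h t v (Ideal.Quotient.eq_zero_iff_mem.1 hv))

lemma quotGm_π (h : Γ.Hom I) (t : ℤ) (a : R) :
    (quotGm h).π t (Ideal.Quotient.mk I a) = Ideal.Quotient.mk I (Γ.π t a) :=
  Γ.toGm.qπ_apply (Ideal.Quotient.mkₐ k I).toLinearMap Ideal.Quotient.mk_surjective _ t a

/-- The graded quotient algebra. -/
noncomputable def quot (h : Γ.Hom I) : Gr k (R ⧸ I) r where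
  toGm := quotGm h
  η i := Ideal.Quotient.mk I (Γ.η i)
  mul t u a b hb := by
    obtain ⟨a, rfl⟩ := Ideal.Quotient.mk_surjective a
    obtain ⟨b, rfl⟩ := Ideal.Quotient.mk_surjective b
    rw [← hb, quotGm_π, quotGm_π, ← map_mul, quotGm_π, Γ.mul _ _ _ _ (Γ.idem _ _), map_mul]
  one := by rw [← map_one (Ideal.Quotient.mk I), quotGm_π, Γ.one]
  πη i := by rw [quotGm_π, Γ.πη]
  gen a := by
    obtain ⟨a, rfl⟩ := Ideal.Quotient.mk_surjective a
    obtain ⟨c, b, rfl⟩ := Γ.gen a
    exact ⟨c, fun i => Ideal.Quotient.mk I (b i), by simp; rfl⟩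

lemma quot_π (h : Γ.Hom I) (t : ℤ) (a : R) :
    (quot h).π t (Ideal.Quotient.mk I a) = Ideal.Quotient.mk I (Γ.π t a) := quotGm_π h t a

lemma quot_η (h : Γ.Hom I) (i : Fin r) : (quot h).η i = Ideal.Quotient.mk I (Γ.η i) := rfl

end Gr

open MvPolynomial in
/-- The polynomial ring with generators in degree two. -/
noncomputable def grS (k : Type u) [Field k] (r : ℕ) : Gr k (MvPolynomial (Fin r) k) r where
  π t := weightedHomogeneousComponent (fun _ => (2 : ℤ)) t
  ππ t u v := weightedHomogeneousComponent_of_mem (weightedHomogeneousComponent_mem _ _ _)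
  bdd v := weightedHomogeneousComponent_finsupp v
  ext v h := by rw [← sum_weightedHomogeneousComponent (fun _ => (2 : ℤ)) v]; simp [h]
  fin t := by
    have := Module.Finite.iff_fg.2
      (weightedHomogeneousSubmodule_fg k (fun _ : Fin r => 2) (by simp) t.toNat)
    refine Module.Finite.iff_fg.1 (Submodule.finiteDimensional_of_le
      (S₂ := weightedHomogeneousSubmodule k (fun _ : Fin r => 2) t.toNat) fun v hv d hd => ?_)
    have h0 : weightedHomogeneousComponent (fun _ => (2 : ℤ)) t v = v := hv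
    have h1 : IsWeightedHomogeneous (fun _ => (2 : ℤ)) v t :=
      h0 ▸ weightedHomogeneousComponent_isWeightedHomogeneous t v
    have h2 : Finsupp.weight (fun _ => (2 : ℤ)) d = (Finsupp.weight (fun _ => 2) d : ℕ) := by
      simp [Finsupp.weight_apply, Finsupp.sum]
    rw [← h1 hd, h2, Int.toNat_natCast]
  η := X
  mul t u a b hb := by
    have h1 : IsWeightedHomogeneous (fun _ => (2 : ℤ)) b u :=
      hb ▸ weightedHomogeneousComponent_isWeightedHomogeneous u b
    conv_lhs => rw [← sum_weightedHomogeneousComponent (fun _ => (2 : ℤ)) a,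
      finsum_eq_sum _ (weightedHomogeneousComponent_finsupp a), Finset.sum_mul, map_sum]
    rw [Finset.sum_eq_single t, weightedHomogeneousComponent_eq_self
      ((weightedHomogeneousComponent_isWeightedHomogeneous t a).mul h1)]
    · exact fun j _ hj => ((weightedHomogeneousComponent_isWeightedHomogeneous j a).mul
        h1).weightedHomogeneousComponent_ne _ (by simpa using hj.symm)
    · intro h
      have : weightedHomogeneousComponent (fun _ => (2 : ℤ)) t a = 0 := by simpa using h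
      simp [this]
  one := weightedHomogeneousComponent_eq_self (isWeightedHomogeneous_one _ _)
  πη i := weightedHomogeneousComponent_eq_self (isWeightedHomogeneous_X _ _ i)
  gen a := by
    induction a using MvPolynomial.induction_on with
    | C c => exact ⟨c, 0, by simp [smul_eq_C_mul]⟩
    | add a b ha hb =>
      obtain ⟨c, x, rfl⟩ := ha
      obtain ⟨c', x', rfl⟩ := hb
      exact ⟨c + c', x + x', by simp [mul_add, Finset.sum_add_distrib, add_smul]; ring⟩
    | mul_X a i _ => exact ⟨0, Pi.single i a, by simp [Pi.single_apply, mul_comm]⟩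

end Pool.Agent.Lib.MP_13b5a2_al
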