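import Pool.Agent.Lib.MP_13b5a2_al.Classify

/-! Families of characters and dimensions modulo prime powers. -/

universe u

namespace Pool.Agent.Lib.MP_13b5a2_al

open Module Filter Obj Gob Real Chr

variable {k : Type u} [Field k] {G : Type} [Group G] {ι : Type} [Fintype ι] [DecidableEq ι]
  {p : ℕ} [Fact p.Prime] {D : Dat k G ι} {t : Emb p k} [IsAlgClosed k]

section fam

variable {𝓕 : Set (Chr k G)} (hx : ∀ χ ∈ 𝓕, χ.s D.M < 2) {A : Type*} [CommRing A]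
  (φ : Cl k G →+* A) (hφ : ∀ a, (∀ χ ∈ 𝓕, χ.s a = 0) → φ a = 0)
include hx hφ

lemma g64_F {Y : Gob D} {c : ZMod p → ℤ} (h : Y.Wt (t.wt c)) (hs : ∑ i, c i = 2)
    (hc : ∃ i j, c i ≠ c j) (T : Finset (ZMod p)) (hT : ∀ i ∉ T, c i ≤ 0) :
    φ D.M * φ Y.X.cl = ∑ i ∈ T, φ (Y.Fa (t.τ i)).X.cl := by
  classical
  obtain ⟨S, hS⟩ := Y.exists_sum_Fa
  have hS' := hS (S ∪ T.map ⟨t.τ, t.inj⟩) Finset.subset_union_left
  rw [← map_mul, hS', map_sum, ← Finset.sum_subset Finset.subset_union_right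
    fun a ha' ha => hφ _ fun χ hχ => ?_, Finset.sum_map]
  · rfl
  have e1 := decomp_F (hx χ hχ) χ.s (fun _ h => h) h (Or.inl hs) hc T hT
  rw [← map_mul, hS', map_sum, ← Finset.sum_sdiff Finset.subset_union_right, Finset.sum_map] at e1
  exact (Finset.sum_eq_zero_iff_of_nonneg fun _ _ => χ.nn _).1 (add_eq_right.1 e1) a
    (Finset.mem_sdiff.2 ⟨ha', ha⟩)

lemma g64_E {Y : Gob D} {c : ZMod p → ℤ} (h : Y.Wt (t.wt c)) (hs : ∑ i, c i = 2)
    (hc : ∃ i j, c i ≠ c j) (T : Finset (ZMod p)) (hT : ∀ i ∉ T, c (i + 1) ≤ 0) :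
    φ D.M' * φ Y.X.cl = ∑ i ∈ T, φ (Y.Ea (t.τ i)).X.cl := by
  classical
  obtain ⟨S, hS⟩ := Y.exists_sum_Ea
  have hS' := hS (S ∪ T.map ⟨t.τ, t.inj⟩) Finset.subset_union_left
  rw [← map_mul, hS', map_sum, ← Finset.sum_subset Finset.subset_union_right
    fun a ha' ha => hφ _ fun χ hχ => ?_, Finset.sum_map]
  · rfl
  have e1 := decomp_E (hx χ hχ) χ.s (fun _ h => h) h (Or.inl hs) hc T hT
  rw [← map_mul, hS', map_sum, ← Finset.sum_sdiff Finset.subset_union_right, Finset.sum_map] at e1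
  exact (Finset.sum_eq_zero_iff_of_nonneg fun _ _ => χ.nn _).1 (add_eq_right.1 e1) a
    (Finset.mem_sdiff.2 ⟨ha', ha⟩)

lemma g64_FE (hp : p ≠ 2) (hM : φ D.M' = φ D.M) (hM0 : IsUnit (φ D.M)) {Y : Gob D}
    {i : ZMod p} (hY : Y.Wt (t.wt (cfg (i + 1) (-1)))) (h0 : i + 1 ≠ 0) (h1 : i + 1 ≠ -1) :
    φ (Y.Fa (t.τ (-1))).X.cl = φ (Y.Ea (t.τ i)).X.cl := by
  have h2 : i ≠ -1 := fun e => h0 (by rw [e]; ring)
  have w1 := hY.mvF (-1)
  rw [mvF_cfg'] at w1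
  have w2 := hY.mvE i
  rw [mvE_cfg] at w2
  have e1 := g64_E hx φ hφ w1 (sum_cfg _ _) (cfg_nonconst hp _ _) {i, -1}
    (fun b hb => by
      simp only [Finset.mem_insert, Finset.mem_singleton, not_or] at hb
      simp only [cfg_apply, add_left_inj, hb.1, hb.2, if_false]; rfl)
  have e2 := g64_F hx φ hφ w2 (sum_cfg _ _) (cfg_nonconst hp _ _) {i, -1}
    (fun b hb => by
      simp only [Finset.mem_insert, Finset.mem_singleton, not_or] at hb
      simp [cfg_apply, hb.1, hb.2])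
  have n1 := hφ _ fun χ hχ => (FE_eq (hx χ hχ) χ.s (fun _ h => h) hY h0 h1).1
  have n2 := (hY.EF_neg (a := t.τ i) (n := 1) (by rw [t.wt_apply]; simp [cfg_apply, h1, h2])).1
  have n3 := (hY.EF_pos (a := t.τ (-1)) (n := 1) (by
    rw [t.wt_apply]; simp [cfg_apply, h1.symm, h0.symm])).1
  have n4 := hφ _ fun χ hχ => χ.Fa_null (null_of_neg (hx χ hχ) (hY.mvE (-1))
    (Or.inl (by rw [sum_mvE, sum_cfg])) (a := -1 + 1)
    (by rw [mvE_succ]; simp [cfg_apply, h0.symm])) (t.τ (-1))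
  rw [Finset.sum_pair h2, n3, map_add, n4, EF_ne _ (t.inj.ne h2.symm), hM] at e1
  rw [Finset.sum_pair h2, n2, map_add, n1] at e2
  apply hM0.mul_left_cancel
  rw [e1, e2]; simp [add_comm]

lemma g64_recur (hM : φ D.M' = φ D.M) (hM0 : IsUnit (φ D.M))
    (h : (Fintype.card ι : k) = t.τ 2) {j : ℕ} (hj : j + 3 ≤ p) :
    φ (Sy D t (j + 2)).X.cl = φ D.M * φ (Sy D t (j + 1)).X.cl - φ (Sy D t j).X.cl := by
  have hp : p ≠ 2 := by omega
  have w := wt_Sy (D := D) h (j + 1)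
  have h0 := cast_ne_zero (p := p) (j := j + 1) (by omega) (by omega)
  have h1 := cast_ne_neg_one (p := p) (j := j + 1) (by omega)
  have h2 := cast_ne_neg_one (p := p) (j := j) (by omega)
  have e1 := g64_F hx φ hφ w (sum_cfg _ _) (cfg_nonconst hp _ _)
    {((j + 1 : ℕ) : ZMod p), -1} (fun b hb => by
      simp only [Finset.mem_insert, Finset.mem_singleton, not_or] at hb
      simp only [cfg_apply, hb.1, hb.2, if_false]; rfl)
  rw [Finset.sum_pair h1] at e1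
  rw [Nat.cast_succ] at w h0 h1
  have e2 := g64_FE hx φ hφ hp hM hM0 w h0 h1
  have w0 := wt_Sy (D := D) h j
  have n3 := (w0.EF_pos (a := t.τ j) (n := 1) (by
    rw [t.wt_apply]; simp [cfg_apply, h1, h2])).1
  have n4 := hφ _ fun χ hχ => χ.Fa_null (null_of_neg (hx χ hχ) (w0.mvE j)
    (Or.inl (by rw [sum_mvE, sum_cfg])) (a := j + 1)
    (by rw [mvE_succ]; simp [cfg_apply, h1])) (t.τ j)
  have e3 : φ ((Sy D t (j + 1)).Ea (t.τ j)).X.cl = φ (Sy D t j).X.cl := by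
    refine (congrArg φ n3).trans ?_
    rw [map_add, n4]; simp
  rw [e1, e2, e3, add_sub_cancel_right]
  rfl

lemma g64_cheb (hM : φ D.M' = φ D.M) (hM0 : IsUnit (φ D.M)) (h : (Fintype.card ι : k) = t.τ 2)
    {ε δ : A} (hε : ε * ε = 1) (hδ : δ * δ = 0) (e : φ D.M = 2 * ε + δ) (j : ℕ) : j + 2 ≤ p →
    6 * φ (Sy D t j).X.cl = ε ^ j * (6 * (j + 1) + ε * δ * (j * (j + 1) * (j + 2))) ∧
      6 * φ (Sy D t (j + 1)).X.cl =
        ε ^ (j + 1) * (6 * (j + 2) + ε * δ * ((j + 1) * (j + 2) * (j + 3))) := by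
  induction j with
  | zero =>
    intro _
    refine ⟨by change 6 * φ 1 = _; simp, ?_⟩
    rw [cl_Sy_one, e]
    push_cast
    linear_combination (-6 * δ) * hε
  | succ j ih =>
    intro hj
    obtain ⟨a1, a2⟩ := ih (by omega)
    refine ⟨by rw [a2]; push_cast; ring, ?_⟩
    rw [g64_recur hx φ hφ hM hM0 h hj, mul_sub, mul_left_comm, a1, a2, e]
    push_cast
    linear_combination (ε ^ j * (6 * (j + 1) + ε * δ * (j * (j + 1) * (j + 2)) -
      6 * (j + 2) * ε * δ)) * hε + (ε ^ (j + 2) * ((j + 1) * (j + 2) * (j + 3))) * hδ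

end fam

lemma g64_two [CharP k p] {χ : Chr k G} (h : (Fintype.card ι : k) = t.τ 2) {q : ℕ}
    (hq : p = q + 2) (hM : ((Cl.dim D.M : ℕ) : k) ≠ 0) {N : Cl k G}
    (hN : (Sy D t (q + 1)).X.cl * (FF (fun j => t.τ j) q
      (EE (fun j => t.τ j) (q + 1) (Sy D t (q + 1)))).X.cl =
      (Sy D t (q + 1)).X.cl * ((Sy D t q).X.cl + (Sy D t q).X.cl + N)) {θ : ℝ} (h0 : 0 < θ)
    (h1 : θ ≤ π / 2) (hθ : χ.s D.M = 2 * cos θ) (hSt : 0 < χ.s (Sy D t (q + 1)).X.cl) :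
    p * θ < π ∧ χ.s N = 2 * cos (p * θ) := by
  have hpi := pi_pos
  have hx : χ.s D.M < 2 := by
    have : cos θ < cos 0 := cos_lt_cos_of_nonneg_of_le_pi le_rfl (by linarith) h0
    rw [cos_zero] at this; linarith
  have hsin : 0 < sin θ := sin_pos_of_pos_of_lt_pi h0 (by linarith)
  have r1 : ∀ j, j + 2 ≤ p → χ.s (Sy D t j).X.cl * sin θ = sin ((j + 1 : ℕ) * θ) ∧
      χ.s (Sy D t (j + 1)).X.cl * sin θ = sin ((j + 2 : ℕ) * θ) := by
    intro j
    induction j with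
    | zero =>
      intro _
      refine ⟨by change χ.s 1 * _ = _; simp, ?_⟩
      rw [cl_Sy_one, hθ]; push_cast; rw [sin_two_mul]; ring
    | succ j ih =>
      intro hj
      obtain ⟨a1, a2⟩ := ih (by omega)
      refine ⟨a2, ?_⟩
      rw [recur hx χ.s (fun _ h => h) (χ.s_M' D) (fun _ e => by
        have := χ.one_le_sq D.M hM
        rw [e] at this; norm_num at this) h hj, sub_mul, mul_assoc, a1, a2, hθ]
      have e1 : ((j + 1 + 2 : ℕ) : ℝ) * θ = (j + 2 : ℕ) * θ + θ := by push_cast; ring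
      have e2 : ((j + 1 : ℕ) : ℝ) * θ = (j + 2 : ℕ) * θ - θ := by push_cast; ring
      rw [e1, e2, sin_add, sin_sub]; ring
  obtain ⟨b1, b2⟩ := r1 q hq.ge
  rw [← hq] at b2
  refine ⟨?_, ?_⟩
  · rcases two_step h h0 h1 hθ with e | e
    · rw [e, sin_pi] at b2
      exact absurd b2 (mul_pos hSt hsin).ne'
    · exact e.1
  have w := wt_Sy (D := D) h (q + 1)
  have hq1 : ((q + 1 : ℕ) : ZMod p) = -1 := by
    have : ((q + 2 : ℕ) : ZMod p) = 0 := by rw [← hq]; exact CharP.cast_eq_zero (ZMod p) p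
    push_cast at this ⊢
    linear_combination this
  have e1 := decomp_E hx χ.s (fun _ h => h) w (Or.inl (sum_cfg _ _))
    ⟨-1, -1 + 1, by rw [hq1]; simp [cfg_apply]⟩ {(q : ZMod p)} (fun b hb => by
      have hb' : b + 1 ≠ -1 := fun e => hb (by
        rw [← hq1, Nat.cast_succ, add_left_inj] at e; simp [e])
      simp [hq1, cfg_apply, hb'])
  rw [Finset.sum_singleton, χ.s_M'] at e1
  have w1 := w
  rw [Nat.cast_succ] at w1
  have w2 := w1.mvE q
  rw [mvE_cfg] at w2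
  have e2 := (apx_chain hx q hq.ge _ w2).2
  have e3 := congrArg χ.s hN
  rw [map_mul, map_mul] at e3
  have e4 := mul_left_cancel₀ hSt.ne' e3
  have e5 : χ.s D.M * χ.s (Sy D t (q + 1)).X.cl =
      χ.s (Sy D t q).X.cl + χ.s (Sy D t q).X.cl + χ.s N := by
    rw [e1, ← e2, ← map_add, ← map_add, ← e4]; rfl
  apply mul_right_cancel₀ hsin.ne'
  have e6 : χ.s N * sin θ = 2 * cos θ * sin (p * θ) - 2 * sin ((q + 1 : ℕ) * θ) := by
    rw [← b1, ← b2, ← hθ]; linear_combination (-sin θ) * e5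
  have e7 : ((q + 1 : ℕ) : ℝ) * θ = p * θ - θ := by rw [hq]; push_cast; ring
  rw [e6, e7, sin_sub]; ring

omit [IsAlgClosed k] in
lemma g64_angle (χ : Chr k G) {a : Cl k G} (h : χ.s a < 2) :
    ∃ θ : ℝ, 0 < θ ∧ θ ≤ π / 2 ∧ χ.s a = 2 * cos θ :=
  ⟨arccos (χ.s a / 2), arccos_pos.2 (by linarith), arccos_le_pi_div_two.2 (by linarith [χ.nn a]),
    by rw [cos_arccos (by linarith [χ.nn a]) (by linarith)]; ring⟩

/-- The Steinberg like object has dimension divisible by `p` exactly once. -/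
lemma g64_step [CharP k p] (h5 : 5 ≤ p) {𝓕 : Set (Chr k G)} (a : Cl k G)
    (hd : ((Cl.dim a : ℕ) : k) = 2 ∨ ((Cl.dim a : ℕ) : k) = -2) (hx : ∀ χ ∈ 𝓕, χ.s a < 2)
    (hn : ∀ b, (∀ χ ∈ 𝓕, χ.s b = 0) → p ^ 2 ∣ Cl.dim b) :
    ∃ (S N : Cl k G) (v : ℕ), Cl.dim S = p * v ∧ ¬p ∣ v ∧
      (((Cl.dim N : ℕ) : k) = 2 ∨ ((Cl.dim N : ℕ) : k) = -2) ∧
      ∀ (χ : Chr k G) (θ : ℝ), 0 < θ → θ ≤ π / 2 → χ.s a = 2 * cos θ → 0 < χ.s S →
        p * θ < π ∧ χ.s N = 2 * cos (p * θ) := by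
  have hp : p.Prime := Fact.out
  obtain ⟨m, D, rfl⟩ := exists_dat a
  obtain ⟨t, ε, ht, hε, hε'⟩ : ∃ (t : Emb p k) (ε : ℤ), (Fintype.card (Fin m) : k) = t.τ 2 ∧
      ε * ε = 1 ∧ ((Cl.dim D.M : ℕ) : k) = 2 * ε := by
    rcases hd with hd | hd
    · exact ⟨embP k p, 1, (D.dim_M ▸ hd).trans
        (by exact_mod_cast (embP_nat (k := k) (p := p) 2).symm), rfl, by simpa using hd⟩
    · exact ⟨embN k p, -1, (D.dim_M ▸ hd).trans
        (by exact_mod_cast (embN_nat (k := k) (p := p) 2).symm), rfl, by simpa using hd⟩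
  obtain ⟨q, hq⟩ : ∃ q, p = q + 2 := ⟨p - 2, by omega⟩
  have h6 : ¬p ∣ 6 := fun h => by
    have := Nat.le_of_dvd (by norm_num) h
    interval_cases p
    · norm_num at h
    · norm_num at hp
  have hεk : (ε : k) * ε = 1 := by exact_mod_cast congrArg (Int.cast : ℤ → k) hε
  have h6k : (6 : k) ≠ 0 := fun e => h6 ((CharP.cast_eq_zero_iff k p 6).1 (by exact_mod_cast e))
  have hM : ((Cl.dim D.M : ℕ) : k) ≠ 0 := fun e => h6k (by
    rw [hε'] at e
    linear_combination (3 * (ε : k)) * e - 6 * hεk)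
  have hp0 : ((q : k) + 2) = 0 := by
    have := CharP.cast_eq_zero k p
    rw [hq] at this
    exact_mod_cast this
  let δ : Cl k G →+* k := (Nat.castRingHom k).comp Cl.dim
  have hδ : ∀ a, δ a = ((Cl.dim a : ℕ) : k) := fun _ => rfl
  obtain ⟨c1, c2⟩ := g64_cheb hx δ (fun b hb => (CharP.cast_eq_zero_iff k p _).2
    ((dvd_pow_self p two_ne_zero).trans (hn b hb))) (by rw [hδ, D.M'_eq, Cl.dim_dual, ← hδ])
    hM.isUnit ht hεk (mul_zero 0) (by rw [hδ, hε', add_zero]) q hq.ge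
  simp only [mul_zero, zero_mul, add_zero, hp0] at c1 c2
  replace c2 := (mul_eq_zero.1 c2).resolve_left h6k
  replace c1 : δ (Sy D t q).X.cl = -(ε : k) ^ q := by
    apply mul_left_cancel₀ h6k
    linear_combination c1 + 6 * (ε : k) ^ q * hp0
  obtain ⟨v, hv⟩ := (CharP.cast_eq_zero_iff k p _).1 ((hδ _).symm.trans c2)
  have hv' : ¬p ∣ v := by
    rintro ⟨u, rfl⟩
    let ψ : Cl k G →+* ZMod (p ^ 2) := (Nat.castRingHom _).comp Cl.dim
    have hψ : ∀ a, ψ a = ((Cl.dim a : ℕ) : ZMod (p ^ 2)) := fun _ => rfl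
    obtain ⟨x, hx'⟩ : (p : ℤ) ∣ (Cl.dim D.M : ℤ) - 2 * ε :=
      (CharP.intCast_eq_zero_iff k p _).1 (by push_cast; rw [hε', sub_self])
    have pp : (p : ZMod (p ^ 2)) * p = 0 := by
      rw [← sq, ← Nat.cast_pow, ZMod.natCast_self]
    have e0 : ψ D.M = 2 * (ε : ZMod (p ^ 2)) + p * x := by
      have := congrArg (Int.cast : ℤ → ZMod (p ^ 2)) hx'
      push_cast at this
      rw [hψ, ← this]; ring
    have hε2 : (ε : ZMod (p ^ 2)) * ε = 1 := by
      exact_mod_cast congrArg (Int.cast : ℤ → ZMod (p ^ 2)) hε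
    have f := (g64_cheb hx ψ (fun b hb => (ZMod.natCast_eq_zero_iff _ _).2 (hn b hb))
      (by rw [hψ, D.M'_eq, Cl.dim_dual, ← hψ])
      ((ZMod.isUnit_iff_coprime _ _).2 (Nat.Coprime.pow_right _ ((Nat.Prime.coprime_iff_not_dvd
        hp).2 fun e => hM ((CharP.cast_eq_zero_iff k p _).2 e)).symm)) ht hε2
      (by linear_combination ((x : ZMod (p ^ 2)) * x) * pp) e0 q hq.ge).2
    have hq' : (q : ZMod (p ^ 2)) + 2 = p := by rw [hq]; push_cast; rfl
    rw [hψ, hv, hq'] at f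
    push_cast at f
    have f1 : (ε : ZMod (p ^ 2)) ^ (q + 1) * ε ^ (q + 1) = 1 := by rw [← mul_pow, hε2, one_pow]
    have f2 : ((6 * p : ℕ) : ZMod (p ^ 2)) = 0 := by
      push_cast
      linear_combination (-(ε : ZMod (p ^ 2)) ^ (q + 1)) * f - (6 * p) * f1 +
        ((ε : ZMod (p ^ 2)) ^ (q + 1) * (6 * u - ε ^ (q + 1) * ε * x * ((q + 1) * (q + 3)))) * pp
    rw [ZMod.natCast_eq_zero_iff, sq] at f2
    exact h6 (Nat.dvd_of_mul_dvd_mul_right hp.pos f2)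
  obtain ⟨N, hN⟩ := exists_twist D (fun j => t.τ j) (q + 1) q c2
  refine ⟨(Sy D t (q + 1)).X.cl, N, v, hv, hv', ?_,
    fun χ θ h0 h1 hθ hS => g64_two ht hq hM hN h0 h1 hθ hS⟩
  have d1 := congrArg Cl.dim hN
  rw [map_mul, map_mul] at d1
  have d0 : Cl.dim (Sy D t (q + 1)).X.cl ≠ 0 := by
    rw [hv]
    exact mul_ne_zero hp.ne_zero fun e => hv' (e ▸ dvd_zero p)
  have d2 := congrArg (Nat.cast : ℕ → k) (mul_left_cancel₀ d0 d1)
  rw [Cl.dim_cl, dim_FF_EE _ _ _ (wt_Sy (D := D) ht (q + 1)) c2, ← hδ, map_add, map_add, c1] at d2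
  rw [← hδ, show δ N = 2 * (ε : k) ^ q by linear_combination -d2]
  rcases Int.eq_one_or_neg_one_of_mul_eq_one hε with e | e <;> rw [e]
  · simp
  · rcases neg_one_pow_eq_or k q with e | e <;> simp [e]

/-- If null objects have dimension divisible by `p ^ (m + 1)`, some character is large. -/
theorem g64_bound [CharP k p] (h5 : 5 ≤ p) (m : ℕ) : ∀ (𝓕 : Set (Chr k G)) (a : Cl k G),
    (((Cl.dim a : ℕ) : k) = 2 ∨ ((Cl.dim a : ℕ) : k) = -2) → (∀ χ ∈ 𝓕, χ.s a < 2) →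
    (∀ b, (∀ χ ∈ 𝓕, χ.s b = 0) → p ^ (m + 1) ∣ Cl.dim b) →
    ∃ χ ∈ 𝓕, ∃ θ : ℝ, 0 < θ ∧ p ^ (m + 1) * θ ≤ π ∧ χ.s a = 2 * cos θ := by
  have hp : p.Prime := Fact.out
  have hp' : (0 : ℝ) < p := by exact_mod_cast hp.pos
  induction m with
  | zero =>
    intro 𝓕 a hd hx hn
    obtain ⟨χ, hχ⟩ : 𝓕.Nonempty := by
      by_contra e
      have := hn 1 fun χ hχ => absurd ⟨χ, hχ⟩ e
      rw [map_one, zero_add, pow_one, Nat.dvd_one] at this
      omega
    obtain ⟨θ, h0, h1, hθ⟩ := g64_angle χ (hx χ hχ)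
    refine ⟨χ, hχ, θ, h0, ?_, hθ⟩
    obtain ⟨m, D, rfl⟩ := exists_dat a
    rw [D.dim_M] at hd
    obtain ⟨t, ht⟩ : ∃ t : Emb p k, (Fintype.card (Fin m) : k) = t.τ 2 := by
      rcases hd with hd | hd
      · exact ⟨embP k p, hd.trans (by exact_mod_cast (embP_nat (k := k) (p := p) 2).symm)⟩
      · exact ⟨embN k p, hd.trans (by exact_mod_cast (embN_nat (k := k) (p := p) 2).symm)⟩
    rw [zero_add, pow_one]
    rcases two_step ht h0 h1 hθ with e | e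
    · exact e.le
    · exact e.1.le
  | succ m ih =>
    intro 𝓕 a hd hx hn
    obtain ⟨S, N, v, hv, hv', hN, h⟩ := g64_step h5 a hd hx fun b hb =>
      (pow_dvd_pow p (by omega)).trans (hn b hb)
    obtain ⟨χ, hχ, θ', g0, g1, g2⟩ := ih {χ | χ ∈ 𝓕 ∧ 0 < χ.s S} N hN (fun χ hχ => by
      obtain ⟨θ, h0, h1, hθ⟩ := g64_angle χ (hx χ hχ.1)
      obtain ⟨h2, h3⟩ := h χ θ h0 h1 hθ hχ.2
      have := cos_lt_cos_of_nonneg_of_le_pi le_rfl h2.le (mul_pos hp' h0)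
      rw [cos_zero] at this
      linarith) fun b hb => by
      have h1 := hn (S * b) fun χ hχ => by
        rw [map_mul]
        rcases (χ.nn S).eq_or_lt with e | e
        · rw [← e, zero_mul]
        · rw [hb χ ⟨hχ, e⟩, mul_zero]
      rw [map_mul, hv, pow_succ', mul_assoc] at h1
      exact (Nat.Coprime.pow_left _ ((Nat.Prime.coprime_iff_not_dvd hp).2 hv')).dvd_of_dvd_mul_left
        (Nat.dvd_of_mul_dvd_mul_left hp.pos h1)
    obtain ⟨θ, h0, h1, hθ⟩ := g64_angle χ (hx χ hχ.1)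
    obtain ⟨h2, h3⟩ := h χ θ h0 h1 hθ hχ.2
    have g3 : θ' ≤ π := le_trans (le_mul_of_one_le_left g0.le
      (one_le_pow₀ (by exact_mod_cast hp.one_le))) g1
    have e : θ' = p * θ := injOn_cos ⟨g0.le, g3⟩ ⟨(mul_pos hp' h0).le, h2.le⟩
      (mul_left_cancel₀ two_ne_zero (g2.symm.trans h3))
    exact ⟨χ, hχ.1, θ, h0, by rw [pow_succ, mul_assoc, ← e]; exact g1, hθ⟩

/-- A value strictly between one and two forces the dimension to be `2` or `-2`. -/
lemma g64_dim [CharP k p] (χ : Chr k G) (a : Cl k G) (h1 : 1 < χ.s a) (h2 : χ.s a < 2) :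
    ((Cl.dim a : ℕ) : k) = 2 ∨ ((Cl.dim a : ℕ) : k) = -2 := by
  have hp2 := (Fact.out : p.Prime).two_le
  obtain ⟨m, D, rfl⟩ := exists_dat a
  have hd : ((Cl.dim D.M : ℕ) : k) = (Cl.dim D.M % p : ℕ) := (CharP.cast_eq_mod k p _)
  have hlt : Cl.dim D.M % p < p := Nat.mod_lt _ (by omega)
  generalize Cl.dim D.M % p = n at hd hlt
  have hp0 := CharP.cast_eq_zero k p
  have hneg : ∀ j : ℕ, n + j = p → (n : k) = -j := fun j hj => by
    rw [← hj] at hp0; push_cast at hp0; linear_combination hp0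
  by_cases c1 : n = 2 ∨ n + 2 = p
  · rcases c1 with c1 | c1
    · exact Or.inl (by rw [hd, c1]; rfl)
    · exact Or.inr (by rw [hd, hneg 2 c1]; rfl)
  exfalso
  rw [D.dim_M] at hd
  by_cases c2 : n = 0
  · have := case_zero (χ := χ) (fun e => by
      have h3 : p ∣ 2 := (CharP.cast_eq_zero_iff k p 2).1 (by push_cast; linear_combination e)
      have := Nat.le_of_dvd two_pos h3
      omega) D.M (by rw [D.dim_M, hd, c2, Nat.cast_zero]) h2
    linarith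
  by_cases c3 : n = 1
  · have := case_one (t := embP k p) h2 (by
      rw [hd, c3]; exact_mod_cast (embP_nat (k := k) (p := p) 1).symm) (by omega)
    linarith
  by_cases c4 : n + 1 = p
  · have := case_one (t := embN k p) h2 (by
      rw [hd, hneg 1 c4]; exact_mod_cast (embN_nat (k := k) (p := p) 1).symm) (by omega)
    linarith
  exact case_generic (t := embP k p) h2 (hd.trans (embP_nat n).symm) (by omega) (by omega)

end Pool.Agent.Lib.MP_13b5a2_al
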