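import Pool.Agent.Lib.MP_13b5a2_al.Main
import Pool.Agent.Lib.MP_13b5a2_al.H64Fam

/-! The gap above one in terms of the rank of an elementary abelian subgroup. -/

universe u

namespace Pool.Agent.Lib.MP_13b5a2_al

open Real Obj Gob

variable {k : Type u} [Field k] {r p : ℕ} [Fact p.Prime] [CharP k p]

omit [Fact p.Prime] [CharP k p] in
lemma g64_bc_dual {G : Type} [Group G] (K : Type u) [Field K] [Algebra k K] (a : Cl k G) :
    Cl.bc K (Cl.dual a) = Cl.dual (Cl.bc K a) := by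
  obtain ⟨n, D, rfl⟩ := exists_dat a
  rw [← D.M'_eq, bc_tw, bc_tw]
  exact tw_dual _ _ fun g => by
    ext i j
    simp [mapMat, D.h]

omit [Fact p.Prime] [CharP k p] in
lemma g64_tri {G : Type} [Group G] (a : Cl k G) : ∃ z, a * (Cl.dual a * a) = a + z := by
  obtain ⟨n, D, rfl⟩ := exists_dat a
  obtain ⟨z, hz⟩ := exists_cl_of_retract (r := evl) ((isMor_cev (unit D)).1.tw D.μ)
    (isMor_evl (unit D).F.op).1 (fun v => by
      ext a
      simp [evl_apply, cev_apply])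
  refine ⟨z, Eq.trans ?_ hz⟩
  rw [← D.M'_eq, ← cl_tw, ← cl_tw]

lemma g64_kap_zero (a : Cl k (EA r p)) (h : (gr fun n => kap (a ^ n)) = 0) : kap a = 0 := by
  obtain ⟨-, C, hC⟩ := up_of_gr_lt (β := 1 / 2) (up_kap a) (by rw [h]; norm_num)
  obtain ⟨n, hn⟩ := ((tendsto_pow_atTop_nhds_zero_of_lt_one (r := (1 / 2 : ℝ)) (by norm_num)
    (by norm_num)).const_mul C).eventually (gt_mem_nhds (show C * 0 < 1 by simp)) |>.exists
  have h1 : kap (a ^ n) = 0 := Nat.lt_one_iff.1 (by exact_mod_cast (hC n).trans_lt hn)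
  have h2 : ∀ n : ℕ, ∃ z, a ^ n * (Cl.dual a ^ n * a) = a + z := fun n => by
    induction n with
    | zero => exact ⟨0, by simp⟩
    | succ n ih =>
      obtain ⟨z, hz⟩ := ih
      obtain ⟨w, hw⟩ := g64_tri a
      exact ⟨w + a * Cl.dual a * z, by
        rw [← add_assoc, ← hw, ← mul_assoc a, ← mul_add, ← hz]; ring⟩
  obtain ⟨z, hz⟩ := h2 n
  have h3 := kap_mul_le isPGroup_ea (a ^ n) (Cl.dual a ^ n * a)
  rw [hz, kap_add isPGroup_ea, h1, zero_mul] at h3
  omega

/-- The local character of an object, with a bound on all objects. -/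
theorem g64_chr (a : Cl k (EA r p)) (h0 : 0 < gr fun n => kap (a ^ n)) :
    ∃ (χ : Chr k (EA r p)) (C : ℝ), 0 < χ.s a ∧ ∀ y, χ.s y ≤ C * kap y := by
  obtain ⟨𝒮, hS⟩ := exists_Glob isPGroup_ea h0
  obtain ⟨I, h, hI, i, hi, C, hC⟩ := exists_prime (𝒮 := 𝒮) (Γ := grS k r) (pos_grS 𝒮)
  let R := MvPolynomial (Fin r) k ⧸ I
  let K := AlgebraicClosure (FractionRing R)
  have hK : CharP K p := charP_of_injective_algebraMap (algebraMap k K).injective p
  have hinj : Function.Injective (algebraMap R K) := by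
    rw [IsScalarTower.algebraMap_eq R (FractionRing R) K]
    exact (algebraMap (FractionRing R) K).injective.comp (IsFractionRing.injective R _)
  choose α hα using fun j => IsAlgClosed.exists_pow_nat_eq (algebraMap R K ((Gr.quot h).η j))
    (Fact.out : p.Prime).pos
  have h1 : α i ≠ 0 := fun e => hi (Ideal.Quotient.eq_zero_iff_mem.1 (hinj (by
    rw [map_zero]; exact (hα i).symm.trans (by rw [e, zero_pow (Fact.out : p.Prime).ne_zero]))))
  obtain ⟨C1, h2⟩ := nn_le (Gr.quot h) hinj hα h1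
  obtain ⟨χ, C2, h3⟩ := exists_local (p := p) h1
  have h4 : 𝒮.S a ≤ (C * C1 * C2 : ℝ) * χ.s (Cl.bc K a) := by
    obtain ⟨n, D, rfl⟩ := exists_dat a
    refine (hC n D.μ D.μ' D.h).trans ((Nat.cast_le.2 (Nat.mul_le_mul_left C (h2 n D.μ))).trans ?_)
    push_cast
    rw [mul_assoc, mul_assoc]
    exact mul_le_mul_of_nonneg_left (mul_le_mul_of_nonneg_left (h3 _).1 (Nat.cast_nonneg _))
      (Nat.cast_nonneg _)
  refine ⟨⟨χ.s.comp (Cl.bc K), fun y => χ.nn _, fun y => by
    rw [RingHom.comp_apply, g64_bc_dual, χ.du]; rfl⟩, |C2| * 2, ?_, fun y => ?_⟩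
  · refine (χ.nn _).lt_of_ne fun e => ?_
    rw [← e, mul_zero, hS] at h4
    exact h0.not_ge h4
  · rw [mul_assoc]
    refine (h3 _).2.trans (mul_le_mul (le_abs_self _) ?_ (Nat.cast_nonneg _) (abs_nonneg _))
    exact_mod_cast nuA_bc_le K h1 y

lemma g64_kap_bc (K : Type u) [Field K] [Algebra k K] (x : Cl k (EA r p)) :
    kap (Cl.bc K x) ≤ kap x := by
  have hK : CharP K p := charP_of_injective_algebraMap (algebraMap k K).injective p
  obtain ⟨b, c, hb, -, hd⟩ := exists_core' isPGroup_ea x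
  rw [← hd, ← dim_bc K]
  conv_lhs => rw [hb, map_add, map_mul, bc_reg, kap_add isPGroup_ea, kap_reg_mul, add_zero]
  exact kap_le_dim _

theorem g64_ea (h5 : 5 ≤ p) (a : Cl k (EA (r + 1) p))
    (hd : ((Cl.dim a : ℕ) : k) = 2 ∨ ((Cl.dim a : ℕ) : k) = -2) :
    2 * cos (π / p ^ (r + 1)) ≤ gr fun n => kap (a ^ n) := by
  by_contra! hlt
  let K := AlgebraicClosure k
  have key : ∀ (χ : Chr K (EA (r + 1) p)) (C : ℝ), (∀ y, χ.s y ≤ C * kap y) →
      χ.s (Cl.bc K a) ≤ gr fun n => kap (a ^ n) := fun χ C hC =>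
    le_gr (up_kap a) fun β ⟨hβ, C3, h5⟩ => le_of_pow_le (K := |C| * C3) hβ fun n => by
      rw [← map_pow, ← map_pow, mul_assoc]
      exact (hC _).trans (mul_le_mul (le_abs_self _)
        ((Nat.cast_le.2 (g64_kap_bc K _)).trans (h5 n)) (Nat.cast_nonneg _) (abs_nonneg _))
  obtain ⟨χ, ⟨C, hC⟩, θ, h0, h1, h2⟩ := g64_bound h5 r
    {χ : Chr K (EA (r + 1) p) | ∃ C : ℝ, ∀ y, χ.s y ≤ C * kap y} (Cl.bc K a)
    (by
      rw [dim_bc]
      exact hd.imp (fun e => by rw [← map_natCast (algebraMap k K), e, map_ofNat])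
        fun e => by rw [← map_natCast (algebraMap k K), e, map_neg, map_ofNat])
    (fun χ ⟨C, hC⟩ => ((key χ C hC).trans_lt hlt).trans_le (by linarith [cos_le_one (π / p ^ (r + 1))]))
    fun b hb => by
      have h1 : kap b = 0 := g64_kap_zero b ((gr_nonneg _).eq_or_lt.resolve_right fun e => by
        obtain ⟨χ, C, h1, h2⟩ := g64_chr b e
        exact h1.ne' (hb χ ⟨C, h2⟩)).symm
      have h2 := card_mul_rkN_le isPGroup_ea b
      have h3 : Nat.card (EA (r + 1) p) = p ^ (r + 1) := by simp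
      rw [kap, h3] at h1
      rw [h3] at h2
      exact ⟨Cl.rkN b, by omega⟩
  have hp : (1 : ℝ) ≤ p ^ (r + 1) := one_le_pow₀ (by exact_mod_cast (Fact.out : p.Prime).one_le)
  have h3 := cos_le_cos_of_nonneg_of_le_pi h0.le (div_le_self pi_pos.le hp)
    ((le_div_iff₀' (by linarith)).2 h1)
  linarith [key χ C hC]

theorem g64_gap (h5 : 5 ≤ p) {G : Type} [Group G] [Finite G] (φ : EA r p →* G)
    (hφ : Function.Injective φ) (M : FDRep k G) (h1 : 1 < gamma M) :
    2 * cos (π / p ^ r) ≤ gamma M := by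
  rcases le_or_gt 2 (gamma M) with h2 | h2
  · linarith [cos_le_one (π / p ^ r)]
  obtain _ | r := r
  · simp only [pow_zero, div_one, cos_pi]; linarith
  have hd : ((Cl.dim (Obj.mk M M.ρ).cl : ℕ) : k) = 2 ∨ ((Cl.dim (Obj.mk M M.ρ).cl : ℕ) : k) = -2 := by
    obtain ⟨r, ψ, -, e⟩ := gamma_eq_ea (p := p) M
    rw [e] at h1 h2
    obtain ⟨K, _, _, _, _, χ, e'⟩ := exists_chr _ (zero_lt_one.trans h1)
    rw [← e'] at h1 h2
    have := g64_dim (p := p) χ _ h1 h2
    rw [dim_bc] at this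
    exact this.imp (fun e => (algebraMap k K).injective (by rw [map_natCast, map_ofNat]; exact e))
      fun e => (algebraMap k K).injective (by rw [map_natCast, map_neg, map_ofNat]; exact e)
  refine (g64_ea h5 (Cl.res φ (Obj.mk M M.ρ).cl) hd).trans ?_
  obtain ⟨P⟩ : Nonempty (Sylow p G) := inferInstance
  have e1 : ∀ n, (Obj.mk (tensorPow M n) (tensorPow M n).ρ).cl = (Obj.mk M M.ρ).cl ^ n := by
    intro n
    induction n with
    | zero => rfl
    | succ n ih =>
      rw [pow_succ, ← ih]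
      rfl
  have e2 := up_kap (Cl.res (P : Subgroup G).subtype (Obj.mk M M.ρ).cl)
  have e3 : ∀ n, coreDim (tensorPow M n) ≤ (P : Subgroup G).index *
      kap (Cl.res (P : Subgroup G).subtype (Obj.mk M M.ρ).cl ^ n) := fun n => by
    rw [← map_pow, ← e1]
    exact cdim_le P (Obj.mk (tensorPow M n) (tensorPow M n).ρ)
  refine (gr_mono (K := 1) (e2.of_le e3) fun n => ?_).trans (limsup_eq_gr (e2.of_le e3)).ge
  rw [← map_pow, ← e1, one_mul]
  exact kap_res_le_cdim isPGroup_ea φ hφ (Obj.mk (tensorPow M n) (tensorPow M n).ρ)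

end Pool.Agent.Lib.MP_13b5a2_al
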