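import Pool.Agent.Lib.MP_13b5a2_al.Twist

/-! Weights of objects on which a positive character does not vanish. -/

universe u

namespace Pool.Agent.Lib.MP_13b5a2_al

open Module Filter Obj Gob

/-- A nonnegative self dual character of the representation semiring. -/
structure Chr (k : Type u) [Field k] (G : Type) [Group G] where
  s : Cl k G →+* ℝ
  nn : ∀ a, 0 ≤ s a
  du : ∀ a, s (Cl.dual a) = s a

variable {k : Type u} [Field k] {G : Type} [Group G] {ι : Type} [Fintype ι] [DecidableEq ι]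

/-- The class of the natural module. -/
abbrev Dat.M (D : Dat k G ι) : Cl k G := (tw D.μ one).cl

/-- The class of the dual module. -/
abbrev Dat.M' (D : Dat k G ι) : Cl k G := (tw D.μ' one).cl

lemma Dat.M'_eq (D : Dat k G ι) : D.M' = Cl.dual D.M := tw_dual _ _ D.h

lemma Dat.dim_M (D : Dat k G ι) : Cl.dim D.M = Fintype.card ι := by
  rw [Cl.dim_cl, dim_tw]; simp [Obj.dim]

lemma exists_dat (a : Cl k G) : ∃ (n : ℕ) (D : Dat k G (Fin n)), D.M = a := by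
  induction a using Cl.ind with | h X => ?_
  obtain ⟨μ, hμ⟩ := X.exists_tw
  exact ⟨_, ⟨μ, ⟨⟨fun g => (μ g⁻¹).transpose, by simp⟩, fun g h => by
    simp [Matrix.transpose_mul]⟩, fun _ => rfl⟩, hμ.symm⟩

lemma sum_rt [DecidableEq k] (a : k) (U : Finset k) : ∑ b ∈ U, rt a b =
    (if a ∈ U then 2 else 0) - (if a + 1 ∈ U then 1 else 0) - (if a - 1 ∈ U then 1 else 0) := by
  simp only [rt, Finsupp.add_apply, Finsupp.single_apply, Finset.sum_add_distrib,
    Finset.sum_ite_eq]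
  split_ifs <;> rfl

lemma degree_rt (a : k) : (rt a).degree = 0 := by simp [rt]

namespace Chr

variable (χ : Chr k G) {D : Dat k G ι}

lemma s_M' (D : Dat k G ι) : χ.s D.M' = χ.s D.M := by rw [D.M'_eq, χ.du]

lemma le_of_add {a b c : Cl k G} (h : a = b + c) : χ.s b ≤ χ.s a := by
  rw [h, map_add]; linarith [χ.nn c]

lemma retract_le {X Y : Gob D} (h : Retract X Y) : χ.s X.X.cl ≤ χ.s Y.X.cl := by
  obtain ⟨z, hz⟩ := h.cl
  exact χ.le_of_add hz

lemma one_le_sq (a : Cl k G) (h : ((Cl.dim a : ℕ) : k) ≠ 0) : 1 ≤ χ.s a ^ 2 := by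
  obtain ⟨n, D, rfl⟩ := exists_dat a
  rw [D.dim_M] at h
  obtain ⟨z, hz⟩ := exists_cl_of_retract (r := ((Fintype.card (Fin n) : k)⁻¹ • evl))
    (isMor_cev (unit D)).1 (fun g v => by
      rw [LinearMap.smul_apply, (isMor_evl (unit D)).1 g v]; rfl) (fun v => by
      simp only [LinearMap.smul_apply, evl_apply, cev_apply, if_true, Finset.sum_const,
        Finset.card_univ, smul_eq_mul, nsmul_eq_mul]
      field_simp)
  have h1 := χ.le_of_add hz
  have h2 : (unit D).F.E.X.cl = D.M' * (D.M * 1) := by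
    rw [← Cl.cl_one, ← cl_tw, ← cl_tw]
  rw [h2, map_mul, χ.s_M', mul_one, Cl.cl_one, map_one] at h1
  rwa [sq]

lemma dim_eq_zero (a : Cl k G) (h : χ.s a = 0) : ((Cl.dim a : ℕ) : k) = 0 := by
  by_contra h0
  have := χ.one_le_sq a h0
  rw [h] at this
  norm_num at this

variable [IsAlgClosed k]

lemma sum_Fa_le (Y : Gob D) (T : Finset k) :
    ∑ a ∈ T, χ.s (Y.Fa a).X.cl ≤ χ.s D.M * χ.s Y.X.cl := by
  classical
  obtain ⟨S, hS⟩ := Y.exists_sum_Fa
  rw [← map_mul, hS (S ∪ T) Finset.subset_union_left, map_sum]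
  exact Finset.sum_le_sum_of_subset_of_nonneg Finset.subset_union_right fun _ _ _ => χ.nn _

lemma sum_Ea_le (Y : Gob D) (T : Finset k) :
    ∑ a ∈ T, χ.s (Y.Ea a).X.cl ≤ χ.s D.M * χ.s Y.X.cl := by
  classical
  obtain ⟨S, hS⟩ := Y.exists_sum_Ea
  rw [← χ.s_M', ← map_mul, hS (S ∪ T) Finset.subset_union_left, map_sum]
  exact Finset.sum_le_sum_of_subset_of_nonneg Finset.subset_union_right fun _ _ _ => χ.nn _

lemma Fa_le (Y : Gob D) (a : k) : χ.s (Y.Fa a).X.cl ≤ χ.s D.M * χ.s Y.X.cl := by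
  simpa using χ.sum_Fa_le Y {a}

lemma Ea_le (Y : Gob D) (a : k) : χ.s (Y.Ea a).X.cl ≤ χ.s D.M * χ.s Y.X.cl := by
  simpa using χ.sum_Ea_le Y {a}

lemma Fa_null {Y : Gob D} (h : χ.s Y.X.cl = 0) (a : k) : χ.s (Y.Fa a).X.cl = 0 :=
  le_antisymm (by simpa [h] using χ.Fa_le Y a) (χ.nn _)

lemma Ea_null {Y : Gob D} (h : χ.s Y.X.cl = 0) (a : k) : χ.s (Y.Ea a).X.cl = 0 :=
  le_antisymm (by simpa [h] using χ.Ea_le Y a) (χ.nn _)

lemma pos_of_Fa {Y : Gob D} {a : k} (h : 0 < χ.s (Y.Fa a).X.cl) : 0 < χ.s Y.X.cl :=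
  lt_of_le_of_ne (χ.nn _) fun e => h.ne' (χ.Fa_null e.symm a)

lemma pos_of_Ea {Y : Gob D} {a : k} (h : 0 < χ.s (Y.Ea a).X.cl) : 0 < χ.s Y.X.cl :=
  lt_of_le_of_ne (χ.nn _) fun e => h.ne' (χ.Ea_null e.symm a)

lemma le_EF {Y : Gob D} {m : k →₀ ℤ} (h : Y.Wt m) {a : k} (ha : 0 ≤ m a) :
    m a * χ.s Y.X.cl ≤ χ.s ((Y.Fa a).Ea a).X.cl := by
  obtain ⟨n, hn⟩ := Int.eq_ofNat_of_zero_le ha
  rw [(h.EF_pos hn).1, hn, map_add, map_mul, map_natCast]
  have := χ.nn ((Y.Ea a).Fa a).X.cl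
  push_cast; linarith

lemma le_FE {Y : Gob D} {m : k →₀ ℤ} (h : Y.Wt m) {a : k} (ha : m a ≤ 0) :
    -(m a) * χ.s Y.X.cl ≤ χ.s ((Y.Ea a).Fa a).X.cl := by
  obtain ⟨n, hn⟩ := Int.eq_ofNat_of_zero_le (neg_nonneg.2 ha)
  have hn' : m a = -n := by omega
  rw [(h.EF_neg hn').1, hn', map_add, map_mul, map_natCast]
  have := χ.nn ((Y.Fa a).Ea a).X.cl
  push_cast; linarith

theorem two_le_of_three {Y : Gob D} {m : k →₀ ℤ} (h : Y.Wt m) (hd : m.degree = 0)
    (hp : 0 < χ.s Y.X.cl) (T : Finset k) (h3 : 3 ≤ ∑ a ∈ T, m a) : 2 ≤ χ.s D.M := by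
  classical
  set x := χ.s D.M
  set y := χ.s Y.X.cl
  have hx : 0 ≤ x := χ.nn _
  let T' := T.filter fun a => 0 < m a
  have h3' : 3 ≤ ∑ a ∈ T', m a := by
    refine h3.trans ?_
    rw [Finset.sum_filter]
    exact Finset.sum_le_sum fun a _ => by split_ifs <;> omega
  have key : ∀ a ∈ T', m a * (x * y) + χ.s (Y.Fa a).X.cl ≤ x ^ 2 * χ.s (Y.Fa a).X.cl := by
    intro a ha
    have ha0 := (Finset.mem_filter.1 ha).2
    obtain ⟨c, hca, hc⟩ : ∃ c, c ≠ a ∧ (m - rt a) c < 0 := by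
      by_contra hne
      push Not at hne
      have e1 : m.degree = ∑ c ∈ T', m c + ∑ c ∈ m.support \ T', m c := by
        rw [Finsupp.degree_apply, ← Finset.sum_sdiff (s₁ := T') (s₂ := m.support) fun c hc => by
          have := (Finset.mem_filter.1 hc).2
          rw [Finsupp.mem_support_iff]; omega, add_comm]
      have e2 : ∑ c ∈ m.support \ T', rt a c ≤ ∑ c ∈ m.support \ T', m c :=
        Finset.sum_le_sum fun c hc => by
          have := hne c (fun e => (Finset.mem_sdiff.1 hc).2 (e ▸ ha))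
          rw [Finsupp.sub_apply] at this; omega
      rw [sum_rt] at e2
      split_ifs at e2 <;> omega
    have h1 := χ.sum_Ea_le (Y.Fa a) {a, c}
    rw [Finset.sum_pair hca.symm] at h1
    have h2 := χ.le_EF h ha0.le
    have h4 := χ.le_FE (h.Fa a) hc.le
    have h5 := χ.Fa_le ((Y.Fa a).Ea c) c
    have h6 : (1 : ℝ) ≤ -((m - rt a) c : ℤ) := by exact_mod_cast (by omega : 1 ≤ -(m - rt a) c)
    have h7 := χ.nn (Y.Fa a).X.cl
    nlinarith [mul_le_mul_of_nonneg_left h1 hx, mul_le_mul_of_nonneg_left h2 hx,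
      mul_le_mul_of_nonneg_right h6 h7]
  have h8 := Finset.sum_le_sum key
  rw [Finset.sum_add_distrib, ← Finset.sum_mul, ← Finset.mul_sum] at h8
  have h9 := χ.sum_Fa_le Y T'
  have h10 : (3 : ℝ) ≤ ∑ a ∈ T', (m a : ℝ) := by exact_mod_cast h3'
  obtain ⟨a, ha⟩ : T'.Nonempty := by
    rw [Finset.nonempty_iff_ne_empty]; rintro e; rw [e] at h3'; simp at h3'
  have hx0 : 0 < x := by
    have h2 := (χ.le_EF h (Finset.mem_filter.1 ha).2.le).trans (χ.Ea_le _ a)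
    have h4 : (0 : ℝ) < m a := by exact_mod_cast (Finset.mem_filter.1 ha).2
    refine lt_of_le_of_ne hx fun e => ?_
    have : (0 : ℝ) < m a * y := mul_pos h4 hp
    change _ ≤ x * _ at h2
    rw [← e] at h2; linarith
  have hxy : 0 < x * y := mul_pos hx0 hp
  set S := ∑ a ∈ T', χ.s (Y.Fa a).X.cl
  have hS : 0 ≤ S := Finset.sum_nonneg fun _ _ => χ.nn _
  have h11 : 3 * (x * y) ≤ (x ^ 2 - 1) * S := by nlinarith
  have h12 : 0 < x ^ 2 - 1 := by
    by_contra hc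
    push Not at hc
    nlinarith [mul_nonneg (neg_nonneg.2 hc) hS]
  have h13 : 3 * (x * y) ≤ (x ^ 2 - 1) * (x * y) := h11.trans (mul_le_mul_of_nonneg_left h9 h12.le)
  have h14 : 3 ≤ x ^ 2 - 1 := le_of_mul_le_mul_right h13 hxy
  nlinarith

end Chr

end Pool.Agent.Lib.MP_13b5a2_al
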