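import Pool.Agent.Lib.MP_13b5a2_al.Loc1
import Pool.Agent.Lib.MP_13b5a2_al.Quasi
import Pool.Agent.Lib.MP_13b5a2_al.Weights

/-! The local character attached to a shifted cyclic subgroup. -/

universe u

namespace Pool.Agent.Lib.MP_13b5a2_al

open Module LinearMap TensorProduct

variable {K : Type u} [Field K] {p : ℕ} [Fact p.Prime]

lemma ea_one (g : EA 1 p) : g = gen p 0 ^ (g 0).toAdd.val := by
  ext i
  rw [Subsingleton.elim i 0]
  simp [gen, ← ofAdd_nsmul]

lemma card_ea_one : Nat.card (EA 1 p) = p := by simp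

lemma stable_of_gen (X : Obj K (EA 1 p)) {U : Submodule K X.V}
    (h : ∀ v ∈ U, (X.ρ (gen p 0) - 1) v ∈ U) : ∀ g v, v ∈ U → X.ρ g v ∈ U := fun g v hv => by
  rw [ea_one g, map_pow]
  exact End.pow_apply_mem_of_forall_mem _ (fun w hw => by simpa using U.add_mem (h w hw) hw) v hv

variable [CharP K p]

lemma norm_ea_one (X : Obj K (EA 1 p)) : X.N = (X.ρ (gen p 0) - 1) ^ (p - 1) := by
  ext v
  rw [pow_pred_eq_geom, Obj.norm_apply, LinearMap.sum_apply]
  have := sum_range_cast (p := p) fun b => (X.ρ (gen p 0) ^ b.val) v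
  rw [Finset.sum_congr rfl fun i hi => by rw [ZMod.val_cast_of_lt (Finset.mem_range.1 hi)]] at this
  rw [this]
  refine Fintype.sum_equiv ((Equiv.funUnique _ _).trans Multiplicative.toAdd) _ _ fun g => ?_
  conv_lhs => rw [ea_one g, map_pow]
  rfl

lemma gen_nil (X : Obj K (EA 1 p)) : (X.ρ (gen p 0) - 1) ^ p = 0 :=
  sub_one_pow_char _ (by rw [← map_pow, ea_pow, map_one])

lemma kap_le_nu (X : Obj K (EA 1 p)) : kap X.cl ≤ p * nu p (X.ρ (gen p 0) - 1) := by
  have h1 := nu_eq (gen_nil X)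
  have h2 : X.ρ.invariants = ker (X.ρ (gen p 0) - 1) := by
    ext v
    rw [Representation.mem_invariants_iff_of_forall_mem_zpowers _ (gen p 0)
      fun g => ⟨(g 0).toAdd.val, (zpow_natCast _ _).trans (ea_one g).symm⟩]
    exact sub_eq_zero.symm
  have h3 := (X.ρ (gen p 0) - 1).finrank_range_add_finrank_ker
  refine (kap_le_card_mul_hhat isPGroup_ea _).trans ?_
  rw [card_ea_one]
  refine Nat.mul_le_mul_left _ ?_
  rw [hhat, Cl.dInv_cl, Cl.rkN_cl, Obj.dInv, Obj.rkN, h2, norm_ea_one]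
  omega

lemma nu_le_kap (X : Obj K (EA 1 p)) : nu p (X.ρ (gen p 0) - 1) ≤ 2 * kap X.cl := by
  simpa [nuA_cl, th, rho_xg] using nuA_le_kap (α := fun _ => (1 : K)) (i := 0) one_ne_zero X.cl

lemma exists_block (a : Cl K (EA 1 p)) (h : Cl.rkN a = 0) (h0 : Cl.dim a ≠ 0) :
    ∃ j z, a = j + z ∧ 0 < Cl.dim j ∧ Cl.dim j < p := by
  classical
  induction a using Cl.ind with | h X => ?_
  set θ := X.ρ (gen p 0) - 1
  have h1 : θ ^ (p - 1) = 0 := by
    rw [← norm_ea_one, ← range_eq_bot, ← Submodule.finrank_eq_zero]; exact h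
  have hex : ∃ m, θ ^ m = 0 := ⟨_, h1⟩
  have : Nontrivial X.V := finrank_pos_iff.1 (Nat.pos_of_ne_zero h0)
  obtain ⟨m, hm⟩ : ∃ m, Nat.find hex = m + 1 :=
    Nat.exists_eq_succ_of_ne_zero fun e => by simpa [e] using Nat.find_spec hex
  have h2 : θ ^ (m + 1) = 0 := hm ▸ Nat.find_spec hex
  have h3 : m + 1 ≤ p - 1 := hm ▸ Nat.find_le h1
  obtain ⟨v, hv⟩ : ∃ v, (θ ^ m) v ≠ 0 := by
    by_contra hc
    push Not at hc
    exact Nat.find_min hex (by omega) (LinearMap.ext hc)
  obtain ⟨l, hl⟩ := Projective.exists_dual_eq_one K hv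
  let i : (Fin (m + 1) → K) →ₗ[K] X.V := ∑ j : Fin (m + 1), (proj j).smulRight ((θ ^ (j : ℕ)) v)
  have hi : ∀ f, i f = ∑ j : Fin (m + 1), f j • (θ ^ (j : ℕ)) v := fun f => by
    simp [i, LinearMap.sum_apply]
  let q : X.V →ₗ[K] (Fin (m + 1) → K) := LinearMap.pi fun j => l ∘ₗ θ ^ (j : ℕ)
  have hz : ∀ n, m < n → θ ^ n = 0 := fun n hn => pow_eq_zero_of_le hn h2
  have hinj : Function.Injective (q ∘ₗ i) := by
    rw [injective_iff_map_eq_zero]
    intro f hf
    ext j
    induction j using Fin.strong_induction_on with | h j ih => ?_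
    have := congrFun hf j.rev
    simp only [q, comp_apply, pi_apply, hi, map_sum, map_smul, ← End.mul_apply, ← pow_add] at this
    rw [Finset.sum_eq_single j, show (j.rev : ℕ) + j = m by simp; omega, hl] at this
    · simpa using this
    · intro t _ ht
      rcases lt_or_gt_of_ne ht with e | e
      · rw [ih t e, Pi.zero_apply, zero_smul]
      · rw [hz _ (by have := Fin.lt_def.1 e; simp; omega)]; simp
    · simp
  have hc : IsCompl (range i) (ker q) := by
    refine ⟨Submodule.disjoint_def.2 ?_, codisjoint_iff.2 (Submodule.eq_top_iff'.2 fun w => ?_)⟩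
    · rintro _ ⟨f, rfl⟩ hf
      rw [(injective_iff_map_eq_zero _).1 hinj f hf, map_zero]
    · obtain ⟨f, hf⟩ := injective_iff_surjective.1 hinj (q w)
      exact Submodule.mem_sup.2 ⟨i f, ⟨f, rfl⟩, w - i f, by
        rw [mem_ker, map_sub, ← hf]; simp, by simp⟩
  have hU : ∀ w ∈ range i, θ w ∈ range i := by
    rintro _ ⟨f, rfl⟩
    rw [hi, map_sum]
    refine Submodule.sum_mem _ fun j _ => ?_
    rw [map_smul, ← End.mul_apply, ← pow_succ']
    refine Submodule.smul_mem _ _ ?_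
    by_cases e : (j : ℕ) < m
    · exact ⟨Pi.single ⟨j + 1, by omega⟩ 1, by simp [hi, Pi.single_apply]⟩
    · rw [hz _ (by omega)]; exact zero_mem _
  have hW : ∀ w ∈ ker q, θ w ∈ ker q := fun w hw => funext fun j => by
    change l ((θ ^ (j : ℕ)) (θ w)) = 0
    rw [← End.mul_apply, ← pow_succ]
    by_cases e : (j : ℕ) < m
    · exact congrFun hw ⟨j + 1, by omega⟩
    · rw [hz _ (by omega)]; simp
  refine ⟨_, _, X.cl_of_isCompl _ _ (stable_of_gen X hU) (stable_of_gen X hW) hc, ?_⟩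
  have : finrank K (range i) = m + 1 := by
    rw [finrank_range_of_inj (Function.Injective.of_comp (f := q) hinj)]; simp
  change 0 < finrank K (range i) ∧ finrank K (range i) < p
  omega

lemma block_ind {P : Cl K (EA 1 p) → Prop} (h0 : ∀ a, Cl.dim a = 0 → P a)
    (h1 : ∀ j z, 0 < Cl.dim j → Cl.dim j < p → P z → P (j + z)) (a : Cl K (EA 1 p))
    (h : Cl.rkN a = 0) : P a := by
  induction e : Cl.dim a using Nat.strong_induction_on generalizing a with | h n ih => ?_
  by_cases h2 : Cl.dim a = 0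
  · exact h0 a h2
  obtain ⟨j, z, rfl, h3, h4⟩ := exists_block a h h2
  rw [map_add] at h e
  exact h1 j z h3 h4 (ih _ (by omega) z (by omega) rfl)

lemma kap_mul_ge (a b : Cl K (EA 1 p)) : kap a * kap b ≤ p ^ 2 * kap (a * b) := by
  obtain ⟨a', c, ha, ha0, hda⟩ := exists_core' isPGroup_ea a
  obtain ⟨b', d, hb, hb0, hdb⟩ := exists_core' isPGroup_ea b
  have e : a * b = a' * b' + Obj.reg.cl * (c * b + a' * d) := by
    conv_lhs => rw [ha]
    rw [add_mul, mul_add, mul_assoc]
    conv_lhs => enter [1]; rw [hb]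
    ring
  rw [e, kap_add isPGroup_ea, kap_reg_mul, add_zero, ← hda, ← hdb]
  refine block_ind (P := fun a' => Cl.dim a' * Cl.dim b' ≤ p ^ 2 * kap (a' * b'))
    (fun a h => by simp [h]) (fun j z h1 h2 h3 => ?_) a' ha0
  have : Cl.dim b' ≤ p * kap (j * b') := by
    refine block_ind (P := fun b' => Cl.dim b' ≤ p * kap (j * b'))
      (fun a h => by simp [h]) (fun j' z' h4 h5 h6 => ?_) b' hb0
    have : kap (j * j') ≠ 0 := fun e => by
      have h7 := card_mul_rkN_le isPGroup_ea (j * j')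
      rw [kap, card_ea_one] at e
      rw [card_ea_one] at h7
      have h8 : p ∣ Cl.dim j * Cl.dim j' := ⟨Cl.rkN (j * j'), by rw [← map_mul]; omega⟩
      rcases (Fact.out : p.Prime).dvd_mul.1 h8 with h | h <;> have := Nat.le_of_dvd ‹_› h <;> omega
    rw [map_add, mul_add, kap_add isPGroup_ea, mul_add]
    have := Nat.mul_le_mul_left p (Nat.pos_of_ne_zero this)
    omega
  rw [map_add, add_mul, add_mul, kap_add isPGroup_ea, mul_add]
  refine add_le_add ((Nat.mul_le_mul h2.le this).trans (le_of_eq (by ring))) h3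

variable {G : Type} [CommGroup G]

/-- A shifted cyclic subgroup. -/
noncomputable def cycHom (a : MonoidAlgebra K G) (h : a ^ p = 0) : EA 1 p →* MonoidAlgebra K G where
  toFun g := (1 + a) ^ (g 0).toAdd.val
  map_one' := by simp
  map_mul' g g' := by
    rw [← pow_add, Pi.mul_apply, toAdd_mul, ZMod.val_add, ← pow_eq_pow_mod]
    rw [add_pow_char, h, one_pow, add_zero]

/-- Restriction to a shifted cyclic subgroup. -/
noncomputable abbrev cyc (a : MonoidAlgebra K G) (h : a ^ p = 0) (X : Obj K G) : Obj K (EA 1 p) :=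
  ⟨X.V, X.ρ.asAlgebraHom.toRingHom.toMonoidHom.comp (cycHom a h)⟩

lemma cyc_gen (a : MonoidAlgebra K G) (h : a ^ p = 0) (X : Obj K G) :
    (cyc a h X).ρ (gen p 0) = 1 + X.ρ.asAlgebraHom a := by
  have := Fact.mk (Fact.out : p.Prime).one_lt
  change X.ρ.asAlgebraHom ((1 + a) ^ _) = _
  simp [gen, ZMod.val_one]

variable {r : ℕ}

lemma nu_tensor (α : Fin r → K) (X Y : Obj K (EA r p)) :
    nuA p (th p α) (X.cl * Y.cl) ≤ (16 * p) ^ (r + 1) *
      nu p (((cyc _ (th_pow α) X).tensor (cyc _ (th_pow α) Y)).ρ (gen p 0) - 1) ∧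
    nu p (((cyc _ (th_pow α) X).tensor (cyc _ (th_pow α) Y)).ρ (gen p 0) - 1) ≤
      (16 * p) ^ (r + 1) * nuA p (th p α) (X.cl * Y.cl) := by
  let φ := ((X.res (MonoidHom.fst (EA r p) (EA r p))).tensor
    (Y.res (MonoidHom.snd (EA r p) (EA r p)))).ρ.asAlgebraHom
  let x : Fin r → MonoidAlgebra K (EA r p × EA r p) := fun i => xg K (gen p i, 1)
  let y : Fin r → MonoidAlgebra K (EA r p × EA r p) := fun i => xg K (1, gen p i)
  have hx : ∀ i, x i ^ p = 0 := fun i => xg_pow (by simp [ea_pow])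
  have hy : ∀ i, y i ^ p = 0 := fun i => xg_pow (by simp [ea_pow])
  have hx' : ∀ (c : K) i, (c • x i) ^ p = 0 := fun c i => by rw [smul_pow, hx, smul_zero]
  let a := ∑ i, α i • x i
  let b := ∑ i, α i • y i
  have ha : a ^ p = 0 := sum_smul_pow _ _ hx
  have hb : b ^ p = 0 := sum_smul_pow _ _ hy
  have hab : (a + b) ^ p = 0 := by rw [add_pow_char, ha, hb, add_zero]
  have e0 : a + b + ∑ i, (α i • x i) * y i = ∑ i, α i • xg K (gen p i, gen p i) := by
    rw [← Finset.sum_add_distrib, ← Finset.sum_add_distrib]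
    refine Finset.sum_congr rfl fun i _ => ?_
    have : MonoidAlgebra.of K _ (gen p i, gen p i) =
        MonoidAlgebra.of K _ (gen p i, 1) * MonoidAlgebra.of K _ (1, gen p i) := by
      rw [← map_mul]; simp
    simp only [x, y, xg, this, Algebra.smul_def]
    ring
  have e1 : nuA p (th p α) (X.cl * Y.cl) = nu p (φ (a + b + ∑ i, (α i • x i) * y i)) := by
    rw [e0, ← Cl.cl_tensor, nuA_cl]
    simp only [φ, th, map_sum, map_smul, rho_xg]
    rfl
  have e2 : φ a = (X.ρ.asAlgebraHom (th p α)).rTensor Y.V := by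
    change _ = End.rTensorAlgHom K X.V Y.V _
    simp only [φ, a, x, th, map_sum, map_smul, rho_xg, map_sub, map_one]
    refine Finset.sum_congr rfl fun i _ => ?_
    congr 2
    change TensorProduct.map _ (Y.ρ 1) = _
    rw [map_one]; rfl
  have e3 : φ b = (Y.ρ.asAlgebraHom (th p α)).lTensor X.V := by
    change _ = End.lTensorAlgHom K Y.V X.V _
    simp only [φ, b, y, th, map_sum, map_smul, rho_xg, map_sub, map_one]
    refine Finset.sum_congr rfl fun i _ => ?_
    congr 2
    change TensorProduct.map (X.ρ 1) _ = _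
    rw [map_one]; rfl
  have e4 : ((cyc _ (th_pow α) X).tensor (cyc _ (th_pow α) Y)).ρ (gen p 0) - 1 =
      φ (a + b + a * b) := by
    rw [Obj.tensor_ρ', cyc_gen, cyc_gen, map_add, map_add, map_mul, e2, e3]
    ext v w
    simp [TensorProduct.add_tmul, TensorProduct.tmul_add]
    abel
  rw [e1, e4]
  have f1 := nu_add_sum_le φ.toRingHom Finset.univ hab (fun i => hx' (α i) i) hy
  have f2 := nu_add_mul_le φ.toRingHom hab ha hb
  have f3 := nu_add_sum_le φ.toRingHom Finset.univ (Θ := a + b + ∑ i, (α i • x i) * y i)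
    (by rw [e0]; exact sum_smul_pow _ _ fun i => xg_pow (by simp [ea_pow]))
    (fun i => hx' (-α i) i) hy
  have f4 := nu_add_mul_le φ.toRingHom (Θ := a + b + a * b) (y := -a) (z := b)
    (by rw [add_pow_char, hab, mul_pow, ha, zero_mul, add_zero]) (by rw [neg_pow, ha, mul_zero]) hb
  simp only [neg_smul, neg_mul, Finset.sum_neg_distrib, add_neg_cancel_right, Finset.card_univ,
    Fintype.card_fin] at f1 f3 f4
  exact ⟨f1.trans (by rw [pow_succ, mul_assoc]; exact Nat.mul_le_mul_left _ f4),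
    f2.trans (by rw [pow_succ', mul_assoc (16 * p)]; exact Nat.mul_le_mul_left _ f3)⟩

theorem exists_local {α : Fin r → K} {i : Fin r} (hi : α i ≠ 0) : ∃ (χ : Chr K (EA r p)) (C : ℝ),
    ∀ a, (nuA p (th p α) a : ℝ) ≤ C * χ.s a ∧ χ.s a ≤ C * nuA p (th p α) a := by
  have hp := (Fact.out : p.Prime).pos
  have g1 : ∀ X, kap (cyc _ (th_pow α) X).cl ≤ p * nuA p (th p α) X.cl := fun X => by
    have := kap_le_nu (cyc _ (th_pow α) X)
    rwa [cyc_gen, add_sub_cancel_left] at this
  have g2 : ∀ X, nuA p (th p α) X.cl ≤ 2 * kap (cyc _ (th_pow α) X).cl := fun X => by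
    have := nu_le_kap (cyc _ (th_pow α) X)
    rwa [cyc_gen, add_sub_cancel_left] at this
  obtain ⟨s, h0, h1, h2⟩ := exists_char (nuA p (th p α)) (4 * p ^ 3 * (16 * p) ^ (r + 1))
    (fun a b => by
      induction a using Cl.ind with | h X => ?_
      induction b using Cl.ind with | h Y => ?_
      refine (nu_tensor α X Y).1.trans ((Nat.mul_le_mul_left _ ((nu_le_kap _).trans
        (Nat.mul_le_mul_left _ ((kap_mul_le' isPGroup_ea _ _).trans
          (Nat.mul_le_mul (g1 X) (g1 Y)))))).trans ?_)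
      calc _ = 2 * p ^ 2 * ((16 * p) ^ (r + 1) * (nuA p (th p α) X.cl * nuA p (th p α) Y.cl)) := by
            ring
        _ ≤ 4 * p ^ 3 * _ := by gcongr <;> omega
        _ = _ := by ring)
    (fun a b => by
      induction a using Cl.ind with | h X => ?_
      induction b using Cl.ind with | h Y => ?_
      refine (Nat.mul_le_mul (g2 X) (g2 Y)).trans ?_
      rw [mul_mul_mul_comm]
      refine (Nat.mul_le_mul_left _ ((kap_mul_ge _ _).trans (Nat.mul_le_mul_left _
        ((kap_le_nu ((cyc _ (th_pow α) X).tensor (cyc _ (th_pow α) Y))).trans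
        (Nat.mul_le_mul_left _ (nu_tensor α X Y).2))))).trans (le_of_eq (by ring)))
    (by rw [nuA_one]; omega)
  set C : ℝ := ((4 * p ^ 3 * (16 * p) ^ (r + 1) : ℕ) : ℝ)
  have key : ∀ a, s (Cl.dual a) ≤ s a := fun a =>
    le_of_pow_le (K := C * (((16 * p) ^ r : ℕ) * C)) (h0 a) fun n => by
      rw [← map_pow, ← map_pow, ← map_pow, mul_assoc, mul_assoc]
      refine (h2 _).trans (mul_le_mul_of_nonneg_left (le_trans ?_
        (mul_le_mul_of_nonneg_left (h1 _) (by positivity))) (by positivity))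
      exact_mod_cast nuA_dual α _
  exact ⟨⟨s, h0, fun a => le_antisymm (key a) (by simpa [Cl.dual_dual] using key (Cl.dual a))⟩,
    C, fun a => ⟨h1 a, h2 a⟩⟩

end Pool.Agent.Lib.MP_13b5a2_al
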