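import Pool.Agent.Lib.MP_13b5a2_al.Ghost2

/-! Noetherian induction: a character is concentrated at a prime ideal. -/

universe u

namespace Pool.Agent.Lib.MP_13b5a2_al

open Module Filter Cx

lemma exact_compLeft {k A B C : Type*} [Semiring k] [AddCommMonoid A] [Module k A] [AddCommMonoid B]
    [Module k B] [AddCommMonoid C] [Module k C] {f : A →ₗ[k] B} {g : B →ₗ[k] C}
    (h : Function.Exact f g) (J : Type*) : Function.Exact (f.compLeft J) (g.compLeft J) := by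
  refine fun v => ⟨fun e => ?_, ?_⟩
  · choose w hw using fun j => (h (v j)).1 (congrFun e j)
    exact ⟨w, funext hw⟩
  · rintro ⟨w, rfl⟩
    exact funext fun j => h.apply_apply_eq_zero _

variable {k R : Type u} [Field k] {r p : ℕ} [Fact p.Prime] [CharP k p]
  [CommRing R] [Algebra k R] [IsNoetherianRing R] {Γ : Gr k R r} (𝒮 : Glob k (EA r p))

/-- The standard complex is negligible. -/
def Null (Γ : Gr k R r) : Prop := ∀ᶠ t in atTop, 𝒮.S ((TT p Γ).Z t).cl = 0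

variable {𝒮} {I : Ideal R}

omit [IsNoetherianRing R] in
lemma quot_nat {I' : Ideal R} (h : Γ.Hom I) (h' : Γ.Hom I') (f : (R ⧸ I) →ₗ[k] (R ⧸ I')) {u : ℤ}
    {a : R} (ha : Γ.π u a = a) (hf : ∀ b, f (Ideal.Quotient.mk I b) = Ideal.Quotient.mk I' (a * b)) :
    (∀ i b, f ((Gr.quot h).η i * b) = (Gr.quot h').η i * f b) ∧
      ∀ t b, (Gr.quot h').π (t + u) (f b) = f ((Gr.quot h).π t b) := by
  refine ⟨fun i b => ?_, fun t b => ?_⟩ <;> obtain ⟨b, rfl⟩ := Ideal.Quotient.mk_surjective b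
  · rw [Gr.quot_η, Gr.quot_η, ← map_mul, hf, hf, ← map_mul, mul_left_comm]
  · rw [hf, Gr.quot_π, Gr.quot_π, hf, Gr.mul' ha]

variable (k I) in
/-- The projection onto a further quotient. -/
noncomputable def fac (a : R) : (R ⧸ I) →ₗ[k] (R ⧸ (I ⊔ Ideal.span {a})) :=
  (Ideal.Quotient.factorₐ k le_sup_left).toLinearMap

lemma isMor_fac (h : Γ.Hom I) {u : ℤ} {a : R} (ha : Γ.π u a = a) :
    IsMor (TT p (Gr.quot h)) (TT p (Gr.quot (h.sup ha))) 0
      (((fac k I a).compLeft (EA r p)).compLeft (JJ r)) :=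
  have := quot_nat h (h.sup ha) (fac k I a) Γ.one fun b => by rw [one_mul]; rfl
  isMor_TT this.1 this.2

omit [IsNoetherianRing R] in
lemma fac_surj (a : R) : Function.Surjective (fac k I a) := Ideal.Quotient.factor_surjective le_sup_left

omit [IsNoetherianRing R] in
lemma fac_eq_zero (a : R) (x : R ⧸ I) : fac k I a x = 0 ↔ ∃ b, Ideal.Quotient.mk I (a * b) = x := by
  obtain ⟨x, rfl⟩ := Ideal.Quotient.mk_surjective x
  refine Ideal.Quotient.eq_zero_iff_mem.trans ⟨fun e => ?_, fun ⟨b, e⟩ => ?_⟩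
  · obtain ⟨y, hy, z, hz, rfl⟩ := Submodule.mem_sup.1 e
    obtain ⟨b, rfl⟩ := Ideal.mem_span_singleton.1 hz
    exact ⟨b, by rw [map_add, Ideal.Quotient.eq_zero_iff_mem.2 hy, zero_add]⟩
  · rw [← sub_add_cancel x (a * b)]
    exact Submodule.add_mem_sup (Ideal.Quotient.eq.1 e.symm) (Ideal.mem_span_singleton.2 ⟨b, rfl⟩)

lemma null_of (h : Γ.Hom I) {u : ℤ} {a : R} (ha : Γ.π u a = a) (h1 : Null 𝒮 (Gr.quot (h.colon ha)))
    (h2 : Null 𝒮 (Gr.quot (h.sup ha))) : Null 𝒮 (Gr.quot h) := by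
  let f : (R ⧸ I.colon {a}) →ₗ[k] (R ⧸ I) := ((I.colon {a}).mapQ I (LinearMap.mulLeft R a)
    fun b hb => by simpa [mul_comm] using Submodule.mem_colon_singleton.1 hb).restrictScalars k
  have hf : ∀ b, f (Ideal.Quotient.mk _ b) = Ideal.Quotient.mk I (a * b) := fun _ => rfl
  have e1 := quot_nat (h.colon ha) h f ha hf
  have e2 : Function.Injective f := (injective_iff_map_eq_zero f).2 fun b hb => by
    obtain ⟨b, rfl⟩ := Ideal.Quotient.mk_surjective b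
    rw [hf, Ideal.Quotient.eq_zero_iff_mem] at hb
    exact Ideal.Quotient.eq_zero_iff_mem.2 (Submodule.mem_colon_singleton.2 (by simpa [mul_comm]))
  have e3 : Function.Exact f (fac k I a) := fun x => (fac_eq_zero a x).trans
    ⟨fun ⟨b, e⟩ => ⟨_, (hf b).trans e⟩, fun ⟨b, e⟩ => by
      obtain ⟨b, rfl⟩ := Ideal.Quotient.mk_surjective b
      exact ⟨b, e⟩⟩
  filter_upwards [shift_ev h1 (-u), h2, shift_ev (ev_ex_TT (p := p) (Γ := Gr.quot (h.colon ha))) (-u)] with t e4 e5 e6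
  have := 𝒮.mid (ses_Z (isMor_TT e1.1 e1.2) (isMor_fac h ha) e2.comp_left.comp_left
    (exact_compLeft (exact_compLeft e3 _) _) (fac_surj (k := k) a).comp_left.comp_left e6)
  rw [e4, neg_add_cancel_right, e5, add_zero] at this
  exact le_antisymm this (𝒮.nn _)

lemma null_of_eta (h : ∀ i, Γ.η i = 0) : Null 𝒮 Γ := by
  filter_upwards [eventually_gt_atTop (r : ℤ)] with t ht
  have key : ∀ v ∈ (TT p Γ).hp t (TT p Γ).kd, v = 0 := fun v hv => funext fun s => funext fun g => by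
    refine (congrFun (congrFun hv.1 s) g).symm.trans ?_
    change Γ.π (t + -s.card) (v s g) = 0
    obtain ⟨c, b, e⟩ := Γ.gen (v s g)
    have : s.card ≤ r := by simpa using Finset.card_le_univ s
    simp [e, h, Γ.of_ne Γ.one (show t + -s.card ≠ 0 by omega)]
  have : Subsingleton ((TT p Γ).Z t).V :=
    ⟨fun v w => Subtype.ext ((key v v.2).trans (key w w.2).symm)⟩
  rw [(Obj.iso_zero_of_subsingleton _).cl_eq]
  exact map_zero _

lemma not_null_bot (h0 : ¬ Null 𝒮 Γ) :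
    ∃ h : Γ.Hom ⊥, ¬ Null 𝒮 (Gr.quot h) := by
  have h : Γ.Hom ⊥ := fun t a ha => by rw [Ideal.mem_bot.1 ha, map_zero]; exact zero_mem _
  refine ⟨h, fun e => h0 (e.mono fun t ht => ?_)⟩
  have hb : Function.Bijective (Ideal.Quotient.mkₐ k (⊥ : Ideal R)).toLinearMap :=
    ⟨(Ideal.Quotient.mk_bijective_iff_eq_bot _).2 rfl |>.1, Ideal.Quotient.mk_surjective⟩
  rw [cl_Z_eq (isMor_TT (Γ' := Gr.quot h) (f := (Ideal.Quotient.mkₐ k ⊥).toLinearMap)
    (fun i a => map_mul (Ideal.Quotient.mk ⊥) _ _) fun t a => by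
      rw [add_zero]; exact Gr.quot_π h t a) hb.comp_left.comp_left, ht]

omit [CharP k p] [IsNoetherianRing R] in
lemma Cx.NC.eq {C : Cx (EA r p) Γ} {t u : ℤ} {a : R} (h : NC 𝒮 C t u a) (ha : Γ.π u a = a)
    (hi : Function.Injective fun v : C.V => a • v) : 𝒮.S (C.Z (t + u)).cl = 𝒮.S (C.Z t).cl := by
  obtain ⟨X, q, q1, q2, q3, q4⟩ := h
  have hf : IsMor C C u (DistribSMul.toLinearMap k C.V a) := IsMor.smul ha
  have : SES (C.Z t).cl (C.Z (t + u)).cl X.cl := ⟨_, _, _, rfl, rfl, rfl, _, q,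
    isHom_restrict (hf.hp t) fun g v _ => hf.ρ g v, q1,
    fun v w e => Subtype.ext (hi (congrArg Subtype.val e)), fun z => (q3 z).trans
      ⟨fun ⟨v, hv, e⟩ => ⟨⟨v, hv⟩, Subtype.ext e⟩, fun ⟨v, e⟩ => ⟨v, v.2, congrArg Subtype.val e⟩⟩,
    q2⟩
  have e1 := 𝒮.mid this
  have e2 := 𝒮.left this
  rw [q4] at e1 e2
  linarith

variable {ι : Type} [Fintype ι] [DecidableEq ι]

lemma nc_of_null (μ : EA r p →* Matrix ι ι k) (h : Γ.Hom I) [I.IsPrime] {u : ℤ} {a : R}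
    (ha : Γ.π u a = a) (h1 : a ∉ I) (h2 : Null 𝒮 (Gr.quot (h.sup ha))) :
    ∀ᶠ t in atTop, NC 𝒮 ((TT p (Gr.quot h)).tw μ) t u (Ideal.Quotient.mk I a) := by
  have hf : IsMor ((TT p (Gr.quot h)).tw μ) ((TT p (Gr.quot h)).tw μ) u
      (DistribSMul.toLinearMap k _ (Ideal.Quotient.mk I a)) :=
    IsMor.smul ((Gr.quot_π h u a).trans (congrArg _ ha))
  have hg := (isMor_fac (p := p) h ha).tw μ
  have e1 : Function.Injective (DistribSMul.toLinearMap k ((TT p (Gr.quot h)).tw μ).V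
      (Ideal.Quotient.mk I a)) := smul_right_injective (ι → JJ r → EA r p → R ⧸ I)
        (mt Ideal.Quotient.eq_zero_iff_mem.1 h1)
  have e2 : Function.Exact (LinearMap.mulLeft k (Ideal.Quotient.mk I a)) (fac k I a) :=
    fun x => (fac_eq_zero a x).trans ⟨fun ⟨b, e⟩ => ⟨Ideal.Quotient.mk I b, e⟩, fun ⟨b, e⟩ => by
      obtain ⟨b, rfl⟩ := Ideal.Quotient.mk_surjective b
      exact ⟨b, e⟩⟩
  have e3 : Function.Exact (DistribSMul.toLinearMap k ((TT p (Gr.quot h)).tw μ).V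
      (Ideal.Quotient.mk I a)) ((((fac k I a).compLeft (EA r p)).compLeft (JJ r)).compLeft ι) :=
    exact_compLeft (exact_compLeft (exact_compLeft e2 (EA r p)) (JJ r)) ι
  filter_upwards [shift_ev h2 u, ev_ex_TT (p := p) (Γ := Gr.quot h)] with t e4 e5
  have e6 := hg.hp (t + u)
  rw [add_zero] at e6
  refine ⟨((TT p (Gr.quot (h.sup ha))).tw μ).Z (t + u), LinearMap.restrict _ e6,
    isHom_restrict e6 fun g v _ => hg.ρ g v, fun x => ?_, fun z => ?_, ?_⟩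
  · obtain ⟨w, hw, e⟩ := z_surj hf hg e1 e3 (fac_surj (k := k) a).comp_left.comp_left.comp_left (e5.tw μ) x x.2
    exact ⟨⟨w, hw⟩, Subtype.ext e⟩
  · have := z_ker (C'' := (TT p (Gr.quot (h.sup ha))).tw μ) (t := t) hf e1 e3 z.1
    exact Subtype.ext_iff.trans (((and_iff_right z.2).symm).trans this)
  · rw [cl_tw_Z, map_mul, e4, mul_zero]

theorem exists_prime (h0 : ¬ Null 𝒮 Γ) : ∃ (I : Ideal R) (h : Γ.Hom I) (_ : I.IsPrime) (i : Fin r),
    Γ.η i ∉ I ∧ ∃ C : ℕ, ∀ (n : ℕ) (μ μ' : EA r p →* Matrix (Fin n) (Fin n) k),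
      (∀ g, μ' g = (μ g⁻¹).transpose) →
      𝒮.S (Obj.tw μ Obj.one).cl ≤ (C * nn ((TT p (Gr.quot h)).tw μ) : ℕ) := by
  obtain ⟨I, ⟨h, h1⟩, h2⟩ := set_has_maximal_iff_noetherian.2 (inferInstance : IsNoetherian R R)
    {I | ∃ h : Γ.Hom I, ¬ Null 𝒮 (Gr.quot h)} ⟨⊥, not_null_bot h0⟩
  replace h2 : ∀ {I'} (h' : Γ.Hom I'), I < I' → Null 𝒮 (Gr.quot h') := fun h' e =>
    by_contra fun e' => h2 _ ⟨h', e'⟩ e
  have h3 : ∀ {u a} (ha : Γ.π u a = a), a ∉ I → Null 𝒮 (Gr.quot (h.sup ha)) := fun ha e =>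
    h2 _ (lt_of_le_of_ne le_sup_left fun e' => e (e' ▸ Submodule.mem_sup_right
      (Ideal.mem_span_singleton_self _)))
  obtain ⟨i, hi⟩ : ∃ i, Γ.η i ∉ I := by
    by_contra! e
    exact h1 (null_of_eta fun i => Ideal.Quotient.eq_zero_iff_mem.2 (e i))
  have hI : Ideal.IsPrime I := h.isPrime (fun e => hi (e ▸ trivial)) fun t u a b ha hb hab => by
    by_contra! ⟨e1, e2⟩
    refine h1 (null_of h ha (h2 _ (lt_of_le_of_ne (fun x hx => ?_) fun e => e2 ?_)) (h3 ha e1))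
    · exact Submodule.mem_colon_singleton.2 (Ideal.mul_mem_right _ _ hx)
    · rw [e]; exact Submodule.mem_colon_singleton.2 (by simpa [mul_comm])
  obtain ⟨l, hl⟩ := exists_chain (k := k) (r := r) (p := p)
  refine ⟨I, h, hI, i, hi, l * (1 + c0 p (Gr.quot h)) ^ l, fun n μ μ' hμ => ?_⟩
  rcases (𝒮.nn (Obj.tw μ Obj.one).cl).eq_or_lt with e | hY
  · rw [← e]; positivity
  let z : ℤ → ℝ := fun t => 𝒮.S ((TT p (Gr.quot h)).Z t).cl
  obtain ⟨t0, h4⟩ : ∃ t0, ∀ t ≥ t0, z (t + 2) = z t := eventually_atTop.1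
    ((nc_of_null μ h (Γ.πη i) hi (h3 (Γ.πη i) hi)).mono fun t e => by
      have := e.eq ((Gr.quot h).πη i) (smul_right_injective (Fin n → JJ r → EA r p → R ⧸ I)
        (mt Ideal.Quotient.eq_zero_iff_mem.1 hi))
      rw [cl_tw_Z, cl_tw_Z, map_mul, map_mul] at this
      exact mul_left_cancel₀ hY.ne' this)
  have h5 : ∀ t ≥ t0, ∀ m : ℕ, z (t + 2 * m) = z t := fun t ht m => by
    induction m with
    | zero => simp
    | succ m ih => rw [← ih, ← h4 _ (show t + 2 * m ≥ t0 by omega)]; congr 1; push_cast; ring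
  have h6 : ∀ t ≥ t0, z t = z t0 ∨ z t = z (t0 + 1) := fun t ht => by
    obtain ⟨m, e | e⟩ := Int.even_or_odd' (t - t0)
    · exact Or.inl (by rw [← h5 t0 le_rfl m.toNat]; congr 1; omega)
    · exact Or.inr (by rw [← h5 (t0 + 1) (by omega) m.toNat]; congr 1; omega)
  obtain ⟨t1, h7, h8⟩ : ∃ t1 ≥ t0, ∀ t ≥ t0, z t ≤ z t1 := by
    rcases le_total (z t0) (z (t0 + 1)) with e | e
    · exact ⟨t0 + 1, by omega, fun t ht => by rcases h6 t ht with e' | e' <;> simp [e, e']⟩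
    · exact ⟨t0, le_rfl, fun t ht => by rcases h6 t ht with e' | e' <;> simp [e, e']⟩
  have h9 : 0 < z t1 := (𝒮.nn _).lt_of_ne' fun e => h1 (eventually_atTop.2 ⟨t0, fun t ht =>
    le_antisymm ((h8 t ht).trans e.le) (𝒮.nn _)⟩)
  obtain ⟨U, u0, u3, u1, u2⟩ := hl (Obj.tw μ Obj.one)
  obtain ⟨t2, e⟩ := eventually_atTop.1 (tower_bound hμ h9.le (eventually_atTop.2 ⟨t0, h8⟩) u0 u1 u2
    u3 fun u a ha ha' => by
      obtain ⟨b, rfl⟩ := Ideal.Quotient.mk_surjective a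
      rw [← ha, Gr.quot_π] at ha' ⊢
      have := mt Ideal.Quotient.eq_zero_iff_mem.2 ha'
      exact nc_of_null μ h (Γ.idem u b) this (h3 (Γ.idem u b) this))
  have := e (t1 + 2 * (t2 - t1).toNat) (by omega)
  rw [cl_tw_Z, map_mul, ← mul_assoc] at this
  refine le_of_mul_le_mul_right (le_trans (le_of_eq ?_) this) h9
  exact congrArg _ (h5 t1 h7 _).symm

end Pool.Agent.Lib.MP_13b5a2_al
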