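import Pool.Agent.Lib.MP_13b5a2_al.TT

/-! The standard complex of the polynomial ring resolves the trivial module. -/

universe u

namespace Pool.Agent.Lib.MP_13b5a2_al

open Module Filter Cx
open MvPolynomial hiding funext

variable {k : Type u} [Field k] {r p : ℕ} [Fact p.Prime]

lemma fix_of_gen {R W : Type*} [CommRing R] [AddCommGroup W] [Module R W] (ρ : EA r p →* End R W)
    {w : W} (h : ∀ i, ρ (gen p i) w = w) (g : EA r p) : ρ g w = w := by
  let M : Submonoid (EA r p) :=
    { carrier := {g | ρ g w = w}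
      one_mem' := by simp
      mul_mem' := fun {a b} (ha : ρ a w = w) (hb : ρ b w = w) => show ρ (a * b) w = w by
        rw [map_mul, End.mul_apply, hb, ha] }
  rw [← Finset.univ_prod_mulSingle g]
  refine M.prod_mem fun i _ => ?_
  have : Pi.mulSingle i (g i) = gen p i ^ (g i).toAdd.val := by
    rw [gen, ← Pi.mulSingle_pow]; simp [← ofAdd_nsmul]
  rw [this]
  exact M.pow_mem (h i) _

lemma Anti.commute_mul {B : Type*} [Ring B] {x y z : B} (h1 : Anti x y) (h2 : Anti x z) :
    Commute x (y * z) := by
  change _ = _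
  rw [← mul_assoc, h1, neg_mul, mul_assoc, h2, mul_neg, neg_neg, mul_assoc]

/-- Division by a variable. -/
noncomputable def dv (k : Type u) [Field k] (j : Fin r) : End k (MvPolynomial (Fin r) k) where
  toFun a := a.divMonomial (Finsupp.single j 1)
  map_add' _ _ := add_divMonomial _ _ _
  map_smul' _ _ := by ext; simp

/-- Multiplication by a variable. -/
noncomputable def mx (k : Type u) [Field k] (j : Fin r) : End k (MvPolynomial (Fin r) k) :=
  LinearMap.mulLeft k (X j)

lemma dv_mx (j : Fin r) : dv k j * mx k j = 1 := LinearMap.ext fun a => X_mul_divMonomial j a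

lemma dv_dv (i j : Fin r) : Commute (dv k i) (dv k j) := LinearMap.ext fun a => by
  ext d; simp [dv, add_left_comm]

lemma mx_dv {i j : Fin r} (h : i ≠ j) : Commute (mx k i) (dv k j) := LinearMap.ext fun a => by
  classical
  ext d
  simp only [dv, mx, End.mul_apply, LinearMap.coe_mk, AddHom.coe_mk, LinearMap.mulLeft_apply,
    coeff_X_mul', coeff_divMonomial, Finsupp.mem_support_iff, Finsupp.add_apply,
    Finsupp.single_eq_of_ne h, zero_add]
  split_ifs with e
  · congr 1
    ext l
    by_cases e' : l = i
    · subst e'; simp [h]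
    · simp [e']
  · rfl

section

variable {R N : Type*} [CommRing R] [AddCommGroup N] [Module R N]

/-- Action on values. -/
abbrev cE : End R N →+* End R (EA r p → N) := compLeftHom R N (EA r p)

lemma cE_xs (T : End R N) (i : Fin r) : Commute (cE T) (xs (trH (p := p) R N) i) :=
  Commute.sub_right rfl (Commute.one_right _)

lemma cE_hu (T : End R N) (i : Fin r) : Commute (cE T) (hu (p := p) R N i) :=
  LinearMap.ext fun f => funext fun s => by
    change T (c1u p R N _ _) = c1u p R N _ _
    simp only [c1u_apply, map_sum]; rfl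

lemma cE_hw (T : End R N) (i : Fin r) : Commute (cE T) (hw (p := p) R N i) :=
  LinearMap.ext fun f => funext fun s => by
    change T (c1w p R N _ _) = c1w p R N _ _
    simp only [c1w_apply, apply_ite T, map_zero]; rfl

end

variable [CharP k p]

lemma koszul_exact {N : Type*} [AddCommGroup N] [Module k N] (m D : Fin r → End k N)
    (h1 : ∀ j, D j * m j = 1) (h2 : ∀ i j, Commute (D i) (D j))
    (h3 : ∀ i j, i ≠ j → Commute (m i) (D j)) {a b : Fin r → End k (EA r p → N)}
    (ha : a = xs (trH k N)) (hb : ∀ i, b i = cE (m i) * a i ^ (p - 1))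
    (hsq : ∀ v, dG a b (dG a b v) = 0) (v : JJ r → EA r p → N) (hv : dG a b v = 0) :
    ∃ z w, v = z + dG a b w ∧ ∀ i, fI k _ i z = 0 ∧ cL (cE (D i)) z = 0 := by
  classical
  subst ha
  obtain rfl := funext hb
  set a : Fin r → End k (EA r p → N) := xs (trH k N)
  set b : Fin r → End k (EA r p → N) := fun i => cE (m i) * a i ^ (p - 1)
  let P : Fin r → End k (JJ r → EA r p → N) := fun j =>
    fI k _ j * fX k _ j * cL (cE (1 - m j * D j) * (a j ^ (p - 1) * hw k N j))
  have hP : ∀ j, ∃ h, dG a b * h + h * dG a b = 1 - P j := fun j => by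
    refine ⟨_, (dG_homot (c := hu k N j) (e := cE (D j) * hw k N j) j (fun i hi => xs_lft hi _)
      (fun i hi => (cE_xs _ _).symm.mul_right (xs_lft hi _))
      (fun i hi => (cE_hu _ _).mul_left ((xs_lft hi _).pow_left _))
      (fun i hi => (((h3 _ _ hi).map _).mul_right (cE_hw _ _)).mul_left
        (((cE_xs _ _).symm.mul_right (xs_lft hi _)).pow_left _))).trans ?_⟩
    have e1 : a j * hu k N j + cE (D j) * hw k N j * b j = 1 := by
      rw [mul_assoc, ← mul_assoc (hw k N j), ← (cE_hw _ _).eq, mul_assoc, ← mul_assoc (cE _),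
        ← map_mul, h1, map_one, one_mul]
      exact xu_eq j
    have e2 : b j * (cE (D j) * hw k N j) + hu k N j * a j =
        1 - cE (1 - m j * D j) * (a j ^ (p - 1) * hw k N j) := by
      rw [map_sub, map_one, map_mul, sub_mul, one_mul, ← ux_eq (p := p) (R := k) (N := N) j,
        mul_assoc, ← mul_assoc (a j ^ _), ← ((cE_xs _ _).pow_right _).eq, mul_assoc, mul_assoc]
      change _ = _ + a j ^ _ * _ - _
      abel
    rw [e1, e2, map_sub, map_one, mul_sub, (fock_pair j).ix, mul_one, mul_one, ← (fock_pair j).ix,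
      ← add_sub_assoc, (fock_pair j).ix, add_sub_cancel, ← (fock_pair j).ix]
  suffices ∀ s : Finset (Fin r), ∃ z w, v = z + dG a b w ∧
      ∀ i ∈ s, fI k _ i z = 0 ∧ cL (cE (D i)) z = 0 by simpa using this Finset.univ
  intro s
  induction s using Finset.induction_on with
  | empty => exact ⟨v, 0, by simp, by simp⟩
  | insert j s hj ih =>
    obtain ⟨z, w, rfl, e⟩ := ih
    obtain ⟨h, e1⟩ := hP j
    rw [map_add, hsq, add_zero] at hv
    have e3 := LinearMap.congr_fun e1 z
    rw [LinearMap.add_apply, End.mul_apply, End.mul_apply, hv, map_zero, add_zero] at e3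
    refine ⟨P j z, w + h z, by rw [map_add, e3, LinearMap.sub_apply, End.one_apply]; abel,
      fun i hi => ?_⟩
    by_cases hij : i = j
    · subst hij
      constructor
      · rw [← End.mul_apply, ← mul_assoc, ← mul_assoc, (fock_pair i).ii]; simp
      · rw [← End.mul_apply, ← mul_assoc, ((cI _ _).mul_right (cX _ _)).eq, mul_assoc, ← map_mul,
          ← mul_assoc (cE _), ← map_mul, mul_sub, ← mul_assoc (D i), h1]
        simp
    obtain ⟨e4, e5⟩ := e i ((Finset.mem_insert.1 hi).resolve_left hij)
    have c1 : Commute (fI k _ i) (P j) := by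
      exact ((fock_ii hij).commute_mul (fock_xi (Ne.symm hij)).symm).mul_right (cI _ _).symm
    have c3 : Commute (D i) (1 - m j * D j) :=
      (Commute.one_right _).sub_right ((h3 _ _ (Ne.symm hij)).symm.mul_right (h2 _ _))
    have c2 : Commute (cL (cE (D i))) (P j) := ((cI _ _).mul_right (cX _ _)).mul_right
      (((c3.map cE).mul_right (((cE_xs _ _).pow_right _).mul_right (cE_hw _ _))).map cL)
    exact ⟨by rw [← End.mul_apply, c1.eq, End.mul_apply, e4, map_zero],
      by rw [← End.mul_apply, c2.eq, End.mul_apply, e5, map_zero]⟩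

lemma TT_d {R : Type u} [CommRing R] [Algebra k R] [IsNoetherianRing R] (Γ : Gr k R r)
    (F : JJ r → EA r p → R) : (TT p Γ).d F = dG (xs (trH k R))
      (fun i => cE (LinearMap.mulLeft k (Γ.η i)) * xs (trH k R) i ^ (p - 1)) F := funext fun s =>
  dG_nat (fun _ => AddMonoidHom.id _) (fun _ => AddMonoidHom.id _) F s (fun _ _ => rfl)
    fun i _ => congrArg (Γ.η i • ·) (xs_nat (P := ⊤) (ρ := trH R R) (ρ' := trH k R)
      (fun _ _ _ => trivial) (AddMonoidHom.id _) (fun _ _ _ => rfl) i _ _ trivial)

lemma ex_grS {t : ℤ} (ht : 0 ≤ t) : (TT p (grS k r)).Ex t := by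
  have hd : ∀ F, (TT p (grS k r)).d F = dG (xs (trH k _))
      (fun i => cE (mx k i) * xs (trH k _) i ^ (p - 1)) F := TT_d _
  refine ex_of fun v h1 h2 => ?_
  obtain ⟨z, w, e1, e2⟩ := koszul_exact (mx k) (dv k) dv_mx dv_dv (fun _ _ => mx_dv) rfl
    (fun _ => rfl) (fun v => by rw [← hd, ← hd, (TT p (grS k r)).dd]) v ((hd v).symm.trans h2)
  refine ⟨(TT p (grS k r)).g.π t w, ?_⟩
  rw [← (TT p (grS k r)).πd, ← h1, e1, map_add, ← hd]
  refine (add_eq_right.2 (funext fun s => funext fun g => ?_)).symm
  change weightedHomogeneousComponent _ (t + 1 + -s.card) (z s g) = 0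
  rcases s.eq_empty_or_nonempty with rfl | ⟨i, hi⟩
  · refine weightedHomogeneousComponent_eq_zero' _ _ fun d hd e => ?_
    have : d = 0 := by
      ext i
      by_contra e'
      have := congrArg (coeff (d - Finsupp.single i 1))
        (congrFun (congrFun (e2 i).2 ∅) g)
      change coeff _ (divMonomial _ _) = 0 at this
      rw [coeff_divMonomial, add_tsub_cancel_of_le (by simpa [Nat.one_le_iff_ne_zero] using e')]
        at this
      exact mem_support_iff.1 hd this
    simp [this] at e
    omega
  · have := congrFun (e2 i).1 (s.erase i)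
    rw [fI_apply, if_neg (by simp), Finset.insert_erase hi] at this
    have := congrArg (sgn (s.erase i) i • ·) this
    simp only [smul_smul, sgn_mul_self, one_smul, Pi.zero_apply, smul_zero] at this
    simp [this]

lemma pos_grS (𝒮 : Glob k (EA r p)) : ¬ ∀ᶠ t in atTop, 𝒮.S ((TT p (grS k r)).Z t).cl = 0 := by
  have h0 : 0 < 𝒮.S ((TT p (grS k r)).Z 0).cl := by
    have := ((TT p (grS k r)).Z 0).fin
    have h1 : ((TT p (grS k r)).Z 0).cl = (Obj.triv ((TT p (grS k r)).Z 0).V).cl := by
      refine Obj.Iso.cl_eq ⟨LinearEquiv.refl _ _, fun g ⟨v, hv⟩ => Subtype.ext (funext fun s => ?_)⟩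
      have e1 : ∀ s, s ≠ ∅ → v s = 0 := fun s hs => funext fun g => by
        refine (congrFun (congrFun hv.1 s) g).symm.trans
          (weightedHomogeneousComponent_eq_zero' _ _ fun d hd e => ?_)
        have := Finset.card_pos.2 (Finset.nonempty_iff_ne_empty.2 hs)
        have e2 : 0 ≤ Finsupp.weight (fun _ => (2 : ℤ)) d := by
          rw [Finsupp.weight_apply]; exact Finset.sum_nonneg fun _ _ => by positivity
        omega
      change trH (MvPolynomial (Fin r) k) _ g (v s) = v s
      rcases eq_or_ne s ∅ with rfl | hs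
      · refine fix_of_gen _ (fun i => sub_eq_zero.1 ?_) g
        have := congrFun (show dG _ _ v = 0 from hv.2) {i}
        rw [dG_apply, Finset.sum_eq_single i (fun j _ hj => by
          rw [if_neg (by simpa using hj), e1 _ (by simp)]; simp) (by simp)] at this
        simpa [sgn, Finset.filter_singleton, xs] using this
      · rw [e1 s hs, map_zero]
    have h2 : Nontrivial ((TT p (grS k r)).Z 0).V := by
      refine ⟨⟨⟨Pi.single ∅ 1, funext fun s => funext fun g => ?_, funext fun s => ?_⟩, 0,
        fun e => ?_⟩⟩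
      · change (grS k r).π (0 + -s.card) (Pi.single (M := fun _ => EA r p → _) ∅ 1 s g) =
          Pi.single (M := fun _ => EA r p → _) ∅ 1 s g
        rcases eq_or_ne s ∅ with rfl | hs
        · simpa using (grS k r).one
        · simp [hs]
      · change dG _ _ _ s = 0
        rw [dG_apply]
        refine Finset.sum_eq_zero fun i _ => ?_
        split_ifs
        · rw [Pi.single_apply]
          split_ifs
          · exact smul_eq_zero_of_right _ (sub_self _)
          · simp
        · simp
      · simpa using congrFun (congrFun (congrArg Subtype.val e) ∅) 1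
    rw [h1, Obj.cl_triv _ _ rfl, map_natCast]
    exact_mod_cast finrank_pos
  have h1 : ∀ n : ℕ, 0 < 𝒮.S ((TT p (grS k r)).Z n).cl := fun n => by
    induction n with
    | zero => exact h0
    | succ n ih =>
      have := 𝒮.left (ses_V (ex_grS (p := p) (k := k) (r := r) (Int.natCast_nonneg n)))
      obtain ⟨z, hz⟩ := cl_TT_top (p := p) (Γ := grS k r) n
      rw [hz, map_mul, 𝒮.reg, zero_mul, zero_add] at this
      exact pos_of_mul_pos_left (mul_comm (Nat.card _ : ℝ) _ ▸ ih.trans_le this) (Nat.cast_nonneg _)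
  intro h
  obtain ⟨n, hn⟩ := (tendsto_natCast_atTop_atTop.eventually h).exists
  exact (h1 n).ne' hn

end Pool.Agent.Lib.MP_13b5a2_al
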