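import Pool.Agent.Lib.MP_13b5a2_al.Bound2
import Pool.Agent.Lib.MP_13b5a2_al.Noeth
import Pool.Agent.Lib.MP_13b5a2_al.Pos
import Pool.Agent.Lib.MP_13b5a2_al.Loc2
import Pool.Agent.Lib.MP_13b5a2_al.Classify
import Pool.Agent.Lib.MP_13b5a2_al.Final

/-! The local to global principle and the classification of small values. -/

universe u

namespace Pool.Agent.Lib.MP_13b5a2_al

open Real

variable {k : Type u} [Field k] {r p : ℕ} [Fact p.Prime] [CharP k p]

theorem exists_chr (a : Cl k (EA r p)) (h0 : 0 < gr fun n => kap (a ^ n)) :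
    ∃ (K : Type u) (_ : Field K) (_ : IsAlgClosed K) (_ : CharP K p) (_ : Algebra k K)
      (χ : Chr K (EA r p)), χ.s (Cl.bc K a) = gr fun n => kap (a ^ n) := by
  obtain ⟨𝒮, hS⟩ := exists_Glob isPGroup_ea h0
  obtain ⟨I, h, hI, i, hi, C, hC⟩ := exists_prime (𝒮 := 𝒮) (Γ := grS k r) (pos_grS 𝒮)
  let R := MvPolynomial (Fin r) k ⧸ I
  let K := AlgebraicClosure (FractionRing R)
  have hK : CharP K p := charP_of_injective_algebraMap (algebraMap k K).injective p
  have hinj : Function.Injective (algebraMap R K) := by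
    rw [IsScalarTower.algebraMap_eq R (FractionRing R) K]
    exact (algebraMap (FractionRing R) K).injective.comp (IsFractionRing.injective R _)
  choose α hα using fun j => IsAlgClosed.exists_pow_nat_eq (algebraMap R K ((Gr.quot h).η j))
    (Fact.out : p.Prime).pos
  have h1 : α i ≠ 0 := fun e => hi (Ideal.Quotient.eq_zero_iff_mem.1 (hinj (by
    rw [map_zero]; exact (hα i).symm.trans (by rw [e, zero_pow (Fact.out : p.Prime).ne_zero]))))
  obtain ⟨C1, h2⟩ := nn_le (Gr.quot h) hinj hα h1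
  obtain ⟨χ, C2, h3⟩ := exists_local (p := p) h1
  have h4 : ∀ y, 𝒮.S y ≤ (C * C1 * C2 : ℝ) * χ.s (Cl.bc K y) := fun y => by
    obtain ⟨n, D, rfl⟩ := exists_dat y
    refine (hC n D.μ D.μ' D.h).trans ((Nat.cast_le.2 (Nat.mul_le_mul_left C (h2 n D.μ))).trans ?_)
    push_cast
    rw [mul_assoc, mul_assoc]
    exact mul_le_mul_of_nonneg_left (mul_le_mul_of_nonneg_left (h3 _).1 (Nat.cast_nonneg _))
      (Nat.cast_nonneg _)
  refine ⟨K, inferInstance, inferInstance, hK, inferInstance, χ, le_antisymm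
    (le_gr (up_kap a) fun β ⟨hβ, C3, h5⟩ => le_of_pow_le (K := |C2| * (2 * C3)) hβ fun n => ?_)
    (hS ▸ le_of_pow_le (K := C * C1 * C2) (χ.nn _) fun n => ?_)⟩
  · rw [← map_pow, ← map_pow, mul_assoc, mul_assoc]
    refine (h3 _).2.trans (mul_le_mul (le_abs_self _) ?_ (Nat.cast_nonneg _) (abs_nonneg _))
    refine (Nat.cast_le.2 (nuA_bc_le K h1 _)).trans ?_
    push_cast
    exact mul_le_mul_of_nonneg_left (h5 n) zero_le_two
  · rw [← map_pow, ← map_pow, ← map_pow]
    exact h4 _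

theorem gamma_eq_cos {G : Type} [Group G] [Finite G] (M : FDRep k G) (h1 : 1 < gamma M)
    (h2 : gamma M < 2) : ∃ r : ℕ, gamma M = 2 * cos (π / p ^ r) := by
  obtain ⟨r, φ, -, e⟩ := gamma_eq_ea (p := p) M
  rw [e] at h1 h2 ⊢
  obtain ⟨K, _, _, _, _, χ, e'⟩ := exists_chr _ (zero_lt_one.trans h1)
  rw [← e'] at h1 h2 ⊢
  exact χ.classify _ h1 h2

lemma four_le_of_one_lt {n : ℕ} (hn : 0 < n) (h : 1 < 2 * cos (π / n)) : 4 ≤ n := by
  by_contra! e
  have h3 : (n : ℝ) ≤ 3 := by exact_mod_cast Nat.lt_succ_iff.1 e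
  have h4 : (1 : ℝ) ≤ n := by exact_mod_cast hn
  have := cos_le_cos_of_nonneg_of_le_pi (x := π / 3) (y := π / n) (by positivity)
    (div_le_self pi_pos.le h4) (by gcongr)
  rw [cos_pi_div_three] at this
  linarith

lemma eq_of_cos_eq {m n : ℕ} (hm : 0 < m) (hn : 0 < n) (h : 2 * cos (π / m) = 2 * cos (π / n)) :
    m = n := by
  have h1 : (1 : ℝ) ≤ m := by exact_mod_cast hm
  have h2 : (1 : ℝ) ≤ n := by exact_mod_cast hn
  have := injOn_cos ⟨by positivity, div_le_self pi_pos.le h1⟩ ⟨by positivity,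
    div_le_self pi_pos.le h2⟩ (mul_left_cancel₀ two_ne_zero h)
  rw [div_eq_div_iff (by positivity) (by positivity)] at this
  exact_mod_cast (mul_left_cancel₀ pi_ne_zero this).symm

end Pool.Agent.Lib.MP_13b5a2_al
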