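import Pool.Agent.Lib.MP_13b5a2_al.Weights

/-! Particle configurations and vanishing of the character. -/

universe u

namespace Pool.Agent.Lib.MP_13b5a2_al

open Module Filter Obj Gob

/-- An embedding of the prime field up to sign. -/
structure Emb (p : ℕ) (k : Type u) [Field k] where
  τ : ZMod p →+ k
  inj : Function.Injective τ
  one : τ 1 = 1 ∨ τ 1 = -1

variable {k : Type u} [Field k] {G : Type} [Group G] {ι : Type} [Fintype ι] [DecidableEq ι]
  {p : ℕ} [Fact p.Prime]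

namespace Emb

variable (t : Emb p k)

/-- The weight of a configuration. -/
noncomputable def wt (c : ZMod p → ℤ) : k →₀ ℤ := ∑ i, Finsupp.single (t.τ i) (c i - c (i + 1))

lemma wt_apply (c : ZMod p → ℤ) (i : ZMod p) : t.wt c (t.τ i) = c i - c (i + 1) := by
  classical
  simp [wt, Finsupp.finset_sum_apply, Finsupp.single_apply, t.inj.eq_iff]

lemma wt_apply_of_not (c : ZMod p → ℤ) {a : k} (h : ∀ i, t.τ i ≠ a) : t.wt c a = 0 := by
  classical
  simp [wt, Finsupp.finset_sum_apply, Finsupp.single_apply, h]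

lemma sum_diff (c : ZMod p → ℤ) : ∑ i, (c i - c (i + 1)) = 0 := by
  rw [Finset.sum_sub_distrib, sub_eq_zero]
  exact (Fintype.sum_equiv (Equiv.addRight 1) _ _ fun _ => rfl).symm

lemma degree_wt (c : ZMod p → ℤ) : (t.wt c).degree = 0 := by
  simp only [wt, map_sum, Finsupp.degree_single, sum_diff]

lemma wt_add (c c' : ZMod p → ℤ) : t.wt (c + c') = t.wt c + t.wt c' := by
  simp only [wt, ← Finset.sum_add_distrib, ← Finsupp.single_add, Pi.add_apply]
  exact Finset.sum_congr rfl fun _ _ => by congr 1; ring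

lemma wt_sub (c c' : ZMod p → ℤ) : t.wt (c - c') = t.wt c - t.wt c' := by
  rw [eq_sub_iff_add_eq, ← wt_add, sub_add_cancel]

lemma wt_single (i : ZMod p) :
    t.wt (Pi.single i 1) = Finsupp.single (t.τ i) 1 - Finsupp.single (t.τ (i - 1)) 1 := by
  simp only [wt, Finsupp.single_sub, Finset.sum_sub_distrib, Pi.single_apply,
    apply_ite (Finsupp.single _), Finsupp.single_zero, Finset.sum_ite_eq', Finset.mem_univ,
    if_true, ← eq_sub_iff_add_eq]

lemma rt_eq (i : ZMod p) : rt (t.τ i) = t.wt (Pi.single i 1 - Pi.single (i + 1) 1) := by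
  rw [wt_sub, wt_single, wt_single, add_sub_cancel_right, map_sub, map_add, rt]
  have : (Finsupp.single (t.τ i) 2 : k →₀ ℤ) =
      Finsupp.single (t.τ i) 1 + Finsupp.single (t.τ i) 1 := by
    rw [← Finsupp.single_add]; rfl
  rw [this, Finsupp.single_neg, Finsupp.single_neg]
  rcases t.one with h | h
  · rw [h]; abel
  · rw [h, sub_neg_eq_add, ← sub_eq_add_neg (t.τ i)]; abel

lemma not_range {a : k} (h : ∀ i, t.τ i ≠ a) : (∀ i, t.τ i ≠ a + 1) ∧ ∀ i, t.τ i ≠ a - 1 := by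
  rcases t.one with e | e
  · exact ⟨fun i hi => h (i - 1) (by rw [map_sub, hi, e]; ring),
      fun i hi => h (i + 1) (by rw [map_add, hi, e]; ring)⟩
  · exact ⟨fun i hi => h (i + 1) (by rw [map_add, hi, e]; ring),
      fun i hi => h (i - 1) (by rw [map_sub, hi, e]; ring)⟩

end Emb

/-- Moving a particle up. -/
def mvF (c : ZMod p → ℤ) (i : ZMod p) : ZMod p → ℤ := c - (Pi.single i 1 - Pi.single (i + 1) 1)

/-- Moving a particle down. -/
def mvE (c : ZMod p → ℤ) (i : ZMod p) : ZMod p → ℤ := c + (Pi.single i 1 - Pi.single (i + 1) 1)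

lemma succ_ne (i : ZMod p) : i + 1 ≠ i := by simp

lemma sum_mvF (c : ZMod p → ℤ) (i : ZMod p) : ∑ j, mvF c i j = ∑ j, c j := by
  simp [mvF, Finset.sum_sub_distrib]

lemma sum_mvE (c : ZMod p → ℤ) (i : ZMod p) : ∑ j, mvE c i j = ∑ j, c j := by
  simp [mvE, Finset.sum_sub_distrib, Finset.sum_add_distrib]

lemma mvF_self (c : ZMod p → ℤ) (i : ZMod p) : mvF c i i = c i - 1 := by simp [mvF]
lemma mvF_succ (c : ZMod p → ℤ) (i : ZMod p) : mvF c i (i + 1) = c (i + 1) + 1 := by simp [mvF]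
lemma mvE_self (c : ZMod p → ℤ) (i : ZMod p) : mvE c i i = c i + 1 := by simp [mvE]
lemma mvE_succ (c : ZMod p → ℤ) (i : ZMod p) : mvE c i (i + 1) = c (i + 1) - 1 := by
  simp [mvE, sub_eq_add_neg]
lemma mvF_of_ne (c : ZMod p → ℤ) {i j : ZMod p} (h : j ≠ i) (h' : j ≠ i + 1) :
    mvF c i j = c j := by simp [mvF, h, h']
lemma mvE_of_ne (c : ZMod p → ℤ) {i j : ZMod p} (h : j ≠ i) (h' : j ≠ i + 1) :
    mvE c i j = c j := by simp [mvE, h, h']

variable {D : Dat k G ι} {t : Emb p k}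

lemma Gob.Wt.mvF {Y : Gob D} {c : ZMod p → ℤ} (h : Y.Wt (t.wt c)) (i : ZMod p) :
    (Y.Fa (t.τ i)).Wt (t.wt (mvF c i)) := by
  rw [Pool.Agent.Lib.MP_13b5a2_al.mvF, t.wt_sub, ← t.rt_eq]; exact h.Fa _

lemma Gob.Wt.mvE {Y : Gob D} {c : ZMod p → ℤ} (h : Y.Wt (t.wt c)) (i : ZMod p) :
    (Y.Ea (t.τ i)).Wt (t.wt (mvE c i)) := by
  rw [Pool.Agent.Lib.MP_13b5a2_al.mvE, t.wt_add, ← t.rt_eq]; exact h.Ea _

lemma eq_comp_swap {c c' : ZMod p → ℤ} {i : ZMod p} (h1 : c' i = c (i + 1)) (h2 : c' (i + 1) = c i)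
    (h3 : ∀ j, j ≠ i → j ≠ i + 1 → c' j = c j) : c' = c ∘ Equiv.swap i (i + 1) := by
  ext j
  by_cases e1 : j = i
  · subst e1; simp [h1]
  by_cases e2 : j = i + 1
  · subst e2; simp [h2]
  simp [Equiv.swap_apply_of_ne_of_ne e1 e2, h3 j e1 e2]

lemma exists_perm {n : ℕ} (g : Fin n → ZMod p) (hg : Function.Injective g) :
    ∃ σ : Equiv.Perm (ZMod p), ∀ j : Fin n, σ ((j : ℕ) : ZMod p) = g j := by
  have hn : n ≤ p := by simpa using Fintype.card_le_of_injective g hg
  refine Equiv.Perm.exists_extending_pair _ g (fun a b h => Fin.ext ?_) hg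
  exact CharP.natCast_injOn_Iio (ZMod p) p (a.2.trans_le hn) (b.2.trans_le hn) h

lemma perm_closed_fin {n : ℕ} (P : (Fin (n + 1) → ℤ) → Prop)
    (hP : ∀ c i, P c → P (c ∘ Equiv.swap i (i + 1))) (σ : Equiv.Perm (Fin (n + 1))) :
    ∀ c, P c → P (c ∘ σ) := by
  have hσ : σ ∈ Submonoid.closure
      (Set.range fun i : Fin n => Equiv.swap i.castSucc i.succ) := by
    rw [Equiv.Perm.mclosure_swap_castSucc_succ]; trivial
  induction hσ using Submonoid.closure_induction with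
  | mem x hx' =>
    obtain ⟨i, rfl⟩ := hx'
    intro c h
    have := hP c i.castSucc h
    rwa [Fin.coeSucc_eq_succ] at this
  | one => exact fun c h => h
  | mul x y _ _ h1 h2 => exact fun c h => h2 _ (h1 c h)

lemma perm_closed (P : (ZMod p → ℤ) → Prop)
    (hP : ∀ c i, P c → P (c ∘ Equiv.swap i (i + 1))) (σ : Equiv.Perm (ZMod p)) :
    ∀ c, P c → P (c ∘ σ) := by
  obtain ⟨n, hn⟩ : ∃ n, p = n + 1 := ⟨p - 1, by have := (Fact.out : p.Prime).pos; omega⟩
  subst hn
  exact perm_closed_fin P (fun c i h => hP c i h) σ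

namespace Chr

variable (χ : Chr k G) (D) (t)

/-- Configurations realised by an object with positive character. -/
def Pos (c : ZMod p → ℤ) : Prop := ∃ Y : Gob D, Y.Wt (t.wt c) ∧ 0 < χ.s Y.X.cl

variable {χ D t} [IsAlgClosed k] (hx : χ.s D.M < 2)
include hx

lemma Pos.bound {c : ZMod p → ℤ} (h : χ.Pos D t c) (T : Finset (ZMod p)) :
    ∑ i ∈ T, (c i - c (i + 1)) ≤ 2 := by
  obtain ⟨Y, hY, hp⟩ := h
  by_contra hc
  refine hx.not_ge (χ.two_le_of_three hY (t.degree_wt c) hp (T.map ⟨t.τ, t.inj⟩) ?_)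
  rw [Finset.sum_map]
  simp only [Function.Embedding.coeFn_mk, t.wt_apply]
  omega

lemma Pos.swap {c : ZMod p → ℤ} (h : χ.Pos D t c) (i : ZMod p) :
    χ.Pos D t (c ∘ Equiv.swap i (i + 1)) := by
  have h1 : c i - c (i + 1) ≤ 2 := by simpa using h.bound hx {i}
  have h2 : -2 ≤ c i - c (i + 1) := by
    have := h.bound hx (Finset.univ.erase i)
    have e := Finset.add_sum_erase Finset.univ (fun i => c i - c (i + 1)) (Finset.mem_univ i)
    rw [Emb.sum_diff] at e
    omega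
  obtain ⟨Y, hY, hp⟩ := h
  have hw := t.wt_apply c i
  have pF : 0 < c i - c (i + 1) → 0 < χ.s (Y.Fa (t.τ i)).X.cl := fun h0 => by
    refine χ.pos_of_Ea (lt_of_lt_of_le ?_ (χ.le_EF hY (a := t.τ i) (by omega)))
    exact mul_pos (by rw [hw]; exact_mod_cast h0) hp
  have pE : c i - c (i + 1) < 0 → 0 < χ.s (Y.Ea (t.τ i)).X.cl := fun h0 => by
    refine χ.pos_of_Fa (lt_of_lt_of_le ?_ (χ.le_FE hY (a := t.τ i) (by omega)))
    exact mul_pos (by rw [hw, neg_pos]; exact_mod_cast h0) hp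
  obtain e | e | e | e | e : c i - c (i + 1) = 0 ∨ c i - c (i + 1) = 1 ∨ c i - c (i + 1) = -1 ∨
      c i - c (i + 1) = 2 ∨ c i - c (i + 1) = -2 := by omega
  · rw [← eq_comp_swap (c' := c) (by omega) (by omega) fun _ _ _ => rfl]
    exact ⟨Y, hY, hp⟩
  · rw [← eq_comp_swap (c' := mvF c i) (by rw [mvF_self]; omega) (by rw [mvF_succ]; omega)
      fun _ => mvF_of_ne c]
    exact ⟨_, hY.mvF i, pF (by omega)⟩
  · rw [← eq_comp_swap (c' := mvE c i) (by rw [mvE_self]; omega) (by rw [mvE_succ]; omega)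
      fun _ => mvE_of_ne c]
    exact ⟨_, hY.mvE i, pE (by omega)⟩
  · rw [← eq_comp_swap (c' := mvF (mvF c i) i) (by rw [mvF_self, mvF_self]; omega)
      (by rw [mvF_succ, mvF_succ]; omega)
      fun _ h h' => by rw [mvF_of_ne _ h h', mvF_of_ne _ h h']]
    refine ⟨_, (hY.mvF i).mvF i, χ.pos_of_Ea (a := t.τ i) ?_⟩
    have r := ((hY.EF_pos (a := t.τ i) (n := 2) (by omega)).2 (by norm_num)).Fa (t.τ i)
    have e2 := ((hY.mvF i).EF_pos (a := t.τ i) (n := 0)
      (by rw [t.wt_apply, mvF_self, mvF_succ]; omega)).1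
    rw [e2, Nat.cast_zero, zero_mul, add_zero]
    exact (pF (by omega)).trans_le (χ.retract_le r)
  · rw [← eq_comp_swap (c' := mvE (mvE c i) i) (by rw [mvE_self, mvE_self]; omega)
      (by rw [mvE_succ, mvE_succ]; omega)
      fun _ h h' => by rw [mvE_of_ne _ h h', mvE_of_ne _ h h']]
    refine ⟨_, (hY.mvE i).mvE i, χ.pos_of_Fa (a := t.τ i) ?_⟩
    have r := ((hY.EF_neg (a := t.τ i) (n := 2) (by omega)).2 (by norm_num)).Ea (t.τ i)
    have e2 := ((hY.mvE i).EF_neg (a := t.τ i) (n := 0)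
      (by rw [t.wt_apply, mvE_self, mvE_succ]; omega)).1
    rw [e2, Nat.cast_zero, zero_mul, add_zero]
    exact (pE (by omega)).trans_le (χ.retract_le r)

lemma Pos.perm (σ : Equiv.Perm (ZMod p)) {c : ZMod p → ℤ} (h : χ.Pos D t c) :
    χ.Pos D t (c ∘ σ) := perm_closed (χ.Pos D t) (fun _ i h => h.swap hx i) σ c h

lemma Pos.one_pair {c : ZMod p → ℤ} (h : χ.Pos D t c) (i j : ZMod p) : c i - c j ≤ 2 := by
  by_cases e : i = j
  · subst e; simp
  obtain ⟨σ, hσ⟩ := exists_perm ![i, j] (by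
    intro a b; fin_cases a <;> fin_cases b <;> simp [e, Ne.symm e])
  have := (Pos.perm hx σ h).bound hx {0}
  have h0 : σ 0 = i := by simpa using hσ 0
  have h1 : σ 1 = j := by simpa using hσ 1
  simpa [h0, h1] using this

lemma Pos.two_pairs {c : ZMod p → ℤ} (h : χ.Pos D t c) (g : Fin 4 → ZMod p)
    (hg : Function.Injective g) : c (g 0) - c (g 1) + (c (g 2) - c (g 3)) ≤ 2 := by
  obtain ⟨σ, hσ⟩ := exists_perm g hg
  have := (Pos.perm hx σ h).bound hx {((0 : ℕ) : ZMod p), ((2 : ℕ) : ZMod p)}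
  have h0 := hσ 0
  have h1 := hσ 1
  have h2 := hσ 2
  have h3 := hσ 3
  rw [Finset.sum_pair (fun e => by
    have := hg ((h0.symm.trans (congrArg σ e)).trans h2); simp at this)] at this
  simp only [Function.comp_apply, ← Nat.cast_succ] at this
  rw [← h0, ← h1, ← h2, ← h3]
  exact this

lemma Pos.three_pairs {c : ZMod p → ℤ} (h : χ.Pos D t c) (g : Fin 6 → ZMod p)
    (hg : Function.Injective g) :
    c (g 0) - c (g 1) + (c (g 2) - c (g 3) + (c (g 4) - c (g 5))) ≤ 2 := by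
  obtain ⟨σ, hσ⟩ := exists_perm g hg
  have := (Pos.perm hx σ h).bound hx {((0 : ℕ) : ZMod p), ((2 : ℕ) : ZMod p), ((4 : ℕ) : ZMod p)}
  have h0 := hσ 0
  have h1 := hσ 1
  have h2 := hσ 2
  have h3 := hσ 3
  have h4 := hσ 4
  have h5 := hσ 5
  rw [Finset.sum_insert (by
    simp only [Finset.mem_insert, Finset.mem_singleton, not_or]
    exact ⟨fun e => by have := hg ((h0.symm.trans (congrArg σ e)).trans h2); simp at this,
      fun e => by have := hg ((h0.symm.trans (congrArg σ e)).trans h4); simp at this⟩),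
    Finset.sum_pair (fun e => by
    have := hg ((h2.symm.trans (congrArg σ e)).trans h4); simp at this)] at this
  simp only [Function.comp_apply, ← Nat.cast_succ] at this
  rw [← h0, ← h1, ← h2, ← h3, ← h4, ← h5]
  exact this

lemma Pos.nonneg {c : ZMod p → ℤ} (h : χ.Pos D t c)
    (hs : ∑ i, c i = 2 ∨ (∑ i, c i = 1 ∧ p ≠ 3)) (a : ZMod p) : 0 ≤ c a := by
  by_contra ha
  have h1 : ∀ i, c i ≤ 1 := fun i => by have := h.one_pair hx i a; omega
  let A := Finset.univ.filter fun i => c i = 1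
  have hA : ∑ i, c i ≤ A.card - 1 := by
    rw [← Finset.add_sum_erase _ _ (Finset.mem_univ a)]
    have : ∑ i ∈ Finset.univ.erase a, c i ≤ ∑ i, if c i = 1 then (1 : ℤ) else 0 := by
      refine le_trans (Finset.sum_le_sum fun i _ => ?_)
        (Finset.sum_le_sum_of_subset_of_nonneg (Finset.erase_subset a _) fun i _ _ => ?_)
      · have := h1 i; split_ifs <;> omega
      · split_ifs <;> omega
    rw [Finset.sum_boole] at this
    change _ ≤ (A.card : ℤ) at this
    omega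
  obtain ⟨i, hi, j, hj, hij⟩ := Finset.one_lt_card.1 (show 1 < A.card by omega)
  have ci : c i = 1 := (Finset.mem_filter.1 hi).2
  have cj : c j = 1 := (Finset.mem_filter.1 hj).2
  have ca : c a = -1 := by have := h.one_pair hx i a; omega
  have h2 : ∀ b, b ≠ a → c b = 1 := fun b hb => by
    by_contra hb1
    have hb2 := h1 b
    have e1 : i ≠ a := fun e => by rw [e] at ci; omega
    have e2 : j ≠ a := fun e => by rw [e] at cj; omega
    have e3 : i ≠ b := fun e => by rw [e] at ci; omega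
    have e4 : j ≠ b := fun e => by rw [e] at cj; omega
    have := h.two_pairs hx ![i, a, j, b] (by
      intro x y
      fin_cases x <;> fin_cases y <;>
        simp [e1, e2, e3, e4, hij, hb, e1.symm, e2.symm, e3.symm, e4.symm, hij.symm, hb.symm])
    simp only [Matrix.cons_val_zero, Matrix.cons_val_one, Matrix.cons_val] at this
    omega
  have h3 : ∑ i, c i = p - 2 := by
    rw [← Finset.add_sum_erase _ _ (Finset.mem_univ a),
      Finset.sum_congr rfl fun b hb => h2 b (Finset.ne_of_mem_erase hb), Finset.sum_const,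
      Finset.card_erase_of_mem (Finset.mem_univ _), Finset.card_univ, ZMod.card, ca]
    have := (Fact.out : p.Prime).pos
    simp only [nsmul_eq_mul, mul_one]
    omega
  rcases hs with hs | hs
  · have : p = 4 := by omega
    exact absurd (this ▸ (Fact.out : p.Prime)) (by norm_num)
  · omega

lemma null_of_neg {Y : Gob D} {c : ZMod p → ℤ} (h : Y.Wt (t.wt c))
    (hs : ∑ i, c i = 2 ∨ (∑ i, c i = 1 ∧ p ≠ 3)) {a : ZMod p} (ha : c a < 0) : χ.s Y.X.cl = 0 := by
  by_contra h0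
  exact ha.not_ge (Pos.nonneg hx ⟨Y, h, lt_of_le_of_ne (χ.nn _) (Ne.symm h0)⟩ hs a)

omit hx [IsAlgClosed k] in
lemma exists_drop {c : ZMod p → ℤ} (h : ∃ i j, c i ≠ c j) : ∃ i, c (i + 1) < c i := by
  by_contra hc
  push Not at hc
  have h1 := (Finset.sum_eq_zero_iff_of_nonpos (s := Finset.univ)
    (f := fun i => c i - c (i + 1)) fun i _ => by have := hc i; omega).1 (Emb.sum_diff c)
  have h2 : ∀ n : ℕ, c n = c 0 := fun n => by
    induction n with
    | zero => simp
    | succ n ih => have := h1 n (Finset.mem_univ _); push_cast; omega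
  obtain ⟨i, j, hij⟩ := h
  rw [← ZMod.natCast_zmod_val i, ← ZMod.natCast_zmod_val j, h2, h2] at hij
  exact hij rfl

theorem decomp_F {A : Type*} [CommRing A] (φ : Cl k G →+* A) (hφ : ∀ a, χ.s a = 0 → φ a = 0)
    {Y : Gob D} {c : ZMod p → ℤ} (h : Y.Wt (t.wt c))
    (hs : ∑ i, c i = 2 ∨ (∑ i, c i = 1 ∧ p ≠ 3)) (hc : ∃ i j, c i ≠ c j) (T : Finset (ZMod p))
    (hT : ∀ i ∉ T, c i ≤ 0) : φ D.M * φ Y.X.cl = ∑ i ∈ T, φ (Y.Fa (t.τ i)).X.cl := by
  classical
  obtain ⟨S, hS⟩ := Y.exists_sum_Fa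
  rw [← map_mul, hS (S ∪ T.map ⟨t.τ, t.inj⟩) Finset.subset_union_left, map_sum,
    ← Finset.sum_subset Finset.subset_union_right fun a _ ha => hφ _ ?_, Finset.sum_map]
  · rfl
  by_cases e : ∃ i, t.τ i = a
  · obtain ⟨i, rfl⟩ := e
    have := hT i fun hi => ha (Finset.mem_map_of_mem _ hi)
    exact null_of_neg hx (h.mvF i) (by rwa [sum_mvF]) (a := i) (by rw [mvF_self]; omega)
  · push Not at e
    obtain ⟨i, hi⟩ := exists_drop hc
    by_contra h0
    refine hx.not_ge (χ.two_le_of_three (h.Fa a) (by rw [map_sub, t.degree_wt, degree_rt]; rfl)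
      (lt_of_le_of_ne (χ.nn _) (Ne.symm h0)) {t.τ i, a + 1, a - 1} ?_)
    simp only [Finsupp.sub_apply, Finset.sum_sub_distrib, sum_rt]
    rw [← Finset.sum_subset (s₁ := {t.τ i}) (by simp) (fun b hb hb' => by
      simp only [Finset.mem_insert, Finset.mem_singleton] at hb hb'
      rcases hb with hb | rfl | rfl
      · exact absurd hb hb'
      · exact t.wt_apply_of_not c (t.not_range e).1
      · exact t.wt_apply_of_not c (t.not_range e).2), Finset.sum_singleton, t.wt_apply]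
    have : a ≠ a - 1 := fun h => by simpa [sub_eq_add_neg] using h
    simp [(e i).symm, this]
    omega

theorem decomp_E {A : Type*} [CommRing A] (φ : Cl k G →+* A) (hφ : ∀ a, χ.s a = 0 → φ a = 0)
    {Y : Gob D} {c : ZMod p → ℤ} (h : Y.Wt (t.wt c))
    (hs : ∑ i, c i = 2 ∨ (∑ i, c i = 1 ∧ p ≠ 3)) (hc : ∃ i j, c i ≠ c j) (T : Finset (ZMod p))
    (hT : ∀ i ∉ T, c (i + 1) ≤ 0) : φ D.M' * φ Y.X.cl = ∑ i ∈ T, φ (Y.Ea (t.τ i)).X.cl := by
  classical
  obtain ⟨S, hS⟩ := Y.exists_sum_Ea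
  rw [← map_mul, hS (S ∪ T.map ⟨t.τ, t.inj⟩) Finset.subset_union_left, map_sum,
    ← Finset.sum_subset Finset.subset_union_right fun a _ ha => hφ _ ?_, Finset.sum_map]
  · rfl
  by_cases e : ∃ i, t.τ i = a
  · obtain ⟨i, rfl⟩ := e
    have := hT i fun hi => ha (Finset.mem_map_of_mem _ hi)
    exact null_of_neg hx (h.mvE i) (by rwa [sum_mvE]) (a := i + 1) (by rw [mvE_succ]; omega)
  · push Not at e
    obtain ⟨i, hi⟩ := exists_drop hc
    by_contra h0
    refine hx.not_ge (χ.two_le_of_three (h.Ea a) (by rw [map_add, t.degree_wt, degree_rt]; rfl)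
      (lt_of_le_of_ne (χ.nn _) (Ne.symm h0)) {t.τ i, a} ?_)
    simp only [Finsupp.add_apply, Finset.sum_add_distrib, sum_rt]
    rw [Finset.sum_pair (e i), t.wt_apply, t.wt_apply_of_not c e]
    have : a - 1 ≠ a := fun h => by simpa [sub_eq_add_neg] using h
    simp [((t.not_range e).1 i).symm, ((t.not_range e).2 i).symm, this]
    omega

end Chr

end Pool.Agent.Lib.MP_13b5a2_al
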