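import Mathlib

/-! Bundled finite dimensional representations and the semiring of their isomorphism classes. -/

universe u

namespace Pool.Agent.Lib.MP_13b5a2_al

open TensorProduct Module

/-- A finite dimensional representation. -/
structure Obj (k : Type u) (G : Type) [Field k] [Monoid G] where
  V : Type u
  [acg : AddCommGroup V]
  [mod : Module k V]
  [fin : FiniteDimensional k V]
  ρ : Representation k G V

attribute [instance] Obj.acg Obj.mod Obj.fin

namespace Obj

variable {k : Type u} {G : Type} [Field k] [Monoid G]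

/-- Equivariance of a linear map. -/
def IsHom (X Y : Obj k G) (f : X.V →ₗ[k] Y.V) : Prop := ∀ g v, f (X.ρ g v) = Y.ρ g (f v)

lemma IsHom.id (X : Obj k G) : IsHom X X LinearMap.id := fun _ _ => rfl

lemma IsHom.comp {X Y Z : Obj k G} {f : Y.V →ₗ[k] Z.V} {g : X.V →ₗ[k] Y.V}
    (hf : IsHom Y Z f) (hg : IsHom X Y g) : IsHom X Z (f ∘ₗ g) := fun a v => by
  simp only [LinearMap.comp_apply]; rw [hg, hf]

lemma IsHom.symm {X Y : Obj k G} {e : X.V ≃ₗ[k] Y.V} (he : IsHom X Y e.toLinearMap) :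
    IsHom Y X e.symm.toLinearMap := fun g v => by
  apply e.injective
  have := he g (e.symm v)
  simp only [LinearEquiv.coe_coe, LinearEquiv.apply_symm_apply] at this ⊢
  exact this.symm

/-- Isomorphism of representations. -/
def Iso (X Y : Obj k G) : Prop := ∃ e : X.V ≃ₗ[k] Y.V, IsHom X Y e.toLinearMap

lemma Iso.refl (X : Obj k G) : Iso X X := ⟨LinearEquiv.refl _ _, fun _ _ => rfl⟩

lemma Iso.symm {X Y : Obj k G} (h : Iso X Y) : Iso Y X := by
  obtain ⟨e, he⟩ := h
  exact ⟨e.symm, he.symm⟩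

lemma Iso.trans {X Y Z : Obj k G} (h : Iso X Y) (h' : Iso Y Z) : Iso X Z := by
  obtain ⟨e, he⟩ := h
  obtain ⟨f, hf⟩ := h'
  exact ⟨e.trans f, hf.comp he⟩

lemma iso_of_bijective {X Y : Obj k G} {f : X.V →ₗ[k] Y.V} (hf : IsHom X Y f)
    (hb : Function.Bijective f) : Iso X Y := ⟨LinearEquiv.ofBijective f hb, hf⟩

/-- Dimension. -/
noncomputable def dim (X : Obj k G) : ℕ := finrank k X.V

lemma Iso.dim_eq {X Y : Obj k G} (h : Iso X Y) : X.dim = Y.dim := by
  obtain ⟨e, -⟩ := h
  exact e.finrank_eq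

/-- The zero representation. -/
abbrev zero : Obj k G := ⟨PUnit.{u+1}, Representation.trivial k G _⟩

/-- The trivial one dimensional representation. -/
abbrev one : Obj k G := ⟨k, Representation.trivial k G k⟩

/-- Direct sum. -/
noncomputable abbrev sum (X Y : Obj k G) : Obj k G := ⟨X.V × Y.V, X.ρ.prod Y.ρ⟩

/-- Tensor product. -/
noncomputable abbrev tensor (X Y : Obj k G) : Obj k G := ⟨X.V ⊗[k] Y.V, X.ρ.tprod Y.ρ⟩

@[simp] lemma sum_ρ (X Y : Obj k G) (g : G) (v : X.V × Y.V) :
    (X.sum Y).ρ g v = (X.ρ g v.1, Y.ρ g v.2) := rfl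

@[simp] lemma tensor_ρ (X Y : Obj k G) (g : G) (v : X.V) (w : Y.V) :
    (X.tensor Y).ρ g (v ⊗ₜ[k] w) = X.ρ g v ⊗ₜ[k] Y.ρ g w := rfl

lemma tensor_ρ' (X Y : Obj k G) (g : G) :
    (X.tensor Y).ρ g = TensorProduct.map (X.ρ g) (Y.ρ g) := rfl

@[simp] lemma one_ρ (g : G) (v : k) : (one : Obj k G).ρ g v = v := rfl

lemma isHom_tensor {X Y Z : Obj k G} {f : (X.tensor Y).V →ₗ[k] Z.V}
    (h : ∀ g v w, f (X.ρ g v ⊗ₜ[k] Y.ρ g w) = Z.ρ g (f (v ⊗ₜ[k] w))) :
    IsHom (X.tensor Y) Z f := by
  intro g t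
  induction t using TensorProduct.induction_on with
  | zero => simp
  | tmul v w => exact h g v w
  | add a b ha hb => simp only [map_add, ha, hb]

lemma IsHom.tensor {X Y X' Y' : Obj k G} {f : X.V →ₗ[k] X'.V} {g : Y.V →ₗ[k] Y'.V}
    (hf : IsHom X X' f) (hg : IsHom Y Y' g) :
    IsHom (X.tensor Y) (X'.tensor Y') (TensorProduct.map f g) :=
  isHom_tensor fun a v w => by
    change f (X.ρ a v) ⊗ₜ[k] g (Y.ρ a w) = X'.ρ a (f v) ⊗ₜ[k] Y'.ρ a (g w)
    rw [hf, hg]

lemma Iso.tensor {X Y X' Y' : Obj k G} (h : Iso X X') (h' : Iso Y Y') :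
    Iso (X.tensor Y) (X'.tensor Y') := by
  obtain ⟨e, he⟩ := h
  obtain ⟨f, hf⟩ := h'
  exact ⟨TensorProduct.congr e f, he.tensor hf⟩

lemma Iso.sum {X Y X' Y' : Obj k G} (h : Iso X X') (h' : Iso Y Y') :
    Iso (X.sum Y) (X'.sum Y') := by
  obtain ⟨e, he⟩ := h
  obtain ⟨f, hf⟩ := h'
  refine ⟨e.prodCongr f, fun g v => ?_⟩
  exact Prod.ext (he g v.1) (hf g v.2)

lemma sum_comm (X Y : Obj k G) : Iso (X.sum Y) (Y.sum X) :=
  ⟨LinearEquiv.prodComm k _ _, fun _ _ => rfl⟩

lemma sum_assoc (X Y Z : Obj k G) : Iso ((X.sum Y).sum Z) (X.sum (Y.sum Z)) :=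
  ⟨LinearEquiv.prodAssoc k _ _ _, fun _ _ => rfl⟩

lemma sum_zero (X : Obj k G) : Iso (X.sum zero) X :=
  ⟨LinearEquiv.prodUnique (R := k) (M := X.V) (M₂ := PUnit.{u+1}), fun _ _ => rfl⟩

lemma tensor_comm (X Y : Obj k G) : Iso (X.tensor Y) (Y.tensor X) :=
  ⟨TensorProduct.comm k _ _, isHom_tensor fun _ _ _ => rfl⟩

lemma tensor_assoc (X Y Z : Obj k G) : Iso ((X.tensor Y).tensor Z) (X.tensor (Y.tensor Z)) := by
  refine ⟨TensorProduct.assoc k _ _ _, isHom_tensor fun g t w => ?_⟩
  induction t using TensorProduct.induction_on with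
  | zero => simp
  | tmul a b => rfl
  | add a b ha hb => simp only [map_add, TensorProduct.add_tmul, ha, hb]

lemma one_tensor (X : Obj k G) : Iso (one.tensor X) X :=
  ⟨TensorProduct.lid k _, isHom_tensor fun g (v : k) w => by
    change v • X.ρ g w = X.ρ g (v • w)
    simp⟩

lemma tensor_sum (X Y Z : Obj k G) : Iso (X.tensor (Y.sum Z)) ((X.tensor Y).sum (X.tensor Z)) :=
  ⟨TensorProduct.prodRight k k X.V Y.V Z.V, isHom_tensor fun _ _ _ => rfl⟩

lemma iso_zero_of_subsingleton (X : Obj k G) [Subsingleton X.V] : Iso X zero := by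
  have : Unique X.V := uniqueOfSubsingleton 0
  have : Unique (zero : Obj k G).V := inferInstanceAs (Unique PUnit.{u+1})
  exact ⟨LinearEquiv.ofSubsingleton _ _, fun _ _ => Subsingleton.elim _ _⟩

lemma tensor_zero (X : Obj k G) : Iso (X.tensor zero) zero := by
  have : Subsingleton (X.tensor zero).V :=
    inferInstanceAs (Subsingleton (X.V ⊗[k] PUnit.{u+1}))
  exact iso_zero_of_subsingleton _

instance setoid : Setoid (Obj k G) := ⟨Iso, Iso.refl, Iso.symm, Iso.trans⟩

end Obj

/-- Isomorphism classes of representations. -/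
def Cl (k : Type u) (G : Type) [Field k] [Monoid G] := Quotient (Obj.setoid (k := k) (G := G))

variable {k : Type u} {G : Type} [Field k] [Monoid G]

/-- The class of a representation. -/
def Obj.cl (X : Obj k G) : Cl k G := Quotient.mk _ X

lemma Obj.cl_eq_iff {X Y : Obj k G} : X.cl = Y.cl ↔ X.Iso Y := Quotient.eq

lemma Obj.Iso.cl_eq {X Y : Obj k G} (h : X.Iso Y) : X.cl = Y.cl := Obj.cl_eq_iff.2 h

namespace Cl

@[elab_as_elim]
lemma ind {P : Cl k G → Prop} (h : ∀ X : Obj k G, P X.cl) (a : Cl k G) : P a := Quotient.ind h a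

noncomputable instance : Add (Cl k G) :=
  ⟨Quotient.map₂ Obj.sum fun _ _ h _ _ h' => Obj.Iso.sum h h'⟩
noncomputable instance : Mul (Cl k G) :=
  ⟨Quotient.map₂ Obj.tensor fun _ _ h _ _ h' => Obj.Iso.tensor h h'⟩
instance : Zero (Cl k G) := ⟨Obj.zero.cl⟩
instance : One (Cl k G) := ⟨Obj.one.cl⟩

lemma cl_sum (X Y : Obj k G) : (X.sum Y).cl = X.cl + Y.cl := rfl
lemma cl_tensor (X Y : Obj k G) : (X.tensor Y).cl = X.cl * Y.cl := rfl
lemma cl_zero : (Obj.zero : Obj k G).cl = 0 := rfl
lemma cl_one : (Obj.one : Obj k G).cl = 1 := rfl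

noncomputable instance : AddCommMonoid (Cl k G) where
  add_assoc a b c := by
    induction a using ind; induction b using ind; induction c using ind
    exact (Obj.sum_assoc _ _ _).cl_eq
  add_comm a b := by
    induction a using ind; induction b using ind
    exact (Obj.sum_comm _ _).cl_eq
  add_zero a := by
    induction a using ind
    exact (Obj.sum_zero _).cl_eq
  zero_add a := by
    induction a using ind
    exact ((Obj.sum_comm _ _).trans (Obj.sum_zero _)).cl_eq
  nsmul := nsmulRec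

noncomputable instance : CommMonoid (Cl k G) where
  mul_assoc a b c := by
    induction a using ind; induction b using ind; induction c using ind
    exact (Obj.tensor_assoc _ _ _).cl_eq
  mul_comm a b := by
    induction a using ind; induction b using ind
    exact (Obj.tensor_comm _ _).cl_eq
  one_mul a := by
    induction a using ind
    exact (Obj.one_tensor _).cl_eq
  mul_one a := by
    induction a using ind
    exact ((Obj.tensor_comm _ _).trans (Obj.one_tensor _)).cl_eq
  npow := npowRec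

lemma mul_add' (a b c : Cl k G) : a * (b + c) = a * b + a * c := by
  induction a using ind; induction b using ind; induction c using ind
  exact (Obj.tensor_sum _ _ _).cl_eq

lemma mul_zero' (a : Cl k G) : a * 0 = 0 := by
  induction a using ind
  exact (Obj.tensor_zero _).cl_eq

noncomputable instance : CommSemiring (Cl k G) where
  left_distrib := mul_add'
  right_distrib a b c := by rw [mul_comm, mul_add', mul_comm c, mul_comm c]
  mul_zero := mul_zero'
  zero_mul a := by rw [mul_comm, mul_zero']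

/-- Descend an isomorphism invariant to classes. -/
def lift {α : Sort*} (f : Obj k G → α) (h : ∀ X Y, X.Iso Y → f X = f Y) : Cl k G → α :=
  Quotient.lift f h

@[simp] lemma lift_cl {α : Sort*} (f : Obj k G → α) (h : ∀ X Y, X.Iso Y → f X = f Y)
    (X : Obj k G) : lift f h X.cl = f X := rfl

/-- Dimension of a class. -/
noncomputable def dim : Cl k G →+* ℕ where
  toFun := lift Obj.dim fun _ _ h => h.dim_eq
  map_one' := Module.finrank_self k
  map_zero' := Module.finrank_zero_of_subsingleton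
  map_mul' a b := by
    induction a using ind; induction b using ind
    exact Module.finrank_tensorProduct
  map_add' a b := by
    induction a using ind; induction b using ind
    exact Module.finrank_prod

@[simp] lemma dim_cl (X : Obj k G) : dim X.cl = X.dim := rfl

end Cl

namespace Obj

/-- Subrepresentation on an invariant subspace. -/
abbrev sub (X : Obj k G) (U : Submodule k X.V) (hU : ∀ g v, v ∈ U → X.ρ g v ∈ U) : Obj k G :=
  ⟨U, X.ρ.subrepresentation U fun g v hv => hU g v hv⟩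

/-- Quotient by an invariant subspace. -/
noncomputable abbrev quot (X : Obj k G) (U : Submodule k X.V)
    (hU : ∀ g v, v ∈ U → X.ρ g v ∈ U) : Obj k G :=
  ⟨X.V ⧸ U, X.ρ.quotient U fun g v hv => hU g v hv⟩

@[simp] lemma sub_ρ (X : Obj k G) (U : Submodule k X.V) (hU) (g : G) (v : U) :
    (((X.sub U hU).ρ g v : U) : X.V) = X.ρ g v := rfl

lemma isHom_subtype (X : Obj k G) (U : Submodule k X.V) (hU) :
    IsHom (X.sub U hU) X U.subtype := fun _ _ => rfl

lemma isHom_mkQ (X : Obj k G) (U : Submodule k X.V) (hU) :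
    IsHom X (X.quot U hU) U.mkQ := fun _ _ => rfl

lemma IsHom.ker_inv {X Y : Obj k G} {f : X.V →ₗ[k] Y.V} (hf : IsHom X Y f) :
    ∀ g v, v ∈ LinearMap.ker f → X.ρ g v ∈ LinearMap.ker f := fun g v hv => by
  rw [LinearMap.mem_ker] at hv ⊢
  rw [hf, hv, map_zero]

lemma IsHom.range_inv {X Y : Obj k G} {f : X.V →ₗ[k] Y.V} (hf : IsHom X Y f) :
    ∀ g v, v ∈ LinearMap.range f → Y.ρ g v ∈ LinearMap.range f := by
  rintro g _ ⟨v, rfl⟩
  exact ⟨X.ρ g v, hf g v⟩

lemma IsHom.codRestrict {X Y : Obj k G} {f : X.V →ₗ[k] Y.V} (hf : IsHom X Y f)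
    (U : Submodule k Y.V) (hU) (h : ∀ v, f v ∈ U) :
    IsHom X (Y.sub U hU) (f.codRestrict U h) := fun g v => Subtype.ext (hf g v)

lemma cl_of_isCompl (X : Obj k G) (U W : Submodule k X.V) (hU) (hW) (h : IsCompl U W) :
    X.cl = (X.sub U hU).cl + (X.sub W hW).cl := by
  refine (Iso.cl_eq (X := (X.sub U hU).sum (X.sub W hW))
    ⟨Submodule.prodEquivOfIsCompl U W h, fun g v => ?_⟩).symm
  change X.ρ g v.1.1 + X.ρ g v.2.1 = X.ρ g (v.1.1 + v.2.1)
  simp

/-- A short exact sequence with an equivariant retraction splits. -/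
lemma cl_of_retraction {A B C : Obj k G} {i : A.V →ₗ[k] B.V} {q : B.V →ₗ[k] C.V}
    {r : B.V →ₗ[k] A.V} (hq : IsHom B C q) (hr : IsHom B A r)
    (hri : ∀ a, r (i a) = a) (hex : Function.Exact i q) (hsurj : Function.Surjective q) :
    B.cl = A.cl + C.cl := by
  refine Iso.cl_eq (Y := A.sum C) (iso_of_bijective (f := r.prod q)
    (fun g v => Prod.ext (hr g v) (hq g v)) ⟨?_, ?_⟩)
  · rw [injective_iff_map_eq_zero]
    intro b hb
    have h1 : r b = 0 := congrArg Prod.fst hb
    have h2 : q b = 0 := congrArg Prod.snd hb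
    obtain ⟨a, rfl⟩ := (hex b).1 h2
    rw [hri] at h1
    rw [h1, map_zero]
  · rintro ⟨a, c⟩
    obtain ⟨b, rfl⟩ := hsurj c
    refine ⟨b + i (a - r b), Prod.ext ?_ ?_⟩
    · change r (b + i (a - r b)) = a
      rw [map_add, hri]; abel
    · change q (b + i (a - r b)) = q b
      rw [map_add, hex.apply_apply_eq_zero, add_zero]

/-- A short exact sequence with an equivariant section splits. -/
lemma cl_of_section {A B C : Obj k G} {i : A.V →ₗ[k] B.V} {q : B.V →ₗ[k] C.V}
    {s : C.V →ₗ[k] B.V} (hi : IsHom A B i) (hs : IsHom C B s)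
    (hqs : ∀ c, q (s c) = c) (hex : Function.Exact i q) (hinj : Function.Injective i) :
    B.cl = A.cl + C.cl := by
  refine (Iso.cl_eq (X := A.sum C) (iso_of_bijective (f := i.coprod s)
    (fun g v => ?_) ⟨?_, ?_⟩)).symm
  · change i (A.ρ g v.1) + s (C.ρ g v.2) = B.ρ g (i v.1 + s v.2)
    rw [hi, hs, map_add]
  · rw [injective_iff_map_eq_zero]
    rintro ⟨a, c⟩ h
    change i a + s c = 0 at h
    have h2 := congrArg q h
    rw [map_add, hex.apply_apply_eq_zero, hqs, zero_add, map_zero] at h2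
    subst h2
    rw [map_zero, add_zero] at h
    have : a = 0 := hinj (by rw [h, map_zero])
    subst this
    rfl
  · intro b
    obtain ⟨a, ha⟩ := (hex (b - s (q b))).1 (by rw [map_sub, hqs, sub_self])
    refine ⟨(a, q b), ?_⟩
    change i a + s (q b) = b
    rw [ha]; abel

/-- A retract is a direct summand. -/
lemma exists_cl_of_retract {X Y : Obj k G} {i : X.V →ₗ[k] Y.V} {r : Y.V →ₗ[k] X.V}
    (hi : IsHom X Y i) (hr : IsHom Y X r) (hri : ∀ a, r (i a) = a) :
    ∃ z : Cl k G, Y.cl = X.cl + z := by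
  refine ⟨(Y.sub _ hr.ker_inv).cl, ?_⟩
  rw [add_comm]
  exact cl_of_section (isHom_subtype _ _ _) hi hri (LinearMap.exact_subtype_ker_map r)
    (Submodule.injective_subtype _)

/-- Restriction along a monoid homomorphism. -/
abbrev res {H : Type} [Monoid H] (φ : H →* G) (X : Obj k G) : Obj k H := ⟨X.V, X.ρ.comp φ⟩

end Obj

/-- Restriction on classes. -/
noncomputable def Cl.res {H : Type} [Monoid H] (φ : H →* G) : Cl k G →+* Cl k H where
  toFun := Cl.lift (fun X => (X.res φ).cl) fun _ _ ⟨e, he⟩ =>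
    Obj.Iso.cl_eq ⟨e, fun g v => he (φ g) v⟩
  map_one' := rfl
  map_zero' := rfl
  map_mul' a b := by
    induction a using Cl.ind; induction b using Cl.ind; rfl
  map_add' a b := by
    induction a using Cl.ind; induction b using Cl.ind; rfl

@[simp] lemma Cl.res_cl {H : Type} [Monoid H] (φ : H →* G) (X : Obj k G) :
    Cl.res φ X.cl = (X.res φ).cl := rfl

end Pool.Agent.Lib.MP_13b5a2_al
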