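import Mathlib

/-! Functions defined on a cofinite part of a field that are regular at a point; resolvents. -/

universe u

namespace Pool.Agent.Lib.MP_13b5a2_al

open Polynomial Filter Module

section Reg

variable {k : Type u} [Field k]

/-- A function on a cofinite part of `k` agreeing with a rational function regular at `a`. -/
def Reg (a : k) (φ : k → k) : Prop :=
  ∃ h P : k[X], h.eval a ≠ 0 ∧ ∀ᶠ u in cofinite, h.eval u * φ u = P.eval u

namespace Reg

variable {a : k} {φ ψ : k → k}

lemma poly (P : k[X]) : Reg a fun u => P.eval u := ⟨1, P, by simp, by simp⟩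

lemma const (c : k) : Reg a fun _ => c := ⟨1, C c, by simp, by simp⟩

lemma congr (h : Reg a φ) (e : ∀ᶠ u in cofinite, φ u = ψ u) : Reg a ψ := by
  obtain ⟨h, P, h0, h1⟩ := h
  exact ⟨h, P, h0, by filter_upwards [h1, e] with u h1 e; rw [← e, h1]⟩

lemma add (h : Reg a φ) (h' : Reg a ψ) : Reg a fun u => φ u + ψ u := by
  obtain ⟨h, P, h0, h1⟩ := h
  obtain ⟨h', P', h0', h1'⟩ := h'
  refine ⟨h * h', P * h' + P' * h, by simp [h0, h0'], ?_⟩
  filter_upwards [h1, h1'] with u h1 h1'
  simp only [eval_mul, eval_add, ← h1, ← h1']; ring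

lemma mul (h : Reg a φ) (h' : Reg a ψ) : Reg a fun u => φ u * ψ u := by
  obtain ⟨h, P, h0, h1⟩ := h
  obtain ⟨h', P', h0', h1'⟩ := h'
  refine ⟨h * h', P * P', by simp [h0, h0'], ?_⟩
  filter_upwards [h1, h1'] with u h1 h1'
  simp only [eval_mul, ← h1, ← h1']; ring

lemma neg (h : Reg a φ) : Reg a fun u => -φ u :=
  ((const (-1)).mul h).congr (Eventually.of_forall fun u => by ring)

lemma sub (h : Reg a φ) (h' : Reg a ψ) : Reg a fun u => φ u - ψ u :=
  (h.add h'.neg).congr (Eventually.of_forall fun u => by ring)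

lemma sub_self_pow (a b : k) (n : ℕ) : Reg a fun u => (u - b) ^ n :=
  (poly ((X - C b) ^ n)).congr (Eventually.of_forall fun u => by simp)

lemma sum {ι : Type*} (s : Finset ι) {f : ι → k → k} (h : ∀ i ∈ s, Reg a (f i)) :
    Reg a fun u => ∑ i ∈ s, f i u := by
  classical
  induction s using Finset.induction_on with
  | empty => simpa using const 0
  | insert i s hi ih =>
    simp only [Finset.sum_insert hi]
    exact (h i (Finset.mem_insert_self _ _)).add (ih fun j hj => h j (Finset.mem_insert_of_mem hj))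

lemma prod {ι : Type*} (s : Finset ι) {f : ι → k → k} (h : ∀ i ∈ s, Reg a (f i)) :
    Reg a fun u => ∏ i ∈ s, f i u := by
  classical
  induction s using Finset.induction_on with
  | empty => simpa using const 1
  | insert i s hi ih =>
    simp only [Finset.prod_insert hi]
    exact (h i (Finset.mem_insert_self _ _)).mul (ih fun j hj => h j (Finset.mem_insert_of_mem hj))

lemma inv_sub {a b : k} (hab : a ≠ b) : Reg a fun u => (u - b)⁻¹ := by
  refine ⟨X - C b, 1, by simpa [sub_eq_zero] using hab, ?_⟩
  filter_upwards [eventually_cofinite_ne b] with u hu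
  simp [mul_inv_cancel₀ (sub_ne_zero.2 hu)]

lemma zpow_sub {a b : k} (hab : a ≠ b) (n : ℤ) : Reg a fun u => (u - b) ^ n := by
  obtain ⟨n, rfl | rfl⟩ := n.eq_nat_or_neg
  · simpa using sub_self_pow a b n
  · have := Reg.prod (Finset.range n) (f := fun _ u => (u - b)⁻¹) fun _ _ => inv_sub hab
    simpa using this

lemma comp_affine (h : Reg a φ) (d : k) : Reg (-a - d) fun v => φ (-v - d) := by
  obtain ⟨h, P, h0, h1⟩ := h
  have hinj : Function.Injective fun v : k => -v - d := fun x y hxy => by simpa using hxy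
  refine ⟨h.comp (-X - C d), P.comp (-X - C d), by simpa [eval_comp] using h0, ?_⟩
  filter_upwards [hinj.tendsto_cofinite.eventually h1] with v hv
  simpa [eval_comp] using hv

lemma dvd [Infinite k] (h : Reg a φ) (q : k[X]) (M : ℕ)
    (hq : ∀ᶠ u in cofinite, q.eval (u - a) = (u - a) ^ M * φ u) : X ^ M ∣ q := by
  obtain ⟨h, P, h0, h1⟩ := h
  have e : h * q.comp (X - C a) = (X - C a) ^ M * P := by
    apply eq_of_infinite_eval_eq
    refine Set.infinite_of_finite_compl ?_
    have := h1.and hq
    refine (eventually_cofinite.1 this).subset fun u hu hu' => hu ?_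
    simp only [Set.mem_setOf_eq, eval_mul, eval_comp, eval_sub, eval_X, eval_C, eval_pow]
    rw [hu'.2, ← hu'.1]; ring
  have hc : IsCoprime ((X - C a) ^ M) h := by
    refine IsCoprime.pow_left ((irreducible_X_sub_C a).coprime_iff_not_dvd.2 ?_)
    rwa [dvd_iff_isRoot]
  have h2 : (X - C a) ^ M ∣ q.comp (X - C a) := hc.dvd_of_dvd_mul_left ⟨P, e⟩
  have h3 := map_dvd (compRingHom (X + C a)) h2
  simpa [comp_assoc] using h3

lemma eq_zero_of_div [Infinite k] {c : k} (h : Reg a fun u => (u - a)⁻¹ * c) : c = 0 := by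
  have := h.dvd (C c) 1 (by
    filter_upwards [eventually_cofinite_ne a] with u hu
    simp [← mul_assoc, mul_inv_cancel₀ (sub_ne_zero.2 hu)])
  simpa [X_dvd_iff] using this

end Reg

variable {V W : Type*} [AddCommGroup V] [Module k V] [AddCommGroup W] [Module k W]

/-- Regularity of vector valued functions. -/
def RegV (a : k) (F : k → V) : Prop := ∀ l : Dual k V, Reg a fun u => l (F u)

namespace RegV

variable {a : k} {F G : k → V}

lemma const (v : V) : RegV a fun _ => v := fun _ => Reg.const _

lemma congr (h : RegV a F) (e : ∀ᶠ u in cofinite, F u = G u) : RegV a G := fun l =>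
  (h l).congr (by filter_upwards [e] with u e; rw [e])

lemma add (h : RegV a F) (h' : RegV a G) : RegV a fun u => F u + G u := fun l => by
  simpa using (h l).add (h' l)

lemma sub (h : RegV a F) (h' : RegV a G) : RegV a fun u => F u - G u := fun l => by
  simpa using (h l).sub (h' l)

lemma smul {φ : k → k} (h' : Reg a φ) (h : RegV a F) : RegV a fun u => φ u • F u := fun l => by
  simpa using h'.mul (h l)

lemma map (h : RegV a F) (f : V →ₗ[k] W) : RegV a fun u => f (F u) := fun l => h (l ∘ₗ f)

lemma sum {ι : Type*} (s : Finset ι) {f : ι → k → V} (h : ∀ i ∈ s, RegV a (f i)) :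
    RegV a fun u => ∑ i ∈ s, f i u := fun l => by
  simpa using Reg.sum s (f := fun i u => l (f i u)) fun i hi => h i hi l

lemma eq_zero_of_div [Infinite k] {v : V} (h : RegV a fun u => (u - a)⁻¹ • v) : v = 0 := by
  rw [← Module.forall_dual_apply_eq_zero_iff k]
  intro l
  exact Reg.eq_zero_of_div (by simpa using h l)

lemma eq_zero_of_poly [Infinite k] {m : ℕ} (v : Fin m → V) (h : RegV a F)
    (e : ∀ᶠ u in cofinite, ∑ j : Fin m, (u - a) ^ (j : ℕ) • v j = (u - a) ^ m • F u) (j : Fin m) :
    v j = 0 := by
  rw [← Module.forall_dual_apply_eq_zero_iff k]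
  intro l
  have := (h l).dvd (∑ j : Fin m, C (l (v j)) * X ^ (j : ℕ)) m (by
    filter_upwards [e] with u e
    have := congrArg l e
    simp only [map_sum, map_smul, smul_eq_mul] at this
    rw [← this, eval_finset_sum]
    exact Finset.sum_congr rfl fun j _ => by
      rw [eval_mul, eval_C, eval_pow, eval_X, mul_comm])
  have h2 := X_pow_dvd_iff.1 this j j.2
  simpa [finset_sum_coeff, coeff_C_mul, coeff_X_pow, Fin.val_inj] using h2

end RegV

end Reg

section Res

variable {k : Type u} [Field k] {V W : Type*} [AddCommGroup V] [Module k V] [AddCommGroup W]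
  [Module k W]

/-- Points of the resolvent set. -/
def Good (T : End k V) (u : k) : Prop := IsUnit (algebraMap k (End k V) u - T)

lemma eventually_good [FiniteDimensional k V] (T : End k V) : ∀ᶠ u in cofinite, Good T u := by
  refine eventually_cofinite.2 ((Module.End.finite_spectrum T).subset fun u hu => hu)

lemma Good.res_mul {T : End k V} {u : k} (h : Good T u) :
    resolvent T u * (algebraMap k (End k V) u - T) = 1 := Ring.inverse_mul_cancel _ h

lemma Good.mul_res {T : End k V} {u : k} (h : Good T u) :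
    (algebraMap k (End k V) u - T) * resolvent T u = 1 := Ring.mul_inverse_cancel _ h

lemma Good.res_apply {T : End k V} {u : k} (h : Good T u) (v : V) :
    resolvent T u (u • v - T v) = v := by
  simpa [Module.algebraMap_end_apply] using LinearMap.congr_fun h.res_mul v

lemma Good.apply_res {T : End k V} {u : k} (h : Good T u) (v : V) :
    u • resolvent T u v - T (resolvent T u v) = v := by
  simpa [Module.algebraMap_end_apply] using LinearMap.congr_fun h.mul_res v

lemma Good.res_eq {T : End k V} {u : k} (h : Good T u) {v w : V} (e : u • w - T w = v) :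
    resolvent T u v = w := by rw [← e, h.res_apply]

lemma res_natural {T : End k V} {T' : End k W} {u : k} (h : Good T u) (h' : Good T' u)
    (f : V →ₗ[k] W) (hf : ∀ v, f (T v) = T' (f v)) (v : V) :
    f (resolvent T u v) = resolvent T' u (f v) := by
  symm
  apply h'.res_eq
  rw [← hf, ← map_smul, ← map_sub, h.apply_res]

lemma aeval_natural {T : End k V} {T' : End k W} (f : V →ₗ[k] W) (hf : ∀ v, f (T v) = T' (f v))
    (h : k[X]) (v : V) : f (aeval T h v) = aeval T' h (f v) := by
  induction h using Polynomial.induction_on generalizing v with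
  | C c => simp [Module.algebraMap_end_apply]
  | add p q hp hq => simp [hp, hq]
  | monomial n c ih =>
    rw [pow_succ, ← mul_assoc, map_mul (aeval T), map_mul (aeval T'), Module.End.mul_apply,
      Module.End.mul_apply, ih, aeval_X, aeval_X, hf]

/-- The complement of the generalised eigenspace. -/
def Cmp (T : End k V) (a : k) : Submodule k V where
  carrier := {w | ∃ h : k[X], h.eval a ≠ 0 ∧ aeval T h w = 0}
  zero_mem' := ⟨1, by simp, by simp⟩
  add_mem' := by
    rintro v w ⟨h, h0, h1⟩ ⟨h', h0', h1'⟩
    refine ⟨h * h', by simp [h0, h0'], ?_⟩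
    rw [map_add]
    nth_rewrite 1 [mul_comm h h']
    simp [h1, h1']
  smul_mem' := by
    rintro c w ⟨h, h0, h1⟩
    exact ⟨h, h0, by simp [h1]⟩

/-- The generalised eigenspace. -/
abbrev Gen (T : End k V) (a : k) : Submodule k V := Module.End.maxGenEigenspace T a

lemma mem_Gen {T : End k V} {a : k} {w : V} : w ∈ Gen T a ↔ ∃ N : ℕ, ((T - a • 1) ^ N) w = 0 :=
  Module.End.mem_maxGenEigenspace _ _ _

lemma aeval_X_sub_C_pow (T : End k V) (a : k) (N : ℕ) :
    aeval T ((X - C a) ^ N) = (T - a • 1) ^ N := by
  simp [Algebra.algebraMap_eq_smul_one]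

lemma isCompl_Gen [FiniteDimensional k V] (T : End k V) (a : k) : IsCompl (Gen T a) (Cmp T a) := by
  have key : ∀ (N : ℕ) (h : k[X]), h.eval a ≠ 0 → ∃ α β : k[X], ∀ w : V,
      ((T - a • 1) ^ N) (aeval T α w) + aeval T h (aeval T β w) = w ∧
      aeval T α (((T - a • 1) ^ N) w) + aeval T β (aeval T h w) = w := fun N h h0 => by
    have hc : IsCoprime ((X - C a) ^ N) h := by
      refine IsCoprime.pow_left ((irreducible_X_sub_C a).coprime_iff_not_dvd.2 ?_)
      rwa [dvd_iff_isRoot]
    obtain ⟨α, β, e⟩ := hc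
    refine ⟨α, β, fun w => ⟨?_, ?_⟩⟩
    · rw [mul_comm α, mul_comm β] at e
      have := LinearMap.congr_fun (congrArg (aeval T) e) w
      simpa [Algebra.algebraMap_eq_smul_one] using this
    · have := LinearMap.congr_fun (congrArg (aeval T) e) w
      simpa [Algebra.algebraMap_eq_smul_one] using this
  constructor
  · rw [Submodule.disjoint_def]
    rintro w hw ⟨h, h0, h1⟩
    obtain ⟨N, hN⟩ := mem_Gen.1 hw
    obtain ⟨α, β, e⟩ := key N h h0
    have := (e w).2
    rw [hN, h1] at this
    simpa using this.symm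
  · rw [codisjoint_iff, eq_top_iff]
    intro w _
    obtain ⟨h, hh, h0⟩ := exists_eq_pow_rootMultiplicity_mul_and_not_dvd T.charpoly
      T.charpoly_monic.ne_zero a
    rw [dvd_iff_isRoot] at h0
    obtain ⟨α, β, e⟩ := key (rootMultiplicity a T.charpoly) h h0
    have hz := T.aeval_self_charpoly
    rw [← (e w).1, add_comm]
    refine Submodule.add_mem_sup (mem_Gen.2 ⟨rootMultiplicity a T.charpoly, ?_⟩) ⟨h, h0, ?_⟩
    · rw [← aeval_X_sub_C_pow, ← Module.End.mul_apply, ← map_mul, ← hh, hz]; rfl
    · rw [← aeval_X_sub_C_pow, ← Module.End.mul_apply, ← map_mul, mul_comm, ← hh, hz]; rfl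

lemma Gen_natural {T : End k V} {T' : End k W} (f : V →ₗ[k] W) (hf : ∀ v, f (T v) = T' (f v))
    {a : k} {v : V} (hv : v ∈ Gen T a) : f v ∈ Gen T' a := by
  obtain ⟨N, hN⟩ := mem_Gen.1 hv
  refine mem_Gen.2 ⟨N, ?_⟩
  rw [← aeval_X_sub_C_pow] at hN ⊢
  rw [← aeval_natural f hf, hN, map_zero]

lemma Cmp_natural {T : End k V} {T' : End k W} (f : V →ₗ[k] W) (hf : ∀ v, f (T v) = T' (f v))
    {a : k} {v : V} (hv : v ∈ Cmp T a) : f v ∈ Cmp T' a := by
  obtain ⟨h, h0, h1⟩ := hv
  exact ⟨h, h0, by rw [← aeval_natural f hf, h1, map_zero]⟩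

/-- The projection onto a generalised eigenspace. -/
noncomputable def prj [FiniteDimensional k V] (T : End k V) (a : k) : End k V :=
  (Gen T a).projection (Cmp T a) (isCompl_Gen T a)

variable [FiniteDimensional k V] [FiniteDimensional k W]

lemma prj_mem (T : End k V) (a : k) (v : V) : prj T a v ∈ Gen T a :=
  Submodule.projection_apply_mem _ _

lemma sub_prj_mem (T : End k V) (a : k) (v : V) : v - prj T a v ∈ Cmp T a :=
  Submodule.sub_projection_mem _ _

lemma prj_of_mem {T : End k V} {a : k} {v : V} (h : v ∈ Gen T a) : prj T a v = v :=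
  Submodule.projection_apply_of_mem_left _ h

lemma prj_eq_zero_iff {T : End k V} {a : k} {v : V} : prj T a v = 0 ↔ v ∈ Cmp T a :=
  Submodule.projection_apply_eq_zero_iff _

lemma prj_natural {T : End k V} {T' : End k W} (f : V →ₗ[k] W) (hf : ∀ v, f (T v) = T' (f v))
    (a : k) (v : V) : f (prj T a v) = prj T' a (f v) := by
  have h1 : f v = f (prj T a v) + f (v - prj T a v) := by rw [← map_add]; simp
  rw [h1, map_add (prj T' a), prj_of_mem (Gen_natural f hf (prj_mem T a v)),
    prj_eq_zero_iff.2 (Cmp_natural f hf (sub_prj_mem T a v)), add_zero]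

lemma regV_aeval (T : End k V) (a : k) (h : k[X]) (w : V) :
    ∃ F : k → V, (∀ l : Dual k V, ∃ P : k[X], ∀ u, l (F u) = P.eval u) ∧
      ∀ u, Good T u → h.eval u • resolvent T u w = resolvent T u (aeval T h w) + F u := by
  induction h using Polynomial.induction_on with
  | C c => exact ⟨fun _ => 0, fun l => ⟨0, by simp⟩, fun u _ => by
      simp [Module.algebraMap_end_apply]⟩
  | add p q hp hq =>
    obtain ⟨F, hF, e⟩ := hp
    obtain ⟨F', hF', e'⟩ := hq
    refine ⟨fun u => F u + F' u, fun l => ?_, fun u hu => ?_⟩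
    · obtain ⟨P, hP⟩ := hF l
      obtain ⟨P', hP'⟩ := hF' l
      exact ⟨P + P', fun u => by simp [hP, hP']⟩
    · beta_reduce
      rw [eval_add, add_smul, e u hu, e' u hu, map_add, LinearMap.add_apply, map_add]; abel
  | monomial n c ih =>
    obtain ⟨F, hF, e⟩ := ih
    refine ⟨fun u => u • F u + aeval T (C c * X ^ n) w, fun l => ?_, fun u hu => ?_⟩
    · obtain ⟨P, hP⟩ := hF l
      exact ⟨X * P + C (l (aeval T (C c * X ^ n) w)), fun u => by simp [hP]⟩
    · beta_reduce
      rw [pow_succ', mul_left_comm, eval_mul, eval_X, mul_smul, e u hu, map_mul (aeval T) X,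
        aeval_X, Module.End.mul_apply, smul_add]
      have := hu.res_apply (aeval T (C c * X ^ n) w)
      rw [map_sub, map_smul] at this
      rw [← sub_eq_zero, ← sub_eq_zero.2 this]; abel

lemma regV_res_of_mem_Cmp {T : End k V} {a : k} {w : V} (hw : w ∈ Cmp T a) :
    RegV a fun u => resolvent T u w := by
  obtain ⟨h, h0, h1⟩ := hw
  obtain ⟨F, hF, e⟩ := regV_aeval T a h w
  intro l
  obtain ⟨P, hP⟩ := hF l
  refine ⟨h, P, h0, ?_⟩
  filter_upwards [eventually_good T] with u hu
  have := congrArg l (e u hu)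
  rw [h1, map_zero, zero_add, map_smul, hP] at this
  exact this

/-- Multiplying the resolvent by a power of the local parameter. -/
lemma regV_pow_res (T : End k V) (a : k) (m : ℕ) (w : V) :
    RegV a fun u => (u - a) ^ m • resolvent T u w - resolvent T u (((T - a • 1) ^ m) w) := by
  obtain ⟨F, hF, e⟩ := regV_aeval T a ((X - C a) ^ m) w
  intro l
  obtain ⟨P, hP⟩ := hF l
  refine (Reg.poly P).congr ?_
  filter_upwards [eventually_good T] with u hu
  have := e u hu
  rw [aeval_X_sub_C_pow] at this
  simp only [eval_pow, eval_sub, eval_X, eval_C] at this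
  rw [this, ← hP, add_sub_cancel_left]

omit [FiniteDimensional k V] in
lemma res_step {T : End k V} {u : k} (hu : Good T u) (a : k) (w : V) :
    (u - a) • resolvent T u w = w + resolvent T u ((T - a • 1) w) := by
  have := hu.res_apply w
  simp only [map_sub, map_smul, LinearMap.sub_apply, LinearMap.smul_apply,
    Module.End.one_apply, sub_smul] at this ⊢
  rw [← sub_eq_zero, ← sub_eq_zero.2 this]; abel

omit [FiniteDimensional k V] [FiniteDimensional k W] in
lemma res_eq_zero_of_forall {T : End k V} {a : k} (e : V →ₗ[k] W) (N : ℕ) :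
    ∀ w : V, ((T - a • 1) ^ N) w = 0 → (∀ j : ℕ, e (((T - a • 1) ^ j) w) = 0) →
      ∀ u, u ≠ a → Good T u → e (resolvent T u w) = 0 := by
  induction N with
  | zero => intro w hw _ u _ _; simp at hw; simp [hw]
  | succ N ih =>
    intro w hw h u hua hu
    have h1 := ih ((T - a • 1) w) (by rw [← Module.End.mul_apply, ← pow_succ, hw])
      (fun j => by rw [← Module.End.mul_apply, ← pow_succ, h]) u hua hu
    have h2 := congrArg e (res_step hu a w)
    have h3 := h 0
    simp only [pow_zero, Module.End.one_apply] at h3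
    rw [map_add, h1, h3, map_smul, add_zero] at h2
    exact (smul_eq_zero.1 h2).resolve_left (sub_ne_zero.2 hua)

omit [FiniteDimensional k W] in
/-- A polar part that is regular vanishes. -/
lemma polar_eq_zero [Infinite k] {T : End k V} {a : k} (e : V →ₗ[k] W) (N : ℕ) :
    ∀ w : V, ((T - a • 1) ^ N) w = 0 → (RegV a fun u => e (resolvent T u w)) →
      ∀ j : ℕ, e (((T - a • 1) ^ j) w) = 0 := by
  induction N with
  | zero => intro w hw _ j; simp at hw; simp [hw]
  | succ N ih =>
    intro w hw h
    have hw' : ((T - a • 1) ^ N) ((T - a • 1) w) = 0 := by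
      rw [← Module.End.mul_apply, ← pow_succ, hw]
    have h1 := ih ((T - a • 1) w) hw' (by
      refine ((RegV.smul (Reg.sub_self_pow a a 1) h).sub (RegV.const (e w))).congr ?_
      filter_upwards [eventually_good T] with u hu
      rw [pow_one, ← map_smul, res_step hu, map_add, add_sub_cancel_left])
    have h2 := res_eq_zero_of_forall e N _ hw' h1
    have h3 : e w = 0 := by
      refine RegV.eq_zero_of_div (a := a) (h.congr ?_)
      filter_upwards [eventually_good T, eventually_cofinite_ne a] with u hu hua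
      have h4 := congrArg e (res_step hu a w)
      rw [map_add, h2 u hua hu, add_zero, map_smul] at h4
      rw [← h4, smul_smul, inv_mul_cancel₀ (sub_ne_zero.2 hua), one_smul]
    intro j
    cases j with
    | zero => simpa using h3
    | succ j => rw [pow_succ, Module.End.mul_apply, h1]

end Res

end Pool.Agent.Lib.MP_13b5a2_al
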