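import Pool.Agent.Lib.MP_13b5a2_al.Core

/-! Zeroth Tate cohomology of permutation type modules; restriction to subgroups. -/

universe u

namespace Pool.Agent.Lib.MP_13b5a2_al

open TensorProduct Module

variable {k : Type u} {G : Type} [Field k] [Group G] [Finite G]

open Classical in
lemma mem_range_norm_funObj (S : Type) [Finite S] [MulAction G S] (W : Obj k G) (f : S → W.V)
    (hf : f ∈ (Obj.funObj S W).ρ.invariants)
    (h : ∀ s, f s ∈ LinearMap.range (W.res (MulAction.stabilizer G s).subtype).N) :
    f ∈ LinearMap.range (Obj.funObj S W).N := by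
  have := Fintype.ofFinite G
  choose w hw using h
  let o : S → S := fun t => (Quotient.mk (MulAction.orbitRel G S) t).out
  have ho : ∀ t, ∃ g : G, g • o t = t := fun t => by
    have : (MulAction.orbitRel G S) (o t) t := Quotient.mk_out t
    exact (MulAction.orbitRel G S).symm this
  have ho' : ∀ (g : G) t, o (g • t) = o t := fun g t => by
    have : (Quotient.mk (MulAction.orbitRel G S) (g • t)) = Quotient.mk _ t :=
      Quotient.sound ⟨g, rfl⟩
    simp only [o, this]
  refine ⟨fun t => if t = o t then w t else 0, funext fun t => ?_⟩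
  obtain ⟨g0, hg0⟩ := ho t
  rw [Obj.norm_apply, Finset.sum_apply]
  simp only [Obj.funRep_apply, ho']
  have h1 : f t = W.ρ g0 (f (o t)) := by
    have := congrFun (hf g0) t
    rw [← this, Obj.funRep_apply]
    congr 2
    rw [inv_smul_eq_iff, hg0]
  rw [h1, ← hw, Obj.norm_apply, map_sum]
  rw [← Fintype.sum_equiv (Equiv.mulLeft g0) (fun h => W.ρ g0 (W.ρ h
    (if h ∈ MulAction.stabilizer G (o t) then w (o t) else 0))) _ (fun h => ?_)]
  · refine Eq.trans ?_ (Finset.sum_subtype
      (Finset.univ.filter fun h => h ∈ MulAction.stabilizer G (o t))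
      (p := fun h => h ∈ MulAction.stabilizer G (o t)) (by simp)
      (fun h => W.ρ g0 (W.ρ h (w (o t)))))
    rw [Finset.sum_filter]
    refine Finset.sum_congr rfl fun h _ => ?_
    split_ifs <;> simp
  · have h2 : (g0 * h)⁻¹ • t = h⁻¹ • o t := by
      rw [mul_inv_rev, mul_smul]; congr 1; rw [inv_smul_eq_iff, hg0]
    simp only [Equiv.coe_mulLeft, h2, map_mul, Module.End.mul_apply, MulAction.mem_stabilizer_iff]
    congr 2
    by_cases hh : h • o t = o t
    · have : h⁻¹ • o t = o t := by rw [inv_smul_eq_iff, hh]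
      rw [if_pos hh, if_pos this, h2, this]
    · have : ¬ h⁻¹ • o t = o t := by rw [inv_smul_eq_iff]; exact fun e => hh e.symm
      simp [hh, this]

lemma finrank_le_of_ker_le {V W : Type*} [AddCommGroup V] [Module k V] [AddCommGroup W]
    [Module k W] [FiniteDimensional k V] [FiniteDimensional k W] (f : V →ₗ[k] W) (n : ℕ)
    (h : finrank k (LinearMap.ker f) ≤ n) : finrank k V ≤ n + finrank k W := by
  have h1 := LinearMap.finrank_range_add_finrank_ker f
  have h2 := Submodule.finrank_le (LinearMap.range f)
  omega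

/-- The zeroth Tate cohomology as a quotient space. -/
abbrev Obj.tate (X : Obj k G) : Type u :=
  X.ρ.invariants ⧸ (LinearMap.range X.N).comap X.ρ.invariants.subtype

lemma Obj.range_norm_le (X : Obj k G) : LinearMap.range X.N ≤ X.ρ.invariants := by
  rintro _ ⟨v, rfl⟩ g
  exact X.self_norm_apply g v

lemma Obj.finrank_tate (X : Obj k G) : finrank k X.tate = hhat X.cl := by
  have h1 := Submodule.finrank_quotient_add_finrank
    ((LinearMap.range X.N).comap X.ρ.invariants.subtype)
  rw [(Submodule.comapSubtypeEquivOfLe X.range_norm_le).finrank_eq] at h1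
  unfold hhat
  rw [Cl.dInv_cl, Cl.rkN_cl, Obj.dInv, Obj.rkN]
  change finrank k X.tate + _ = _ at h1
  omega

lemma hhat_funObj_le (S : Type) [Fintype S] [MulAction G S] (W : Obj k G) :
    hhat (Obj.funObj S W).cl ≤ ∑ s : S, hhat (W.res (MulAction.stabilizer G s).subtype).cl := by
  let φ : (Obj.funObj S W).ρ.invariants →ₗ[k]
      (∀ s : S, (W.res (MulAction.stabilizer G s).subtype).tate) :=
    LinearMap.pi fun s => (Submodule.mkQ _) ∘ₗ LinearMap.codRestrict _
      (LinearMap.proj s ∘ₗ (Obj.funObj S W).ρ.invariants.subtype) (fun f h => by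
        have := congrFun (f.2 (h : G)) s
        rw [Obj.funRep_apply] at this
        have h2 : (h : G)⁻¹ • s = s := by rw [inv_smul_eq_iff]; exact h.2.symm
        rw [h2] at this
        exact this)
  have hker : LinearMap.ker φ ≤ (LinearMap.range (Obj.funObj S W).N).comap
      (Obj.funObj S W).ρ.invariants.subtype := by
    intro f hf
    refine mem_range_norm_funObj S W f.1 f.2 fun s => ?_
    have := congrFun hf s
    have h2 := (Submodule.Quotient.mk_eq_zero _).1 this
    exact h2
  have h1 := finrank_le_of_ker_le φ _ (Submodule.finrank_mono hker)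
  rw [(Submodule.comapSubtypeEquivOfLe (Obj.funObj S W).range_norm_le).finrank_eq,
    Module.finrank_pi_fintype] at h1
  simp only [Obj.finrank_tate] at h1
  exact Nat.sub_le_iff_le_add'.2 h1

lemma hhat_of_subsingleton [Subsingleton G] (a : Cl k G) : hhat a = 0 := by
  induction a using Cl.ind with | h X => ?_
  have : Unique G := uniqueOfSubsingleton 1
  have h : X.N = LinearMap.id := by
    ext v
    rw [Obj.norm_apply, Fintype.sum_unique, Subsingleton.elim default (1 : G)]; simp
  unfold hhat
  rw [Cl.dInv_cl, Cl.rkN_cl, Obj.dInv, Obj.rkN, h, LinearMap.range_id, finrank_top]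
  have := Submodule.finrank_le X.ρ.invariants
  omega

variable {p : ℕ} [Fact p.Prime] [CharP k p]

lemma kap_res_reg_mul {H : Type} [Group H] [Finite H] (hH : IsPGroup p H) (φ : H →* G)
    (hφ : Function.Injective φ) (c : Cl k H) :
    kap (Cl.res φ (Obj.reg : Obj k G).cl * c) = 0 := by
  classical
  have := Fintype.ofFinite G
  letI : MulAction H G := MulAction.compHom G φ
  induction c using Cl.ind with | h X => ?_
  have h1 : Cl.res φ (Obj.reg : Obj k G).cl = (Obj.funObj G (Obj.one : Obj k H)).cl :=
    Obj.Iso.cl_eq ⟨LinearEquiv.refl _ _, fun h f => by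
      ext s
      change f ((φ h)⁻¹ * s) = f (φ h⁻¹ * s)
      rw [map_inv]⟩
  rw [h1, ← Obj.cl_funObj]
  have h2 := hhat_funObj_le G X
  have h3 : ∀ s : G, hhat (X.res (MulAction.stabilizer H s).subtype).cl = 0 := fun s => by
    have : Subsingleton (MulAction.stabilizer H s) := ⟨fun a b => by
      have ha : φ a * s = s := a.2
      have hb : φ b * s = s := b.2
      exact Subtype.ext (hφ (mul_right_cancel (ha.trans hb.symm)))⟩
    exact hhat_of_subsingleton _
  simp only [h3, Finset.sum_const_zero] at h2
  have h4 := kap_le_card_mul_hhat hH (Obj.funObj G X).cl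
  rw [Nat.le_zero.1 h2] at h4
  omega

lemma kap_res_le {H : Type} [Group H] [Finite H] (hG : IsPGroup p G) (φ : H →* G)
    (hφ : Function.Injective φ) (a : Cl k G) : kap (Cl.res φ a) ≤ kap a := by
  have hH := hG.of_injective φ hφ
  obtain ⟨b, c, hb, -, hd⟩ := exists_core' hG a
  rw [← hd]
  conv_lhs => rw [hb, map_add, map_mul, kap_add hH, kap_res_reg_mul hH φ hφ, add_zero]
  refine (kap_le_dim _).trans (le_of_eq ?_)
  induction b using Cl.ind; rfl

end Pool.Agent.Lib.MP_13b5a2_al
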