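import Pool.Agent.Lib.MP_13b5a2_al.Cx

/-! The standard complex of a graded algebra and maps out of it. -/

universe u

namespace Pool.Agent.Lib.MP_13b5a2_al

open Module Filter Cx

variable {k R R' : Type u} [Field k] [CommRing R] [Algebra k R] [CommRing R'] [Algebra k R']
  [IsNoetherianRing R] [IsNoetherianRing R'] {r : ℕ} (p : ℕ) [Fact p.Prime] [CharP k p]

/-- The standard complex. -/
noncomputable abbrev TT (Γ : Gr k R r) : Cx (EA r p) Γ where
  V := JJ r → EA r p → R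
  g := Gm.pi fun s => (Gm.pi fun _ => Γ.toGm).shift (-s.card)
  ρ := cL.toMonoidHom.comp (trH R R)
  d := dF Γ.η (trH R R)
  dd v := LinearMap.congr_fun (dF_sq k Γ.η (trH R R)) v
  ρd a v := (dF_nat (trH R R a) (fun g w => LinearMap.congr_fun
    ((Commute.all a g).map (trH R R)).eq w) (fun i w => map_smul _ _ _) v).symm
  ρπ a t v := rfl
  πd t v := funext fun s => dF_gr (P := ⊤) (fun _ _ _ => trivial)
    (fun m => (Gm.pi fun _ => Γ.toGm).π m) (fun _ _ _ _ => rfl)
    (fun m i w => funext fun g => Γ.mul' (Γ.πη i) m (w g)) (fun _ => trivial) t s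
  πR t u a v h := funext fun s => funext fun g => by
    change Γ.π (t + u + -s.card) (a * v s g) = _
    rw [add_assoc]
    exact Γ.mul _ _ _ _ (congrFun (congrFun h s) g)

variable {p} {Γ : Gr k R r} {Γ' : Gr k R' r}

lemma isMor_TT {u : ℤ} {f : R →ₗ[k] R'} (h1 : ∀ i a, f (Γ.η i * a) = Γ'.η i * f a)
    (h2 : ∀ t a, Γ'.π (t + u) (f a) = f (Γ.π t a)) :
    IsMor (TT p Γ) (TT p Γ') u ((f.compLeft (EA r p)).compLeft (JJ r)) :=
  ⟨fun _ _ => rfl, fun v => dF_nat (f.compLeft (EA r p)) (fun _ _ => rfl)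
    (fun i w => funext fun g => h1 i (w g)) v, fun t v => funext fun s => funext fun g => by
      change Γ'.π (t + u + -s.card) _ = _
      rw [add_right_comm]
      exact h2 _ _⟩

lemma ev_ex_TT : ∀ᶠ t in atTop, (TT p Γ).Ex t := ev_ex fun j v hv => by
  obtain ⟨h, e⟩ := eta_null (p := p) (W := R) k Γ.η j
  refine ⟨h v, ?_⟩
  have := LinearMap.congr_fun e v
  rwa [LinearMap.add_apply, End.mul_apply, End.mul_apply, show dF _ _ v = 0 from hv, map_zero,
    add_zero] at this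

lemma cl_TT_top (t : ℤ) : ∃ z, ((TT p Γ).ob t ⊤ (inv_top _)).cl = Obj.reg.cl * z := by
  let g : Gm k (JJ r → R) := Gm.pi fun s => Γ.toGm.shift (-s.card)
  have := Module.Finite.iff_fg.2 (g.fin t)
  refine ⟨(Obj.triv (LinearMap.eqLocus (g.π t) LinearMap.id)).cl, ?_⟩
  rw [← Obj.cl_funObj]
  exact Obj.Iso.cl_eq ⟨
    { toFun := fun F a => ⟨fun s => F.1 s a, funext fun s => congrFun (congrFun F.2.1 s) a⟩
      invFun := fun F => ⟨fun s a => (F a).1 s,
        funext fun s => funext fun a => congrFun (F a).2 s, trivial⟩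
      map_add' := fun _ _ => rfl
      map_smul' := fun _ _ => rfl
      left_inv := fun _ => rfl
      right_inv := fun _ => rfl }, fun _ _ => rfl⟩

namespace Cx

variable (D : Cx (EA r p) Γ)

/-- The first differential on maps out of the standard complex. -/
noncomputable def δp : End R (JJ r → D.V) := cL D.d + kF Γ.η D.ρ

/-- The second differential on maps out of the standard complex. -/
noncomputable def δm : End R (JJ r → D.V) := cL D.d - kF Γ.η D.ρ

/-- The grading on maps out of the standard complex. -/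
def gH : Gm k (JJ r → D.V) := Gm.pi fun s => D.g.shift s.card

omit [IsNoetherianRing R] in
lemma δm_δp (φ : JJ r → D.V) : D.δm (D.δp φ) = 0 := by
  have h1 : cL D.d (kF Γ.η D.ρ φ) = kF Γ.η D.ρ (cL D.d φ) :=
    kF_nat D.d D.ρd (fun _ _ => map_smul _ _ _) φ
  have h2 : cL D.d (cL D.d φ) = 0 := funext fun s => D.dd _
  have h3 : kF Γ.η D.ρ (kF Γ.η D.ρ φ) = 0 := LinearMap.congr_fun (kF_sq k Γ.η D.ρ) φ
  simp [δp, δm, h1, h2, h3]

omit [IsNoetherianRing R] [CharP k p] in
lemma gH_δm (t : ℤ) (φ : JJ r → D.V) : D.gH.π (t + 1) (D.δm φ) = D.δm (D.gH.π t φ) := by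
  ext s
  change D.g.π (t + 1 + s.card) (D.d (φ s) - kF _ _ φ s) = D.d (D.g.π (t + s.card) (φ s)) - _
  rw [map_sub, kF_gr (P := ⊤) (fun _ _ _ => trivial) D.g.π (fun m g w _ => D.ρπ g m w)
    (fun m i w => D.πR' (Γ.πη i) m w) (fun _ => trivial) t s, add_right_comm, D.πd]
  rfl

variable {D} {D' : Cx (EA r p) Γ}

omit [IsNoetherianRing R] [CharP k p] in
lemma IsMor.δp {u : ℤ} {f : D.V →ₗ[R] D'.V} (h : IsMor D D' u f) (φ : JJ r → D.V) :
    f ∘ D.δp φ = D'.δp (f ∘ φ) := by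
  ext s
  change f (D.d (φ s) + kF _ _ φ s) = D'.d (f (φ s)) + kF _ _ _ s
  rw [map_add, h.d, ← kF_nat f h.ρ fun _ _ => map_smul _ _ _]
  rfl

omit [IsNoetherianRing R] [CharP k p] in
lemma IsMor.δm {u : ℤ} {f : D.V →ₗ[R] D'.V} (h : IsMor D D' u f) (φ : JJ r → D.V) :
    f ∘ D.δm φ = D'.δm (f ∘ φ) := by
  ext s
  change f (D.d (φ s) - kF _ _ φ s) = D'.d (f (φ s)) - kF _ _ _ s
  rw [map_sub, h.d, ← kF_nat f h.ρ fun _ _ => map_smul _ _ _]
  rfl

/-- The equivariant map with given values on the basis. -/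
noncomputable def ev (φ : JJ r → D.V) : (TT p Γ).V →ₗ[R] D.V where
  toFun F := ∑ s, ∑ g, F s g • D.ρ g (φ s)
  map_add' _ _ := by simp [add_smul, Finset.sum_add_distrib]
  map_smul' _ _ := by simp [Finset.smul_sum, mul_smul]

lemma ev_apply (φ : JJ r → D.V) (F : JJ r → EA r p → R) :
    ev φ F = ∑ s, ∑ g, F s g • D.ρ g (φ s) := rfl

variable (p Γ) in
/-- The basis of the standard complex. -/
noncomputable def es (s : JJ r) : (TT p Γ).V := Pi.single s (Pi.single 1 1)

lemma ev_es (φ : JJ r → D.V) (s : JJ r) : ev φ (es p Γ s) = φ s := by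
  rw [ev_apply, Finset.sum_eq_single s, Finset.sum_eq_single 1] <;>
    simp +contextual [es, Pi.single_apply]

lemma ev_ρ (φ : JJ r → D.V) (a : EA r p) (F : (TT p Γ).V) :
    ev φ ((TT p Γ).ρ a F) = D.ρ a (ev φ F) := by
  rw [ev_apply, ev_apply, map_sum]
  refine Finset.sum_congr rfl fun s _ => ?_
  rw [map_sum]
  refine Fintype.sum_equiv (Equiv.mulLeft a⁻¹) _ _ fun g => ?_
  rw [map_smul, ← End.mul_apply, ← map_mul]
  simp only [Equiv.coe_mulLeft, mul_inv_cancel_left]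
  rfl

lemma ev_self (F : (TT p Γ).V) : ev (D := TT p Γ) (es p Γ) F = F := by
  rw [ev_apply]
  ext s g
  simp only [Finset.sum_apply, Pi.smul_apply, smul_eq_mul]
  change ∑ s', ∑ g', F s' g' * es p Γ s' s (g'⁻¹ * g) = _
  rw [Finset.sum_eq_single s, Finset.sum_eq_single g] <;>
    simp +contextual [es, Pi.single_apply, inv_mul_eq_one, eq_comm]

lemma ev_comp (f : D.V →ₗ[R] D'.V) (h : ∀ a v, f (D.ρ a v) = D'.ρ a (f v)) (φ : JJ r → D.V)
    (F : (TT p Γ).V) : ev (f ∘ φ) F = f (ev φ F) := by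
  rw [ev_apply, ev_apply]; simp [h]

lemma ev_add (φ ψ : JJ r → D.V) (F : (TT p Γ).V) : ev (φ + ψ) F = ev φ F + ev ψ F := by
  rw [ev_apply, ev_apply, ev_apply]; simp [Finset.sum_add_distrib]

lemma ev_smul (c : R) (φ : JJ r → D.V) (F : (TT p Γ).V) : ev (c • φ) F = c • ev φ F := by
  rw [ev_apply, ev_apply]; simp [Finset.smul_sum, smul_comm c]

omit [IsNoetherianRing R] [CharP k p] [Fact p.Prime] in
lemma fX_single {W : Type*} [AddCommGroup W] [Module R W] (i : Fin r) (s : JJ r) (w : W) :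
    fX R W i (Pi.single s w) = if i ∈ s then 0 else sgn s i • Pi.single (insert i s) w := by
  ext t
  rw [fX_apply]
  by_cases h : t = insert i s
  · subst h
    by_cases hi : i ∈ s
    · have : s.erase i ≠ s := by simpa using hi
      simp [hi, this]
    · simp [hi, sgn_insert hi]
  · have : i ∈ t → t.erase i ≠ s := fun hi e => h (by rw [← e, Finset.insert_erase hi])
    split_ifs <;> simp [*]

omit [IsNoetherianRing R] [CharP k p] [Fact p.Prime] in
lemma fI_single {W : Type*} [AddCommGroup W] [Module R W] (i : Fin r) (s : JJ r) (w : W) :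
    fI R W i (Pi.single s w) = if i ∈ s then sgn s i • Pi.single (s.erase i) w else 0 := by
  ext t
  rw [fI_apply]
  by_cases h : t = s.erase i
  · subst h
    by_cases hi : i ∈ s
    · simp [hi, sgn_erase hi]
    · have : insert i s ≠ s := by simpa using hi
      simp [hi, this]
  · have : i ∉ t → insert i t ≠ s := fun hi e => h (by rw [← e, Finset.erase_insert hi])
    split_ifs <;> simp [*]

lemma ev_d_es (φ : JJ r → D.V) (s : JJ r) : ev φ ((TT p Γ).d (es p Γ s)) = kF Γ.η D.ρ φ s := by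
  have key : ∀ i (n : ℕ) s, ev φ (cL (xs (trH R R) i ^ n) (es p Γ s)) = (xs D.ρ i ^ n) (φ s) := by
    intro i n s
    rw [← ev_es φ s, ← xs_nat (P := ⊤) (fun _ _ _ => trivial) (ev φ) (fun g w _ => ev_ρ φ g w) i n
      _ trivial, map_pow, xs, map_sub, map_one]
    rfl
  change ev φ (dG _ _ _) = dG _ _ _ _
  rw [dG_apply, dG, LinearMap.sum_apply, map_sum]
  refine Finset.sum_congr rfl fun i _ => ?_
  rw [← (cX _ _).eq, ← (cI _ _).eq, LinearMap.add_apply, End.mul_apply, End.mul_apply, es,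
    fX_single, fI_single]
  split_ifs
  · rw [map_zero, zero_add, map_zsmul, map_zsmul]
    congr 1
    exact (map_smul (ev φ) (Γ.η i) (cL (xs (trH R R) i ^ (p - 1)) _)).trans
      (congrArg _ (key i _ _))
  · rw [map_zero, add_zero, map_zsmul, map_zsmul]
    congr 1
    simpa [es] using key i 1 (insert i s)

lemma ev_kF (φ : JJ r → D.V) (F : (TT p Γ).V) : ev (kF Γ.η D.ρ φ) F = ev φ ((TT p Γ).d F) := by
  conv_rhs => rw [← ev_self F]
  refine Eq.trans ?_ (ev_comp (ev φ ∘ₗ (TT p Γ).d) (fun a v => ?_) (es p Γ) F)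
  · congr 2
    exact funext fun s => (ev_d_es φ s).symm
  · rw [LinearMap.comp_apply, (TT p Γ).ρd, ev_ρ]; rfl

lemma ev_δp (φ : JJ r → D.V) (F : (TT p Γ).V) :
    ev (D.δp φ) F = D.d (ev φ F) + ev φ ((TT p Γ).d F) := by
  rw [← ev_kF, ← ev_comp D.d D.ρd, ← ev_add]; rfl

lemma isMor_ev {φ : JJ r → D.V} (h : D.δm φ = 0) {e : ℤ} (he : D.gH.π e φ = φ) :
    IsMor (TT p Γ) D e (ev φ) := by
  refine ⟨ev_ρ φ, fun F => ?_, fun t F => ?_⟩
  · rw [← ev_kF, ← sub_eq_zero.1 h]
    exact ev_comp D.d D.ρd φ F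
  · rw [ev_apply, ev_apply, map_sum]
    refine Finset.sum_congr rfl fun s _ => ?_
    rw [map_sum]
    refine Finset.sum_congr rfl fun g _ => ?_
    rw [show t + e = t + -s.card + (e + s.card) by ring]
    exact D.πR _ _ _ _ ((D.ρπ _ _ _).trans (congrArg _ (congrFun he s)))

lemma δm_comp_es (f : (TT p Γ).V →ₗ[R] D.V) (h : ∀ a v, f ((TT p Γ).ρ a v) = D.ρ a (f v))
    (h' : ∀ v, f ((TT p Γ).d v) = D.d (f v)) : D.δm (f ∘ es p Γ) = 0 := by
  ext s
  change D.d (f _) - kF _ _ _ s = 0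
  rw [← ev_d_es, ev_comp f h, ev_self, h', sub_self]

end Cx

end Pool.Agent.Lib.MP_13b5a2_al
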