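import Pool.Agent.Lib.MP_13b5a2_al.GL3

/-! The complex whose homology plays the role of a Frobenius twist. -/

universe u

namespace Pool.Agent.Lib.MP_13b5a2_al

open Module Filter Obj TensorProduct

variable {k : Type u} [Field k] {G : Type} [Group G] {ι : Type} [Fintype ι] [DecidableEq ι]

lemma exists_homology {A B C T : Obj k G} {i : A.V →ₗ[k] B.V} {q : B.V →ₗ[k] C.V}
    (hi : IsHom A B i) (hq : IsHom B C q) (hqi : ∀ v, q (i v) = 0)
    {r : (T.tensor B).V →ₗ[k] (T.tensor A).V} (hr : IsHom (T.tensor B) (T.tensor A) r)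
    (hri : ∀ v, r (i.lTensor T.V v) = v)
    {σ : (T.tensor C).V →ₗ[k] (T.tensor B).V} (hσ : IsHom (T.tensor C) (T.tensor B) σ)
    (hqσ : ∀ v, q.lTensor T.V (σ v) = v) :
    ∃ N : Cl k G, T.cl * B.cl = T.cl * (A.cl + C.cl + N) := by
  let K := B.sub _ hq.ker_inv
  let i' : A.V →ₗ[k] K.V := i.codRestrict _ hqi
  have hi' : IsHom A K i' := hi.codRestrict _ _ _
  let N := K.quot _ hi'.range_inv
  refine ⟨N.cl, ?_⟩
  have h1 : (T.tensor B).cl = (T.tensor K).cl + (T.tensor C).cl :=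
    cl_of_section ((IsHom.id T).tensor (isHom_subtype _ _ _)) hσ hqσ
      (Module.Flat.lTensor_exact T.V (LinearMap.exact_subtype_ker_map q))
      (Module.Flat.lTensor_preserves_injective_linearMap _ (Submodule.injective_subtype _))
  have h2 : (T.tensor K).cl = (T.tensor A).cl + (T.tensor N).cl :=
    cl_of_retraction (i := i'.lTensor T.V) ((IsHom.id T).tensor (isHom_mkQ _ _ _))
      (hr.comp ((IsHom.id T).tensor (isHom_subtype _ _ _))) (fun v => by
        rw [← hri v]
        change r ((LinearMap.ker q).subtype.lTensor T.V (i'.lTensor T.V _)) = _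
        rw [← LinearMap.lTensor_comp_apply, hri v]
        exact hri v)
      (Module.Flat.lTensor_exact T.V (LinearMap.exact_map_mkQ_range i'))
      (LinearMap.lTensor_surjective _ (Submodule.mkQ_surjective _))
  rw [← Cl.cl_tensor, h1, h2]
  simp only [Cl.cl_tensor]
  ring

namespace Gob

variable {D : Dat k G ι}

/-- Bundled morphisms. -/
abbrev Mor (X Y : Gob D) := {f : X.X.V →ₗ[k] Y.X.V // IsMor X Y f}

/-- Composition. -/
def Mor.comp {X Y Z : Gob D} (f : Mor Y Z) (g : Mor X Y) : Mor X Z := ⟨f.1 ∘ₗ g.1, f.2.comp g.2⟩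

/-- Functoriality. -/
noncomputable def faM {X Y : Gob D} (f : Mor X Y) (a : k) : Mor (X.Fa a) (Y.Fa a) :=
  ⟨faMap f.2 a, isMor_faMap f.2 a⟩

/-- Functoriality. -/
noncomputable def eaM {X Y : Gob D} (f : Mor X Y) (a : k) : Mor (X.Ea a) (Y.Ea a) :=
  ⟨faMap f.2.op _, (isMor_faMap f.2.op _).op⟩

/-- Iterated functor. -/
noncomputable def FF (r : ℕ → k) : ℕ → Gob D → Gob D
  | 0, X => X
  | j + 1, X => (FF r j X).Fa (r j)

/-- Iterated functor. -/
noncomputable def EE (r : ℕ → k) : ℕ → Gob D → Gob D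
  | 0, X => X
  | j + 1, X => EE r j (X.Ea (r j))

/-- Functoriality. -/
noncomputable def ffM (r : ℕ → k) : ∀ (j : ℕ) {X Y : Gob D}, Mor X Y → Mor (FF r j X) (FF r j Y)
  | 0, _, _, f => f
  | j + 1, _, _, f => faM (ffM r j f) (r j)

/-- Functoriality. -/
noncomputable def eeM (r : ℕ → k) : ∀ (j : ℕ) {X Y : Gob D}, Mor X Y → Mor (EE r j X) (EE r j Y)
  | 0, _, _, f => f
  | j + 1, _, _, f => eeM r j (eaM f (r j))

lemma eeM_id (r : ℕ → k) (j : ℕ) : ∀ (X : Gob D) v, (eeM r j ⟨_, IsMor.id X⟩).1 v = v := by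
  induction j with
  | zero => intros; rfl
  | succ j ih => intro X v; exact ih (X.Ea (r j)) v

lemma ffM_zero (r : ℕ → k) (j : ℕ) {X Y Z : Gob D} (f : Mor Y Z) (g : Mor X Y)
    (h : ∀ v, f.1 (g.1 v) = 0) : ∀ v, (ffM r j f).1 ((ffM r j g).1 v) = 0 := by
  induction j with
  | zero => exact h
  | succ j ih => exact fun v => Subtype.ext (funext fun i => ih _)

/-- Insertion into an eigenspace. -/
noncomputable def ins (X : Gob D) (c : k) (a : ι) : X.X.V →ₗ[k] (X.Fa c).X.V :=
  LinearMap.codRestrict _ (prj X.x c ∘ₗ LinearMap.single k (fun _ => X.X.V) a)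
    fun _ => prj_mem _ _ _

/-- Components. -/
noncomputable def out (X : Gob D) (c : k) (a : ι) : (X.Fa c).X.V →ₗ[k] X.X.V :=
  LinearMap.proj a ∘ₗ (Gen X.x c).subtype

lemma ins_val (X : Gob D) (c : k) (a : ι) (v : X.X.V) :
    (X.ins c a v).1 = prj X.x c (Pi.single a v) := rfl

lemma sum_ins_out (X : Gob D) (c : k) (s : (X.Fa c).X.V) : ∑ a, X.ins c a (X.out c a s) = s := by
  apply Subtype.ext
  rw [Submodule.coe_sum]
  change ∑ a, prj X.x c (Pi.single a (s.1 a)) = _
  rw [← map_sum, Finset.univ_sum_single, prj_of_mem s.2]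

lemma ρ_ins (X : Gob D) (c : k) (b : ι) (g : G) (v : X.X.V) :
    (X.Fa c).X.ρ g (X.ins c b v) = ∑ a, D.μ g a b • X.ins c a (X.X.ρ g v) := by
  apply Subtype.ext
  rw [Submodule.coe_sum]
  change twRep D.μ X.X g (prj X.x c _) = _
  rw [prj_natural (T' := X.x) (twRep D.μ X.X g) (fun w => (X.eqv g w).symm)]
  simp only [LinearMap.single_apply, twRep_single, map_sum, map_smul]
  rfl

lemma out_ρ (X : Gob D) (c : k) (a : ι) (g : G) (s : (X.Fa c).X.V) :
    X.out c a ((X.Fa c).X.ρ g s) = ∑ b, D.μ g a b • X.X.ρ g (X.out c b s) :=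
  twRep_apply D.μ X.X g s.1 a

lemma faMap_ins {X Y : Gob D} {f : X.X.V →ₗ[k] Y.X.V} (hf : IsMor X Y f) (c : k) (a : ι)
    (v : X.X.V) : faMap hf c (X.ins c a v) = Y.ins c a (f v) := by
  apply Subtype.ext
  change f.compLeft ι (prj X.x c _) = prj Y.x c _
  rw [prj_natural _ hf.x]
  simp only [LinearMap.single_apply, compLeft_single]

/-- Lifting a map between tensor products through an eigenspace functor. -/
noncomputable def liftF (T : Obj k G) (A B : Gob D) (c : k)
    (r : (T.tensor B.X).V →ₗ[k] (T.tensor A.X).V) :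
    (T.tensor (B.Fa c).X).V →ₗ[k] (T.tensor (A.Fa c).X).V :=
  ∑ a, (A.ins c a).lTensor T.V ∘ₗ r ∘ₗ (B.out c a).lTensor T.V

lemma isHom_liftF {T : Obj k G} {A B : Gob D} (c : k)
    {r : (T.tensor B.X).V →ₗ[k] (T.tensor A.X).V} (hr : IsHom (T.tensor B.X) (T.tensor A.X) r) :
    IsHom (T.tensor (B.Fa c).X) (T.tensor (A.Fa c).X) (liftF T A B c r) := by
  refine isHom_tensor fun g t s => ?_
  have h1 : ∀ (b : ι) (z : (T.tensor A.X).V), (T.tensor (A.Fa c).X).ρ g
      ((A.ins c b).lTensor T.V z) =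
      ∑ a, D.μ g a b • (A.ins c a).lTensor T.V ((T.tensor A.X).ρ g z) := fun b z => by
    induction z using TensorProduct.induction_on with
    | zero => simp
    | tmul t v =>
      change T.ρ g t ⊗ₜ[k] (A.Fa c).X.ρ g (A.ins c b v) = _
      rw [ρ_ins, tmul_sum]
      simp only [tmul_smul]
      rfl
    | add x y hx hy => simp only [map_add, hx, hy, smul_add, Finset.sum_add_distrib]
  simp only [liftF, LinearMap.sum_apply, LinearMap.comp_apply, LinearMap.lTensor_tmul, map_sum, h1]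
  rw [Finset.sum_comm]
  refine Finset.sum_congr rfl fun b _ => ?_
  rw [out_ρ, tmul_sum, map_sum, map_sum]
  refine Finset.sum_congr rfl fun a _ => ?_
  rw [← hr, tmul_smul, map_smul, map_smul]; rfl

/-- Split monomorphism after tensoring. -/
def SMono (T : Obj k G) {A B : Gob D} (f : Mor A B) : Prop :=
  ∃ r, IsHom (T.tensor B.X) (T.tensor A.X) r ∧ ∀ v, r (f.1.lTensor T.V v) = v

/-- Split epimorphism after tensoring. -/
def SEpi (T : Obj k G) {A B : Gob D} (f : Mor A B) : Prop :=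
  ∃ r, IsHom (T.tensor B.X) (T.tensor A.X) r ∧ ∀ v, f.1.lTensor T.V (r v) = v

lemma sum_lTensor (T : Obj k G) (A : Gob D) (c : k) (v : (T.tensor (A.Fa c).X).V) :
    ∑ a, (A.ins c a).lTensor T.V ((A.out c a).lTensor T.V v) = v := by
  induction v using TensorProduct.induction_on with
  | zero => simp
  | tmul t v =>
    simp only [LinearMap.lTensor_tmul, ← tmul_sum]
    exact congrArg _ (sum_ins_out A c v)
  | add x y hx hy => simp only [map_add, hx, hy, Finset.sum_add_distrib]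

lemma SMono.fa {T : Obj k G} {A B : Gob D} {f : Mor A B} (h : SMono T f) (c : k) :
    SMono T (faM f c) := by
  obtain ⟨r, hr, e⟩ := h
  refine ⟨_, isHom_liftF c hr, fun v => ?_⟩
  rw [← sum_lTensor T A c v, liftF, LinearMap.sum_apply, sum_lTensor]
  conv_rhs => rw [← sum_lTensor T A c v]
  refine Finset.sum_congr rfl fun a _ => ?_
  rw [← e ((A.out c a).lTensor T.V v)]
  simp only [LinearMap.comp_apply, ← LinearMap.lTensor_comp_apply]
  rfl

lemma SEpi.fa {T : Obj k G} {A B : Gob D} {f : Mor A B} (h : SEpi T f) (c : k) :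
    SEpi T (faM f c) := by
  obtain ⟨r, hr, e⟩ := h
  refine ⟨_, isHom_liftF c hr, fun v => ?_⟩
  rw [liftF, LinearMap.sum_apply, map_sum]
  conv_rhs => rw [← sum_lTensor T B c v]
  refine Finset.sum_congr rfl fun a _ => ?_
  rw [← e ((B.out c a).lTensor T.V v)]
  simp only [LinearMap.comp_apply, e]
  rw [← LinearMap.lTensor_comp_apply]
  have : (faM f c).1 ∘ₗ A.ins c a = B.ins c a ∘ₗ f.1 := LinearMap.ext (faMap_ins f.2 c a)
  rw [this, LinearMap.lTensor_comp_apply, e]

lemma SMono.ff {T : Obj k G} {A B : Gob D} {f : Mor A B} (h : SMono T f) (r : ℕ → k) (j : ℕ) :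
    SMono T (ffM r j f) := by
  induction j with
  | zero => exact h
  | succ j ih => exact ih.fa _

lemma SEpi.ff {T : Obj k G} {A B : Gob D} {f : Mor A B} (h : SEpi T f) (r : ℕ → k) (j : ℕ) :
    SEpi T (ffM r j f) := by
  induction j with
  | zero => exact h
  | succ j ih => exact ih.fa _

lemma exists_eta (X : Gob D) (c : k) : ∃ η : Mor X ((X.Fa c).Ea c),
    ∀ v a, (X.Fa c).op.out _ a (η.1 v) = X.ins c a v := by
  have hm : ∀ v, (prj X.xt c ∘ₗ cev) v ∈ LinearMap.range (X.j1 c c) := fun v => by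
    rw [range_j1, sub_self]
    refine ⟨prj_mem _ _ _, Gen_natural (T := X.xt - X.yy) (prj X.xt c) (fun w =>
      (prj_natural _ (LinearMap.congr_fun X.comm_A_x.eq) c w).symm) (mem_Gen.2 ⟨1, ?_⟩)⟩
    simpa using X.A_cev v
  let η := (LinearEquiv.ofInjective _ (X.j1_inj c c)).symm.toLinearMap ∘ₗ
    LinearMap.codRestrict _ _ hm
  have hη : ∀ v, X.j1 c c (η v) = prj X.xt c (cev (k := k) v) := fun v =>
    congrArg Subtype.val ((LinearEquiv.ofInjective _ (X.j1_inj c c)).apply_symm_apply _)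
  refine ⟨⟨η, fun g v => X.j1_inj c c ?_, fun a b v => X.j1_inj c c ?_⟩, fun v a => ?_⟩
  · rw [(X.isMor_j1 c c).1, hη, hη, X.isMor_cev.1]
    exact (prj_natural _ (fun w => (X.isMor_x.E.1 g w).symm) c _).symm
  · rw [(X.isMor_j1 c c).2, hη, hη, X.isMor_cev.2]
    exact (prj_natural _ (fun w => (X.isMor_x.E.2 a b w).symm) c _).symm
  · apply Subtype.ext
    exact (congrFun (hη v) a).trans (prj_natural (T := X.xt) (T' := X.x)
      (LinearMap.proj (R := k) (φ := fun _ : ι => ι → X.X.V) a) (fun _ => rfl) c _)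

/-- The unit. -/
noncomputable def eta (X : Gob D) (c : k) : Mor X ((X.Fa c).Ea c) := (X.exists_eta c).choose

lemma eta_spec (X : Gob D) (c : k) (v : X.X.V) (a : ι) :
    (X.Fa c).op.out _ a ((X.eta c).1 v) = X.ins c a v := (X.exists_eta c).choose_spec v a

/-- The counit. -/
noncomputable def eps (X : Gob D) (c : k) : Mor ((X.Fa c).Ea c) X :=
  ⟨evl ∘ₗ X.j1 c c, X.isMor_evl.comp (X.isMor_j1 c c)⟩

lemma eps_apply (X : Gob D) (c : k) (w : ((X.Fa c).Ea c).X.V) :
    (X.eps c).1 w = ∑ a, X.out c a ((X.Fa c).op.out _ a w) := evl_apply _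

lemma eps_ins (X : Gob D) (c : k) (a : ι) (s : (X.Fa c).X.V) :
    (X.eps c).1 ((X.Fa c).op.ins _ a s) = X.out c a s := by
  let w : ι → ι → X.X.V := Pi.single a s.1
  have h1 : X.j1 c c ((X.Fa c).op.ins _ a s) = prj X.F.op.x (-c - Fintype.card ι) w := by
    change (Gen X.x c).subtype.compLeft ι (prj _ _ _) = _
    rw [prj_natural _ (X.isMor_Fa c).op.x]
    simp only [LinearMap.single_apply, compLeft_single]
    rfl
  have hw : w ∈ Gen X.xt c := mem_Gen_compLeft.2 fun i => by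
    by_cases h : i = a
    · subst h; simp [w]
    · simp [w, h]
  have cx : ∀ v, X.xt (X.F.op.x v) = X.F.op.x (X.xt v) := X.isMor_x.op.x
  have cA : ∀ v, (X.xt - X.yy) (X.F.op.x v) = X.F.op.x ((X.xt - X.yy) v) := fun v => by
    simp [cx]
  set u := w - prj X.F.op.x (-c - Fintype.card ι) w with hu
  have u1 : u ∈ Gen X.xt c := Submodule.sub_mem _ hw
    (Gen_natural _ (fun v => (prj_natural _ cx _ v).symm) hw)
  have u2 : prj (X.xt - X.yy) 0 u = 0 := by
    have a1 : prj (X.xt - X.yy) 0 u ∈ Gen X.xt c ⊓ Gen (X.xt - X.yy) (c - c) := by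
      rw [sub_self]
      exact ⟨Gen_natural _ (fun v => (prj_natural _
        (LinearMap.congr_fun X.comm_A_x.symm.eq) _ v).symm) u1, prj_mem _ _ _⟩
    rw [← Gen_inf_sub X.comm_xy, Gen_neg] at a1
    have a2 : prj (X.xt - X.yy) 0 u ∈ Cmp X.F.op.x (-c - Fintype.card ι) :=
      Cmp_natural _ (fun v => (prj_natural _ (fun v => (cA v).symm) _ v).symm) (sub_prj_mem _ _ _)
    exact Submodule.disjoint_def.1 (isCompl_Gen _ _).disjoint _ a1.2 a2
  have u3 : evl (k := k) u = 0 := by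
    obtain ⟨h, h0, h1⟩ := Cmp_natural (T := X.xt - X.yy) (T' := 0) evl X.evl_A
      (prj_eq_zero_iff.1 u2)
    rw [Polynomial.aeval_def, Polynomial.eval₂_at_zero, Module.algebraMap_end_apply,
      Polynomial.coeff_zero_eq_eval_zero] at h1
    exact (smul_eq_zero.1 h1).resolve_left h0
  change evl (k := k) (X.j1 c c _) = _
  rw [h1, hu, map_sub, sub_eq_zero] at *
  rw [← u3, evl_apply, Finset.sum_eq_single a]
  · simp [w, out]
  · intro b _ hb; simp [w, hb]
  · simp

lemma trace_eps_eta (X : Gob D) (c : k) (φ : Mor (X.Fa c) (X.Fa c)) :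
    LinearMap.trace k _ ((X.eps c).comp ((eaM φ c).comp (X.eta c))).1 =
      LinearMap.trace k _ φ.1 := by
  have : ((X.eps c).comp ((eaM φ c).comp (X.eta c))).1 = ∑ a, X.out c a ∘ₗ φ.1 ∘ₗ X.ins c a := by
    refine LinearMap.ext fun v => ?_
    change (X.eps c).1 _ = _
    rw [eps_apply, LinearMap.sum_apply]
    refine Finset.sum_congr rfl fun a _ => ?_
    rw [LinearMap.comp_apply, LinearMap.comp_apply, ← eta_spec]
    rfl
  rw [this, map_sum]
  simp only [LinearMap.trace_comp_comm' _ (X.out c _), ← map_sum]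
  congr 1
  refine LinearMap.ext fun v => ?_
  simp only [LinearMap.sum_apply, LinearMap.comp_apply, ← map_sum]
  exact congrArg _ (sum_ins_out X c v)

/-- Biadjunction data evaluated at the unit object. -/
structure Adj (S : Gob D) (Ef : Gob D → Gob D)
    (eM : ∀ {X Y : Gob D}, Mor X Y → Mor (Ef X) (Ef Y)) where
  comp : ∀ {X Y Z : Gob D} (f : Mor Y Z) (g : Mor X Y), eM (f.comp g) = (eM f).comp (eM g)
  iot : Mor (unit D) (Ef S)
  pii : Mor (Ef S) (unit D)
  tr : ∀ (φ : Mor S S) (c : k), pii.1 ((eM φ).1 (iot.1 c)) = c * LinearMap.trace k _ φ.1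
  rho : ∀ Z : Gob D, S.X.V →ₗ[k] (Ef Z).X.V →ₗ[k] Z.X.V
  rho_eqv : ∀ g Z s w, rho Z (S.X.ρ g s) ((Ef Z).X.ρ g w) = Z.X.ρ g (rho Z s w)
  rho_nat : ∀ {Z Z' : Gob D} (f : Mor Z Z') s w, rho Z' s ((eM f).1 w) = f.1 (rho Z s w)
  rho_iot : ∀ s (c : k), rho S s (iot.1 c) = c • s
  lam : ∀ Z : Gob D, Z.X.V →ₗ[k] S.X.V ⊗[k] (Ef Z).X.V
  lam_eqv : ∀ g Z z, lam Z (Z.X.ρ g z) = (S.X.tensor (Ef Z).X).ρ g (lam Z z)
  lam_nat : ∀ {Z Z' : Gob D} (f : Mor Z Z') z, lam Z' (f.1 z) = (eM f).1.lTensor _ (lam Z z)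
  pii_lam : ∀ s, pii.1.lTensor _ (lam S s) = s ⊗ₜ[k] (1 : k)

/-- The trivial data. -/
noncomputable def Adj.zero : Adj (unit D) (fun Z => Z) (fun f => f) where
  comp _ _ := rfl
  iot := ⟨_, IsMor.id _⟩
  pii := ⟨_, IsMor.id _⟩
  tr φ c := by
    have : φ.1 = φ.1 1 • LinearMap.id := by ext; simp
    rw [this]; simp [mul_comm]
  rho Z := LinearMap.lsmul k Z.X.V
  rho_eqv g Z s w := by simp
  rho_nat f s w := by simp
  rho_iot s c := by simp [mul_comm]
  lam Z := TensorProduct.mk k k Z.X.V 1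
  lam_eqv _ _ _ := rfl
  lam_nat _ _ := rfl
  pii_lam s := (TensorProduct.lid k k).injective (by simp)

/-- The inductive step. -/
noncomputable def Adj.step {S : Gob D} {Ef : Gob D → Gob D}
    {eM : ∀ {X Y : Gob D}, Mor X Y → Mor (Ef X) (Ef Y)} (A : Adj S Ef eM) (c : k) :
    Adj (S.Fa c) (fun Z => Ef (Z.Ea c)) (fun f => eM (eaM f c)) where
  comp f g := A.comp (eaM f c) (eaM g c)
  iot := (eM (S.eta c)).comp A.iot
  pii := A.pii.comp (eM (S.eps c))
  tr φ t := by
    rw [← trace_eps_eta, ← A.tr, A.comp, A.comp]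
    rfl
  rho Z := ∑ a, (A.rho (Z.Ea c) ∘ₗ S.out c a).compr₂ (Z.op.out _ a)
  rho_eqv g Z s w := by
    have h3 : ∀ a z, Z.op.out _ a ((Z.Ea c).X.ρ g z) = _ := fun a z => out_ρ Z.op _ a g z
    simp only [LinearMap.sum_apply, LinearMap.compr₂_apply, LinearMap.comp_apply, map_sum]
    have h1 : ∀ a, S.out c a ((S.Fa c).X.ρ g s) = _ := fun a => out_ρ _ _ a g s
    simp only [h1, map_sum, map_smul, LinearMap.sum_apply, LinearMap.smul_apply, A.rho_eqv, h3,
      Finset.smul_sum, smul_smul]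
    rw [Finset.sum_comm]
    refine Finset.sum_congr rfl fun b _ => ?_
    rw [Finset.sum_comm]
    simp only [← Finset.sum_smul, mul_comm (D.μ g _ b), D.sum_mul]
    simp
  rho_nat f s w := by
    simp only [LinearMap.sum_apply, LinearMap.compr₂_apply, LinearMap.comp_apply, map_sum,
      A.rho_nat]
    rfl
  rho_iot s t := by
    simp only [LinearMap.sum_apply, LinearMap.compr₂_apply, LinearMap.comp_apply, Mor.comp,
      A.rho_nat, A.rho_iot, eta_spec, map_smul, ← Finset.smul_sum]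
    exact congrArg (t • ·) ((Finset.sum_congr rfl fun a _ => eta_spec _ _ _ a).trans
      (sum_ins_out _ _ s))
  lam Z := ∑ a, (S.ins c a).rTensor _ ∘ₗ A.lam (Z.Ea c) ∘ₗ Z.op.ins _ a
  lam_eqv g Z z := by
    have h1 : ∀ (b : ι) (t : S.X.V ⊗[k] (Ef (Z.Ea c)).X.V),
        ((S.Fa c).X.tensor (Ef (Z.Ea c)).X).ρ g ((S.ins c b).rTensor _ t) = ∑ a, D.μ g a b •
        (S.ins c a).rTensor _ ((S.X.tensor (Ef (Z.Ea c)).X).ρ g t) := fun b t => by
      induction t using TensorProduct.induction_on with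
      | zero => simp
      | tmul s w =>
        change (S.Fa c).X.ρ g (S.ins c b s) ⊗ₜ[k] (Ef (Z.Ea c)).X.ρ g w = _
        rw [ρ_ins, sum_tmul]
        simp only [← smul_tmul']
        rfl
      | add x y hx hy => simp only [map_add, smul_add, Finset.sum_add_distrib, hx, hy]
    have h3 : ∀ b z, (Z.Ea c).X.ρ g (Z.op.ins _ b z) = _ := fun b z => ρ_ins Z.op _ b g z
    simp only [LinearMap.sum_apply, LinearMap.comp_apply, map_sum]
    simp only [h1, ← A.lam_eqv, h3, map_sum, map_smul, Finset.smul_sum, smul_smul]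
    conv_rhs => rw [Finset.sum_comm]
    refine Finset.sum_congr rfl fun a _ => ?_
    rw [Finset.sum_comm]
    simp only [← Finset.sum_smul, mul_comm (D.μ g a _), D.sum_mul']
    simp
  lam_nat f z := by
    simp only [LinearMap.sum_apply, LinearMap.comp_apply, map_sum]
    refine Finset.sum_congr rfl fun a _ => ?_
    rw [← faMap_ins f.2.op]
    refine (congrArg _ (A.lam_nat (eaM f c) _)).trans ?_
    rw [← LinearMap.comp_apply, LinearMap.rTensor_comp_lTensor]
    exact (LinearMap.congr_fun (LinearMap.lTensor_comp_rTensor _ _ _) _).symm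
  pii_lam s := by
    simp only [LinearMap.sum_apply, LinearMap.comp_apply, map_sum]
    conv_rhs => rw [← sum_ins_out S c s, sum_tmul]
    refine Finset.sum_congr rfl fun a _ => ?_
    have h1 := A.lam_nat (S.eps c) ((S.Fa c).op.ins _ a s)
    rw [eps_ins] at h1
    have h2 := A.pii_lam (S.out c a s)
    rw [h1, ← LinearMap.lTensor_comp_apply] at h2
    have h3 := congrArg ((S.ins c a).rTensor _) h2
    rw [← LinearMap.comp_apply, LinearMap.rTensor_comp_lTensor] at h3
    refine Eq.trans ?_ h3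
    exact LinearMap.congr_fun (LinearMap.lTensor_comp_rTensor _ _ _) _

section

variable {S : Gob D} {Ef : Gob D → Gob D} {eM : ∀ {X Y : Gob D}, Mor X Y → Mor (Ef X) (Ef Y)}
  (A : Adj S Ef eM)

lemma Adj.smono : SMono S.X A.iot := by
  refine ⟨(TensorProduct.rid k _).symm.toLinearMap ∘ₗ TensorProduct.lift (A.rho _),
    isHom_tensor fun g s w => ?_, fun v => ?_⟩
  · simp only [LinearMap.comp_apply, TensorProduct.lift.tmul, A.rho_eqv]
    rfl
  · induction v using TensorProduct.induction_on with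
    | zero => simp
    | tmul s c =>
      simp only [LinearMap.comp_apply, LinearMap.lTensor_tmul, TensorProduct.lift.tmul, A.rho_iot]
      change (c • s) ⊗ₜ[k] (1 : k) = s ⊗ₜ[k] (c : k)
      rw [smul_tmul, smul_eq_mul, mul_one]
    | add x y hx hy => simp only [map_add, hx, hy]

lemma Adj.sepi : SEpi S.X A.pii := by
  refine ⟨A.lam _ ∘ₗ (TensorProduct.rid k _).toLinearMap,
    isHom_tensor fun g s c => ?_, fun v => ?_⟩
  · change A.lam _ ((c : k) • S.X.ρ g s) = _
    rw [← map_smul, A.lam_eqv]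
    rfl
  · induction v using TensorProduct.induction_on with
    | zero => simp
    | tmul s c =>
      change A.pii.1.lTensor _ (A.lam _ ((c : k) • s)) = _
      rw [A.pii_lam, smul_tmul, smul_eq_mul, mul_one]
    | add x y hx hy => simp only [map_add, hx, hy]

end

variable (D) (r : ℕ → k)

/-- The iterated data. -/
noncomputable def adj : ∀ j : ℕ, Adj (FF r j (unit D)) (EE r j) (eeM r j)
  | 0 => Adj.zero
  | j + 1 => (adj j).step (r j)

/-- The homology object. -/
theorem exists_twist (j i : ℕ) (h0 : ((FF r j (unit D)).X.dim : k) = 0) : ∃ N : Cl k G,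
    (FF r j (unit D)).X.cl * (FF r i (EE r j (FF r j (unit D)))).X.cl =
      (FF r j (unit D)).X.cl * ((FF r i (unit D)).X.cl + (FF r i (unit D)).X.cl + N) := by
  obtain ⟨ρ, hρ, e⟩ := (adj D r j).smono.ff r i
  obtain ⟨σ, hσ, e'⟩ := (adj D r j).sepi.ff r i
  refine exists_homology (ffM r i (adj D r j).iot).2.1 (ffM r i (adj D r j).pii).2.1
    (ffM_zero r i _ _ fun c => ?_) hρ e hσ e'
  have := (adj D r j).tr ⟨_, IsMor.id _⟩ c
  rw [eeM_id, LinearMap.trace_id] at this
  rw [this]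
  change (c : k) * ((FF r j (unit D)).X.dim : k) = 0
  rw [h0, mul_zero]

end Gob

end Pool.Agent.Lib.MP_13b5a2_al
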